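import Mathlib

/-!
Real quadratic fields in which all primes below `√D / 2`, with at most one exception, are inert:
definitions.
-/

namespace OEX

/-- the discriminant of `ℚ(√d)`, for squarefree `d > 1` -/
def disc (d : ℕ) : ℕ := if d % 4 = 1 then d else 4 * d

/-- `x² ≡ D` modulo `4 r` has a solution (for a prime `r`: `r` is not inert) -/
def Sol (D : ℤ) (r : ℕ) : Prop := ∃ x : ℤ, (4 * (r : ℤ)) ∣ x ^ 2 - D

/-- every prime `r` with `4 r² < D`, other than `p`, is inert -/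
def Hyp (D : ℤ) (p : ℕ) : Prop :=
  ∀ r : ℕ, r.Prime → 4 * (r : ℤ) ^ 2 < D → r ≠ p → ¬ Sol D r

/-- a sign -/
def Sg (l : ℤ) : Prop := l = 1 ∨ l = -1

/-- what is used of a fundamental discriminant -/
structure Fd (D : ℤ) : Prop where
  pos : 4 < D
  mod4 : D % 4 = 0 ∨ D % 4 = 1
  nsq : ∀ x : ℤ, x ^ 2 ≠ D
  odd : ∀ p : ℕ, p.Prime → p ≠ 2 → ¬ ((p : ℤ) ^ 2 ∣ D)
  two : D % 4 = 0 → (D / 4) % 4 = 2 ∨ (D / 4) % 4 = 3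

/-- the first family: `D = (q p^m + b)² + 4 l p^m`, `q b = u p - l` -/
def F1 (D : ℤ) (p : ℕ) : Prop :=
  ∃ (q b l u : ℤ) (m : ℕ), 1 ≤ m ∧ 1 ≤ q ∧ Sg l ∧ Sg u ∧ q * b = u * p - l ∧
    D = (q * (p : ℤ) ^ m + b) ^ 2 + 4 * l * (p : ℤ) ^ m

/-- the second family: `D = (p^A + s p^m - l s)² + 4 l p^m` -/
def F2 (D : ℤ) (p : ℕ) : Prop :=
  ∃ (s l : ℤ) (m A : ℕ), 1 ≤ m ∧ m + 2 ≤ A ∧ Sg s ∧ Sg l ∧
    D = ((p : ℤ) ^ A + s * (p : ℤ) ^ m - l * s) ^ 2 + 4 * l * (p : ℤ) ^ m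

/-- the third family -/
def F3 (D : ℤ) (p : ℕ) : Prop :=
  ∃ e : ℕ, 1 ≤ e ∧ (D = ((p : ℤ) ^ e) ^ 2 + 4 ∨ D = 4 * ((p : ℤ) ^ e) ^ 2 + 1)

/-- the exponential families -/
def Seq (D : ℤ) (p : ℕ) : Prop := F1 D p ∨ F2 D p ∨ F3 D p

/-- Richaud–Degert type, and every small prime is inert or a norm up to sign -/
def RDU (D : ℤ) : Prop :=
  (∃ N t : ℤ, 1 ≤ N ∧ t ∣ N ∧ D = N ^ 2 + 4 * t) ∧
  ∀ r : ℕ, r.Prime → 4 * (r : ℤ) ^ 2 < D → ¬ Sol D r ∨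
    ∃ x y : ℤ, x ^ 2 - D * y ^ 2 = 4 * r ∨ x ^ 2 - D * y ^ 2 = -(4 * r)

/-- the data of the nearest number: `|N - √D| < 1`, `D = N² + 4 l p^m`, `4 p^(2m) < D` -/
structure Nr (D : ℤ) (p : ℕ) (N l : ℤ) (m : ℕ) : Prop where
  N1 : 1 ≤ N
  sg : Sg l
  lo : (N - 1) ^ 2 < D
  hi : D < (N + 1) ^ 2
  eq : D = N ^ 2 + 4 * l * (p : ℤ) ^ m
  sm : 4 * ((p : ℤ) ^ m) ^ 2 < D

/-- the data of the window of the class of `β` modulo `2 n`: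
`P ≡ β`, `D = P² + 4 v n p^j`, `4 p^(2j) < D`, `√D - 5n/4 < P < √D + n` -/
structure Wn (D : ℤ) (p : ℕ) (n β P v : ℤ) (j : ℕ) : Prop where
  P1 : 1 ≤ P
  sg : Sg v
  cl : (2 * n) ∣ P - β
  eq : D = P ^ 2 + 4 * v * n * (p : ℤ) ^ j
  sm : 4 * ((p : ℤ) ^ j) ^ 2 < D
  hi : (P - n) ^ 2 < D
  lo : 16 * D < (4 * P + 5 * n) ^ 2

/-- the list of the `D` -/
def LD : List ℕ := [5, 8, 12, 13, 17, 21, 24, 28, 29, 33, 37, 41, 44, 53, 56, 61, 65, 69, 77, 85,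
  89, 92, 93, 101, 113, 133, 137, 149, 152, 157, 173, 188, 197, 213, 237, 248, 257, 269, 293, 317,
  332, 341, 353, 377, 397, 413, 437, 453, 461, 557, 593, 629, 668, 677, 717, 733, 773, 853, 908,
  941, 1077, 1097, 1133, 1217, 1253, 1333, 1553, 1592, 1877, 2273, 2917, 3053, 5297, 7213]

end OEX
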