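import Pool.Agent.OEX.St

/-!
# N: the nearest number
-/

namespace OEX

/-- the integer part of the square root -/
theorem isqrt_spec {D : ℤ} (h : 0 < D) : ∃ s : ℤ, 0 ≤ s ∧ s ^ 2 ≤ D ∧ D < (s + 1) ^ 2 := by
  refine ⟨(Nat.sqrt D.toNat : ℤ), Int.natCast_nonneg _, ?_, ?_⟩
  · have h1 := Nat.sqrt_le' D.toNat
    have h2 : ((D.toNat : ℕ) : ℤ) = D := Int.toNat_of_nonneg h.le
    have h3 : ((Nat.sqrt D.toNat : ℕ) : ℤ) ^ 2 ≤ ((D.toNat : ℕ) : ℤ) := by exact_mod_cast h1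
    rwa [h2] at h3
  · have h1 := Nat.lt_succ_sqrt' D.toNat
    have h2 : ((D.toNat : ℕ) : ℤ) = D := Int.toNat_of_nonneg h.le
    have h3 : ((D.toNat : ℕ) : ℤ) < ((Nat.sqrt D.toNat : ℕ) + 1 : ℤ) ^ 2 := by exact_mod_cast h1
    rwa [h2] at h3

theorem sq_mod4 (x : ℤ) : x ^ 2 % 4 = 0 ∧ x % 2 = 0 ∨ x ^ 2 % 4 = 1 ∧ x % 2 = 1 := by
  rcases Int.even_or_odd' x with ⟨k, rfl | rfl⟩
  · left
    constructor
    · ring_nf
      omega
    · omega
  · right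
    constructor
    · ring_nf
      omega
    · omega

theorem t_N : S_N := by
  intro hV D p hF hH
  have hpos := hF.pos
  obtain ⟨s, hs0, hs1, hs2⟩ := isqrt_spec (D := D) (by linarith)
  have hne := hF.nsq s
  have hs3 : s ^ 2 < D := lt_of_le_of_ne hs1 hne
  have hs4 : 2 ≤ s := by
    by_contra h
    push Not at h
    nlinarith
  have hm4 := hF.mod4
  -- the general step
  have key : ∀ (N l : ℤ) (c : ℕ), 1 ≤ N → Sg l → (N - 1) ^ 2 < D → D < (N + 1) ^ 2 →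
      D = N ^ 2 + 4 * l * c → 1 ≤ c → 2 * (c : ℤ) ≤ s →
      ∃ (N l : ℤ) (m : ℕ), Nr D p N l m ∧
        (m = 0 ∨ (1 ≤ m ∧ p.Prime ∧ 4 * (p : ℤ) ^ 2 < D ∧ Sol D p)) := by
    intro N l c hN hl hlo hhi heq hc hcs
    have hc4 : 4 * (c : ℤ) ^ 2 < D := by nlinarith
    have hdvd : (4 * (c : ℤ)) ∣ N ^ 2 - D := by
      rw [heq]
      exact ⟨-l, by ring⟩
    rcases hV D p c N hH hc hc4 hdvd with h | ⟨hp, hp4, hsol, j, hj, hcj⟩
    · refine ⟨N, l, 0, ⟨hN, hl, hlo, hhi, ?_, ?_⟩, Or.inl rfl⟩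
      · rw [heq, h]
        push_cast
        ring
      · rw [pow_zero]
        linarith
    · have hcj' : (c : ℤ) = (p : ℤ) ^ j := by exact_mod_cast hcj
      refine ⟨N, l, j, ⟨hN, hl, hlo, hhi, ?_, ?_⟩, Or.inr ⟨hj, hp, hp4, hsol⟩⟩
      · rw [← hcj', heq]
      · rw [← hcj']
        exact hc4
  have hsq := sq_mod4 s
  have hsq' := sq_mod4 (s + 1)
  by_cases hpar : s % 2 = D % 2
  · obtain ⟨c, hc⟩ : ∃ c : ℤ, D - s ^ 2 = 4 * c := by
      refine ⟨(D - s ^ 2) / 4, ?_⟩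
      omega
    have hc1 : 1 ≤ c := by omega
    refine key s 1 c.toNat (by linarith) (Or.inl rfl) (by nlinarith) hs2 ?_ (by omega) ?_
    · have : ((c.toNat : ℕ) : ℤ) = c := Int.toNat_of_nonneg (by linarith)
      rw [this]
      linarith
    · have : ((c.toNat : ℕ) : ℤ) = c := Int.toNat_of_nonneg (by linarith)
      rw [this]
      have h1 : (s + 1) ^ 2 = s ^ 2 + 2 * s + 1 := by ring
      omega
  · obtain ⟨c, hc⟩ : ∃ c : ℤ, (s + 1) ^ 2 - D = 4 * c := by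
      refine ⟨((s + 1) ^ 2 - D) / 4, ?_⟩
      omega
    have hc1 : 1 ≤ c := by omega
    refine key (s + 1) (-1) c.toNat (by linarith) (Or.inr rfl) (by simpa using hs3)
      (by nlinarith) ?_ (by omega) ?_
    · have : ((c.toNat : ℕ) : ℤ) = c := Int.toNat_of_nonneg (by linarith)
      rw [this]
      linarith
    · have : ((c.toNat : ℕ) : ℤ) = c := Int.toNat_of_nonneg (by linarith)
      rw [this]
      have h1 : (s + 1) ^ 2 = s ^ 2 + 2 * s + 1 := by ring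
      omega

end OEX
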