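import Pool.Agent.OEX.St
import Pool.Agent.OEX.N

/-!
# W: the window
-/

namespace OEX

namespace W

/-- the first value is small when `D ≤ (P + n)²` -/
theorem small1 {n P D c : ℤ} (hn : 1 ≤ n) (hP : 1 ≤ P) (hc : D = P ^ 2 + 4 * n * c)
    (hPD : P ^ 2 < D) (h : D ≤ (P + n) ^ 2) : 4 * c ^ 2 < D := by
  have h1 : (D - P ^ 2) ^ 2 < 4 * n ^ 2 * D := by
    have h0 : (P + n) ^ 2 = P ^ 2 + (2 * n * P + n ^ 2) := by ring
    have h2 : D - P ^ 2 ≤ 2 * n * P + n ^ 2 := by linarith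
    have h4 : 0 < D - P ^ 2 := by linarith
    have h6 : 0 < n ^ 2 * P ^ 2 := by positivity
    have h7 : 4 * n ^ 2 * D = 4 * n ^ 2 * (D - P ^ 2) + 4 * (n ^ 2 * P ^ 2) := by ring
    have h8 : (D - P ^ 2) ^ 2 = (D - P ^ 2) * (D - P ^ 2 - 4 * n ^ 2) +
      4 * n ^ 2 * (D - P ^ 2) := by ring
    by_cases h3 : D - P ^ 2 ≤ 4 * n ^ 2
    · have h9 : (D - P ^ 2) * (D - P ^ 2 - 4 * n ^ 2) ≤ 0 :=
        mul_nonpos_of_nonneg_of_nonpos h4.le (by linarith)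
      linarith
    · push Not at h3
      have h5 : (D - P ^ 2) * (D - P ^ 2 - 4 * n ^ 2) ≤
          (2 * n * P + n ^ 2) * (2 * n * P + n ^ 2 - 4 * n ^ 2) :=
        mul_le_mul h2 (by linarith) (by linarith) (by positivity)
      have h9 : (2 * n * P + n ^ 2) * (2 * n * P + n ^ 2 - 4 * n ^ 2) =
        4 * (n ^ 2 * P ^ 2) - 4 * (n ^ 3 * P) - 3 * n ^ 4 := by ring
      have h10 : 0 < n ^ 3 * P := by positivity
      have h11 : 0 < n ^ 4 := by positivity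
      linarith
  have h2 : (D - P ^ 2) ^ 2 = 4 * n ^ 2 * (4 * c ^ 2) := by
    rw [hc]
    ring
  rw [h2] at h1
  exact lt_of_mul_lt_mul_left h1 (by positivity)

theorem small2 {n P D c : ℤ} (hc : 1 ≤ P + n - c)
    (hcase : (P + n) ^ 2 < D) (h2 : D ≤ 4 * (P + n - c) ^ 2) : 2 * c < P + n := by
  by_contra h
  push Not at h
  have h4 : 2 * (P + n - c) ≤ P + n := by linarith
  have h5 : (2 * (P + n - c)) ^ 2 ≤ (P + n) ^ 2 := pow_le_pow_left₀ (by linarith) h4 2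
  have h6 : (2 * (P + n - c)) ^ 2 = 4 * (P + n - c) ^ 2 := by ring
  linarith

theorem lo2 {n P D c : ℤ} (hn : 1 ≤ n) (hP : 1 ≤ P)
    (hc2 : (P + 2 * n) ^ 2 - D = 4 * n * (P + n - c)) (hD : D < (P + 2 * n) ^ 2)
    (h2 : D ≤ 4 * (P + n - c) ^ 2) : 16 * D < (4 * P + 5 * n) ^ 2 := by
  by_contra h
  push Not at h
  have h3 : (n * (4 * P + 5 * n)) ^ 2 ≤ (2 * ((P + 2 * n) ^ 2 - D)) ^ 2 := by
    have h4 : (2 * ((P + 2 * n) ^ 2 - D)) ^ 2 = 16 * n ^ 2 * (4 * (P + n - c) ^ 2) := by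
      rw [hc2]
      ring
    rw [h4]
    have h5 : 16 * n ^ 2 * D ≤ 16 * n ^ 2 * (4 * (P + n - c) ^ 2) :=
      mul_le_mul_of_nonneg_left h2 (by positivity)
    have h6 : n ^ 2 * (4 * P + 5 * n) ^ 2 ≤ n ^ 2 * (16 * D) :=
      mul_le_mul_of_nonneg_left h (by positivity)
    calc (n * (4 * P + 5 * n)) ^ 2 = n ^ 2 * (4 * P + 5 * n) ^ 2 := by ring
      _ ≤ n ^ 2 * (16 * D) := h6
      _ = 16 * n ^ 2 * D := by ring
      _ ≤ _ := h5
  have h4 : n * (4 * P + 5 * n) ≤ 2 * ((P + 2 * n) ^ 2 - D) :=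
    (abs_le_of_sq_le_sq' h3 (by linarith)).2
  have h5 : 16 * ((P + 2 * n) ^ 2 - D) ≤ 24 * (n * P) + 39 * n ^ 2 := by
    have h6 : 16 * ((P + 2 * n) ^ 2 - D) =
        24 * (n * P) + 39 * n ^ 2 + ((4 * P + 5 * n) ^ 2 - 16 * D) := by ring
    linarith
  have h6 : n * (4 * P + 5 * n) = 4 * (n * P) + 5 * n ^ 2 := by ring
  have h7 : 0 < n * P := mul_pos (by linarith) (by linarith)
  have h8 : 0 < n ^ 2 := by positivity
  rw [h6] at h4
  linarith

theorem ls {a b : ℤ} (ha : 0 ≤ a) (h : a < b) : a ^ 2 < b ^ 2 :=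
  pow_lt_pow_left₀ h ha two_ne_zero

theorem les {a b : ℤ} (ha : 0 ≤ a) (h : a ≤ b) : a ^ 2 ≤ b ^ 2 := pow_le_pow_left₀ ha h 2

end W

open W in
theorem t_W : S_W := by
  intro hV D p n β hF hH hn hnD hβ
  have hpos := hF.pos
  obtain ⟨s, hs0, hs1, hs2⟩ := isqrt_spec (D := D) (by linarith)
  have hn1 : (1 : ℤ) ≤ n := by exact_mod_cast hn
  -- `2 n ≤ s`
  have hns : 2 * (n : ℤ) ≤ s := by
    have h0 : (2 * (n : ℤ)) ^ 2 = 4 * (n : ℤ) ^ 2 := by ring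
    have h1 : (2 * (n : ℤ)) ^ 2 < (s + 1) ^ 2 := by linarith
    have h2 := lt_of_pow_lt_pow_left₀ 2 (by linarith) h1
    linarith
  -- the number below the root
  obtain ⟨P, hP1, hP2, k, hk⟩ : ∃ P : ℤ, P ≤ s ∧ s < P + 2 * n ∧ ∃ k : ℤ, P = β + 2 * n * k := by
    refine ⟨s - (s - β) % (2 * n), ?_, ?_, (s - β) / (2 * n), ?_⟩
    · have := Int.emod_nonneg (s - β) (b := 2 * (n : ℤ)) (by linarith)
      linarith
    · have := Int.emod_lt_of_pos (s - β) (b := 2 * (n : ℤ)) (by linarith)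
      linarith
    · have := Int.emod_add_mul_ediv (s - β) (2 * (n : ℤ))
      linarith
  have hP0 : 1 ≤ P := by linarith
  have hPD : P ^ 2 < D := lt_of_le_of_ne ((les (by linarith) hP1).trans hs1) (hF.nsq P)
  have hPD2 : D < (P + 2 * n) ^ 2 := by
    have h1 : (s + 1) ^ 2 ≤ (P + 2 * n) ^ 2 := les (by linarith) (by linarith)
    linarith
  -- the two values
  obtain ⟨z, hz⟩ := hβ
  obtain ⟨c1, hc1⟩ : ∃ c1 : ℤ, D = P ^ 2 + 4 * n * c1 := by
    refine ⟨-z - k * β - n * k ^ 2, ?_⟩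
    rw [hk]
    linear_combination -hz
  have h4n : (0 : ℤ) < 4 * n := by linarith
  have hc1pos : 1 ≤ c1 := by
    have h1 : 0 < 4 * n * c1 := by linarith
    have h2 := Int.pos_of_mul_pos_right h1 h4n
    linarith
  have hc2 : (P + 2 * n) ^ 2 - D = 4 * n * (P + n - c1) := by
    rw [hc1]
    ring
  have hc2pos : 1 ≤ P + n - c1 := by
    have h1 : 0 < 4 * n * (P + n - c1) := by linarith
    have h2 := Int.pos_of_mul_pos_right h1 h4n
    linarith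
  -- divisibility of the classes
  have hcl1 : (2 * (n : ℤ)) ∣ P - β := ⟨k, by rw [hk]; ring⟩
  have hcl2 : (2 * (n : ℤ)) ∣ P + 2 * n - β := ⟨k + 1, by rw [hk]; ring⟩
  have hhi : (P - n) ^ 2 < D := by
    rcases le_total (P : ℤ) n with h | h
    · have h1 : (P - n) ^ 2 = (n - P) ^ 2 := by ring
      have h2 : ((n : ℤ) - P) ^ 2 ≤ n ^ 2 := les (by linarith) (by linarith)
      have h3 : (0 : ℤ) ≤ (n : ℤ) ^ 2 := by positivity
      linarith
    · have h2 : (P - n) ^ 2 ≤ P ^ 2 := les (by linarith) (by linarith)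
      linarith
  -- the values are powers
  have key : ∀ (c : ℤ) (x : ℤ), 1 ≤ c → 4 * c ^ 2 < D → (4 * c) ∣ x ^ 2 - D →
      ∃ j : ℕ, c = (p : ℤ) ^ j := by
    intro c x hc hcD hcx
    have hcc : ((c.toNat : ℕ) : ℤ) = c := Int.toNat_of_nonneg (by linarith)
    rcases hV D p c.toNat x hH (by omega) (by rw [hcc]; exact hcD) (by rw [hcc]; exact hcx)
      with h | ⟨-, -, -, j, -, hj⟩
    · refine ⟨0, ?_⟩
      rw [pow_zero, ← hcc, h]
      rfl
    · refine ⟨j, ?_⟩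
      rw [← hcc, hj]
      push_cast
      rfl
  have take1 : 4 * c1 ^ 2 < D → 16 * D < (4 * P + 5 * n) ^ 2 →
      ∃ (P v : ℤ) (j : ℕ), Wn D p n β P v j := by
    intro h1 h2
    obtain ⟨j, hj⟩ := key c1 P hc1pos h1 ⟨-n, by rw [hc1]; ring⟩
    refine ⟨P, 1, j, hP0, Or.inl rfl, hcl1, ?_, ?_, hhi, h2⟩
    · rw [← hj, hc1]
      ring
    · rw [← hj]
      exact h1
  by_cases hcase : D ≤ (P + n) ^ 2
  · refine take1 (small1 hn1 hP0 hc1 hPD hcase) ?_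
    have h3 : (4 * (P + n)) ^ 2 < (4 * P + 5 * n) ^ 2 := ls (by linarith) (by linarith)
    have h4 : (4 * (P + (n : ℤ))) ^ 2 = 16 * (P + n) ^ 2 := by ring
    linarith
  · push Not at hcase
    by_cases h2 : 4 * (P + n - c1) ^ 2 < D
    · obtain ⟨j, hj⟩ := key (P + n - c1) (P + 2 * n) hc2pos h2 ⟨n, by rw [hc2]; ring⟩
      refine ⟨P + 2 * n, -1, j, by linarith, Or.inr rfl, hcl2, ?_, ?_, ?_, ?_⟩
      · rw [← hj]
        linear_combination -hc2
      · rw [← hj]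
        exact h2
      · have : P + 2 * (n : ℤ) - n = P + n := by ring
        rw [this]
        exact hcase
      · have h3 : (4 * (P + 2 * (n : ℤ))) ^ 2 < (4 * (P + 2 * n) + 5 * n) ^ 2 :=
          ls (by linarith) (by linarith)
        have h4 : (4 * (P + 2 * (n : ℤ))) ^ 2 = 16 * (P + 2 * n) ^ 2 := by ring
        linarith
    · push Not at h2
      have h3 := small2 hc2pos hcase h2
      refine take1 ?_ (lo2 hn1 hP0 hc2 hPD2 h2)
      have h5 : (2 * c1) ^ 2 < (P + n) ^ 2 := ls (by linarith) h3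
      have h6 : (2 * c1) ^ 2 = 4 * c1 ^ 2 := by ring
      linarith

end OEX
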