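import Pool.Agent.OEX.St
import Pool.Agent.OEX.W

/-!
# S: the structure theorem, `m ≥ 1`
-/

namespace OEX

namespace S

theorem lt_of_sq {a b D : ℤ} (h1 : a ^ 2 < D) (h2 : D < b ^ 2) (hb : 0 ≤ b) : a < b :=
  lt_of_pow_lt_pow_left₀ 2 hb (h1.trans h2)

theorem sg_sq {l : ℤ} (h : Sg l) : l ^ 2 = 1 := by
  rcases h with rfl | rfl <;> norm_num

theorem sg_ne {l : ℤ} (h : Sg l) : l ≠ 0 := by
  rcases h with rfl | rfl <;> norm_num

/-- the exponent of the window is at least the first exponent -/
theorem no_small {N P l v b E M D : ℤ} (hN : 1 ≤ N) (hP : 1 ≤ P) (hl : Sg l) (hv : Sg v)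
    (hb : b ≠ 0) (hNP : N - P = 2 * b) (hE : 1 ≤ E) (hEM : E < M) (h1 : D = N ^ 2 + 4 * l * M)
    (h2 : D = P ^ 2 + 4 * v * E) (hlo : (N - 1) ^ 2 < D) (hhi : D < (N + 1) ^ 2)
    (hsm : 4 * M ^ 2 < D) : False := by
  rcases hv with rfl | rfl
  · -- `P² < D`
    have h3 : P < N + 1 := lt_of_sq (D := D) (by linarith) hhi (by linarith)
    have h4 : P ≤ N - 2 := by omega
    have h5 : P ^ 2 ≤ (N - 2) ^ 2 := W.les (by linarith) h4
    have h6 : (N - 2) ^ 2 = N ^ 2 - 4 * N + 4 := by ring
    rcases hl with rfl | rfl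
    · linarith
    · have h7 : 2 * M < N := by
        refine lt_of_sq (D := D) ?_ ?_ (by linarith)
        · have : (2 * M) ^ 2 = 4 * M ^ 2 := by ring
          linarith
        · linarith
      linarith
  · have h3 : N - 1 < P := lt_of_sq hlo (by linarith) (by linarith)
    have h4 : N + 2 ≤ P := by omega
    have h5 : (N + 2) ^ 2 ≤ P ^ 2 := W.les (by linarith) h4
    have h6 : (N + 2) ^ 2 = N ^ 2 + 4 * N + 4 := by ring
    have h8 : (N + 1) ^ 2 = N ^ 2 + 2 * N + 1 := by ring
    rcases hl with rfl | rfl
    · linarith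
    · linarith

/-- `|b| ≥ 2` is impossible -/
theorem no_b {p b s w l : ℤ} (hp : 3 ≤ p) (hl : Sg l) (hb1 : -p ≤ 2 * b)
    (hb2 : 8 * b < 5 * p + 4) (hs1 : -p ≤ 2 * s) (hs2 : 8 * s ≤ 5 * p + 1)
    (hw : s * b + l = p * w) : |w| ≤ p - 2 := by
  have h1 : |8 * s| ≤ 5 * p + 1 := abs_le.2 ⟨by linarith, hs2⟩
  have h2 : |8 * b| ≤ 5 * p + 3 := abs_le.2 ⟨by linarith, by linarith⟩
  have h3 : |8 * s| * |8 * b| ≤ (5 * p + 1) * (5 * p + 3) :=
    mul_le_mul h1 h2 (abs_nonneg _) (by linarith)
  have h4 : |l| = 1 := by rcases hl with rfl | rfl <;> norm_num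
  have h5 : 64 * (p * |w|) ≤ (5 * p + 1) * (5 * p + 3) + 64 := by
    have h6 : p * |w| = |s * b + l| := by
      rw [hw, abs_mul, abs_of_nonneg (by linarith : 0 ≤ p)]
    have h7 : |s * b + l| ≤ |s * b| + 1 := by
      rw [← h4]
      exact abs_add_le _ _
    have h8 : |8 * s| * |8 * b| = 64 * |s * b| := by
      rw [← abs_mul, show 8 * s * (8 * b) = 64 * (s * b) by ring, abs_mul]
      norm_num
    rw [h6]
    linarith
  by_contra h
  push Not at h
  have h6 : p - 1 ≤ |w| := by linarith
  have h7 : p * (p - 1) ≤ p * |w| := mul_le_mul_of_nonneg_left h6 (by linarith)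
  have h8 : 0 ≤ (p - 3) * (39 * p + 33) := mul_nonneg (by linarith) (by linarith)
  have h9 : (p - 3) * (39 * p + 33) = 39 * p ^ 2 - 84 * p - 99 := by ring
  have h10 : (5 * p + 1) * (5 * p + 3) = 25 * p ^ 2 + 20 * p + 3 := by ring
  have h11 : p * (p - 1) = p ^ 2 - p := by ring
  rw [h9] at h8
  rw [h10] at h5
  rw [h11] at h7
  linarith

end S

open S in
theorem t_S : S_S := by
  intro hV hW D p N l m hF hD hH hp hpD hpnd hm hN
  obtain ⟨hN1, hl, hNlo, hNhi, hNeq, hNsm⟩ := hN
  have hpZ : Prime (p : ℤ) := Nat.prime_iff_prime_int.1 hp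
  have hp2 : (2 : ℤ) ≤ p := by exact_mod_cast hp.two_le
  obtain ⟨m', rfl⟩ : ∃ m', m = m' + 1 := ⟨m - 1, by omega⟩
  have hpN : ¬ (p : ℤ) ∣ N := by
    intro h
    apply hpnd
    rw [hNeq]
    exact dvd_add (dvd_pow h two_ne_zero) (Dvd.dvd.mul_left (dvd_pow_self _ (by omega)) _)
  -- the first window
  obtain ⟨P, v, j, hP1, hv, ⟨c, hc⟩, hPeq, hPsm, hPhi, hPlo⟩ := hW hV D p p (-N) hF hH hp.one_le
    hpD ⟨-l * (p : ℤ) ^ m', by rw [hNeq]; ring⟩
  obtain ⟨b, hb⟩ : ∃ b, b = N - p * c := ⟨_, rfl⟩
  have hNt : N = p * c + b := by rw [hb]; ring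
  have hPt : P = p * c - b := by
    have h1 : P + N = 2 * p * c := by linarith
    linarith
  have hNP : N - P = 2 * b := by linarith
  have hbp : ¬ (p : ℤ) ∣ b := by
    intro h
    apply hpN
    rw [hNt]
    exact dvd_add (dvd_mul_right _ _) h
  have hb0 : b ≠ 0 := by
    rintro rfl
    exact hbp (dvd_zero _)
  have htb : p * c * b = v * (p : ℤ) ^ (j + 1) - l * (p : ℤ) ^ (m' + 1) := by
    have h1 : N ^ 2 - P ^ 2 = 4 * (p * c * b) := by
      rw [hNt, hPt]
      ring
    have h2 : 4 * v * p * (p : ℤ) ^ j = 4 * (v * (p : ℤ) ^ (j + 1)) := by ring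
    have h3 : 4 * l * (p : ℤ) ^ (m' + 1) = 4 * (l * (p : ℤ) ^ (m' + 1)) := by ring
    rw [h2] at hPeq
    rw [h3] at hNeq
    linarith
  have ht0 : 0 < p * c := by
    have h1 : 2 * (p * c) = N + P := by linarith
    linarith
  have hbb1 : -(p : ℤ) ≤ 2 * b := by
    have h1 : P - p < N + 1 := lt_of_sq hPhi hNhi (by linarith)
    linarith
  have hbb2 : 8 * b < 5 * p + 4 := by
    have h1 : 4 * (N - 1) < 4 * P + 5 * p := by
      refine lt_of_sq (D := 16 * D) ?_ hPlo (by linarith)
      have : (4 * (N - 1)) ^ 2 = 16 * (N - 1) ^ 2 := by ring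
      linarith
    linarith
  obtain ⟨M, hM⟩ : ∃ M : ℤ, M = (p : ℤ) ^ (m' + 1) := ⟨_, rfl⟩
  have hMp : (p : ℤ) ≤ M := by
    rw [hM, pow_succ]
    have h1 : (1 : ℤ) ≤ (p : ℤ) ^ m' := one_le_pow₀ (by linarith)
    exact le_mul_of_one_le_left (by linarith) h1
  have hM0 : 0 < M := by linarith
  have hcop : IsCoprime M b := by
    rw [hM]
    exact ((Prime.coprime_iff_not_dvd hpZ).2 hbp).pow_left
  rw [← hM] at htb hNeq hNsm
  rcases lt_trichotomy j m' with hjm | hjm | hjm
  · -- impossible
    exfalso
    refine no_small (E := (p : ℤ) ^ (j + 1)) hN1 hP1 hl hv hb0 hNP (one_le_pow₀ (by linarith)) ?_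
      hNeq ?_ hNlo hNhi hNsm
    · rw [hM]
      exact pow_lt_pow_right₀ (by linarith) (by omega)
    · rw [hPeq]
      ring
  · -- the third family
    subst hjm
    rw [← hM] at htb
    have hMt : M ∣ p * c := by
      refine hcop.dvd_of_dvd_mul_right ⟨v - l, ?_⟩
      rw [htb]
      ring
    obtain ⟨q, hq⟩ := hMt
    have hqb : q * b = v - l := by
      have h1 : M * (q * b) = M * (v - l) := by
        rw [hq] at htb
        linear_combination htb
      exact mul_left_cancel₀ hM0.ne' h1
    have hq0 : 0 < q := by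
      rw [hq] at ht0
      exact Int.pos_of_mul_pos_right ht0 hM0
    have hl2 := sg_sq hl
    have hq2 : q ≤ 2 := by
      by_contra h
      push Not at h
      have h1 : |q * b| ≤ 2 := by
        rw [hqb]
        rcases hv with rfl | rfl <;> rcases hl with rfl | rfl <;> norm_num
      rw [abs_mul, abs_of_pos hq0] at h1
      have h2 : 1 ≤ |b| := Int.one_le_abs hb0
      have h3 : q * 1 ≤ q * |b| := mul_le_mul_of_nonneg_left h2 hq0.le
      linarith
    have hvl : v = -l := by
      rcases hv with rfl | rfl <;> rcases hl with rfl | rfl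
      · exfalso
        rw [sub_self] at hqb
        rcases mul_eq_zero.1 hqb with h | h
        · linarith
        · exact hb0 h
      · norm_num
      · norm_num
      · exfalso
        rw [sub_self] at hqb
        rcases mul_eq_zero.1 hqb with h | h
        · linarith
        · exact hb0 h
    refine Or.inr (Or.inr ⟨j + 1, by omega, ?_⟩)
    rw [← hM]
    have h3 : q = 1 ∨ q = 2 := by omega
    rcases h3 with rfl | rfl
    · left
      have h4 : b = -2 * l := by linarith
      rw [hNeq, hNt, hq, h4]
      linear_combination 4 * hl2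
    · right
      have h4 : b = -l := by linarith
      rw [hNeq, hNt, hq, h4]
      linear_combination hl2
  · -- `e > m`
    obtain ⟨k, hk⟩ : ∃ k, j + 1 = m' + 1 + (k + 1) := ⟨j - m' - 1, by omega⟩
    have hpj : (p : ℤ) ^ (j + 1) = M * (p : ℤ) ^ (k + 1) := by rw [hk, pow_add, hM]
    have hMt : M ∣ p * c := by
      refine hcop.dvd_of_dvd_mul_right ⟨v * (p : ℤ) ^ (k + 1) - l, ?_⟩
      rw [htb, hpj]
      ring
    obtain ⟨q, hq⟩ := hMt
    have hqb : q * b = v * (p : ℤ) ^ (k + 1) - l := by
      have h1 : M * (q * b) = M * (v * (p : ℤ) ^ (k + 1) - l) := by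
        rw [hq, hpj] at htb
        linear_combination htb
      exact mul_left_cancel₀ hM0.ne' h1
    have hq0 : 0 < q := by
      rw [hq] at ht0
      exact Int.pos_of_mul_pos_right ht0 hM0
    have hl2 := sg_sq hl
    have hNq : N = q * M + b := by rw [hNt, hq]; ring
    by_cases hk0 : k = 0
    · -- the first family
      subst hk0
      refine Or.inl ⟨q, b, l, v, m' + 1, by omega, hq0, hl, hv, ?_, ?_⟩
      · rw [hqb]
        ring
      · rw [← hM, ← hNq]
        exact hNeq
    · have hkk : (p : ℤ) ^ 2 ≤ (p : ℤ) ^ (k + 1) := pow_le_pow_right₀ (by linarith) (by omega)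
      have hp4 : (4 : ℤ) ≤ (p : ℤ) ^ 2 := by nlinarith
      by_cases hb1 : b = 1 ∨ b = -1
      · -- the second family
        refine Or.inr (Or.inl ⟨-(l * b), l, m' + 1, m' + 1 + (k + 1), by omega, by omega, ?_, hl, ?_⟩)
        · rcases hb1 with rfl | rfl <;> rcases hl with rfl | rfl
          · right; norm_num
          · left; norm_num
          · left; norm_num
          · right; norm_num
        · have hb2 : b ^ 2 = 1 := by rcases hb1 with rfl | rfl <;> norm_num
          have hvb : v = b := by
            rcases hb1 with rfl | rfl <;> rcases hv with rfl | rfl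
            · rfl
            · exfalso
              rcases hl with rfl | rfl <;> linarith
            · exfalso
              rcases hl with rfl | rfl <;> linarith
            · rfl
          have hq1 : q = (p : ℤ) ^ (k + 1) - l * b := by
            have h1 : b * (q * b) = b * (v * (p : ℤ) ^ (k + 1) - l) := by rw [hqb]
            rw [hvb] at h1
            linear_combination h1 + ((p : ℤ) ^ (k + 1) - q) * hb2
          have h5 : (p : ℤ) ^ (m' + 1 + (k + 1)) = M * (p : ℤ) ^ (k + 1) := by rw [pow_add, hM]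
          rw [h5, ← hM]
          have h6 : M * (p : ℤ) ^ (k + 1) + -(l * b) * M - l * -(l * b) = N := by
            rw [hNq, hq1]
            linear_combination b * hl2
          rw [h6]
          exact hNeq
      · -- impossible
        exfalso
        push Not at hb1
        have hp3 : (3 : ℤ) ≤ p := by
          by_contra h
          have h2 : (p : ℤ) = 2 := by linarith
          rw [h2] at hbb1 hbb2
          omega
        have hM3 : 3 ≤ M := by linarith
        have hjm2 : m' + 2 ≤ j := by omega
        obtain ⟨i, hi⟩ : ∃ i, j + 1 = m' + 2 + i := ⟨j + 1 - (m' + 2), by omega⟩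
        have hpM : (p : ℤ) ^ (m' + 2) = p * M := by rw [hM]; ring
        obtain ⟨P2, v2, j2, hP21, hv2, ⟨c2, hc2⟩, hP2eq, hP2sm, hP2hi, hP2lo⟩ :=
          hW hV D p (p ^ (m' + 2)) (-P) hF hH (Nat.one_le_pow _ _ hp.pos)
          (by
            push_cast
            have h1 : (p : ℤ) ^ (m' + 2) ≤ (p : ℤ) ^ j := pow_le_pow_right₀ (by linarith) hjm2
            have h2 : ((p : ℤ) ^ (m' + 2)) ^ 2 ≤ ((p : ℤ) ^ j) ^ 2 := W.les (by positivity) h1
            linarith)
          ⟨-v * (p : ℤ) ^ i, by
            have h1 : 4 * v * p * (p : ℤ) ^ j = 4 * v * (p : ℤ) ^ (j + 1) := by ring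
            rw [hPeq, h1, hi]
            push_cast
            ring⟩
        push_cast at hc2 hP2eq hP2hi hP2lo
        rw [hpM] at hc2 hP2eq hP2hi hP2lo
        obtain ⟨s, hs⟩ : ∃ s, s = q - p * c2 := ⟨_, rfl⟩
        have hqs : q = s + p * c2 := by rw [hs]; ring
        have hPq : P = q * M - b := by rw [hPt, hq]; ring
        have hP2 : P2 = N - 2 * M * s := by
          have h1 : P2 = 2 * (p * M) * c2 - P := by linarith
          rw [h1, hPq, hNq, hqs]
          ring
        have hkey : s * (M * p * c2 + b) = v2 * p * (p : ℤ) ^ j2 - l := by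
          have h1 : 4 * M * (s * (M * p * c2 + b)) = 4 * M * (v2 * p * (p : ℤ) ^ j2 - l) := by
            have h2 : N ^ 2 + 4 * l * M = P2 ^ 2 + 4 * v2 * (p * M) * (p : ℤ) ^ j2 := by
              rw [← hNeq, ← hP2eq]
            rw [hP2] at h2
            have h3 : M * p * c2 + b = N - M * s := by rw [hNq, hqs]; ring
            rw [h3]
            linear_combination h2
          exact mul_left_cancel₀ (by linarith) h1
        obtain ⟨w, hw⟩ : ∃ w, w = v2 * (p : ℤ) ^ j2 - s * c2 * M := ⟨_, rfl⟩
        have hsw : s * b + l = p * w := by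
          rw [hw]
          linear_combination hkey
        have hs1 : -(p : ℤ) ≤ 2 * s := by
          have h1 : P2 - p * M < N + 1 := lt_of_sq hP2hi hNhi (by linarith)
          have h2 : M * (-(2 * s)) ≤ M * p := by
            rw [hP2] at h1
            linarith
          have h3 := le_of_mul_le_mul_left h2 hM0
          linarith
        have hs2 : 8 * s ≤ 5 * p + 1 := by
          have h1 : 4 * (N - 1) < 4 * P2 + 5 * (p * M) := by
            refine lt_of_sq (D := 16 * D) ?_ hP2lo ?_
            · have : (4 * (N - 1)) ^ 2 = 16 * (N - 1) ^ 2 := by ring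
              linarith
            · have : 0 < (p : ℤ) * M := mul_pos (by linarith) hM0
              linarith
          have h2 : M * (8 * s) < M * (5 * p + 2) := by
            rw [hP2] at h1
            linarith
          have h3 := lt_of_mul_lt_mul_left h2 hM0.le
          linarith
        have hww := no_b hp3 hl hbb1 hbb2 hs1 hs2 hsw
        have hs0 : s ≠ 0 := by
          rintro rfl
          rw [zero_mul, zero_add] at hsw
          have h1 : (p : ℤ) ∣ 1 := by
            rcases hl with rfl | rfl
            · exact ⟨w, hsw⟩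
            · exact ⟨-w, by linarith⟩
          exact hpZ.not_isUnit (isUnit_of_dvd_one h1)
        -- `c2` is positive
        have hbp1 : |b| ≤ p - 1 := by
          rw [abs_le]
          constructor <;> linarith
        have hqp : (p : ℤ) ≤ q := by
          by_contra h
          push Not at h
          have h1 : |q * b| ≤ (p - 1) * (p - 1) := by
            rw [abs_mul, abs_of_pos hq0]
            exact mul_le_mul (by linarith) hbp1 (abs_nonneg _) (by linarith)
          have h2 : (p : ℤ) ^ (k + 1) - 1 ≤ |q * b| := by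
            rw [hqb]
            rcases hv with rfl | rfl <;> rcases hl with rfl | rfl
            · refine le_trans ?_ (le_abs_self _)
              linarith
            · refine le_trans ?_ (le_abs_self _)
              linarith
            · refine le_trans ?_ (neg_le_abs _)
              linarith
            · refine le_trans ?_ (neg_le_abs _)
              linarith
          have h3 : ((p : ℤ) - 1) * (p - 1) = p ^ 2 - 2 * p + 1 := by ring
          linarith
        have hc20 : 0 < c2 := by
          have h1 : 0 < (p : ℤ) * c2 := by linarith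
          exact Int.pos_of_mul_pos_right h1 (by linarith)
        have hsc : 1 ≤ |s * c2| := Int.one_le_abs (mul_ne_zero hs0 hc20.ne')
        rcases le_or_gt (m' + 1) j2 with hj2 | hj2
        · -- `w = 0`
          have hMw : M ∣ w := by
            rw [hw]
            refine dvd_sub (Dvd.dvd.mul_left ?_ _) (dvd_mul_left _ _)
            rw [hM]
            exact pow_dvd_pow _ hj2
          have hw0 : w = 0 := Int.eq_zero_of_abs_lt_dvd hMw (by linarith)
          rw [hw0, mul_zero] at hsw
          have h1 : b ∣ 1 := by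
            rcases hl with rfl | rfl
            · exact ⟨-s, by linarith⟩
            · exact ⟨s, by linarith⟩
          rcases Int.isUnit_iff.1 (isUnit_of_dvd_one h1) with h2 | h2
          · exact hb1.1 h2
          · exact hb1.2 h2
        · have h1 : (p : ℤ) ^ j2 ≤ (p : ℤ) ^ m' := pow_le_pow_right₀ (by linarith) (by omega)
          have h2 : s * c2 * M = v2 * (p : ℤ) ^ j2 - w := by rw [hw]; ring
          have h3 : |s * c2 * M| ≤ (p : ℤ) ^ j2 + |w| := by
            rw [h2]
            refine (abs_sub _ _).trans ?_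
            have h4 : |v2 * (p : ℤ) ^ j2| = (p : ℤ) ^ j2 := by
              rw [abs_mul, abs_of_pos (by positivity : (0 : ℤ) < (p : ℤ) ^ j2)]
              rcases hv2 with rfl | rfl <;> norm_num
            rw [h4]
          rw [abs_mul, abs_of_pos hM0] at h3
          have h4 : M ≤ |s * c2| * M := le_mul_of_one_le_left hM0.le hsc
          have h5 : M = p * (p : ℤ) ^ m' := by rw [hM]; ring
          have h6 : (1 : ℤ) ≤ (p : ℤ) ^ m' := one_le_pow₀ (by linarith)
          have h7 : ((p : ℤ) - 1) * 1 ≤ (p - 1) * (p : ℤ) ^ m' :=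
            mul_le_mul_of_nonneg_left h6 (by linarith)
          have h8 : ((p : ℤ) - 1) * (p : ℤ) ^ m' = M - (p : ℤ) ^ m' := by rw [h5]; ring
          linarith

end OEX
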