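import Pool.Agent.OEX.St
import Pool.Agent.OEX.S

/-!
# A0: the case `m = 0`
-/

namespace OEX

namespace A0

open S

/-- what is known of the window of one class: `N - P = 2 t`, `t (N - t) = v p^(j+1) - l` -/
structure Half (N l p : ℤ) (t v : ℤ) (j : ℕ) : Prop where
  sg : Sg v
  eq : t * (N - t) = v * p ^ (j + 1) - l
  lo : -p ≤ 2 * t
  hi : 8 * t < 5 * p + 4
  ge : 2 * p ^ j ≤ N

theorem half {D N l P v : ℤ} {p j : ℕ} (hl : Sg l) (hN1 : 1 ≤ N) (hNlo : (N - 1) ^ 2 < D)
    (hNhi : D < (N + 1) ^ 2) (hNeq : D = N ^ 2 + 4 * l) {β : ℤ} (hw : Wn D p p β P v j)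
    {t : ℤ} (ht : N - P = 2 * t) : Half N l p t v j := by
  obtain ⟨hP1, hv, -, hPeq, hPsm, hPhi, hPlo⟩ := hw
  have hp0 : (0 : ℤ) ≤ p := Int.natCast_nonneg p
  refine ⟨hv, ?_, ?_, ?_, ?_⟩
  · have h1 : 4 * (t * (N - t)) = N ^ 2 - P ^ 2 := by
      have h2 : P = N - 2 * t := by linarith
      rw [h2]
      ring
    have h3 : 4 * v * p * (p : ℤ) ^ j = 4 * (v * (p : ℤ) ^ (j + 1)) := by ring
    rw [h3] at hPeq
    linarith
  · have h1 : P - p < N + 1 := lt_of_sq hPhi hNhi (by linarith)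
    linarith
  · have h1 : 4 * (N - 1) < 4 * P + 5 * p := by
      refine lt_of_sq (D := 16 * D) ?_ hPlo (by linarith)
      have : (4 * (N - 1)) ^ 2 = 16 * (N - 1) ^ 2 := by ring
      linarith
    linarith
  · have h1 : 2 * (p : ℤ) ^ j < N + 1 := by
      refine lt_of_sq (D := D) ?_ hNhi (by linarith)
      have : (2 * (p : ℤ) ^ j) ^ 2 = 4 * ((p : ℤ) ^ j) ^ 2 := by ring
      linarith
    linarith

theorem Half.ne {N l p t v : ℤ} {j : ℕ} (h : Half N l p t v j) (hl : Sg l) (hp : 2 ≤ p) :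
    t ≠ 0 := by
  rintro rfl
  have h1 := h.eq
  rw [zero_mul] at h1
  have h2 : 2 ≤ p ^ (j + 1) := by
    have h3 : 1 ≤ p ^ j := one_le_pow₀ (by linarith)
    have h4 : p ^ (j + 1) = p ^ j * p := pow_succ _ _
    have h5 : 1 * p ≤ p ^ j * p := mul_le_mul_of_nonneg_right h3 (by linarith)
    linarith
  rcases h.sg with rfl | rfl <;> rcases hl with rfl | rfl <;> linarith

/-- `N` is at most `p^(j+1) + 2` -/
theorem Half.le {N l p t v : ℤ} {j : ℕ} (h : Half N l p t v j) (hl : Sg l) (hp : 2 ≤ p)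
    (hN : 2 * p ≤ N) : N ≤ p ^ (j + 1) + 2 := by
  have h0 := h.ne hl hp
  have h1 : t * (N - t) ≤ p ^ (j + 1) + 1 ∧ -(p ^ (j + 1) + 1) ≤ t * (N - t) := by
    rw [h.eq]
    have h2 : 0 ≤ p ^ (j + 1) := by positivity
    constructor <;> rcases h.sg with h3 | h3 <;> rcases hl with h4 | h4 <;>
      rw [h3, h4] <;> linarith
  have hi := h.hi
  have lo := h.lo
  rcases lt_or_gt_of_ne h0 with h3 | h3
  · have h4 : 0 ≤ (-t - 1) * (N - t) := mul_nonneg (by linarith) (by linarith)
    have h5 : (-t - 1) * (N - t) = -(t * (N - t)) - N + t := by ring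
    linarith
  · have h4 : 0 ≤ (t - 1) * (N - 1 - t) := mul_nonneg (by linarith) (by linarith)
    have h5 : (t - 1) * (N - 1 - t) = t * (N - t) - N + 1 := by ring
    linarith

end A0

open S A0 in
theorem t_A0 : S_A0 := by
  intro hV hW D p N l hF hD hH hp hpD hpnd hsol hN
  obtain ⟨hN1, hl, hNlo, hNhi, hNeq, hNsm⟩ := hN
  rw [pow_zero, mul_one] at hNeq
  have hpZ : Prime (p : ℤ) := Nat.prime_iff_prime_int.1 hp
  have hp2 : (2 : ℤ) ≤ p := by exact_mod_cast hp.two_le
  have hN10 : 9 < N := by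
    by_contra h
    push Not at h
    have h1 : (N + 1) ^ 2 ≤ 10 ^ 2 := W.les (by linarith) (by linarith)
    linarith
  have hN2p : 2 * (p : ℤ) ≤ N := by
    have h1 : 2 * (p : ℤ) < N + 1 := by
      refine lt_of_sq (D := D) ?_ hNhi (by linarith)
      have : (2 * (p : ℤ)) ^ 2 = 4 * (p : ℤ) ^ 2 := by ring
      linarith
    linarith
  obtain ⟨x, hx⟩ := hsol
  obtain ⟨P, v, j, hw⟩ := hW hV D p p x hF hH hp.one_le hpD hx
  obtain ⟨P', v', j', hw'⟩ := hW hV D p p (-x) hF hH hp.one_le hpD (by rwa [neg_sq])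
  -- parities
  have par : ∀ (P v : ℤ) (j : ℕ), D = P ^ 2 + 4 * v * p * (p : ℤ) ^ j → ∃ t, N - P = 2 * t := by
    intro P v j h
    have h1 := sq_mod4 P
    have h2 := sq_mod4 N
    have h3 : P ^ 2 % 4 = N ^ 2 % 4 := by
      have h4 : N ^ 2 + 4 * l = P ^ 2 + 4 * (v * p * (p : ℤ) ^ j) := by rw [← hNeq, h]; ring
      omega
    refine ⟨(N - P) / 2, ?_⟩
    omega
  obtain ⟨t, ht⟩ := par P v j hw.eq
  obtain ⟨t', ht'⟩ := par P' v' j' hw'.eq
  have hh := half hl hN1 hNlo hNhi hNeq hw ht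
  have hh' := half hl hN1 hNlo hNhi hNeq hw' ht'
  have hpP : ¬ (p : ℤ) ∣ P := by
    intro h
    apply hpnd
    rw [hw.eq]
    refine dvd_add (dvd_pow h two_ne_zero) ?_
    exact Dvd.dvd.mul_right (Dvd.dvd.mul_left (dvd_refl _) _) _
  -- `N = t + t'` modulo `p`
  obtain ⟨k, hk⟩ : ∃ k, N = t + t' + p * k := by
    obtain ⟨a, ha⟩ := hw.cl
    obtain ⟨a', ha'⟩ := hw'.cl
    refine ⟨a + a', ?_⟩
    have h1 : 2 * N = 2 * (t + t' + p * (a + a')) := by linear_combination ht + ht' + ha + ha'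
    linarith
  have hple : ∀ i : ℕ, (2 : ℤ) ≤ (p : ℤ) ^ (i + 1) := by
    intro i
    have h3 : (1 : ℤ) ≤ (p : ℤ) ^ i := one_le_pow₀ (by linarith)
    have h4 : (p : ℤ) ^ (i + 1) = (p : ℤ) ^ i * p := pow_succ _ _
    have h5 : 1 * (p : ℤ) ≤ (p : ℤ) ^ i * p := mul_le_mul_of_nonneg_right h3 (by linarith)
    linarith
  -- the exponents are equal
  have hjj : ∀ (t v t' v' : ℤ) (j j' : ℕ), Half N l p t v j → Half N l p t' v' j' →
      ¬ j < j' := by
    intro t v t' v' j j' h h' hlt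
    have h1 := h.le hl hp2 hN2p
    have h2 : 2 * (p : ℤ) ^ (j + 1) ≤ N := by
      have h3 : (p : ℤ) ^ (j + 1) ≤ (p : ℤ) ^ j' := pow_le_pow_right₀ (by linarith) hlt
      have h4 := h'.ge
      linarith
    linarith
  have hj : j' = j := by
    have h1 := hjj t v t' v' j j' hh hh'
    have h2 := hjj t' v' t v j' j hh' hh
    omega
  subst hj
  obtain ⟨-, heq, hlo, hhi, hge⟩ := id hh
  obtain ⟨-, heq', hlo', hhi', hge'⟩ := id hh'
  have hv := hh.sg
  have hv' := hh'.sg
  have htt : t ≠ t' := by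
    intro h
    apply hpP
    have h1 : P = p * k := by
      rw [h] at hk ht
      linarith
    rw [h1]
    exact dvd_mul_right _ _
  -- the signs are different
  have hvv : v' = -v := by
    have h1 : v' ≠ v := by
      rintro rfl
      have h2 : (t - t') * (N - t - t') = 0 := by linear_combination heq - heq'
      rcases mul_eq_zero.1 h2 with h3 | h3
      · exact htt (by linarith)
      · linarith
    rcases hv with rfl | rfl <;> rcases hv' with rfl | rfl
    · exact absurd rfl h1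
    · rfl
    · norm_num
    · exact absurd rfl h1
  have hmul : (t' - t) * (t * t' + l) = v * (p : ℤ) ^ (j' + 1) * (t + t') := by
    rw [hvv] at heq'
    linear_combination t' * heq - t * heq'
  have hpd : ¬ (p : ℤ) ∣ t' - t := by
    rintro ⟨a, ha⟩
    apply hpP
    refine ⟨a + k, ?_⟩
    have h1 : P = N - 2 * t := by linarith
    rw [h1, hk]
    linear_combination ha
  have hdvd : (p : ℤ) ^ (j' + 1) ∣ t * t' + l := by
    have hcop : IsCoprime ((p : ℤ) ^ (j' + 1)) (t' - t) :=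
      ((Prime.coprime_iff_not_dvd hpZ).2 hpd).pow_left
    refine hcop.dvd_of_dvd_mul_left ⟨v * (t + t'), ?_⟩
    rw [hmul]
    ring
  -- the product is small
  have hsmall : |t * t' + l| < (p : ℤ) ^ 2 := by
    have h1 : |8 * t| ≤ 5 * p + 3 := abs_le.2 ⟨by linarith, by linarith⟩
    have h2 : |8 * t'| ≤ 5 * p + 3 := abs_le.2 ⟨by linarith, by linarith⟩
    have h3 : |8 * t| * |8 * t'| ≤ (5 * p + 3) * (5 * p + 3) :=
      mul_le_mul h1 h2 (abs_nonneg _) (by linarith)
    have h4 : |l| = 1 := by rcases hl with rfl | rfl <;> norm_num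
    have h7 : |t * t' + l| ≤ |t * t'| + 1 := by
      rw [← h4]
      exact abs_add_le _ _
    have h8 : |8 * t| * |8 * t'| = 64 * |t * t'| := by
      rw [← abs_mul, show 8 * t * (8 * t') = 64 * (t * t') by ring, abs_mul]
      norm_num
    have h9 : 0 ≤ ((p : ℤ) - 2) * (39 * p + 48) := mul_nonneg (by linarith) (by linarith)
    have h10 : ((p : ℤ) - 2) * (39 * p + 48) = 39 * p ^ 2 - 30 * p - 96 := by ring
    have h11 : (5 * (p : ℤ) + 3) * (5 * p + 3) = 25 * p ^ 2 + 30 * p + 9 := by ring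
    linarith
  have hj0 : 1 ≤ j' := by
    by_contra h
    have h0 : j' = 0 := by omega
    subst h0
    have h1 := hh.le hl hp2 hN2p
    rw [zero_add, pow_one] at h1
    linarith
  have hz : t * t' + l = 0 := by
    refine Int.eq_zero_of_abs_lt_dvd hdvd (lt_of_lt_of_le hsmall ?_)
    exact pow_le_pow_right₀ (by linarith) (by omega)
  have htdvd : t ∣ 1 := by
    rcases hl with rfl | rfl
    · exact ⟨-t', by linarith⟩
    · exact ⟨t', by linarith⟩
  refine Or.inr (Or.inr ⟨j' + 1, by omega, Or.inl ?_⟩)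
  rcases Int.isUnit_iff.1 (isUnit_of_dvd_one htdvd) with h1 | h1
  · rw [h1] at hz heq htt
    rcases hl with rfl | rfl
    · -- `t = 1`, `t' = -1`
      rcases hv with rfl | rfl
      · have h2 : N = (p : ℤ) ^ (j' + 1) := by linarith
        rw [hNeq, h2]
        ring
      · exfalso
        have := hple j'
        linarith
    · exact absurd (by linarith) htt
  · rw [h1] at hz heq htt
    rcases hl with rfl | rfl
    · rcases hv with rfl | rfl
      · exfalso
        have := hple j'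
        linarith
      · have h2 : N = (p : ℤ) ^ (j' + 1) := by linarith
        rw [hNeq, h2]
        ring
    · exact absurd (by linarith) htt

end OEX
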