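import Mathlib
import Pool.Agent.OEX.Defs

/-!
Statements of the project OEX (real quadratic fields in which all primes below `√D / 2`, with at
most one exception, are inert), with proofs in the comments.
-/

namespace OEX

open scoped NumberField

/-! ### Block A: the structure theorem (integers only) -/

/-- (FD, helper50) Properties of `disc d`. -/
def S_FD : Prop := ∀ d : ℕ, 1 < d → Squarefree d → Fd (disc d)

/-- (V, helper90) Values. Let `m ≥ 1` be the value: `4 m² < D`, `4 m ∣ x² - D`. Then `m = 1`, or `p`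
is a prime with `4 p² < D`, not inert, and `m = p^j` with `j ≥ 1`. Proof: a prime `r ∣ m` has
`4 r² ≤ 4 m² < D` and `4 r ∣ x² - D`, so `r = p`; a natural number all of whose prime factors are
`p` is a power of `p` (`Nat.eq_prime_pow_of_unique_prime_dvd`). -/
def S_V : Prop := ∀ (D : ℤ) (p m : ℕ) (x : ℤ), Hyp D p → 1 ≤ m → 4 * (m : ℤ) ^ 2 < D →
  (4 * (m : ℤ)) ∣ x ^ 2 - D →
  m = 1 ∨ (p.Prime ∧ 4 * (p : ℤ) ^ 2 < D ∧ Sol D p ∧ ∃ j : ℕ, 1 ≤ j ∧ m = p ^ j)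

/-- (N, helper90) The nearest number. Proof: `s` the integer part of `√D`; `N = s` if `s ≡ D`
modulo 2, else `N = s + 1`. `|D - N²| ≤ 2 s` in both cases and `D - N²` is divisible by 4
(`D ≡ 0, 1` modulo 4) and not 0, so `c = |D - N²| / 4` has `4 c² ≤ s² < D` and `4 c ∣ N² - D`; apply
`S_V`: `c = 1` (`m = 0`) or `c = p^j`. -/
def S_N : Prop := S_V → ∀ (D : ℤ) (p : ℕ), Fd D → Hyp D p →
  ∃ (N l : ℤ) (m : ℕ), Nr D p N l m ∧
    (m = 0 ∨ (1 ≤ m ∧ p.Prime ∧ 4 * (p : ℤ) ^ 2 < D ∧ Sol D p))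

/-- (W, helper90) The window. Proof: `P₁` the largest number `≡ β` modulo `2 n` with `P₁² < D`
(`P₁ ≤ s < P₁ + 2 n`, `s` the integer part of `√D`; `s ≥ 2 n` so `P₁ ≥ 1`), `P₂ = P₁ + 2 n`,
`c₁ = (D - P₁²) / (4 n)`, `c₂ = (P₂² - D) / (4 n)`: positive integers with `c₁ + c₂ = P₁ + n`.
If `D ≤ (P₁ + n)²`: `4 c₁² < D` (put `g = (P₁+n)² - D`, `0 ≤ g < 2 n P₁ + n²`; `(D - P₁²)² < 4 n² D`
is `0 < n²(4 P₁ n + 3 n²) + g (4 n P₁ - 2 n² - g)`), take `P₁`. If `(P₁ + n)² < D`: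
`(c₁ + c₂)² < D`, so `4 c₂² < D`: take `P₂`; or `4 c₂² ≥ D` and `4 c₁² < D`: take `P₁`,
`16 D < (4 P₁ + 5 n)²` since otherwise `P₂² - D ≤ (24 n P₂ - 9 n²) / 16` while
`(P₂² - D)² ≥ 4 n² D ≥ 4 n² (4 P₂ - 3 n)² / 16`, impossible for `8 P₂ > 15 n`. `S_V` for `c₁`,
`c₂` (`j = 0` if it is 1). -/
def S_W : Prop := S_V → ∀ (D : ℤ) (p n : ℕ) (β : ℤ), Fd D → Hyp D p → 1 ≤ n →
  4 * (n : ℤ) ^ 2 < D → (4 * (n : ℤ)) ∣ β ^ 2 - D → ∃ (P v : ℤ) (j : ℕ), Wn D p n β P v j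

/-- (S, helper90) The structure theorem, `m ≥ 1`: `/team-store/R1_paper.md` with the corrections
of helper90. -/
def S_S : Prop := S_V → S_W → ∀ (D : ℤ) (p : ℕ) (N l : ℤ) (m : ℕ), Fd D → 100 < D → Hyp D p →
  p.Prime → 4 * (p : ℤ) ^ 2 < D → ¬ (p : ℤ) ∣ D → 1 ≤ m → Nr D p N l m → Seq D p

/-- (A0, helper90) The case `m = 0`: helper90's Lemma A0. -/
def S_A0 : Prop := S_V → S_W → ∀ (D : ℤ) (p : ℕ) (N l : ℤ), Fd D → 100 < D → Hyp D p →
  p.Prime → 4 * (p : ℤ) ^ 2 < D → ¬ (p : ℤ) ∣ D → Sol D p → Nr D p N l 0 → Seq D p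

/-- (RAM, helper50) `p` is ramified. -/
def S_RAM : Prop := S_V → S_W → ∀ (D : ℤ) (p : ℕ), Fd D → Hyp D p → p.Prime → 4 * (p : ℤ) ^ 2 < D →
  (p : ℤ) ∣ D → Sol D p → ∃ P v : ℤ, 1 ≤ P ∧ Sg v ∧ (p : ℤ) ∣ P ∧ D = P ^ 2 + 4 * v * p

/-- (STR, helper50) The structure theorem. -/
def S_STR : Prop := S_V → S_N → S_W → S_S → S_A0 → S_RAM → ∀ (D : ℤ) (p : ℕ), Fd D → 100 < D →
  Hyp D p → RDU D ∨ (p.Prime ∧ 4 * (p : ℤ) ^ 2 < D ∧ Seq D p)

/-! ### Block B: the ring of integers -/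

/-- (UFD, helper4) If every prime `r` below `√D / 2` is inert or the norm of an integer up to sign
then the ring of integers is a unique factorisation domain (Minkowski bound `√D / 2`). -/
def S_UFD : Prop := ∀ d : ℕ, 1 < d → Squarefree d →
  (∀ r : ℕ, r.Prime → 4 * (r : ℤ) ^ 2 < disc d → ¬ Sol (disc d) r ∨
    ∃ x y : ℤ, x ^ 2 - (disc d) * y ^ 2 = 4 * r ∨ x ^ 2 - (disc d) * y ^ 2 = -(4 * r)) →
  UniqueFactorizationMonoid (𝓞 (IntermediateField.adjoin ℚ {Real.sqrt (d : ℝ)}))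

/-- (INERT, helper4) A prime number `p` stays prime in the ring of integers if and only if
`x² ≡ D` modulo `4 p` has no solution. -/
def S_INERT : Prop := ∀ d : ℕ, 1 < d → Squarefree d → ∀ p : ℕ, p.Prime →
  (Prime ((p : ℕ) : 𝓞 (IntermediateField.adjoin ℚ {Real.sqrt (d : ℝ)})) ↔ ¬ Sol (disc d) p)

/-- (RDL, helper4) The Richaud–Degert part: `RichaudDegert.result` (with `d = m² + r`: `d ≡ 1`
modulo 4: `m = N`, `r = 4 t`; else `N` is even, `m = N / 2`, `r = t`). -/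
def S_RDL : Prop := S_UFD → ∀ d : ℕ, 1 < d → Squarefree d → RDU (disc d) →
  d ∈ ([2, 3, 5, 6, 7, 11, 13, 14, 17, 21, 23, 29, 33, 37, 38, 47, 53, 62, 69, 77, 83, 93, 101,
    141, 167, 173, 197, 213, 227, 237, 293, 398, 413, 437, 453, 573, 677, 717, 1077, 1133, 1253,
    1293, 1757] : List ℕ)

/-- (NRM, helper4) If the ring of integers is a unique factorisation domain then every prime that is
not inert is a norm up to sign. -/
def S_NRM : Prop := ∀ d : ℕ, 1 < d → Squarefree d →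
  UniqueFactorizationMonoid (𝓞 (IntermediateField.adjoin ℚ {Real.sqrt (d : ℝ)})) →
  ∀ p : ℕ, p.Prime → Sol (disc d) p →
    ∃ x y : ℤ, x ^ 2 - (disc d) * y ^ 2 = 4 * p ∨ x ^ 2 - (disc d) * y ^ 2 = -(4 * p)

/-! ### Block C: the coverings -/

/-- (CF1, helper78) The first family for `p < 100000`. -/
def S_CF1 : Prop := ∀ (D : ℤ) (p : ℕ), p.Prime → p < 100000 → 4 * (p : ℤ) ^ 2 < D → 100 < D →
  Hyp D p → F1 D p → ∃ n ∈ LD, D = (n : ℤ)

/-- (CF2, helper78) The second family for `p < 100000`. -/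
def S_CF2 : Prop := ∀ (D : ℤ) (p : ℕ), p.Prime → p < 100000 → 4 * (p : ℤ) ^ 2 < D → 100 < D →
  Hyp D p → F2 D p → ∃ n ∈ LD, D = (n : ℤ)

/-- (CF3, helper78) The third family for `p < 100000`. -/
def S_CF3 : Prop := ∀ (D : ℤ) (p : ℕ), p.Prime → p < 100000 → 4 * (p : ℤ) ^ 2 < D → 100 < D →
  Hyp D p → F3 D p → ∃ n ∈ LD, D = (n : ℤ)

/-! ### Block D: small discriminants and the list -/

/-- (SMD, helper50) Small discriminants: for the squarefree `d` with `disc d ≤ 100` and the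
members of the list of 43 there are two primes that are not inert, or `disc d` is in the list. -/
def S_SMD : Prop := ∀ (d p : ℕ), 1 < d → Squarefree d → Hyp (disc d) p → (disc d ≤ 100 ∨
  d ∈ ([2, 3, 5, 6, 7, 11, 13, 14, 17, 21, 23, 29, 33, 37, 38, 47, 53, 62, 69, 77, 83, 93, 101,
    141, 167, 173, 197, 213, 227, 237, 293, 398, 413, 437, 453, 573, 677, 717, 1077, 1133, 1253,
    1293, 1757] : List ℕ)) → disc d ∈ LD

/-- (MEM, helper50) The members of the list. -/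
def S_MEM : Prop := ∀ d : ℕ, 1 < d → Squarefree d → disc d ∈ LD → ∃ p : ℕ, p < 100 ∧ Hyp (disc d) p

/-- (CLS, helper50) Unique factorisation for the members of the list. -/
def S_CLS : Prop := S_UFD → S_NRM → ∀ d : ℕ, 1 < d → Squarefree d → disc d ∈ LD →
  (UniqueFactorizationMonoid (𝓞 (IntermediateField.adjoin ℚ {Real.sqrt (d : ℝ)})) ↔
    d ∉ ([65, 85, 257, 377, 629, 733, 2917, 5297] : List ℕ))

end OEX
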