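import Mathlib
import Pool.Agent.OEX.St

/-! Properties of the discriminant. -/

namespace OEX

lemma disc_one {d : ℕ} (h : d % 4 = 1) : disc d = d := by
  unfold disc; rw [if_pos h]

lemma disc_ne {d : ℕ} (h : d % 4 ≠ 1) : disc d = 4 * d := by
  unfold disc; rw [if_neg h]

lemma sqf_mod4 {d : ℕ} (hd : Squarefree d) : d % 4 ≠ 0 := by
  intro h
  have h4 : 2 * 2 ∣ d := Nat.dvd_of_mod_eq_zero h
  have := hd 2 h4
  rw [Nat.isUnit_iff] at this
  omega

lemma not_sq {d : ℕ} (h1 : 1 < d) (hd : Squarefree d) (x : ℤ) : x ^ 2 ≠ (d : ℤ) := by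
  intro hx
  have e : x.natAbs * x.natAbs = d := by
    have := congrArg Int.natAbs hx
    rw [Int.natAbs_pow, Int.natAbs_natCast] at this
    rw [← this]; ring
  have := hd x.natAbs (by rw [e])
  rw [Nat.isUnit_iff] at this
  rw [this] at e
  omega

theorem t_FD : S_FD := by
  intro d h1 hd
  have h0 := sqf_mod4 hd
  by_cases hm : d % 4 = 1
  · rw [disc_one hm]
    refine ⟨?_, ?_, fun x => not_sq h1 hd x, ?_, ?_⟩
    · have : 5 ≤ d := by omega
      exact_mod_cast this
    · right; omega
    · intro p hp _ hdvd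
      have h2 : p * p ∣ d := by
        rw [← Int.natCast_dvd_natCast]
        push_cast
        rw [← sq]; exact hdvd
      have := hd p h2
      rw [Nat.isUnit_iff] at this
      exact hp.one_lt.ne' this
    · intro h; omega
  · rw [disc_ne hm]
    have e : ((4 * d : ℕ) : ℤ) = 4 * (d : ℤ) := by push_cast; ring
    rw [e]
    refine ⟨?_, ?_, ?_, ?_, ?_⟩
    · have : (2 : ℤ) ≤ d := by exact_mod_cast h1
      linarith
    · left; omega
    · intro x hx
      have hx2 : (2 : ℤ) ∣ x := by
        have : (2 : ℤ) ∣ x ^ 2 := by rw [hx]; exact ⟨2 * d, by ring⟩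
        exact Int.prime_two.dvd_of_dvd_pow this
      obtain ⟨y, rfl⟩ := hx2
      exact not_sq h1 hd y (by linarith)
    · intro p hp hp2 hdvd
      have h2 : p ^ 2 ∣ 4 * d := by
        rw [← Int.natCast_dvd_natCast]
        push_cast; exact hdvd
      have hc : Nat.Coprime (p ^ 2) 4 := by
        have : Nat.Coprime p 2 := (Nat.coprime_primes hp Nat.prime_two).2 hp2
        have h3 : Nat.Coprime (p ^ 2) (2 ^ 2) := Nat.Coprime.pow 2 2 this
        exact h3
      have h3 := hc.dvd_of_dvd_mul_left h2
      rw [sq] at h3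
      have := hd p h3
      rw [Nat.isUnit_iff] at this
      exact hp.one_lt.ne' this
    · intro _
      have : (4 * (d : ℤ)) / 4 = d := by omega
      rw [this]
      omega

end OEX
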