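import Mathlib
import Pool.Agent.OEX.St

/-! Small discriminants, and the members of the list. -/

namespace OEX

/-- the residues show that `r` is not inert -/
def solB (D r : ℕ) : Bool := (List.range (2 * r)).any fun x => (x * x) % (4 * r) == D % (4 * r)

lemma solB_sol {D r : ℕ} (h : solB D r = true) : Sol (D : ℤ) r := by
  unfold solB at h
  rw [List.any_eq_true] at h
  obtain ⟨x, _, hx⟩ := h
  have hx' : (x * x) % (4 * r) = D % (4 * r) := by simpa using hx
  refine ⟨x, ?_⟩
  have h1 : x * x ≡ D [MOD 4 * r] := hx'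
  have h2 := (Nat.modEq_iff_dvd.1 h1.symm)
  push_cast at h2
  rw [sq]; exact h2

lemma sol_solB {D r : ℕ} (hr : 0 < r) (h : Sol (D : ℤ) r) : solB D r = true := by
  obtain ⟨x, hx⟩ := h
  unfold solB
  rw [List.any_eq_true]
  have h2r : (0 : ℤ) < 2 * r := by positivity
  set y : ℤ := x % (2 * r) with hy
  have hy0 : 0 ≤ y := Int.emod_nonneg _ h2r.ne'
  have hy1 : y < 2 * r := Int.emod_lt_of_pos _ h2r
  obtain ⟨z, hz⟩ := Int.eq_ofNat_of_zero_le hy0
  refine ⟨z, ?_, ?_⟩
  · rw [List.mem_range]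
    have : (z : ℤ) < 2 * r := by rw [← hz]; exact hy1
    exact_mod_cast this
  · have e : x = y + 2 * r * (x / (2 * r)) := by
      rw [hy]; exact (Int.emod_add_mul_ediv x (2 * r)).symm
    have h1 : (4 * (r : ℤ)) ∣ x ^ 2 - y ^ 2 := by
      refine ⟨(x / (2 * r)) * (y + r * (x / (2 * r))), ?_⟩
      nth_rewrite 1 [e]; ring
    have h3 : (4 * (r : ℤ)) ∣ y ^ 2 - D := by
      have := dvd_sub hx h1
      have e2 : x ^ 2 - (D : ℤ) - (x ^ 2 - y ^ 2) = y ^ 2 - D := by ring
      rwa [e2] at this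
    have h4 : ((4 * r : ℕ) : ℤ) ∣ ((z * z : ℕ) : ℤ) - (D : ℤ) := by
      push_cast
      rw [hz] at h3
      have e3 : ((z : ℤ) * z) - D = ((Int.ofNat z) ^ 2 - D) := by
        change (z : ℤ) * z - D = (z : ℤ) ^ 2 - D
        ring
      rw [e3]; exact h3
    have h5 := (Nat.modEq_iff_dvd.2 h4).symm
    have h6 : (z * z) % (4 * r) = D % (4 * r) := h5
    simp [h6]

/-- two primes that are not inert -/
def wit (D : ℕ) : Bool := [2, 3, 5, 7, 11, 13, 17, 19].any fun r => [2, 3, 5, 7, 11, 13, 17, 19].any fun s =>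
  decide (r < s) && decide (4 * s ^ 2 < D) && solB D r && solB D s

lemma wit_not {D p : ℕ} (h : wit D = true) : ¬ Hyp (D : ℤ) p := by
  intro hH
  unfold wit at h
  rw [List.any_eq_true] at h
  obtain ⟨r, hr, h⟩ := h
  rw [List.any_eq_true] at h
  obtain ⟨s, hs, h⟩ := h
  simp only [Bool.and_eq_true, decide_eq_true_eq] at h
  obtain ⟨⟨⟨h1, h2⟩, h3⟩, h4⟩ := h
  have hpr : ∀ t ∈ [2, 3, 5, 7, 11, 13, 17, 19], t.Prime := by decide
  have h2' : 4 * (s : ℤ) ^ 2 < D := by exact_mod_cast h2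
  have h1' : (r : ℤ) < s := by exact_mod_cast h1
  have h0 : (0 : ℤ) ≤ r := by positivity
  by_cases hrp : r = p
  · exact hH s (hpr s hs) h2' (by omega) (solB_sol h4)
  · exact hH r (hpr r hr) (by nlinarith) hrp (solB_sol h3)

theorem t_SMD : S_SMD := by
  intro d p h1 hd hH h
  have key1 : ∀ d ∈ List.range 101, 1 < d → d % 4 ≠ 0 → d % 9 ≠ 0 → d % 25 ≠ 0 → d % 49 ≠ 0 →
      disc d ≤ 100 → disc d ∈ LD ∨ wit (disc d) = true := by decide +kernel
  have key2 : ∀ d ∈ ([2, 3, 5, 6, 7, 11, 13, 14, 17, 21, 23, 29, 33, 37, 38, 47, 53, 62, 69, 77, 83,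
    93, 101, 141, 167, 173, 197, 213, 227, 237, 293, 398, 413, 437, 453, 573, 677, 717, 1077, 1133,
    1253, 1293, 1757] : List ℕ), disc d ∈ LD ∨ wit (disc d) = true := by decide +kernel
  have hs : ∀ q : ℕ, 1 < q → d % (q * q) ≠ 0 := by
    intro q hq h0
    have := hd q (Nat.dvd_of_mod_eq_zero h0)
    rw [Nat.isUnit_iff] at this
    omega
  rcases h with h | h
  · have hle : d ≤ 100 := by
      unfold disc at h
      split_ifs at h <;> omega
    rcases key1 d (List.mem_range.2 (by omega)) h1 (hs 2 (by norm_num)) (hs 3 (by norm_num))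
      (hs 5 (by norm_num)) (hs 7 (by norm_num)) h with h2 | h2
    · exact h2
    · exact absurd hH (wit_not h2)
  · rcases key2 d h with h2 | h2
    · exact h2
    · exact absurd hH (wit_not h2)

/-- for the members of the list -/
def memB (D : ℕ) : Bool := (List.range 100).any fun p =>
  [2, 3, 5, 7, 11, 13, 17, 19, 23, 29, 31, 37, 41].all fun r =>
    decide (D ≤ 4 * r ^ 2) || decide (r = p) || !(solB D r)

theorem t_MEM : S_MEM := by
  intro d h1 hd hL
  have key : ∀ D ∈ LD, memB D = true := by decide +kernel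
  have kle : ∀ D ∈ LD, D ≤ 7213 := by decide +kernel
  have h2 := key _ hL
  have h3 := kle _ hL
  set D := disc d
  unfold memB at h2
  rw [List.any_eq_true] at h2
  obtain ⟨p, hp, h4⟩ := h2
  refine ⟨p, List.mem_range.1 hp, ?_⟩
  intro r hr hr4 hrp hs
  rw [List.all_eq_true] at h4
  have hr42 : r < 43 := by
    by_contra hge
    push Not at hge
    have h5 : 4 * r ^ 2 < D := by exact_mod_cast hr4
    nlinarith
  have hmem : ∀ r < 43, r.Prime → r ∈ [2, 3, 5, 7, 11, 13, 17, 19, 23, 29, 31, 37, 41] := by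
    decide
  have h6 := h4 r (hmem r hr42 hr)
  simp only [Bool.or_eq_true, decide_eq_true_eq, Bool.not_eq_true'] at h6
  rcases h6 with (h6 | h6) | h6
  · have h5 : 4 * r ^ 2 < D := by exact_mod_cast hr4
    omega
  · exact hrp h6
  · rw [sol_solB hr.pos hs] at h6
    exact absurd h6 (by decide)

end OEX
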