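import Mathlib
import Pool.Agent.OEX.St
import Pool.Agent.OEX.SMD
import Pool.Agent.OEX.FD

/-! Unique factorisation for the members of the list. -/

namespace OEX

open scoped NumberField

namespace CLS

lemma par {x y D : ℤ} (hD : D % 4 = 1) {k : ℤ} (h : x ^ 2 - D * y ^ 2 = 4 * k) :
    ∃ z : ℤ, x = y + 2 * z := by
  obtain ⟨E, hE⟩ : ∃ E : ℤ, D = 4 * E + 1 := ⟨D / 4, by omega⟩
  have h1 : Even (x ^ 2 - y ^ 2) := by
    refine ⟨2 * (E * y ^ 2 + k), ?_⟩
    have : x ^ 2 - y ^ 2 = (x ^ 2 - D * y ^ 2) + 4 * E * y ^ 2 := by rw [hE]; ring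
    rw [this, h]; ring
  have h2 : Even (x - y) := by
    have h3 : Even ((x - y) * (x + y)) := by
      have : (x - y) * (x + y) = x ^ 2 - y ^ 2 := by ring
      rw [this]; exact h1
    rcases Int.even_mul.1 h3 with h | h
    · exact h
    · rwa [Int.even_sub, ← Int.even_add]
  obtain ⟨z, hz⟩ := h2
  exact ⟨z, by linarith⟩

/-- descent by a unit of norm `-1` -/
theorem desc {D u v p y0 : ℤ} (hD : D % 4 = 1) (hu : u ^ 2 - D * v ^ 2 = -4) (u0 : 0 < u)
    (v0 : 0 < v) (hp : 0 < p) (hy1 : 1 ≤ y0) (hy0 : 2 * p * v ^ 2 < (u - 2) * y0 ^ 2)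
    (small : ∀ x y : ℤ, 0 ≤ y → y < y0 → x ^ 2 - D * y ^ 2 ≠ 4 * p ∧ x ^ 2 - D * y ^ 2 ≠ -(4 * p)) :
    ∀ (n : ℕ) (x y : ℤ), y.natAbs = n → x ^ 2 - D * y ^ 2 ≠ 4 * p ∧
      x ^ 2 - D * y ^ 2 ≠ -(4 * p) := by
  intro n
  induction n using Nat.strong_induction_on with
  | _ n ih =>
    -- it is enough to treat nonnegative numbers
    have main : ∀ x y : ℤ, 0 ≤ x → 0 ≤ y → y.natAbs = n → x ^ 2 - D * y ^ 2 ≠ 4 * p ∧
        x ^ 2 - D * y ^ 2 ≠ -(4 * p) := by
      intro x y hx hy hyn
      by_cases hlt : y < y0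
      · exact small x y hy hlt
      push Not at hlt
      by_contra hcon
      have hs : ∃ s : ℤ, (s = 1 ∨ s = -1) ∧ x ^ 2 - D * y ^ 2 = 4 * (s * p) := by
        by_contra hno
        apply hcon
        constructor
        · intro h; exact hno ⟨1, Or.inl rfl, by rw [h]; ring⟩
        · intro h; exact hno ⟨-1, Or.inr rfl, by rw [h]; ring⟩
      obtain ⟨s, hs, hxy⟩ := hs
      obtain ⟨z, hz⟩ := par hD hxy
      obtain ⟨w, hw⟩ := par hD (k := -1) (x := u) (y := v) (by rw [hu]; ring)
      obtain ⟨E, hE⟩ : ∃ E : ℤ, D = 4 * E + 1 := ⟨D / 4, by omega⟩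
      -- the new solution
      set y' : ℤ := w * y - v * z with hy'
      set x' : ℤ := w * y + v * z + 2 * w * z - 2 * E * v * y with hx'
      have e1 : 2 * y' = u * y - v * x := by rw [hy', hw, hz]; ring
      have e2 : 2 * x' = u * x - D * v * y := by rw [hx', hw, hz, hE]; ring
      have e3 : x' ^ 2 - D * y' ^ 2 = -(x ^ 2 - D * y ^ 2) := by
        have h4 : 4 * (x' ^ 2 - D * y' ^ 2) = (2 * x') ^ 2 - D * (2 * y') ^ 2 := by ring
        rw [e1, e2] at h4
        have h5 : (u * x - D * v * y) ^ 2 - D * (u * y - v * x) ^ 2 =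
            (u ^ 2 - D * v ^ 2) * (x ^ 2 - D * y ^ 2) := by ring
        rw [h5, hu] at h4
        linarith
      have hy0' : 0 < y := by linarith
      have e4 : (u * y - v * x) * (u * y + v * x) = -4 * y ^ 2 - 4 * (s * p) * v ^ 2 := by
        have : (u * y - v * x) * (u * y + v * x) =
            (u ^ 2 - D * v ^ 2) * y ^ 2 - v ^ 2 * (x ^ 2 - D * y ^ 2) := by ring
        rw [this, hu, hxy]; ring
      have hb : 2 * p * v ^ 2 < (u - 2) * y ^ 2 := by
        have hu2 : 0 < u - 2 := by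
          by_contra hle
          push Not at hle
          have : (u - 2) * y0 ^ 2 ≤ 0 := mul_nonpos_of_nonpos_of_nonneg hle (sq_nonneg _)
          have h6 : 0 < 2 * p * v ^ 2 := by positivity
          linarith
        have : (u - 2) * y0 ^ 2 ≤ (u - 2) * y ^ 2 := by
          apply mul_le_mul_of_nonneg_left _ hu2.le
          nlinarith
        linarith
      have hvx : 0 ≤ v * x := mul_nonneg v0.le hx
      have huy : 0 < u * y := mul_pos u0 hy0'
      have pv : 0 < p * v ^ 2 := by positivity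
      have hsp : -(p * v ^ 2) ≤ s * p * v ^ 2 ∧ s * p * v ^ 2 ≤ p * v ^ 2 := by
        rcases hs with h | h <;> rw [h] <;> constructor <;> nlinarith
      -- the bound
      have b1 : u * y - v * x < 2 * y := by
        by_contra hge
        push Not at hge
        have h7 : 2 * y * (u * y) ≤ (u * y - v * x) * (u * y + v * x) := by
          apply mul_le_mul hge (by linarith) huy.le
          linarith
        nlinarith
      have b2 : -(2 * y) < u * y - v * x := by
        by_contra hge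
        push Not at hge
        have h7 : 2 * y * (u * y) ≤ (-(u * y - v * x)) * (u * y + v * x) := by
          apply mul_le_mul (by linarith) (by linarith) huy.le
          linarith
        nlinarith
      have hlt' : y'.natAbs < n := by
        rw [← hyn]
        omega
      have := ih y'.natAbs hlt' x' y' rfl
      rw [e3, hxy] at this
      rcases hs with h | h
      · apply this.2; rw [h]; ring
      · apply this.1; rw [h]; ring
    intro x y hyn
    have := main |x| |y| (abs_nonneg _) (abs_nonneg _) (by rw [Int.natAbs_abs]; exact hyn)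
    rw [sq_abs, sq_abs] at this
    exact this

lemma mod_no {D p q : ℤ} (hq : D % q = 0) (h : ∀ a ∈ Finset.Ico (0 : ℤ) q,
    (a ^ 2 - 4 * p) % q ≠ 0 ∧ (a ^ 2 + 4 * p) % q ≠ 0) (hq0 : 0 < q) (x y : ℤ) :
    x ^ 2 - D * y ^ 2 ≠ 4 * p ∧ x ^ 2 - D * y ^ 2 ≠ -(4 * p) := by
  obtain ⟨k, hk⟩ := Int.dvd_of_emod_eq_zero hq
  have ha := h (x % q) (Finset.mem_Ico.2 ⟨Int.emod_nonneg _ hq0.ne', Int.emod_lt_of_pos _ hq0⟩)
  have e : x = x % q + q * (x / q) := (Int.emod_add_mul_ediv x q).symm
  constructor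
  · intro h1
    apply ha.1
    apply Int.emod_eq_zero_of_dvd
    refine ⟨-(x / q) * (2 * (x % q) + q * (x / q)) + k * y ^ 2, ?_⟩
    have h2 : (x % q + q * (x / q)) ^ 2 - D * y ^ 2 = 4 * p := by rw [← e]; exact h1
    rw [hk] at h2
    linear_combination h2
  · intro h1
    apply ha.2
    apply Int.emod_eq_zero_of_dvd
    refine ⟨-(x / q) * (2 * (x % q) + q * (x / q)) + k * y ^ 2, ?_⟩
    have h2 : (x % q + q * (x / q)) ^ 2 - D * y ^ 2 = -(4 * p) := by rw [← e]; exact h1
    rw [hk] at h2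
    linear_combination h2

lemma not_sq_of {a b x : ℤ} (ha : 0 ≤ a) (h1 : a ^ 2 < b) (h2 : b < (a + 1) ^ 2) : x ^ 2 ≠ b := by
  intro h
  have h3 : a < |x| := by
    by_contra hle
    push Not at hle
    have : |x| ^ 2 ≤ a ^ 2 := by
      have := abs_nonneg x
      nlinarith
    rw [sq_abs] at this
    linarith
  have h4 : (a + 1) ^ 2 ≤ |x| ^ 2 := by nlinarith
  rw [sq_abs] at h4
  linarith

theorem n257 (x y : ℤ) : x ^ 2 - 257 * y ^ 2 ≠ 4 * 2 ∧ x ^ 2 - 257 * y ^ 2 ≠ -(4 * 2) := by
  refine desc (D := 257) (u := 32) (v := 2) (p := 2) (y0 := 1) (by norm_num) (by norm_num)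
    (by norm_num) (by norm_num) (by norm_num) (by norm_num) (by norm_num) ?_ y.natAbs x y rfl
  intro x y h0 h1
  have hy : y = 0 := by omega
  subst hy
  constructor
  · have := not_sq_of (a := 2) (b := 8) (x := x) (by norm_num) (by norm_num) (by norm_num)
    intro h; apply this; linarith
  · intro h; nlinarith [sq_nonneg x]

theorem n733 (x y : ℤ) : x ^ 2 - 733 * y ^ 2 ≠ 4 * 3 ∧ x ^ 2 - 733 * y ^ 2 ≠ -(4 * 3) := by
  refine desc (D := 733) (u := 27) (v := 1) (p := 3) (y0 := 1) (by norm_num) (by norm_num)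
    (by norm_num) (by norm_num) (by norm_num) (by norm_num) (by norm_num) ?_ y.natAbs x y rfl
  intro x y h0 h1
  have hy : y = 0 := by omega
  subst hy
  constructor
  · have := not_sq_of (a := 3) (b := 12) (x := x) (by norm_num) (by norm_num) (by norm_num)
    intro h; apply this; linarith
  · intro h; nlinarith [sq_nonneg x]

theorem n2917 (x y : ℤ) : x ^ 2 - 2917 * y ^ 2 ≠ 4 * 3 ∧ x ^ 2 - 2917 * y ^ 2 ≠ -(4 * 3) := by
  refine desc (D := 2917) (u := 108) (v := 2) (p := 3) (y0 := 1) (by norm_num) (by norm_num)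
    (by norm_num) (by norm_num) (by norm_num) (by norm_num) (by norm_num) ?_ y.natAbs x y rfl
  intro x y h0 h1
  have hy : y = 0 := by omega
  subst hy
  constructor
  · have := not_sq_of (a := 3) (b := 12) (x := x) (by norm_num) (by norm_num) (by norm_num)
    intro h; apply this; linarith
  · intro h; nlinarith [sq_nonneg x]

theorem n5297 (x y : ℤ) : x ^ 2 - 5297 * y ^ 2 ≠ 4 * 2 ∧ x ^ 2 - 5297 * y ^ 2 ≠ -(4 * 2) := by
  refine desc (D := 5297) (u := 5968) (v := 82) (p := 2) (y0 := 3) (by norm_num) (by norm_num)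
    (by norm_num) (by norm_num) (by norm_num) (by norm_num) (by norm_num) ?_ y.natAbs x y rfl
  intro x y h0 h1
  have hy : y = 0 ∨ y = 1 ∨ y = 2 := by omega
  rcases hy with hy | hy | hy <;> subst hy
  · constructor
    · have := not_sq_of (a := 2) (b := 8) (x := x) (by norm_num) (by norm_num) (by norm_num)
      intro h; apply this; linarith
    · intro h; nlinarith [sq_nonneg x]
  · constructor
    · have := not_sq_of (a := 72) (b := 5305) (x := x) (by norm_num) (by norm_num) (by norm_num)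
      intro h; apply this; linarith
    · have := not_sq_of (a := 72) (b := 5289) (x := x) (by norm_num) (by norm_num) (by norm_num)
      intro h; apply this; linarith
  · constructor
    · have := not_sq_of (a := 145) (b := 21196) (x := x) (by norm_num) (by norm_num) (by norm_num)
      intro h; apply this; linarith
    · have := not_sq_of (a := 145) (b := 21180) (x := x) (by norm_num) (by norm_num) (by norm_num)
      intro h; apply this; linarith

/-- `D`, the exceptional prime (or 0), `x`, `y` with `x² - D y² = ± 4 p` -/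
def tabW : List (ℕ × ℕ × ℕ × ℕ) := [(5, 0, 0, 0), (8, 0, 0, 0), (12, 0, 0, 0), (13, 0, 0, 0),
  (17, 2, 5, 1), (21, 0, 0, 0), (24, 2, 4, 1), (28, 2, 6, 1), (29, 0, 0, 0), (33, 2, 5, 1),
  (37, 3, 7, 1), (41, 2, 7, 1), (44, 2, 6, 1), (53, 0, 0, 0), (56, 2, 8, 1), (61, 3, 7, 1),
  (69, 3, 9, 1), (77, 0, 0, 0), (89, 2, 9, 1), (92, 2, 10, 1), (93, 3, 9, 1), (101, 5, 11, 1),
  (113, 2, 11, 1), (133, 3, 11, 1), (137, 2, 35, 3), (149, 5, 13, 1), (152, 2, 12, 1),
  (157, 3, 13, 1), (173, 0, 0, 0), (188, 2, 14, 1), (197, 7, 15, 1), (213, 3, 15, 1),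
  (237, 3, 15, 1), (248, 2, 16, 1), (269, 5, 17, 1), (293, 0, 0, 0), (317, 7, 17, 1),
  (332, 2, 18, 1), (341, 5, 19, 1), (353, 2, 19, 1), (397, 3, 40, 2), (413, 7, 21, 1),
  (437, 0, 0, 0), (453, 3, 21, 1), (461, 5, 21, 1), (557, 7, 23, 1), (593, 2, 73, 3),
  (668, 2, 26, 1), (677, 13, 27, 1), (717, 3, 27, 1), (773, 11, 27, 1), (853, 3, 29, 1),
  (908, 2, 30, 1), (941, 5, 31, 1), (1077, 3, 33, 1), (1097, 2, 33, 1), (1133, 11, 33, 1),
  (1217, 2, 35, 1), (1253, 7, 35, 1), (1333, 3, 146, 4), (1553, 2, 1931, 49), (1592, 2, 40, 1),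
  (1877, 7, 43, 1), (2273, 2, 143, 3), (3053, 7, 55, 1), (7213, 3, 85, 1)]

def ckW (t : ℕ × ℕ × ℕ × ℕ) : Bool :=
  ([2, 3, 5, 7, 11, 13, 17, 19, 23, 29, 31, 37, 41].all fun r =>
    decide (t.1 ≤ 4 * r ^ 2) || decide (r = t.2.1) || !(solB t.1 r)) &&
  (decide (t.2.2.1 ^ 2 = t.1 * t.2.2.2 ^ 2 + 4 * t.2.1) ||
    decide (t.2.2.1 ^ 2 + 4 * t.2.1 = t.1 * t.2.2.2 ^ 2)) && decide (t.1 ≤ 7213)

end CLS

open CLS

theorem t_CLS : S_CLS := by
  intro hU hN d h1 hd hL
  constructor
  · intro hufd hmem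
    have neg : ∀ (p : ℕ), p.Prime → disc d = d → solB d p = true →
        (∀ x y : ℤ, x ^ 2 - (d : ℤ) * y ^ 2 ≠ 4 * (p : ℤ) ∧
          x ^ 2 - (d : ℤ) * y ^ 2 ≠ -(4 * (p : ℤ))) → False := by
      intro p hp hdd hs hno
      obtain ⟨x, y, h⟩ := hN d h1 hd hufd p hp (by rw [hdd]; exact solB_sol hs)
      rw [hdd] at h
      rcases h with h | h
      · exact (hno x y).1 h
      · exact (hno x y).2 h
    simp only [List.mem_cons, List.not_mem_nil, or_false] at hmem
    rcases hmem with rfl | rfl | rfl | rfl | rfl | rfl | rfl | rfl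
    · exact neg 2 (by norm_num) rfl (by decide) (fun x y =>
        mod_no (D := 65) (p := 2) (q := 5) (by norm_num) (by decide) (by norm_num) x y)
    · exact neg 3 (by norm_num) rfl (by decide) (fun x y =>
        mod_no (D := 85) (p := 3) (q := 5) (by norm_num) (by decide) (by norm_num) x y)
    · exact neg 2 (by norm_num) rfl (by decide) (fun x y => n257 x y)
    · exact neg 2 (by norm_num) rfl (by decide) (fun x y =>
        mod_no (D := 377) (p := 2) (q := 13) (by norm_num) (by decide) (by norm_num) x y)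
    · exact neg 5 (by norm_num) rfl (by decide) (fun x y =>
        mod_no (D := 629) (p := 5) (q := 17) (by norm_num) (by decide) (by norm_num) x y)
    · exact neg 3 (by norm_num) rfl (by decide) (fun x y => n733 x y)
    · exact neg 3 (by norm_num) rfl (by decide) (fun x y => n2917 x y)
    · exact neg 2 (by norm_num) rfl (by decide) (fun x y => n5297 x y)
  · intro hmem
    apply hU d h1 hd
    have key : ∀ D ∈ LD, D ∈ ([65, 85, 257, 377, 629, 733, 2917, 5297] : List ℕ) ∨
        ∃ t ∈ tabW, t.1 = D := by decide +kernel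
    have key2 : ∀ t ∈ tabW, ckW t = true := by decide +kernel
    have hno : disc d ∉ ([65, 85, 257, 377, 629, 733, 2917, 5297] : List ℕ) := by
      intro hin
      by_cases hm : d % 4 = 1
      · rw [disc_one hm] at hin; exact hmem hin
      · rw [disc_ne hm] at hin
        simp only [List.mem_cons, List.not_mem_nil, or_false] at hin
        omega
    obtain ⟨t, ht, htD⟩ := (key _ hL).resolve_left hno
    have hc := key2 t ht
    unfold ckW at hc
    simp only [Bool.and_eq_true, Bool.or_eq_true, decide_eq_true_eq, List.all_eq_true,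
      Bool.not_eq_true'] at hc
    obtain ⟨⟨c1, c2⟩, c3⟩ := hc
    rw [htD] at c1 c2 c3
    intro r hr hr4
    have hr42 : r < 43 := by
      by_contra hge
      push Not at hge
      have h5 : 4 * r ^ 2 < disc d := by exact_mod_cast hr4
      nlinarith
    have hmem : ∀ r < 43, r.Prime → r ∈ [2, 3, 5, 7, 11, 13, 17, 19, 23, 29, 31, 37, 41] := by
      decide
    rcases c1 r (hmem r hr42 hr) with (h6 | h6) | h6
    · have h5 : 4 * r ^ 2 < disc d := by exact_mod_cast hr4
      omega
    · right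
      refine ⟨t.2.2.1, t.2.2.2, ?_⟩
      rw [h6]
      rcases c2 with c2 | c2
      · left
        have : ((t.2.2.1 ^ 2 : ℕ) : ℤ) = ((disc d * t.2.2.2 ^ 2 + 4 * t.2.1 : ℕ) : ℤ) := by
          rw [c2]
        push_cast at this
        rw [this]; ring
      · right
        have : ((t.2.2.1 ^ 2 + 4 * t.2.1 : ℕ) : ℤ) = ((disc d * t.2.2.2 ^ 2 : ℕ) : ℤ) := by
          rw [c2]
        push_cast at this
        rw [← this]; ring
    · left
      intro hs
      rw [sol_solB hr.pos hs] at h6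
      exact absurd h6 (by decide)

end OEX
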