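import Mathlib
import Pool.Agent.OEX.St

/-! The ramified case. -/

namespace OEX

theorem t_RAM : S_RAM := by
  intro hV hW D p hF hH hp h4 hpD hS
  obtain ⟨β, hβ⟩ := hS
  have hpi : Prime (p : ℤ) := Nat.prime_iff_prime_int.1 hp
  obtain ⟨P, v, j, w⟩ := hW hV D p p β hF hH hp.one_lt.le h4 hβ
  have hpb : (p : ℤ) ∣ β := by
    have h1 : (p : ℤ) ∣ β ^ 2 - D := (Dvd.intro_left _ rfl).trans hβ
    have h2 : (p : ℤ) ∣ β ^ 2 := by
      have := dvd_add h1 hpD
      rwa [sub_add_cancel] at this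
    exact hpi.dvd_of_dvd_pow h2
  have hpP : (p : ℤ) ∣ P := by
    have h1 : (p : ℤ) ∣ P - β := (Dvd.intro_left _ rfl).trans w.cl
    have := dvd_add h1 hpb
    rwa [sub_add_cancel] at this
  have hj : j = 0 := by
    by_contra hj
    obtain ⟨i, rfl⟩ := Nat.exists_eq_succ_of_ne_zero hj
    have he := w.eq
    rw [Nat.succ_eq_add_one, pow_succ] at he
    obtain ⟨g, rfl⟩ := hpP
    by_cases hp2 : p = 2
    · subst hp2
      have hD : D = 4 * (g ^ 2 + 4 * (v * 2 ^ i)) := by
        rw [he]; push_cast; ring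
      have h5 : D % 4 = 0 := by omega
      have h6 := hF.two h5
      have h7 : D / 4 = g ^ 2 + 4 * (v * 2 ^ i) := by omega
      rw [h7] at h6
      have h8 : (g ^ 2 + 4 * (v * 2 ^ i)) % 4 = g ^ 2 % 4 := by omega
      rw [h8] at h6
      have h9 : g ^ 2 % 4 = 0 ∨ g ^ 2 % 4 = 1 := by
        rcases Int.even_or_odd' g with ⟨k, rfl | rfl⟩
        · left
          have : (2 * k) ^ 2 = 4 * k ^ 2 := by ring
          omega
        · right
          have : (2 * k + 1) ^ 2 = 4 * (k ^ 2 + k) + 1 := by ring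
          omega
      omega
    · apply hF.odd p hp hp2
      rw [he]
      exact ⟨g ^ 2 + 4 * v * (p : ℤ) ^ i, by ring⟩
  subst hj
  refine ⟨P, v, w.P1, w.sg, hpP, ?_⟩
  have := w.eq
  rw [this]; ring

end OEX
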