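import Mathlib
import Pool.Agent.OEX.St

/-! The structure theorem: assembly. -/

namespace OEX

theorem t_STR : S_STR := by
  intro hV hN hW hS hA hR D p hF h100 hH
  obtain ⟨N, l, m, hn, hm⟩ := hN hV D p hF hH
  -- the case without an exceptional prime
  have noex : ¬ (p.Prime ∧ 4 * (p : ℤ) ^ 2 < D ∧ Sol D p) → RDU D := by
    intro hno
    have hm0 : m = 0 := by
      rcases hm with h | ⟨_, h2, h3, h4⟩
      · exact h
      · exact absurd ⟨h2, h3, h4⟩ hno
    subst hm0
    refine ⟨⟨N, l, hn.N1, ?_, ?_⟩, ?_⟩
    · rcases hn.sg with h | h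
      · rw [h]; exact one_dvd _
      · rw [h]; exact ⟨-N, by ring⟩
    · have := hn.eq
      rw [this]; ring
    · intro r hr h4
      left
      intro hs
      by_cases hrp : r = p
      · subst hrp
        exact hno ⟨hr, h4, hs⟩
      · exact hH r hr h4 hrp hs
  by_cases hex : p.Prime ∧ 4 * (p : ℤ) ^ 2 < D ∧ Sol D p
  · obtain ⟨hp, h4, hs⟩ := hex
    by_cases hpD : (p : ℤ) ∣ D
    · left
      obtain ⟨P, v, hP, hv, hpP, hD⟩ := hR hV hW D p hF hH hp h4 hpD hs
      refine ⟨⟨P, v * p, hP, ?_, ?_⟩, ?_⟩
      · rcases hv with h | h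
        · rw [h, one_mul]; exact hpP
        · rw [h]; simpa using hpP
      · rw [hD]; ring
      · intro r hr hr4
        by_cases hrp : r = p
        · subst hrp
          right
          refine ⟨P, 1, ?_⟩
          rcases hv with h | h
          · right; rw [hD, h]; ring
          · left; rw [hD, h]; ring
        · left; exact hH r hr hr4 hrp
    · right
      refine ⟨hp, h4, ?_⟩
      rcases Nat.eq_zero_or_pos m with h | h
      · subst h
        exact hA hV hW D p N l hF h100 hH hp h4 hpD hs hn
      · exact hS hV hW D p N l m hF h100 hH hp h4 hpD h hn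
  · left; exact noex hex

end OEX
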