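import Mathlib
import Pool.Agent.OEX.St
import Pool.Agent.OEX.FD
import Pool.Agent.OEX.RAM
import Pool.Agent.OEX.STR
import Pool.Agent.OEX.SMD
import Pool.Agent.OEX.CLS

/-! The assembly. -/

namespace OEX

open scoped NumberField

/-- the list of the `d` -/
def Ld : List ℕ := [2, 3, 5, 6, 7, 11, 13, 14, 17, 21, 23, 29, 33, 37, 38, 41, 47, 53, 61, 62, 65,
  69, 77, 83, 85, 89, 93, 101, 113, 133, 137, 149, 157, 167, 173, 197, 213, 227, 237, 257, 269,
  293, 317, 341, 353, 377, 397, 398, 413, 437, 453, 461, 557, 593, 629, 677, 717, 733, 773, 853,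
  941, 1077, 1097, 1133, 1217, 1253, 1333, 1553, 1877, 2273, 2917, 3053, 5297, 7213]

lemma disc_mem {d : ℕ} : disc d ∈ LD → 1 < d → Squarefree d → d ∈ Ld := by
  intro h h1 hd
  have key : ∀ D ∈ LD, (D % 4 = 1 → D ∈ Ld) ∧ (D % 4 = 0 → D / 4 ∈ Ld) := by decide +kernel
  by_cases hm : d % 4 = 1
  · rw [disc_one hm] at h
    exact (key d h).1 hm
  · rw [disc_ne hm] at h
    have := (key _ h).2 (by omega)
    rwa [Nat.mul_div_cancel_left d (by norm_num)] at this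

lemma mem_disc : ∀ d ∈ Ld, disc d ∈ LD ∧ 1 < d := by decide +kernel

lemma mem_sq : ∀ d ∈ Ld, Squarefree d := by
  have key : ∀ d ∈ Ld, d ≤ 7213 ∧ (∀ x ∈ List.range 85, x ≤ 1 ∨ d % (x * x) ≠ 0) := by
    decide +kernel
  intro d hd x hx
  obtain ⟨h1, h2⟩ := key d hd
  have hd0 : 0 < d := by have := (mem_disc d hd).2; omega
  have hx1 : x * x ≤ d := Nat.le_of_dvd hd0 hx
  have hx2 : x < 85 := by nlinarith
  rcases h2 x (List.mem_range.2 hx2) with h | h
  · rw [Nat.isUnit_iff]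
    rcases Nat.eq_zero_or_pos x with h0 | h0
    · subst h0
      simp at hx
      omega
    · omega
  · exact absurd (Nat.mod_eq_zero_of_dvd hx) h

lemma real_iff (p D : ℕ) : (p : ℝ) < Real.sqrt D / 2 ↔ 4 * (p : ℤ) ^ 2 < (D : ℤ) := by
  have h0 : (0 : ℝ) ≤ 2 * p := by positivity
  have e : (p : ℝ) < Real.sqrt D / 2 ↔ 2 * (p : ℝ) < Real.sqrt D := by
    constructor <;> intro h <;> linarith
  rw [e, Real.lt_sqrt h0]
  constructor
  · intro h
    have : ((4 * p ^ 2 : ℕ) : ℝ) < (D : ℝ) := by push_cast; linarith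
    exact_mod_cast this
  · intro h
    have : (4 * p ^ 2 : ℕ) < D := by exact_mod_cast h
    have h2 : ((4 * p ^ 2 : ℕ) : ℝ) < (D : ℝ) := by exact_mod_cast this
    push_cast at h2
    linarith

theorem fin_Hyp (hV : S_V) (hN : S_N) (hW : S_W) (hS : S_S) (hA : S_A0) (hU : S_UFD)
    (hR : S_RDL) (h1 : S_CF1) (h2 : S_CF2) (h3 : S_CF3) (d p : ℕ) (hd1 : 1 < d)
    (hd : Squarefree d) (hp : p < 100000) (hH : Hyp (disc d) p) : d ∈ Ld := by
  apply disc_mem _ hd1 hd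
  by_cases hle : disc d ≤ 100
  · exact t_SMD d p hd1 hd hH (Or.inl hle)
  push Not at hle
  have hle' : (100 : ℤ) < disc d := by exact_mod_cast hle
  have conv : (∃ n ∈ LD, ((disc d : ℕ) : ℤ) = (n : ℤ)) → disc d ∈ LD := by
    rintro ⟨n, hn, h⟩
    have : disc d = n := by exact_mod_cast h
    rw [this]; exact hn
  rcases t_STR hV hN hW hS hA t_RAM (disc d) p (t_FD d hd1 hd) hle' hH with h | ⟨hpp, h4, h⟩
  · exact t_SMD d p hd1 hd hH (Or.inr (hR hU d hd1 hd h))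
  · apply conv
    rcases h with h | h | h
    · exact h1 _ p hpp hp h4 hle' hH h
    · exact h2 _ p hpp hp h4 hle' hH h
    · exact h3 _ p hpp hp h4 hle' hH h

/-- the condition of the theorem -/
def Cond (d : ℕ) : Prop := ∃ e : ℕ, e < 100000 ∧ ∀ p : ℕ, p.Prime →
  (p : ℝ) < Real.sqrt (disc d) / 2 → p ≠ e →
  Prime ((p : ℕ) : 𝓞 (IntermediateField.adjoin ℚ {Real.sqrt (d : ℝ)}))

theorem cond_iff (hI : S_INERT) {d : ℕ} (hd1 : 1 < d) (hd : Squarefree d) :
    Cond d ↔ ∃ e : ℕ, e < 100000 ∧ Hyp (disc d) e := by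
  constructor
  · rintro ⟨e, he, h⟩
    refine ⟨e, he, ?_⟩
    intro r hr h4 hre
    exact (hI d hd1 hd r hr).1 (h r hr ((real_iff r _).2 h4) hre)
  · rintro ⟨e, he, h⟩
    refine ⟨e, he, ?_⟩
    intro p hp h4 hpe
    exact (hI d hd1 hd p hp).2 (h p hp ((real_iff p _).1 h4) hpe)

/-- the final theorem, from the statements -/
theorem fin (hV : S_V) (hN : S_N) (hW : S_W) (hS : S_S) (hA : S_A0) (hU : S_UFD)
    (hI : S_INERT) (hM : S_NRM) (hR : S_RDL) (h1 : S_CF1) (h2 : S_CF2) (h3 : S_CF3) (d : ℕ)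
    (hd1 : 1 < d) (hd : Squarefree d) :
    (Cond d ↔ d ∈ Ld) ∧
    (d ∈ Ld → (UniqueFactorizationMonoid (𝓞 (IntermediateField.adjoin ℚ {Real.sqrt (d : ℝ)})) ↔
      d ∉ ([65, 85, 257, 377, 629, 733, 2917, 5297] : List ℕ))) := by
  constructor
  · rw [cond_iff hI hd1 hd]
    constructor
    · rintro ⟨e, he, hH⟩
      exact fin_Hyp hV hN hW hS hA hU hR h1 h2 h3 d e hd1 hd he hH
    · intro h
      obtain ⟨p, hp, hH⟩ := t_MEM d hd1 hd (mem_disc d h).1
      exact ⟨p, by omega, hH⟩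
  · intro h
    exact t_CLS hU hM d hd1 hd (mem_disc d h).1

end OEX
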