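import Mathlib
import Pool.Agent.OEX.St
import Pool.Agent.RQM.C15

/-! The Minkowski bound: unique factorisation from the small primes. -/

namespace OEX

open scoped NumberField
open Pool.Agent.LibH4

lemma disc_eq_Dq (d : ℕ) : ((disc d : ℕ) : ℤ) = Dq d := by
  unfold disc Dq
  split_ifs
  · rfl
  · push_cast; rfl

/-- four times the norm -/
lemma four_norm {d : ℕ} (z : QI d) :
    4 * z.norm = (2 * z.re + Bq d * z.im) ^ 2 - Dq d * z.im ^ 2 := by
  rw [QuadraticAlgebra.norm_def, ← Bq_Aq]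
  ring

/-- parity -/
lemma par_of_four {d : ℕ} {x y n : ℤ} (h : x ^ 2 - Dq d * y ^ 2 = 4 * n) :
    ∃ r : ℤ, x = 2 * r + Bq d * y := by
  have h1 : (x - Bq d * y) * (x + Bq d * y) = 4 * (n + Aq d * y ^ 2) := by
    have := Bq_Aq d
    have e : (x - Bq d * y) * (x + Bq d * y) = x ^ 2 - (Bq d) ^ 2 * y ^ 2 := by ring
    rw [e]
    have e2 : (Bq d) ^ 2 = Dq d - 4 * Aq d := by linarith
    rw [e2]
    linear_combination h
  have h2 : (2 : ℤ) ∣ (x - Bq d * y) * (x + Bq d * y) := by
    rw [h1]; exact ⟨2 * (n + Aq d * y ^ 2), by ring⟩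
  rcases Int.prime_two.dvd_or_dvd h2 with ⟨k, hk⟩ | ⟨k, hk⟩
  · exact ⟨k, by linarith⟩
  · exact ⟨k - Bq d * y, by linarith⟩

lemma exists_norm {d : ℕ} {x y n : ℤ} (h : x ^ 2 - Dq d * y ^ 2 = 4 * n) :
    ∃ z : QI d, z.norm = n := by
  obtain ⟨r, hr⟩ := par_of_four h
  refine ⟨⟨r, y⟩, ?_⟩
  have h4 := four_norm (⟨r, y⟩ : QI d)
  rw [hr] at h
  simp only at h4
  linarith

theorem t_UFD : S_UFD := by
  intro d h1 hd H
  have : IsPrincipalIdealRing (𝓞 (KQ d)) := by
    apply isPrincipalIdealRing_of_small hd h1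
    intro p hp hle x _ hdvd
    have hlt : 4 * (p : ℤ) ^ 2 < disc d := by
      rw [disc_eq_Dq]
      refine lt_of_le_of_ne hle ?_
      intro he
      have hsq : ∀ u : ℤ, u ^ 2 ≠ (d : ℤ) := by
        intro x hx
        have e : x.natAbs * x.natAbs = d := by
          have := congrArg Int.natAbs hx
          rw [Int.natAbs_pow, Int.natAbs_natCast] at this
          rw [← this]; ring
        have := hd x.natAbs (by rw [e])
        rw [Nat.isUnit_iff] at this
        rw [this] at e
        omega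
      unfold Dq at he
      split_ifs at he with hm
      · exact hsq (2 * p) (by rw [← he]; ring)
      · exact hsq p (by linarith)
    rcases H p hp hlt with h | ⟨X, Y, h⟩
    · exfalso
      apply h
      refine ⟨2 * x + Bq d, ?_⟩
      rw [disc_eq_Dq]
      obtain ⟨c, hc⟩ := hdvd
      refine ⟨c, ?_⟩
      have := four_mul_norm_lin (d := d) x
      rw [norm_lin_eq] at this
      rw [← this, hc]
      ring
    · rw [disc_eq_Dq] at h
      rcases h with h | h
      · obtain ⟨z, hz⟩ := exists_norm (d := d) h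
        exact ⟨z, by rw [hz]; simp⟩
      · have h' : X ^ 2 - Dq d * Y ^ 2 = 4 * (-(p : ℤ)) := by rw [h]; ring
        obtain ⟨z, hz⟩ := exists_norm (d := d) h'
        exact ⟨z, by rw [hz]; simp⟩
  exact inferInstanceAs (UniqueFactorizationMonoid (𝓞 (KQ d)))

end OEX
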