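import Mathlib
import Pool.Agent.OEX.St
import Pool.Agent.OEX.UFD

/-! The inert primes. -/

namespace OEX

open scoped NumberField
open Pool.Agent.LibH4

theorem t_INERT : S_INERT := by
  intro d h1 hd p hp
  change (Prime ((p : ℕ) : 𝓞 (KQ d)) ↔ ¬ Sol (disc d) p)
  have hp0 : ((p : ℕ) : 𝓞 (KQ d)) ≠ 0 := by
    rw [Nat.cast_ne_zero]; exact hp.ne_zero
  constructor
  · intro hP ⟨x, hx⟩
    rw [disc_eq_Dq] at hx
    obtain ⟨c, hc⟩ := hx
    have h : x ^ 2 - Dq d * 1 ^ 2 = 4 * (p * c) := by rw [one_pow, mul_one, hc]; ring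
    obtain ⟨r, hr⟩ := par_of_four h
    set z : QI d := ⟨r, 1⟩ with hz
    have hN : z.norm = p * c := by
      have h4 := four_norm z
      simp only [hz] at h4
      rw [hr] at h
      linarith
    have hmul : eqvO hd h1 z * eqvO hd h1 (star z) = ((p : ℕ) : 𝓞 (KQ d)) * (c : 𝓞 (KQ d)) := by
      rw [← map_mul, ← intCast_norm_QI, map_intCast, hN]
      push_cast; rfl
    have key : ∀ w : QI d, ((p : ℕ) : 𝓞 (KQ d)) ∣ eqvO hd h1 w → (p : ℤ) ∣ w.im := by
      intro w ⟨v, hv⟩
      obtain ⟨v', rfl⟩ := (eqvO hd h1).surjective v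
      rw [← map_natCast (eqvO hd h1), ← map_mul] at hv
      have := (eqvO hd h1).injective hv
      rw [this]
      exact ⟨v'.im, by simp⟩
    rcases hP.dvd_or_dvd (Dvd.intro _ hmul.symm) with h | h
    · have := key _ h
      simp only [hz] at this
      exact hp.one_lt.ne' (by exact_mod_cast Int.eq_one_of_dvd_one (by positivity) this)
    · have := key _ h
      simp only [hz, QuadraticAlgebra.im_star] at this
      exact hp.one_lt.ne' (by
        exact_mod_cast Int.eq_one_of_dvd_one (by positivity) ((dvd_neg).1 this))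
  · intro hno
    have hnu : ¬ IsUnit ((p : ℕ) : 𝓞 (KQ d)) := by
      intro hu
      obtain ⟨v, hv⟩ := hu.exists_right_inv
      obtain ⟨v', rfl⟩ := (eqvO hd h1).surjective v
      rw [← map_natCast (eqvO hd h1), ← map_mul] at hv
      have h1' := (eqvO hd h1).injective (hv.trans (map_one _).symm)
      have h2 := congrArg QuadraticAlgebra.re h1'
      simp at h2
      exact hp.one_lt.ne' (by
        exact_mod_cast Int.eq_one_of_dvd_one (by positivity) (Dvd.intro _ h2))
    obtain ⟨P, hPmax, hPle⟩ := Ideal.exists_le_maximal (Ideal.span {((p : ℕ) : 𝓞 (KQ d))})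
      (by rwa [Ne, Ideal.span_singleton_eq_top])
    have hPp : P.IsPrime := hPmax.isPrime
    have hpP : ((p : ℕ) : 𝓞 (KQ d)) ∈ P := hPle (Ideal.mem_span_singleton_self _)
    have he := eq_span_natCast hd h1 P hPp hp hpP (by
      rintro ⟨x, hx⟩
      apply hno
      have hnormP : (((⟨x, 1⟩ : QI d).norm : ℤ) : 𝓞 (KQ d)) ∈ P := by
        have e := congrArg (eqvO hd h1) (intCast_norm_QI (⟨x, 1⟩ : QI d))
        rw [map_intCast, map_mul] at e
        rw [e]
        exact P.mul_mem_right _ hx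
      obtain ⟨c, hc⟩ := dvd_of_intCast_mem P hPp p hp hpP _ hnormP
      refine ⟨2 * x + Bq d, c, ?_⟩
      rw [disc_eq_Dq, ← four_mul_norm_lin, hc]
      ring)
    rw [he] at hPp
    exact (Ideal.span_singleton_prime hp0).1 hPp

end OEX
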