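import Pool.Agent.OEX.St

/-!
# V: the values
-/

namespace OEX

theorem t_V : S_V := by
  intro D p m x hH hm hD hdvd
  by_cases h1 : m = 1
  · exact Or.inl h1
  right
  have key : ∀ r : ℕ, r.Prime → r ∣ m → r = p ∧ 4 * (r : ℤ) ^ 2 < D ∧ Sol D r := by
    intro r hr hrm
    have h2 : (r : ℤ) ≤ m := by exact_mod_cast Nat.le_of_dvd hm hrm
    have h3 : (0 : ℤ) ≤ r := Int.natCast_nonneg r
    have h4 : 4 * (r : ℤ) ^ 2 < D := by nlinarith
    have h5 : Sol D r := by
      refine ⟨x, (mul_dvd_mul_left 4 ?_).trans hdvd⟩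
      exact_mod_cast hrm
    refine ⟨?_, h4, h5⟩
    by_contra h6
    exact hH r hr h4 h6 h5
  obtain ⟨r, hr, hrm⟩ := Nat.exists_prime_and_dvd h1
  obtain ⟨rfl, h4, h5⟩ := key r hr hrm
  refine ⟨hr, h4, h5, m.primeFactorsList.length, ?_, ?_⟩
  · have : m.primeFactorsList ≠ [] := by
      intro h
      rcases (Nat.primeFactorsList_eq_nil m).1 h with h | h
      · omega
      · exact h1 h
    exact List.length_pos_iff.2 this
  · exact Nat.eq_prime_pow_of_unique_prime_dvd (by omega) fun {d} hd hdm => (key d hd hdm).1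

end OEX
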