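import Pool.Agent.OEX.KT0

/-!
From the checks of the ranges to the primes.
-/

namespace OEX.K

/-- the first family is covered for `p` -/
def Cv1 (p : ℕ) : Prop := ∀ q b n : ℕ, n = p - 1 ∨ n = p + 1 → q * b = n → Both 1000 p 5040 q b

/-- the second family is covered for `p` -/
def Cv2 (p : ℕ) : Prop := ∀ A m, Hit2 5041 p 5040 1 A m ∧ Hit2 5041 p 5040 (-1) A m

/-- the families are covered for `p` -/
def Cv (p : ℕ) : Prop := Cv1 p ∧ Cv2 p

lemma Hit2.mono {R R' p N : ℕ} {c : ℤ} {A m : ℕ} (hR : R ≤ R') (h : Hit2 R p N c A m) :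
    Hit2 R' p N c A m := by
  obtain ⟨r, hr, hs⟩ := h
  exact ⟨r, ⟨hr.prime, hr.two, hr.lt.trans_le hR, hr.pow⟩, hs⟩

/-- the primes below 317 -/
def L317 : List ℕ := [2, 3, 5, 7, 11, 13, 17, 19, 23, 29, 31, 37, 41, 43, 47, 53, 59, 61, 67, 71,
  73, 79, 83, 89, 97, 101, 103, 107, 109, 113, 127, 131, 137, 139, 149, 151, 157, 163, 167, 173,
  179, 181, 191, 193, 197, 199, 211, 223, 227, 229, 233, 239, 241, 251, 257, 263, 269, 271, 277,
  281, 283, 293, 307, 311, 313]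

lemma PR0_eq : PR0 = L317.prod := by decide +kernel

lemma gcd_PR0 {p : ℕ} (hp : p.Prime) (h : 317 ≤ p) : Nat.gcd p PR0 = 1 := by
  have h1 : Nat.Coprime p PR0 := by
    rw [Nat.Prime.coprime_iff_not_dvd hp, PR0_eq]
    intro h2
    rw [(Nat.Prime.prime hp).dvd_prod_iff] at h2
    obtain ⟨a, ha, hpa⟩ := h2
    have h3 : ∀ a ∈ L317, 0 < a ∧ a < 317 := by decide +kernel
    obtain ⟨h4, h5⟩ := h3 a ha
    have := Nat.le_of_dvd h4 hpa
    omega
  exact h1

theorem of_rng {k m n : ℕ} {bad : List ℕ} (h : rng PR0 (ckp SL0 bad k) m n = true)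
    (hn : n % 2 = 1) (h317 : 317 ≤ n) (hk : n + 2 * m ≤ k ^ 2) (hb : ∀ p ∈ bad, Cv2 p)
    {p : ℕ} (hp : p.Prime) (h1 : n ≤ p) (h2 : p < n + 2 * m) : Cv p := by
  have hodd : p % 2 = 1 := by
    rcases hp.eq_two_or_odd with h3 | h3
    · omega
    · exact h3
  obtain ⟨i, hi⟩ : ∃ i, p = n + 2 * i := ⟨(p - n) / 2, by omega⟩
  have h4 := rng_sound m n h i (by omega) (by rw [← hi]; exact gcd_PR0 hp (by omega))
  rw [← hi] at h4
  have h5 := ckp_sound tab_ok (by omega : 3 ≤ p) (by omega : p + 1 ≤ k ^ 2) h4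
  refine ⟨h5.1, ?_⟩
  rcases h5.2 with h6 | h6
  · exact hb p h6
  · exact fun A m => ⟨(h6 A m).1.mono (by norm_num), (h6 A m).2.mono (by norm_num)⟩

/-- the check of a list of primes -/
noncomputable def lck (bad : List ℕ) (k : ℕ) (L : List ℕ) : Bool :=
  @List.rec ℕ (fun _ => Bool) true (fun p _ ih => @Bool.rec (fun _ => Bool) false ih
    (ckp SL0 bad k p)) L

theorem of_lck {k : ℕ} {bad : List ℕ} (hb : ∀ p ∈ bad, Cv2 p) : ∀ L : List ℕ,
    lck bad k L = true → ∀ p ∈ L, 3 ≤ p → p + 1 ≤ k ^ 2 → Cv p := by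
  intro L
  induction L with
  | nil => intro _ p hp; simp at hp
  | cons q t ih =>
    intro h p hp h3 hk
    obtain ⟨h1, h2⟩ := brec_and.1 (show @Bool.rec (fun _ => Bool) false (lck bad k t)
      (ckp SL0 bad k q) = true from h)
    rcases List.mem_cons.1 hp with rfl | hp
    · have h5 := ckp_sound tab_ok h3 hk h1
      refine ⟨h5.1, ?_⟩
      rcases h5.2 with h6 | h6
      · exact hb p h6
      · exact fun A m => ⟨(h6 A m).1.mono (by norm_num), (h6 A m).2.mono (by norm_num)⟩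
    · exact ih h2 p hp h3 hk

/-- the check of `p = 2` -/
noncomputable def ck2 : Bool :=
  bld (nat_lit 2) (fun s => lvs (nat_lit 2) s (ckl [] (nat_lit 2) (nat_lit 8) (nat_lit 2))) SL0
    (S8.mk RL.nil RL.nil RL.nil RL.nil RL.nil RL.nil RL.nil RL.nil)

theorem of_ck2 (h : ck2 = true) : Cv 2 := by
  obtain ⟨s, hs, h1⟩ := bld_sound SL0 _ tab_ok
    (show Ok8 1000 2 (S8.mk RL.nil RL.nil RL.nil RL.nil RL.nil RL.nil RL.nil RL.nil) from
      ⟨trivial, trivial, trivial, trivial, trivial, trivial, trivial, trivial⟩) h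
  have h5 := ckl_sound (m1 := 3) hs (by norm_num) (Or.inr le_rfl) (by norm_num) (by norm_num) h1
  refine ⟨h5.1, ?_⟩
  rcases h5.2 with h6 | h6
  · simp at h6
  · exact fun A m => ⟨(h6 A m).1.mono (by norm_num), (h6 A m).2.mono (by norm_num)⟩

end OEX.K
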