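import Pool.Agent.OEX.Kill
import Pool.Agent.OEX.KRng
import Pool.Agent.OEX.CF1a

/-!
The first family, from the covering.
-/

namespace OEX.K

lemma mlp_sound {p q b w : ℕ} (hp : 0 < p) : ∀ f X : ℕ, mlp p q b w f X = true → ∀ j < f,
    X * p ^ j < 8192 →
    smk p (q * q * ((X * p ^ j) * (X * p ^ j)) + b * b + w * (X * p ^ j)) = true ∧
    smk p (q * q * ((X * p ^ j) * (X * p ^ j)) + b * b - w * (X * p ^ j)) = true := by
  intro f
  induction f with
  | zero => intro X _ j hj; omega
  | succ f ih =>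
    intro X h j hj hX
    rcases brec_or.1 (show @Bool.rec (fun _ => Bool)
      (@Bool.rec (fun _ => Bool) false (@Bool.rec (fun _ => Bool) false
        (mlp p q b w f (X * p)) (smk p (q * q * (X * X) + b * b - w * X)))
        (smk p (q * q * (X * X) + b * b + w * X)))
      true (Nat.ble 8192 X) = true from h) with h1 | h1
    · exfalso
      have h2 : 8192 ≤ X := Nat.le_of_ble_eq_true h1
      have : X ≤ X * p ^ j := Nat.le_mul_of_pos_right _ (Nat.pow_pos hp)
      omega
    · obtain ⟨h2, h3⟩ := brec_and.1 h1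
      obtain ⟨h4, h5⟩ := brec_and.1 h3
      rcases j with _ | j
      · simp only [pow_zero, mul_one]
        exact ⟨h2, h4⟩
      · have e : X * p * p ^ j = X * p ^ (j + 1) := by rw [pow_succ']; ring
        have := ih (X * p) h5 j (by omega) (by rw [e]; exact hX)
        rw [e] at this
        exact this

lemma qlp_sound {p n w : ℕ} : ∀ k, qlp p n w k = true → ∀ q b, 1 ≤ q → q ≤ k → q * b = n →
    mlp p q b w 13 p = true := by
  intro k
  induction k with
  | zero => intro _ q b h1 h2; omega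
  | succ k ih =>
    intro h q b h1 h2 hqb
    have h' : (@Nat.rec (fun _ => Bool)
      (@Bool.rec (fun _ => Bool) false (qlp p n w k) (mlp p (k + 1) (n / (k + 1)) w 13 p))
      (fun _ _ => qlp p n w k) (n % (k + 1))) = true := h
    have h3 : qlp p n w k = true ∧ (n % (k + 1) = 0 → mlp p (k + 1) (n / (k + 1)) w 13 p = true) := by
      cases hm : n % (k + 1) with
      | zero =>
        rw [hm] at h'
        obtain ⟨h4, h5⟩ := brec_and.1 h'
        exact ⟨h5, fun _ => h4⟩
      | succ x =>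
        rw [hm] at h'
        exact ⟨h', fun hh => absurd hh (Nat.succ_ne_zero _)⟩
    rcases Nat.lt_or_ge q (k + 1) with hlt | hge
    · exact ih h3.1 q b h1 (by omega) hqb
    · have e : q = k + 1 := by omega
      subst e
      have h4 : n % (k + 1) = 0 := by rw [← hqb]; exact Nat.mul_mod_right _ _
      have h5 : n / (k + 1) = b := by rw [← hqb]; exact Nat.mul_div_cancel_left _ (Nat.succ_pos _)
      have := h3.2 h4
      rwa [h5] at this

lemma plp_sound : ∀ L : List ℕ, plp L = true → ∀ p ∈ L,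
    qlp p (p + 1) (2 * p - 2) (p + 1) = true ∧ qlp p (p - 1) (2 * p + 2) (p - 1) = true := by
  intro L
  induction L with
  | nil => intro _ p hp; simp at hp
  | cons x t ih =>
    intro h p hp
    obtain ⟨h1, h2⟩ := brec_and.1 (show @Bool.rec (fun _ => Bool) false
      (@Bool.rec (fun _ => Bool) false (plp t) (qlp x (x - 1) (2 * x + 2) (x - 1)))
      (qlp x (x + 1) (2 * x - 2) (x + 1)) = true from h)
    obtain ⟨h3, h4⟩ := brec_and.1 h2
    rcases List.mem_cons.1 hp with rfl | hp
    · exact ⟨h1, h3⟩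
    · exact ih h4 p hp

/-- `n` is in the list, or it has a small divisor -/
noncomputable def dvk (n : ℕ) : Bool :=
  @Bool.rec (fun _ => Bool) (@List.rec ℕ (fun _ => Bool) false (fun q _ ih => @Bool.rec (fun _ => Bool)
    ih true (@Bool.rec (fun _ => Bool) false (Nat.ble (Nat.succ q) n) (Nat.beq (Nat.mod n q) 0)))
    [2, 3, 5, 7, 11, 13, 17, 19, 23, 29, 31]) true (lm n P1000)

lemma dvk_ok : ∀ n < 1000, 2 ≤ n → dvk n = true := by decide +kernel

lemma mem_P1000 : ∀ p < 1000, p.Prime → p ∈ P1000 := by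
  intro p hp1 hp
  have key : ∀ L : List ℕ, (∀ q ∈ L, 2 ≤ q) →
      (@List.rec ℕ (fun _ => Bool) false (fun q _ ih => @Bool.rec (fun _ => Bool)
        ih true (@Bool.rec (fun _ => Bool) false (Nat.ble (Nat.succ q) p) (Nat.beq (Nat.mod p q) 0)))
        L) = true → False := by
    intro L
    induction L with
    | nil => intro _ h; exact absurd h (by simp)
    | cons q t ih =>
      intro hL h
      rcases brec_or.1 h with h1 | h1
      · obtain ⟨h2, h3⟩ := brec_and.1 h1
        have h4 : p % q = 0 := Nat.eq_of_beq_eq_true h2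
        have h5 : q + 1 ≤ p := Nat.le_of_ble_eq_true h3
        have h6 := hL q List.mem_cons_self
        rcases (Nat.dvd_prime hp).1 (Nat.dvd_of_mod_eq_zero h4) with h7 | h7 <;> omega
      · exact ih (fun r hr => hL r (List.mem_cons_of_mem _ hr)) h1
  rcases brec_or.1 (show @Bool.rec (fun _ => Bool) _ true (lm p P1000) = true from
    dvk_ok p hp1 hp.two_le) with h | h
  · exact lm_sound _ h
  · exact (key [2, 3, 5, 7, 11, 13, 17, 19, 23, 29, 31] (by decide) h).elim

/-- small members of the first family -/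
lemma small1 {p q b X : ℕ} {e : ℤ} {m : ℕ} (hp : p.Prime) (hp1 : p < 1000) (hm : 1 ≤ m)
    (hX : X = p ^ m) (hX1 : X < 8192) (he : e = 1 ∨ e = -1) (hqb : (q : ℤ) * b = p - e) :
    ∃ w : ℕ, (w : ℤ) = 4 * p - 2 * (q * b) ∧
      smk p (q * q * (X * X) + b * b + w * X) = true ∧
      smk p (q * q * (X * X) + b * b - w * X) = true := by
  have hp2 := hp.two_le
  obtain ⟨h1, h2⟩ := plp_sound P1000 plp_ok p (mem_P1000 p hp1 hp)
  have hm13 : m - 1 < 13 := by
    by_contra hlt
    have h3 : 2 ^ 13 ≤ p ^ m := calc 2 ^ 13 ≤ p ^ 13 := Nat.pow_le_pow_left hp2 13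
      _ ≤ p ^ m := Nat.pow_le_pow_right (by omega) (by omega)
    rw [← hX] at h3
    omega
  have hXX : p * p ^ (m - 1) = X := by rw [hX, ← pow_succ', Nat.sub_add_cancel hm]
  have hq : 1 ≤ q := by
    rcases Nat.eq_zero_or_pos q with h | h
    · subst h
      simp at hqb
      rcases he with rfl | rfl <;> omega
    · exact h
  rcases he with rfl | rfl
  · have hn : q * b = p - 1 := by
      have : ((q * b : ℕ) : ℤ) = ((p - 1 : ℕ) : ℤ) := by push_cast [Nat.cast_sub hp.one_le]; exact hqb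
      exact_mod_cast this
    have hb : 0 < b := by
      rcases Nat.eq_zero_or_pos b with h | h
      · subst h; simp at hn; omega
      · exact h
    have hqn : q ≤ p - 1 := by rw [← hn]; exact Nat.le_mul_of_pos_right _ hb
    have h4 := mlp_sound (by omega) 13 p (qlp_sound _ h2 q b hq hqn hn) (m - 1) hm13
      (by rw [hXX]; exact hX1)
    rw [hXX] at h4
    exact ⟨2 * p + 2, by push_cast; rw [hqb]; ring, h4⟩
  · have hn : q * b = p + 1 := by
      have : ((q * b : ℕ) : ℤ) = ((p + 1 : ℕ) : ℤ) := by push_cast; linarith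
      exact_mod_cast this
    have hb : 0 < b := by
      rcases Nat.eq_zero_or_pos b with h | h
      · subst h; simp at hn
      · exact h
    have hqn : q ≤ p + 1 := by rw [← hn]; exact Nat.le_mul_of_pos_right _ hb
    have h4 := mlp_sound (by omega) 13 p (qlp_sound _ h1 q b hq hqn hn) (m - 1) hm13
      (by rw [hXX]; exact hX1)
    rw [hXX] at h4
    refine ⟨2 * p - 2, ?_, h4⟩
    push_cast [Nat.cast_sub (show 2 ≤ 2 * p by omega)]
    rw [hqb]; ring

/-- **the first family** -/
theorem cf1 (hcov : ∀ p, p.Prime → p < 100000 → Cv p) : S_CF1 := by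
  intro D p hp hpB h4p h100 hH hF
  obtain ⟨q, b, l, u, m, hm, hq, hl, hu, hqb, hD⟩ := hF
  have hp2 : (2 : ℤ) ≤ p := by exact_mod_cast hp.two_le
  -- natural numbers
  obtain ⟨q', rfl⟩ : ∃ q' : ℕ, q = q' := ⟨q.toNat, by rw [Int.toNat_of_nonneg (by linarith)]⟩
  obtain ⟨b', hb'⟩ : ∃ b' : ℕ, b = u * b' := by
    have h1 : 0 ≤ u * b := by
      have h2 : 0 < (q' : ℤ) * (u * b) := by
        have : (q' : ℤ) * (u * b) = p * (u * u) - u * l := by linear_combination u * hqb
        rw [this]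
        rcases hu with rfl | rfl <;> rcases hl with rfl | rfl <;> linarith
      by_contra h3
      have : (q' : ℤ) * (u * b) ≤ 0 := mul_nonpos_of_nonneg_of_nonpos (by linarith) (by linarith)
      linarith
    refine ⟨(u * b).toNat, ?_⟩
    rw [Int.toNat_of_nonneg h1]
    rcases hu with rfl | rfl <;> ring
  have huu : u * u = 1 := by rcases hu with rfl | rfl <;> norm_num
  have hqb' : (q' : ℤ) * b' = p - u * l := by
    have h1 : (q' : ℤ) * (u * b') = u * p - l := by rw [← hb']; exact hqb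
    linear_combination u * h1 - ((q' : ℤ) * b' - p) * huu
  have he : u * l = 1 ∨ u * l = -1 := by
    rcases hu with rfl | rfl <;> rcases hl with rfl | rfl <;> norm_num
  have hn : ∃ n : ℕ, (n = p - 1 ∨ n = p + 1) ∧ q' * b' = n := by
    rcases he with h | h
    · refine ⟨p - 1, Or.inl rfl, ?_⟩
      have : ((q' * b' : ℕ) : ℤ) = ((p - 1 : ℕ) : ℤ) := by
        push_cast [Nat.cast_sub hp.one_le]; rw [hqb', h]
      exact_mod_cast this
    · refine ⟨p + 1, Or.inr rfl, ?_⟩
      have : ((q' * b' : ℕ) : ℤ) = ((p + 1 : ℕ) : ℤ) := by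
        push_cast; rw [hqb', h]; ring
      exact_mod_cast this
  obtain ⟨n, hn1, hn2⟩ := hn
  obtain ⟨X, hX⟩ : ∃ X : ℕ, X = p ^ m := ⟨_, rfl⟩
  have hXc : (X : ℤ) = (p : ℤ) ^ m := by rw [hX]; push_cast; rfl
  rw [← hXc] at hD
  have hD2 : D = (q' : ℤ) ^ 2 * X ^ 2 + u * (4 * p - 2 * (q' * b')) * X + (b' : ℤ) ^ 2 := by
    rw [hD, hb', hqb']
    have h1 : (q' : ℤ) * (u * b') = u * p - l := by rw [← hb']; exact hqb
    linear_combination (2 * (X : ℤ)) * h1 + ((b' : ℤ) ^ 2 - 2 * l * X) * huu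
  have h4 : (4 : ℤ) ∣ D - ((q' : ℤ) * X + b) ^ 2 := ⟨l * X, by rw [hD]; ring⟩
  -- the prime
  obtain ⟨r, hr, hs⟩ := (hcov p hp hpB).1 q' b' n hn1 hn2 m u hu
  have hs' : IsSquare ((D : ℤ) : ZMod r) := by
    have e : ((D : ℤ) : ZMod r) = (((q' : ℤ) ^ 2 : ℤ) : ZMod r) * ((p : ZMod r) ^ m) ^ 2 +
        ((u * (4 * p - 2 * (q' * b')) : ℤ) : ZMod r) * (p : ZMod r) ^ m +
        (((b' : ℤ) ^ 2 : ℤ) : ZMod r) := by
      rw [hD2, hXc]; push_cast; ring
    rw [e]; exact hs
  have hbig := big_of_sq hH hr.prime hr.two (hr.ne (by norm_num)) h4 hs'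
  have hr1000 : (r : ℤ) < 1000 := by exact_mod_cast hr.lt
  have hr0 : (0 : ℤ) ≤ r := by positivity
  have hDs : D < 4000000 := by nlinarith
  have hp1000 : p < 1000 := by
    by_contra h
    have : (1000 : ℤ) ≤ p := by exact_mod_cast (not_lt.1 h)
    nlinarith
  have hq1 : (1 : ℤ) ≤ q' := hq
  have hb0 : (0 : ℤ) ≤ b' := by positivity
  have hbp : (b' : ℤ) ≤ 1000 := by
    have h1 : (b' : ℤ) ≤ q' * b' := by nlinarith
    have h2 : (p : ℤ) < 1000 := by exact_mod_cast hp1000
    rcases he with h | h <;> rw [hqb', h] at h1 <;> linarith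
  have hX1 : X < 8192 := by
    by_contra h
    have h1 : (8192 : ℤ) ≤ X := by exact_mod_cast (not_lt.1 h)
    have h2 : (q' : ℤ) * X + b ≥ X - 1000 := by
      have h3 : b ≥ -1000 := by
        rw [hb']
        rcases hu with rfl | rfl <;> linarith
      nlinarith
    have h5 : D ≥ (X - 1000) ^ 2 - 4 * X := by
      rw [hD]
      have h6 : ((q' : ℤ) * X + b) ^ 2 ≥ ((X : ℤ) - 1000) ^ 2 :=
        pow_le_pow_left₀ (by linarith) h2 2
      rcases hl with rfl | rfl <;> linarith
    nlinarith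
  -- the small members
  obtain ⟨w, hw, hs1, hs2⟩ := small1 (e := u * l) hp hp1000 hm hX hX1 he hqb'
  have hD0 : 0 < D := by linarith
  rcases hu with rfl | rfl
  · have e : D = ((q' * q' * (X * X) + b' * b' + w * X : ℕ) : ℤ) := by
      rw [hD2]; push_cast; rw [hw]; ring
    rw [e] at h100 h4p hH h4
    obtain ⟨n, hn, h⟩ := smk_sound hs1 h100 h4p hH h4
    exact ⟨n, hn, by rw [e]; exact h⟩
  · have hle : w * X ≤ q' * q' * (X * X) + b' * b' := by
      have : ((w * X : ℕ) : ℤ) ≤ ((q' * q' * (X * X) + b' * b' : ℕ) : ℤ) := by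
        push_cast; rw [hw]; nlinarith
      exact_mod_cast this
    have e : D = ((q' * q' * (X * X) + b' * b' - w * X : ℕ) : ℤ) := by
      rw [hD2]; push_cast [Nat.cast_sub hle]; rw [hw]; ring
    rw [e] at h100 h4p hH h4
    obtain ⟨n, hn, h⟩ := smk_sound hs2 h100 h4p hH h4
    exact ⟨n, hn, by rw [e]; exact h⟩

end OEX.K
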