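import Pool.Agent.OEX.Kill
import Pool.Agent.OEX.KRng

/-!
The second family.
-/

namespace OEX.K

/-- the discriminants of the second family which are too small for the covering -/
lemma cf2_small : ∀ p ∈ [2, 3, 5, 7, 11, 13, 17, 19, 23], ∀ A ∈ List.range 14,
    ∀ m ∈ List.range 12, ∀ s ∈ [(1 : ℤ), -1], ∀ l ∈ [(1 : ℤ), -1],
    1 ≤ m → m + 2 ≤ A → p ^ A < 16384 →
    smk p ((((p : ℕ) : ℤ) ^ A + s * ((p : ℕ) : ℤ) ^ m - l * s) ^ 2 +
      4 * l * ((p : ℕ) : ℤ) ^ m).toNat = true := by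
  decide +kernel

lemma cf2_primes : ∀ p ∈ List.range 26, p.Prime → p ∈ [2, 3, 5, 7, 11, 13, 17, 19, 23] := by
  decide +kernel

/-- `u` and `v` are powers with `4 u ≤ v` -/
lemma cf2_four {p m A : ℕ} (hp : 2 ≤ p) (h : m + 2 ≤ A) : 4 * p ^ m ≤ p ^ A := by
  calc 4 * p ^ m ≤ p ^ 2 * p ^ m := Nat.mul_le_mul_right _ (by nlinarith)
    _ = p ^ (2 + m) := (pow_add _ _ _).symm
    _ ≤ p ^ A := Nat.pow_le_pow_right (by omega) (by omega)

/-- the discriminant is large -/
lemma cf2_large {v u s l D : ℤ} (hu : 1 ≤ u) (h4 : 4 * u ≤ v) (hv : 16384 ≤ v) (hs : Sg s)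
    (hl : Sg l) (hD : D = (v + s * u - l * s) ^ 2 + 4 * l * u) : 4 * 5041 ^ 2 < D := by
  have h1 : 3 * v - 4 ≤ 4 * (v + s * u - l * s) := by
    rcases hs with rfl | rfl <;> rcases hl with rfl | rfl <;> linarith
  have h2 : -v ≤ 4 * l * u := by
    rcases hl with rfl | rfl <;> linarith
  have h3 : (3 * v - 4) ^ 2 ≤ (4 * (v + s * u - l * s)) ^ 2 :=
    pow_le_pow_left₀ (by linarith) h1 2
  have h5 : (3 * v - 4) ^ 2 ≤ 16 * (D + v) := by
    have : 16 * (D + v) = (4 * (v + s * u - l * s)) ^ 2 + 16 * (4 * l * u + v) := by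
      rw [hD]; ring
    rw [this]
    linarith
  nlinarith

/-- a power with exponent a multiple of the period less one -/
lemma cf2_inv {M : Type*} [CommMonoid M] {x : M} (hx : x ^ 5040 = 1) (k : ℕ) :
    x ^ (5039 * k) * x ^ k = 1 := by
  rw [← pow_add, show 5039 * k + k = 5040 * k by ring, pow_mul, hx, one_pow]

theorem cf2 (hcov : ∀ p, p.Prime → p < 100000 → Cv p) : S_CF2 := by
  intro D p hp hp5 h4p h100 hH hF
  obtain ⟨s, l, m, A, hm, hA, hs, hl, hD⟩ := hF
  have hp2 : 2 ≤ p := hp.two_le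
  have hu1 : 1 ≤ p ^ m := Nat.one_le_pow _ _ (by omega)
  have h4 : 4 * p ^ m ≤ p ^ A := cf2_four hp2 hA
  have hN4 : (4 : ℤ) ∣ D - ((p : ℤ) ^ A + s * (p : ℤ) ^ m - l * s) ^ 2 := by
    refine ⟨l * (p : ℤ) ^ m, ?_⟩
    rw [hD]; ring
  rcases Nat.lt_or_ge (p ^ A) 16384 with hsm | hlg
  · -- small
    have hA3 : 3 ≤ A := by omega
    have hp25 : p < 26 := by
      by_contra hc
      have h1 : 26 ^ 3 ≤ p ^ 3 := Nat.pow_le_pow_left (by omega) 3
      have h2 : p ^ 3 ≤ p ^ A := Nat.pow_le_pow_right (by omega) hA3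
      omega
    have hA14 : A < 14 := by
      by_contra hc
      have h1 : 2 ^ 14 ≤ 2 ^ A := Nat.pow_le_pow_right (by omega) (by omega)
      have h2 : 2 ^ A ≤ p ^ A := Nat.pow_le_pow_left hp2 A
      omega
    have hpl := cf2_primes p (List.mem_range.2 hp25) hp
    have key := cf2_small p hpl A (List.mem_range.2 hA14) m (List.mem_range.2 (by omega)) s
      (by rcases hs with rfl | rfl <;> simp) l (by rcases hl with rfl | rfl <;> simp) hm hA hsm
    rw [← hD] at key
    have hD0 : ((D.toNat : ℕ) : ℤ) = D := Int.toNat_of_nonneg (by linarith)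
    have h5 := smk_sound key (by rw [hD0]; exact h100) (by rw [hD0]; exact h4p)
      (by rw [hD0]; exact hH) (N := (p : ℤ) ^ A + s * (p : ℤ) ^ m - l * s) (by rw [hD0]; exact hN4)
    rw [hD0] at h5
    exact h5
  · exfalso
    have hbig : 4 * 5041 ^ 2 < D := by
      refine cf2_large (v := (p : ℤ) ^ A) (u := (p : ℤ) ^ m) ?_ ?_ ?_ hs hl hD
      · exact_mod_cast hu1
      · exact_mod_cast h4
      · exact_mod_cast hlg
    have hc := (hcov p hp hp5).2
    have fin : ∀ r, Ok 5041 p 5040 r → IsSquare ((D : ℤ) : ZMod r) → False := by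
      intro r hr hsq
      have h1 := big_of_sq hH hr.prime hr.two (hr.ne (by norm_num)) hN4 hsq
      have h2 : (r : ℤ) < 5041 := by exact_mod_cast hr.lt
      have h3 : (0 : ℤ) ≤ r := by positivity
      nlinarith
    rcases hs with rfl | rfl <;> rcases hl with rfl | rfl
    · -- (1, 1)
      obtain ⟨r, hr, x, hx⟩ := (hc (A + 5039 * m) (5039 * m)).2
      refine fin r hr ⟨x * (p : ZMod r) ^ m, ?_⟩
      have hi := cf2_inv hr.pow m
      have e : ((D : ℤ) : ZMod r) = (((p : ZMod r) ^ (A + 5039 * m) + (p : ZMod r) ^ (5039 * m) -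
          ((-1 : ℤ) : ZMod r)) ^ 2 - 4 * (p : ZMod r) ^ (A + 5039 * m) *
          (p : ZMod r) ^ (5039 * m)) * ((p : ZMod r) ^ m) ^ 2 := by
        rw [hD]
        push_cast
        rw [pow_add]
        generalize (p : ZMod r) ^ (5039 * m) = w at hi ⊢
        generalize (p : ZMod r) ^ m = u at hi ⊢
        generalize (p : ZMod r) ^ A = v
        have e1 : (v * w + w - -1) ^ 2 * u ^ 2 = (v * (w * u) + (w * u) + u) ^ 2 := by ring
        have e2 : 4 * (v * w) * w * u ^ 2 = 4 * v * (w * u) ^ 2 := by ring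
        rw [sub_mul, e1, e2, hi]
        ring
      rw [e, hx]; ring
    · -- (1, -1)
      obtain ⟨r, hr, x, hx⟩ := (hc (m + 5039 * A) (5039 * A)).2
      refine fin r hr ⟨x * (p : ZMod r) ^ A, ?_⟩
      have hi := cf2_inv hr.pow A
      have e : ((D : ℤ) : ZMod r) = (((p : ZMod r) ^ (m + 5039 * A) + (p : ZMod r) ^ (5039 * A) -
          ((-1 : ℤ) : ZMod r)) ^ 2 - 4 * (p : ZMod r) ^ (m + 5039 * A) *
          (p : ZMod r) ^ (5039 * A)) * ((p : ZMod r) ^ A) ^ 2 := by
        rw [hD]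
        push_cast
        rw [pow_add]
        generalize (p : ZMod r) ^ (5039 * A) = w at hi ⊢
        generalize (p : ZMod r) ^ m = u
        generalize (p : ZMod r) ^ A = v at hi ⊢
        have e1 : (u * w + w - -1) ^ 2 * v ^ 2 = (u * (w * v) + (w * v) + v) ^ 2 := by ring
        have e2 : 4 * (u * w) * w * v ^ 2 = 4 * u * (w * v) ^ 2 := by ring
        rw [sub_mul, e1, e2, hi]
        ring
      rw [e, hx]; ring
    · -- (-1, 1)
      obtain ⟨r, hr, hx⟩ := (hc A m).2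
      refine fin r hr ?_
      have e : ((D : ℤ) : ZMod r) = ((p : ZMod r) ^ A + (p : ZMod r) ^ m -
          ((-1 : ℤ) : ZMod r)) ^ 2 - 4 * (p : ZMod r) ^ A * (p : ZMod r) ^ m := by
        rw [hD]
        push_cast
        ring
      rw [e]; exact hx
    · -- (-1, -1)
      obtain ⟨r, hr, hx⟩ := (hc A m).1
      refine fin r hr ?_
      have e : ((D : ℤ) : ZMod r) = ((p : ZMod r) ^ A + (p : ZMod r) ^ m -
          ((1 : ℤ) : ZMod r)) ^ 2 - 4 * (p : ZMod r) ^ A * (p : ZMod r) ^ m := by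
        rw [hD]
        push_cast
        ring
      rw [e]; exact hx

end OEX.K
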