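import Pool.Agent.OEX.Kill
import Pool.Agent.OEX.KRng

/-!
The third family.
-/

namespace OEX.K

/-- the numbers `n, n + 1, …, n + k - 1` and `4 n² + 1` -/
noncomputable def lp3 (k : ℕ) : ℕ → Bool :=
  @Nat.rec (fun _ => ℕ → Bool) (fun _ => true) (fun _ ih n => @Bool.rec (fun _ => Bool) false
    (sv (Nat.succ n) ih) (smk n (Nat.succ (Nat.mul (nat_lit 4) (Nat.mul n n))))) k

lemma lp3_sound : ∀ k n : ℕ, lp3 k n = true → ∀ i < k, smk (n + i) (4 * ((n + i) * (n + i)) + 1) = true := by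
  intro k
  induction k with
  | zero => intro n _ i hi; omega
  | succ k ih =>
    intro n h i hi
    obtain ⟨h1, h2⟩ := brec_and.1 (show @Bool.rec (fun _ => Bool) false (lp3 k (n + 1))
      (smk n (4 * (n * n) + 1)) = true from h)
    rcases i with _ | i
    · exact h1
    · have := ih (n + 1) h2 i (by omega)
      rw [show n + (i + 1) = n + 1 + i by ring]
      exact this

theorem lp3_0 : lp3 (nat_lit 1000) (nat_lit 2) = true := by decide +kernel
theorem lp3_1 : lp3 (nat_lit 1000) (nat_lit 1002) = true := by decide +kernel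
theorem lp3_2 : lp3 (nat_lit 1000) (nat_lit 2002) = true := by decide +kernel
theorem lp3_3 : lp3 (nat_lit 1000) (nat_lit 3002) = true := by decide +kernel
theorem lp3_4 : lp3 (nat_lit 1039) (nat_lit 4002) = true := by decide +kernel

lemma cf3_one {n : ℕ} (h1 : 2 ≤ n) (h2 : n < 5041) : smk n (4 * (n * n) + 1) = true := by
  have go : ∀ a k : ℕ, lp3 k a = true → a ≤ n → n < a + k → smk n (4 * (n * n) + 1) = true := by
    intro a k h h3 h4
    have := lp3_sound k a h (n - a) (by omega)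
    rwa [Nat.add_sub_cancel' h3] at this
  rcases Nat.lt_or_ge n 1002 with h | h
  · exact go _ _ lp3_0 h1 h
  rcases Nat.lt_or_ge n 2002 with h3 | h3
  · exact go _ _ lp3_1 h h3
  rcases Nat.lt_or_ge n 3002 with h4 | h4
  · exact go _ _ lp3_2 h3 h4
  rcases Nat.lt_or_ge n 4002 with h5 | h5
  · exact go _ _ lp3_3 h4 h5
  · exact go _ _ lp3_4 h5 h2

lemma cf3_small : ∀ p ∈ [2, 3, 5, 7, 11, 13, 17, 19, 23, 29, 31, 37, 41, 43, 47, 53, 59, 61, 67, 71,
    73, 79, 83, 89, 97], ∀ e ∈ List.range 14, 2 ≤ e →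
    (p ^ e < 10082 → smk p (p ^ e * p ^ e + 4) = true) ∧
    (p ^ e < 5041 → smk p (4 * (p ^ e * p ^ e) + 1) = true) := by
  decide +kernel

lemma cf3_primes : ∀ p ∈ List.range 101, p.Prime → p ∈ [2, 3, 5, 7, 11, 13, 17, 19, 23, 29, 31, 37,
    41, 43, 47, 53, 59, 61, 67, 71, 73, 79, 83, 89, 97] := by
  decide +kernel

lemma cf3_mem {p e : ℕ} (hp : p.Prime) (he : 2 ≤ e) (h : p ^ e < 10082) :
    (p ^ e < 10082 → smk p (p ^ e * p ^ e + 4) = true) ∧
    (p ^ e < 5041 → smk p (4 * (p ^ e * p ^ e) + 1) = true) := by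
  have hp2 := hp.two_le
  have h1 : p < 101 := by
    by_contra hc
    have h2 : 101 ^ 2 ≤ p ^ 2 := Nat.pow_le_pow_left (by omega) 2
    have h3 : p ^ 2 ≤ p ^ e := Nat.pow_le_pow_right (by omega) he
    omega
  have h2 : e < 14 := by
    by_contra hc
    have h2 : 2 ^ 14 ≤ 2 ^ e := Nat.pow_le_pow_right (by omega) (by omega)
    have h3 : 2 ^ e ≤ p ^ e := Nat.pow_le_pow_left hp2 e
    omega
  exact cf3_small p (cf3_primes p (List.mem_range.2 h1) hp) e (List.mem_range.2 h2) he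

/-- **the third family** -/
theorem cf3 (hcov : ∀ p, p.Prime → p < 100000 → Cv p) : S_CF3 := by
  intro D p hp hp5 h4p h100 hH hF
  obtain ⟨e, he, hD⟩ := hF
  have hp2 : 2 ≤ p := hp.two_le
  have hc := (hcov p hp hp5).2
  obtain ⟨u, hu⟩ : ∃ u : ℕ, u = p ^ e := ⟨_, rfl⟩
  have huc : (p : ℤ) ^ e = u := by rw [hu]; push_cast; rfl
  have hu1 : 1 ≤ u := by rw [hu]; exact Nat.one_le_pow _ _ (by omega)
  have fin : ∀ N : ℤ, (4 : ℤ) ∣ D - N ^ 2 → (∃ r, Ok 5041 p 5040 r ∧ IsSquare ((D : ℤ) : ZMod r)) →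
      D ≤ 4 * 5040 ^ 2 := by
    rintro N hN ⟨r, hr, hsq⟩
    have h1 := big_of_sq hH hr.prime hr.two (hr.ne (by norm_num)) hN hsq
    have h2 : (r : ℤ) ≤ 5040 := by have := hr.lt; omega
    have h3 : (0 : ℤ) ≤ r := by positivity
    nlinarith
  rcases hD with hD | hD
  · -- `u² + 4`
    rw [huc] at hD
    have h4 : (4 : ℤ) ∣ D - (u : ℤ) ^ 2 := ⟨1, by rw [hD]; ring⟩
    have hle : D ≤ 4 * 5040 ^ 2 := by
      refine fin u h4 ?_
      obtain ⟨r, hr, hx⟩ := (hc e 0).2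
      refine ⟨r, hr, ?_⟩
      have e1 : ((D : ℤ) : ZMod r) = ((p : ZMod r) ^ e + (p : ZMod r) ^ 0 -
          ((-1 : ℤ) : ZMod r)) ^ 2 - 4 * (p : ZMod r) ^ e * (p : ZMod r) ^ 0 := by
        rw [hD, hu]
        push_cast
        ring
      rw [e1]; exact hx
    have hub : u < 10082 := by
      by_contra hcn
      have : (10082 : ℤ) ≤ u := by exact_mod_cast (not_lt.1 hcn)
      nlinarith
    have he2 : 2 ≤ e := by
      by_contra hcn
      have he1 : e = 1 := by omega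
      have : (u : ℤ) = p := by rw [← huc, he1, pow_one]
      rw [hD, this] at h4p
      have : (2 : ℤ) ≤ p := by exact_mod_cast hp2
      nlinarith
    have key := (cf3_mem hp he2 (by rw [← hu]; exact hub)).1 (by rw [← hu]; exact hub)
    rw [← hu] at key
    have e2 : D = ((u * u + 4 : ℕ) : ℤ) := by rw [hD]; push_cast; ring
    rw [e2] at h100 h4p hH h4
    obtain ⟨n, hn, h⟩ := smk_sound key h100 h4p hH h4
    exact ⟨n, hn, by rw [e2]; exact h⟩
  · -- `4 u² + 1`
    rw [huc] at hD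
    have h4 : (4 : ℤ) ∣ D - (1 : ℤ) ^ 2 := ⟨(u : ℤ) ^ 2, by rw [hD]; ring⟩
    have hle : D ≤ 4 * 5040 ^ 2 := by
      refine fin 1 h4 ?_
      obtain ⟨r, hr, x, hx⟩ := (hc 0 (5039 * e)).2
      refine ⟨r, hr, x * (p : ZMod r) ^ e, ?_⟩
      have hi : (p : ZMod r) ^ (5039 * e) * (p : ZMod r) ^ e = 1 := by
        rw [← pow_add, show 5039 * e + e = 5040 * e by ring, pow_mul, hr.pow, one_pow]
      have e1 : ((D : ℤ) : ZMod r) = (((p : ZMod r) ^ 0 + (p : ZMod r) ^ (5039 * e) -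
          ((-1 : ℤ) : ZMod r)) ^ 2 - 4 * (p : ZMod r) ^ 0 * (p : ZMod r) ^ (5039 * e)) *
          ((p : ZMod r) ^ e) ^ 2 := by
        rw [hD, hu]
        push_cast
        generalize (p : ZMod r) ^ (5039 * e) = w at hi ⊢
        generalize (p : ZMod r) ^ e = y at hi ⊢
        have e3 : ((y ^ 0 + w - -1) ^ 2 - 4 * y ^ 0 * w) * y ^ 2 = (w * y) ^ 2 + 4 * y ^ 2 := by ring
        have e4 : ((p : ZMod r) ^ 0 + w - -1) ^ 2 - 4 * (p : ZMod r) ^ 0 * w = w ^ 2 + 4 := by ring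
        rw [e4]
        linear_combination (-(w * y) - 1) * hi
      rw [e1, hx]; ring
    have hub : u < 5041 := by
      by_contra hcn
      have : (5041 : ℤ) ≤ u := by exact_mod_cast (not_lt.1 hcn)
      nlinarith
    have key : smk p (4 * (u * u) + 1) = true := by
      rcases Nat.lt_or_ge e 2 with he2 | he2
      · have he1 : e = 1 := by omega
        have hup : u = p := by rw [hu, he1, pow_one]
        rw [hup] at hub ⊢
        exact cf3_one hp2 hub
      · rw [hu] at hub ⊢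
        exact (cf3_mem hp he2 (by omega)).2 hub
    have e2 : D = ((4 * (u * u) + 1 : ℕ) : ℤ) := by rw [hD]; push_cast; ring
    rw [e2] at h100 h4p hH h4
    obtain ⟨n, hn, h⟩ := smk_sound key h100 h4p hH h4
    exact ⟨n, hn, by rw [e2]; exact h⟩

end OEX.K
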