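import Pool.Agent.OEX.KAll
import Pool.Agent.OEX.CF1
import Pool.Agent.OEX.CF2
import Pool.Agent.OEX.CF3

/-!
The three families below `100000`.
-/

namespace OEX

theorem t_CF1 : S_CF1 := K.cf1 K.cov

theorem t_CF2 : S_CF2 := K.cf2 K.cov

theorem t_CF3 : S_CF3 := K.cf3 K.cov

end OEX
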