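import Pool.Agent.OEX.KBad

/-!
The primes between 0 and 10000.
-/

namespace OEX.K

theorem r0_0 : rng PR0 (ckp SL0 [] (nat_lit 23)) (nat_lit 92) (nat_lit 317) = true := by
  decide +kernel

theorem r0_1 : rng PR0 (ckp SL0 [nat_lit 883] (nat_lit 32)) (nat_lit 250) (nat_lit 501) = true := by
  decide +kernel

theorem r0_2 : rng PR0 (ckp SL0 [nat_lit 1093, nat_lit 1163] (nat_lit 39)) (nat_lit 250) (nat_lit 1001) = true := by
  decide +kernel

theorem r0_3 : rng PR0 (ckp SL0 [] (nat_lit 45)) (nat_lit 250) (nat_lit 1501) = true := by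
  decide +kernel

theorem r0_4 : rng PR0 (ckp SL0 [nat_lit 2351] (nat_lit 51)) (nat_lit 250) (nat_lit 2001) = true := by
  decide +kernel

theorem r0_5 : rng PR0 (ckp SL0 [nat_lit 2663, nat_lit 2753] (nat_lit 55)) (nat_lit 250) (nat_lit 2501) = true := by
  decide +kernel

theorem r0_6 : rng PR0 (ckp SL0 [] (nat_lit 60)) (nat_lit 250) (nat_lit 3001) = true := by
  decide +kernel

theorem r0_7 : rng PR0 (ckp SL0 [] (nat_lit 64)) (nat_lit 250) (nat_lit 3501) = true := by
  decide +kernel

theorem r0_8 : rng PR0 (ckp SL0 [nat_lit 4007, nat_lit 4133, nat_lit 4493] (nat_lit 68)) (nat_lit 250) (nat_lit 4001) = true := by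
  decide +kernel

theorem r0_9 : rng PR0 (ckp SL0 [] (nat_lit 71)) (nat_lit 250) (nat_lit 4501) = true := by
  decide +kernel

theorem r0_10 : rng PR0 (ckp SL0 [] (nat_lit 75)) (nat_lit 250) (nat_lit 5001) = true := by
  decide +kernel

theorem r0_11 : rng PR0 (ckp SL0 [] (nat_lit 78)) (nat_lit 250) (nat_lit 5501) = true := by
  decide +kernel

theorem r0_12 : rng PR0 (ckp SL0 [] (nat_lit 81)) (nat_lit 250) (nat_lit 6001) = true := by
  decide +kernel

theorem r0_13 : rng PR0 (ckp SL0 [] (nat_lit 84)) (nat_lit 250) (nat_lit 6501) = true := by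
  decide +kernel

theorem r0_14 : rng PR0 (ckp SL0 [] (nat_lit 87)) (nat_lit 250) (nat_lit 7001) = true := by
  decide +kernel

theorem r0_15 : rng PR0 (ckp SL0 [] (nat_lit 90)) (nat_lit 250) (nat_lit 7501) = true := by
  decide +kernel

theorem r0_16 : rng PR0 (ckp SL0 [] (nat_lit 93)) (nat_lit 250) (nat_lit 8001) = true := by
  decide +kernel

theorem r0_17 : rng PR0 (ckp SL0 [] (nat_lit 95)) (nat_lit 250) (nat_lit 8501) = true := by
  decide +kernel

theorem r0_18 : rng PR0 (ckp SL0 [] (nat_lit 98)) (nat_lit 250) (nat_lit 9001) = true := by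
  decide +kernel

theorem r0_19 : rng PR0 (ckp SL0 [] (nat_lit 101)) (nat_lit 250) (nat_lit 9501) = true := by
  decide +kernel

/-- the primes of this file -/
theorem cov0 : ∀ p : ℕ, p.Prime → 317 ≤ p → p < 10001 → Cv p := by
  intro p hp h1 h2
  rcases Nat.lt_or_ge p 501 with h | h1
  · exact of_rng r0_0 (by norm_num) (by norm_num) (by norm_num) (bad_sub (by decide +kernel)) hp h1 h
  rcases Nat.lt_or_ge p 1001 with h | h1
  · exact of_rng r0_1 (by norm_num) (by norm_num) (by norm_num) (bad_sub (by decide +kernel)) hp h1 h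
  rcases Nat.lt_or_ge p 1501 with h | h1
  · exact of_rng r0_2 (by norm_num) (by norm_num) (by norm_num) (bad_sub (by decide +kernel)) hp h1 h
  rcases Nat.lt_or_ge p 2001 with h | h1
  · exact of_rng r0_3 (by norm_num) (by norm_num) (by norm_num) (bad_sub (by decide +kernel)) hp h1 h
  rcases Nat.lt_or_ge p 2501 with h | h1
  · exact of_rng r0_4 (by norm_num) (by norm_num) (by norm_num) (bad_sub (by decide +kernel)) hp h1 h
  rcases Nat.lt_or_ge p 3001 with h | h1
  · exact of_rng r0_5 (by norm_num) (by norm_num) (by norm_num) (bad_sub (by decide +kernel)) hp h1 h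
  rcases Nat.lt_or_ge p 3501 with h | h1
  · exact of_rng r0_6 (by norm_num) (by norm_num) (by norm_num) (bad_sub (by decide +kernel)) hp h1 h
  rcases Nat.lt_or_ge p 4001 with h | h1
  · exact of_rng r0_7 (by norm_num) (by norm_num) (by norm_num) (bad_sub (by decide +kernel)) hp h1 h
  rcases Nat.lt_or_ge p 4501 with h | h1
  · exact of_rng r0_8 (by norm_num) (by norm_num) (by norm_num) (bad_sub (by decide +kernel)) hp h1 h
  rcases Nat.lt_or_ge p 5001 with h | h1
  · exact of_rng r0_9 (by norm_num) (by norm_num) (by norm_num) (bad_sub (by decide +kernel)) hp h1 h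
  rcases Nat.lt_or_ge p 5501 with h | h1
  · exact of_rng r0_10 (by norm_num) (by norm_num) (by norm_num) (bad_sub (by decide +kernel)) hp h1 h
  rcases Nat.lt_or_ge p 6001 with h | h1
  · exact of_rng r0_11 (by norm_num) (by norm_num) (by norm_num) (bad_sub (by decide +kernel)) hp h1 h
  rcases Nat.lt_or_ge p 6501 with h | h1
  · exact of_rng r0_12 (by norm_num) (by norm_num) (by norm_num) (bad_sub (by decide +kernel)) hp h1 h
  rcases Nat.lt_or_ge p 7001 with h | h1
  · exact of_rng r0_13 (by norm_num) (by norm_num) (by norm_num) (bad_sub (by decide +kernel)) hp h1 h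
  rcases Nat.lt_or_ge p 7501 with h | h1
  · exact of_rng r0_14 (by norm_num) (by norm_num) (by norm_num) (bad_sub (by decide +kernel)) hp h1 h
  rcases Nat.lt_or_ge p 8001 with h | h1
  · exact of_rng r0_15 (by norm_num) (by norm_num) (by norm_num) (bad_sub (by decide +kernel)) hp h1 h
  rcases Nat.lt_or_ge p 8501 with h | h1
  · exact of_rng r0_16 (by norm_num) (by norm_num) (by norm_num) (bad_sub (by decide +kernel)) hp h1 h
  rcases Nat.lt_or_ge p 9001 with h | h1
  · exact of_rng r0_17 (by norm_num) (by norm_num) (by norm_num) (bad_sub (by decide +kernel)) hp h1 h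
  rcases Nat.lt_or_ge p 9501 with h | h1
  · exact of_rng r0_18 (by norm_num) (by norm_num) (by norm_num) (bad_sub (by decide +kernel)) hp h1 h
  exact of_rng r0_19 (by norm_num) (by norm_num) (by norm_num) (bad_sub (by decide +kernel)) hp h1 h2

end OEX.K
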