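import Pool.Agent.OEX.KBad

/-!
The primes between 10000 and 20000.
-/

namespace OEX.K

theorem r1_0 : rng PR0 (ckp SL0 [nat_lit 10453] (nat_lit 103)) (nat_lit 250) (nat_lit 10001) = true := by
  decide +kernel

theorem r1_1 : rng PR0 (ckp SL0 [nat_lit 10723] (nat_lit 105)) (nat_lit 250) (nat_lit 10501) = true := by
  decide +kernel

theorem r1_2 : rng PR0 (ckp SL0 [nat_lit 11423] (nat_lit 108)) (nat_lit 250) (nat_lit 11001) = true := by
  decide +kernel

theorem r1_3 : rng PR0 (ckp SL0 [] (nat_lit 110)) (nat_lit 250) (nat_lit 11501) = true := by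
  decide +kernel

theorem r1_4 : rng PR0 (ckp SL0 [nat_lit 12433] (nat_lit 112)) (nat_lit 250) (nat_lit 12001) = true := by
  decide +kernel

theorem r1_5 : rng PR0 (ckp SL0 [nat_lit 12853] (nat_lit 115)) (nat_lit 250) (nat_lit 12501) = true := by
  decide +kernel

theorem r1_6 : rng PR0 (ckp SL0 [nat_lit 13093] (nat_lit 117)) (nat_lit 250) (nat_lit 13001) = true := by
  decide +kernel

theorem r1_7 : rng PR0 (ckp SL0 [] (nat_lit 119)) (nat_lit 250) (nat_lit 13501) = true := by
  decide +kernel

theorem r1_8 : rng PR0 (ckp SL0 [] (nat_lit 121)) (nat_lit 250) (nat_lit 14001) = true := by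
  decide +kernel

theorem r1_9 : rng PR0 (ckp SL0 [nat_lit 14533, nat_lit 14813] (nat_lit 123)) (nat_lit 250) (nat_lit 14501) = true := by
  decide +kernel

theorem r1_10 : rng PR0 (ckp SL0 [] (nat_lit 125)) (nat_lit 250) (nat_lit 15001) = true := by
  decide +kernel

theorem r1_11 : rng PR0 (ckp SL0 [nat_lit 15527, nat_lit 15797] (nat_lit 127)) (nat_lit 250) (nat_lit 15501) = true := by
  decide +kernel

theorem r1_12 : rng PR0 (ckp SL0 [] (nat_lit 129)) (nat_lit 250) (nat_lit 16001) = true := by
  decide +kernel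

theorem r1_13 : rng PR0 (ckp SL0 [] (nat_lit 131)) (nat_lit 250) (nat_lit 16501) = true := by
  decide +kernel

theorem r1_14 : rng PR0 (ckp SL0 [nat_lit 17387] (nat_lit 133)) (nat_lit 250) (nat_lit 17001) = true := by
  decide +kernel

theorem r1_15 : rng PR0 (ckp SL0 [nat_lit 17987] (nat_lit 135)) (nat_lit 250) (nat_lit 17501) = true := by
  decide +kernel

theorem r1_16 : rng PR0 (ckp SL0 [] (nat_lit 137)) (nat_lit 250) (nat_lit 18001) = true := by
  decide +kernel

theorem r1_17 : rng PR0 (ckp SL0 [nat_lit 18713] (nat_lit 138)) (nat_lit 250) (nat_lit 18501) = true := by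
  decide +kernel

theorem r1_18 : rng PR0 (ckp SL0 [] (nat_lit 140)) (nat_lit 250) (nat_lit 19001) = true := by
  decide +kernel

theorem r1_19 : rng PR0 (ckp SL0 [] (nat_lit 142)) (nat_lit 250) (nat_lit 19501) = true := by
  decide +kernel

/-- the primes of this file -/
theorem cov1 : ∀ p : ℕ, p.Prime → 10001 ≤ p → p < 20001 → Cv p := by
  intro p hp h1 h2
  rcases Nat.lt_or_ge p 10501 with h | h1
  · exact of_rng r1_0 (by norm_num) (by norm_num) (by norm_num) (bad_sub (by decide +kernel)) hp h1 h
  rcases Nat.lt_or_ge p 11001 with h | h1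
  · exact of_rng r1_1 (by norm_num) (by norm_num) (by norm_num) (bad_sub (by decide +kernel)) hp h1 h
  rcases Nat.lt_or_ge p 11501 with h | h1
  · exact of_rng r1_2 (by norm_num) (by norm_num) (by norm_num) (bad_sub (by decide +kernel)) hp h1 h
  rcases Nat.lt_or_ge p 12001 with h | h1
  · exact of_rng r1_3 (by norm_num) (by norm_num) (by norm_num) (bad_sub (by decide +kernel)) hp h1 h
  rcases Nat.lt_or_ge p 12501 with h | h1
  · exact of_rng r1_4 (by norm_num) (by norm_num) (by norm_num) (bad_sub (by decide +kernel)) hp h1 h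
  rcases Nat.lt_or_ge p 13001 with h | h1
  · exact of_rng r1_5 (by norm_num) (by norm_num) (by norm_num) (bad_sub (by decide +kernel)) hp h1 h
  rcases Nat.lt_or_ge p 13501 with h | h1
  · exact of_rng r1_6 (by norm_num) (by norm_num) (by norm_num) (bad_sub (by decide +kernel)) hp h1 h
  rcases Nat.lt_or_ge p 14001 with h | h1
  · exact of_rng r1_7 (by norm_num) (by norm_num) (by norm_num) (bad_sub (by decide +kernel)) hp h1 h
  rcases Nat.lt_or_ge p 14501 with h | h1
  · exact of_rng r1_8 (by norm_num) (by norm_num) (by norm_num) (bad_sub (by decide +kernel)) hp h1 h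
  rcases Nat.lt_or_ge p 15001 with h | h1
  · exact of_rng r1_9 (by norm_num) (by norm_num) (by norm_num) (bad_sub (by decide +kernel)) hp h1 h
  rcases Nat.lt_or_ge p 15501 with h | h1
  · exact of_rng r1_10 (by norm_num) (by norm_num) (by norm_num) (bad_sub (by decide +kernel)) hp h1 h
  rcases Nat.lt_or_ge p 16001 with h | h1
  · exact of_rng r1_11 (by norm_num) (by norm_num) (by norm_num) (bad_sub (by decide +kernel)) hp h1 h
  rcases Nat.lt_or_ge p 16501 with h | h1
  · exact of_rng r1_12 (by norm_num) (by norm_num) (by norm_num) (bad_sub (by decide +kernel)) hp h1 h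
  rcases Nat.lt_or_ge p 17001 with h | h1
  · exact of_rng r1_13 (by norm_num) (by norm_num) (by norm_num) (bad_sub (by decide +kernel)) hp h1 h
  rcases Nat.lt_or_ge p 17501 with h | h1
  · exact of_rng r1_14 (by norm_num) (by norm_num) (by norm_num) (bad_sub (by decide +kernel)) hp h1 h
  rcases Nat.lt_or_ge p 18001 with h | h1
  · exact of_rng r1_15 (by norm_num) (by norm_num) (by norm_num) (bad_sub (by decide +kernel)) hp h1 h
  rcases Nat.lt_or_ge p 18501 with h | h1
  · exact of_rng r1_16 (by norm_num) (by norm_num) (by norm_num) (bad_sub (by decide +kernel)) hp h1 h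
  rcases Nat.lt_or_ge p 19001 with h | h1
  · exact of_rng r1_17 (by norm_num) (by norm_num) (by norm_num) (bad_sub (by decide +kernel)) hp h1 h
  rcases Nat.lt_or_ge p 19501 with h | h1
  · exact of_rng r1_18 (by norm_num) (by norm_num) (by norm_num) (bad_sub (by decide +kernel)) hp h1 h
  exact of_rng r1_19 (by norm_num) (by norm_num) (by norm_num) (bad_sub (by decide +kernel)) hp h1 h2

end OEX.K
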