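import Pool.Agent.OEX.KBad

/-!
The primes between 20000 and 30000.
-/

namespace OEX.K

theorem r2_0 : rng PR0 (ckp SL0 [nat_lit 20123, nat_lit 20323] (nat_lit 144)) (nat_lit 250) (nat_lit 20001) = true := by
  decide +kernel

theorem r2_1 : rng PR0 (ckp SL0 [nat_lit 20717] (nat_lit 145)) (nat_lit 250) (nat_lit 20501) = true := by
  decide +kernel

theorem r2_2 : rng PR0 (ckp SL0 [] (nat_lit 147)) (nat_lit 250) (nat_lit 21001) = true := by
  decide +kernel

theorem r2_3 : rng PR0 (ckp SL0 [nat_lit 21557, nat_lit 21617] (nat_lit 149)) (nat_lit 250) (nat_lit 21501) = true := by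
  decide +kernel

theorem r2_4 : rng PR0 (ckp SL0 [] (nat_lit 151)) (nat_lit 250) (nat_lit 22001) = true := by
  decide +kernel

theorem r2_5 : rng PR0 (ckp SL0 [nat_lit 22643, nat_lit 22853, nat_lit 22973] (nat_lit 152)) (nat_lit 250) (nat_lit 22501) = true := by
  decide +kernel

theorem r2_6 : rng PR0 (ckp SL0 [nat_lit 23053] (nat_lit 154)) (nat_lit 250) (nat_lit 23001) = true := by
  decide +kernel

theorem r2_7 : rng PR0 (ckp SL0 [] (nat_lit 155)) (nat_lit 250) (nat_lit 23501) = true := by
  decide +kernel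

theorem r2_8 : rng PR0 (ckp SL0 [nat_lit 24337] (nat_lit 157)) (nat_lit 250) (nat_lit 24001) = true := by
  decide +kernel

theorem r2_9 : rng PR0 (ckp SL0 [nat_lit 24971] (nat_lit 159)) (nat_lit 250) (nat_lit 24501) = true := by
  decide +kernel

theorem r2_10 : rng PR0 (ckp SL0 [nat_lit 25373, nat_lit 25391] (nat_lit 160)) (nat_lit 250) (nat_lit 25001) = true := by
  decide +kernel

theorem r2_11 : rng PR0 (ckp SL0 [] (nat_lit 162)) (nat_lit 250) (nat_lit 25501) = true := by
  decide +kernel

theorem r2_12 : rng PR0 (ckp SL0 [] (nat_lit 163)) (nat_lit 250) (nat_lit 26001) = true := by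
  decide +kernel

theorem r2_13 : rng PR0 (ckp SL0 [] (nat_lit 165)) (nat_lit 250) (nat_lit 26501) = true := by
  decide +kernel

theorem r2_14 : rng PR0 (ckp SL0 [] (nat_lit 166)) (nat_lit 250) (nat_lit 27001) = true := by
  decide +kernel

theorem r2_15 : rng PR0 (ckp SL0 [nat_lit 27737] (nat_lit 168)) (nat_lit 250) (nat_lit 27501) = true := by
  decide +kernel

theorem r2_16 : rng PR0 (ckp SL0 [nat_lit 28057, nat_lit 28393] (nat_lit 169)) (nat_lit 250) (nat_lit 28001) = true := by
  decide +kernel

theorem r2_17 : rng PR0 (ckp SL0 [nat_lit 28867] (nat_lit 171)) (nat_lit 250) (nat_lit 28501) = true := by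
  decide +kernel

theorem r2_18 : rng PR0 (ckp SL0 [nat_lit 29483] (nat_lit 172)) (nat_lit 250) (nat_lit 29001) = true := by
  decide +kernel

theorem r2_19 : rng PR0 (ckp SL0 [] (nat_lit 174)) (nat_lit 250) (nat_lit 29501) = true := by
  decide +kernel

/-- the primes of this file -/
theorem cov2 : ∀ p : ℕ, p.Prime → 20001 ≤ p → p < 30001 → Cv p := by
  intro p hp h1 h2
  rcases Nat.lt_or_ge p 20501 with h | h1
  · exact of_rng r2_0 (by norm_num) (by norm_num) (by norm_num) (bad_sub (by decide +kernel)) hp h1 h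
  rcases Nat.lt_or_ge p 21001 with h | h1
  · exact of_rng r2_1 (by norm_num) (by norm_num) (by norm_num) (bad_sub (by decide +kernel)) hp h1 h
  rcases Nat.lt_or_ge p 21501 with h | h1
  · exact of_rng r2_2 (by norm_num) (by norm_num) (by norm_num) (bad_sub (by decide +kernel)) hp h1 h
  rcases Nat.lt_or_ge p 22001 with h | h1
  · exact of_rng r2_3 (by norm_num) (by norm_num) (by norm_num) (bad_sub (by decide +kernel)) hp h1 h
  rcases Nat.lt_or_ge p 22501 with h | h1
  · exact of_rng r2_4 (by norm_num) (by norm_num) (by norm_num) (bad_sub (by decide +kernel)) hp h1 h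
  rcases Nat.lt_or_ge p 23001 with h | h1
  · exact of_rng r2_5 (by norm_num) (by norm_num) (by norm_num) (bad_sub (by decide +kernel)) hp h1 h
  rcases Nat.lt_or_ge p 23501 with h | h1
  · exact of_rng r2_6 (by norm_num) (by norm_num) (by norm_num) (bad_sub (by decide +kernel)) hp h1 h
  rcases Nat.lt_or_ge p 24001 with h | h1
  · exact of_rng r2_7 (by norm_num) (by norm_num) (by norm_num) (bad_sub (by decide +kernel)) hp h1 h
  rcases Nat.lt_or_ge p 24501 with h | h1
  · exact of_rng r2_8 (by norm_num) (by norm_num) (by norm_num) (bad_sub (by decide +kernel)) hp h1 h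
  rcases Nat.lt_or_ge p 25001 with h | h1
  · exact of_rng r2_9 (by norm_num) (by norm_num) (by norm_num) (bad_sub (by decide +kernel)) hp h1 h
  rcases Nat.lt_or_ge p 25501 with h | h1
  · exact of_rng r2_10 (by norm_num) (by norm_num) (by norm_num) (bad_sub (by decide +kernel)) hp h1 h
  rcases Nat.lt_or_ge p 26001 with h | h1
  · exact of_rng r2_11 (by norm_num) (by norm_num) (by norm_num) (bad_sub (by decide +kernel)) hp h1 h
  rcases Nat.lt_or_ge p 26501 with h | h1
  · exact of_rng r2_12 (by norm_num) (by norm_num) (by norm_num) (bad_sub (by decide +kernel)) hp h1 h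
  rcases Nat.lt_or_ge p 27001 with h | h1
  · exact of_rng r2_13 (by norm_num) (by norm_num) (by norm_num) (bad_sub (by decide +kernel)) hp h1 h
  rcases Nat.lt_or_ge p 27501 with h | h1
  · exact of_rng r2_14 (by norm_num) (by norm_num) (by norm_num) (bad_sub (by decide +kernel)) hp h1 h
  rcases Nat.lt_or_ge p 28001 with h | h1
  · exact of_rng r2_15 (by norm_num) (by norm_num) (by norm_num) (bad_sub (by decide +kernel)) hp h1 h
  rcases Nat.lt_or_ge p 28501 with h | h1
  · exact of_rng r2_16 (by norm_num) (by norm_num) (by norm_num) (bad_sub (by decide +kernel)) hp h1 h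
  rcases Nat.lt_or_ge p 29001 with h | h1
  · exact of_rng r2_17 (by norm_num) (by norm_num) (by norm_num) (bad_sub (by decide +kernel)) hp h1 h
  rcases Nat.lt_or_ge p 29501 with h | h1
  · exact of_rng r2_18 (by norm_num) (by norm_num) (by norm_num) (bad_sub (by decide +kernel)) hp h1 h
  exact of_rng r2_19 (by norm_num) (by norm_num) (by norm_num) (bad_sub (by decide +kernel)) hp h1 h2

end OEX.K
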