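import Pool.Agent.OEX.KBad

/-!
The primes between 30000 and 40000.
-/

namespace OEX.K

theorem r3_0 : rng PR0 (ckp SL0 [nat_lit 30187] (nat_lit 175)) (nat_lit 250) (nat_lit 30001) = true := by
  decide +kernel

theorem r3_1 : rng PR0 (ckp SL0 [] (nat_lit 177)) (nat_lit 250) (nat_lit 30501) = true := by
  decide +kernel

theorem r3_2 : rng PR0 (ckp SL0 [] (nat_lit 178)) (nat_lit 250) (nat_lit 31001) = true := by
  decide +kernel

theorem r3_3 : rng PR0 (ckp SL0 [nat_lit 31583, nat_lit 31847] (nat_lit 179)) (nat_lit 250) (nat_lit 31501) = true := by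
  decide +kernel

theorem r3_4 : rng PR0 (ckp SL0 [] (nat_lit 181)) (nat_lit 250) (nat_lit 32001) = true := by
  decide +kernel

theorem r3_5 : rng PR0 (ckp SL0 [nat_lit 32507, nat_lit 32771, nat_lit 32843] (nat_lit 182)) (nat_lit 250) (nat_lit 32501) = true := by
  decide +kernel

theorem r3_6 : rng PR0 (ckp SL0 [nat_lit 33347] (nat_lit 184)) (nat_lit 250) (nat_lit 33001) = true := by
  decide +kernel

theorem r3_7 : rng PR0 (ckp SL0 [nat_lit 33827] (nat_lit 185)) (nat_lit 250) (nat_lit 33501) = true := by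
  decide +kernel

theorem r3_8 : rng PR0 (ckp SL0 [] (nat_lit 186)) (nat_lit 250) (nat_lit 34001) = true := by
  decide +kernel

theorem r3_9 : rng PR0 (ckp SL0 [] (nat_lit 188)) (nat_lit 250) (nat_lit 34501) = true := by
  decide +kernel

theorem r3_10 : rng PR0 (ckp SL0 [] (nat_lit 189)) (nat_lit 250) (nat_lit 35001) = true := by
  decide +kernel

theorem r3_11 : rng PR0 (ckp SL0 [nat_lit 35803] (nat_lit 190)) (nat_lit 250) (nat_lit 35501) = true := by
  decide +kernel

theorem r3_12 : rng PR0 (ckp SL0 [] (nat_lit 192)) (nat_lit 250) (nat_lit 36001) = true := by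
  decide +kernel

theorem r3_13 : rng PR0 (ckp SL0 [] (nat_lit 193)) (nat_lit 250) (nat_lit 36501) = true := by
  decide +kernel

theorem r3_14 : rng PR0 (ckp SL0 [nat_lit 37243] (nat_lit 194)) (nat_lit 250) (nat_lit 37001) = true := by
  decide +kernel

theorem r3_15 : rng PR0 (ckp SL0 [nat_lit 37987] (nat_lit 195)) (nat_lit 250) (nat_lit 37501) = true := by
  decide +kernel

theorem r3_16 : rng PR0 (ckp SL0 [nat_lit 38333] (nat_lit 197)) (nat_lit 250) (nat_lit 38001) = true := by
  decide +kernel

theorem r3_17 : rng PR0 (ckp SL0 [nat_lit 38557] (nat_lit 198)) (nat_lit 250) (nat_lit 38501) = true := by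
  decide +kernel

theorem r3_18 : rng PR0 (ckp SL0 [] (nat_lit 199)) (nat_lit 250) (nat_lit 39001) = true := by
  decide +kernel

theorem r3_19 : rng PR0 (ckp SL0 [] (nat_lit 201)) (nat_lit 250) (nat_lit 39501) = true := by
  decide +kernel

/-- the primes of this file -/
theorem cov3 : ∀ p : ℕ, p.Prime → 30001 ≤ p → p < 40001 → Cv p := by
  intro p hp h1 h2
  rcases Nat.lt_or_ge p 30501 with h | h1
  · exact of_rng r3_0 (by norm_num) (by norm_num) (by norm_num) (bad_sub (by decide +kernel)) hp h1 h
  rcases Nat.lt_or_ge p 31001 with h | h1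
  · exact of_rng r3_1 (by norm_num) (by norm_num) (by norm_num) (bad_sub (by decide +kernel)) hp h1 h
  rcases Nat.lt_or_ge p 31501 with h | h1
  · exact of_rng r3_2 (by norm_num) (by norm_num) (by norm_num) (bad_sub (by decide +kernel)) hp h1 h
  rcases Nat.lt_or_ge p 32001 with h | h1
  · exact of_rng r3_3 (by norm_num) (by norm_num) (by norm_num) (bad_sub (by decide +kernel)) hp h1 h
  rcases Nat.lt_or_ge p 32501 with h | h1
  · exact of_rng r3_4 (by norm_num) (by norm_num) (by norm_num) (bad_sub (by decide +kernel)) hp h1 h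
  rcases Nat.lt_or_ge p 33001 with h | h1
  · exact of_rng r3_5 (by norm_num) (by norm_num) (by norm_num) (bad_sub (by decide +kernel)) hp h1 h
  rcases Nat.lt_or_ge p 33501 with h | h1
  · exact of_rng r3_6 (by norm_num) (by norm_num) (by norm_num) (bad_sub (by decide +kernel)) hp h1 h
  rcases Nat.lt_or_ge p 34001 with h | h1
  · exact of_rng r3_7 (by norm_num) (by norm_num) (by norm_num) (bad_sub (by decide +kernel)) hp h1 h
  rcases Nat.lt_or_ge p 34501 with h | h1
  · exact of_rng r3_8 (by norm_num) (by norm_num) (by norm_num) (bad_sub (by decide +kernel)) hp h1 h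
  rcases Nat.lt_or_ge p 35001 with h | h1
  · exact of_rng r3_9 (by norm_num) (by norm_num) (by norm_num) (bad_sub (by decide +kernel)) hp h1 h
  rcases Nat.lt_or_ge p 35501 with h | h1
  · exact of_rng r3_10 (by norm_num) (by norm_num) (by norm_num) (bad_sub (by decide +kernel)) hp h1 h
  rcases Nat.lt_or_ge p 36001 with h | h1
  · exact of_rng r3_11 (by norm_num) (by norm_num) (by norm_num) (bad_sub (by decide +kernel)) hp h1 h
  rcases Nat.lt_or_ge p 36501 with h | h1
  · exact of_rng r3_12 (by norm_num) (by norm_num) (by norm_num) (bad_sub (by decide +kernel)) hp h1 h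
  rcases Nat.lt_or_ge p 37001 with h | h1
  · exact of_rng r3_13 (by norm_num) (by norm_num) (by norm_num) (bad_sub (by decide +kernel)) hp h1 h
  rcases Nat.lt_or_ge p 37501 with h | h1
  · exact of_rng r3_14 (by norm_num) (by norm_num) (by norm_num) (bad_sub (by decide +kernel)) hp h1 h
  rcases Nat.lt_or_ge p 38001 with h | h1
  · exact of_rng r3_15 (by norm_num) (by norm_num) (by norm_num) (bad_sub (by decide +kernel)) hp h1 h
  rcases Nat.lt_or_ge p 38501 with h | h1
  · exact of_rng r3_16 (by norm_num) (by norm_num) (by norm_num) (bad_sub (by decide +kernel)) hp h1 h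
  rcases Nat.lt_or_ge p 39001 with h | h1
  · exact of_rng r3_17 (by norm_num) (by norm_num) (by norm_num) (bad_sub (by decide +kernel)) hp h1 h
  rcases Nat.lt_or_ge p 39501 with h | h1
  · exact of_rng r3_18 (by norm_num) (by norm_num) (by norm_num) (bad_sub (by decide +kernel)) hp h1 h
  exact of_rng r3_19 (by norm_num) (by norm_num) (by norm_num) (bad_sub (by decide +kernel)) hp h1 h2

end OEX.K
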