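import Pool.Agent.OEX.KBad

/-!
The primes between 40000 and 50000.
-/

namespace OEX.K

theorem r4_0 : rng PR0 (ckp SL0 [nat_lit 40093] (nat_lit 202)) (nat_lit 250) (nat_lit 40001) = true := by
  decide +kernel

theorem r4_1 : rng PR0 (ckp SL0 [] (nat_lit 203)) (nat_lit 250) (nat_lit 40501) = true := by
  decide +kernel

theorem r4_2 : rng PR0 (ckp SL0 [nat_lit 41141] (nat_lit 204)) (nat_lit 250) (nat_lit 41001) = true := by
  decide +kernel

theorem r4_3 : rng PR0 (ckp SL0 [nat_lit 41627] (nat_lit 205)) (nat_lit 250) (nat_lit 41501) = true := by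
  decide +kernel

theorem r4_4 : rng PR0 (ckp SL0 [nat_lit 42433] (nat_lit 207)) (nat_lit 250) (nat_lit 42001) = true := by
  decide +kernel

theorem r4_5 : rng PR0 (ckp SL0 [nat_lit 42793] (nat_lit 208)) (nat_lit 250) (nat_lit 42501) = true := by
  decide +kernel

theorem r4_6 : rng PR0 (ckp SL0 [] (nat_lit 209)) (nat_lit 250) (nat_lit 43001) = true := by
  decide +kernel

theorem r4_7 : rng PR0 (ckp SL0 [nat_lit 43991] (nat_lit 210)) (nat_lit 250) (nat_lit 43501) = true := by
  decide +kernel

theorem r4_8 : rng PR0 (ckp SL0 [] (nat_lit 211)) (nat_lit 250) (nat_lit 44001) = true := by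
  decide +kernel

theorem r4_9 : rng PR0 (ckp SL0 [nat_lit 44633, nat_lit 44983] (nat_lit 213)) (nat_lit 250) (nat_lit 44501) = true := by
  decide +kernel

theorem r4_10 : rng PR0 (ckp SL0 [] (nat_lit 214)) (nat_lit 250) (nat_lit 45001) = true := by
  decide +kernel

theorem r4_11 : rng PR0 (ckp SL0 [] (nat_lit 215)) (nat_lit 250) (nat_lit 45501) = true := by
  decide +kernel

theorem r4_12 : rng PR0 (ckp SL0 [nat_lit 46307] (nat_lit 216)) (nat_lit 250) (nat_lit 46001) = true := by
  decide +kernel

theorem r4_13 : rng PR0 (ckp SL0 [nat_lit 46867] (nat_lit 217)) (nat_lit 250) (nat_lit 46501) = true := by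
  decide +kernel

theorem r4_14 : rng PR0 (ckp SL0 [] (nat_lit 218)) (nat_lit 250) (nat_lit 47001) = true := by
  decide +kernel

theorem r4_15 : rng PR0 (ckp SL0 [nat_lit 47807] (nat_lit 220)) (nat_lit 250) (nat_lit 47501) = true := by
  decide +kernel

theorem r4_16 : rng PR0 (ckp SL0 [] (nat_lit 221)) (nat_lit 250) (nat_lit 48001) = true := by
  decide +kernel

theorem r4_17 : rng PR0 (ckp SL0 [] (nat_lit 222)) (nat_lit 250) (nat_lit 48501) = true := by
  decide +kernel

theorem r4_18 : rng PR0 (ckp SL0 [] (nat_lit 223)) (nat_lit 250) (nat_lit 49001) = true := by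
  decide +kernel

theorem r4_19 : rng PR0 (ckp SL0 [nat_lit 49871] (nat_lit 224)) (nat_lit 250) (nat_lit 49501) = true := by
  decide +kernel

/-- the primes of this file -/
theorem cov4 : ∀ p : ℕ, p.Prime → 40001 ≤ p → p < 50001 → Cv p := by
  intro p hp h1 h2
  rcases Nat.lt_or_ge p 40501 with h | h1
  · exact of_rng r4_0 (by norm_num) (by norm_num) (by norm_num) (bad_sub (by decide +kernel)) hp h1 h
  rcases Nat.lt_or_ge p 41001 with h | h1
  · exact of_rng r4_1 (by norm_num) (by norm_num) (by norm_num) (bad_sub (by decide +kernel)) hp h1 h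
  rcases Nat.lt_or_ge p 41501 with h | h1
  · exact of_rng r4_2 (by norm_num) (by norm_num) (by norm_num) (bad_sub (by decide +kernel)) hp h1 h
  rcases Nat.lt_or_ge p 42001 with h | h1
  · exact of_rng r4_3 (by norm_num) (by norm_num) (by norm_num) (bad_sub (by decide +kernel)) hp h1 h
  rcases Nat.lt_or_ge p 42501 with h | h1
  · exact of_rng r4_4 (by norm_num) (by norm_num) (by norm_num) (bad_sub (by decide +kernel)) hp h1 h
  rcases Nat.lt_or_ge p 43001 with h | h1
  · exact of_rng r4_5 (by norm_num) (by norm_num) (by norm_num) (bad_sub (by decide +kernel)) hp h1 h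
  rcases Nat.lt_or_ge p 43501 with h | h1
  · exact of_rng r4_6 (by norm_num) (by norm_num) (by norm_num) (bad_sub (by decide +kernel)) hp h1 h
  rcases Nat.lt_or_ge p 44001 with h | h1
  · exact of_rng r4_7 (by norm_num) (by norm_num) (by norm_num) (bad_sub (by decide +kernel)) hp h1 h
  rcases Nat.lt_or_ge p 44501 with h | h1
  · exact of_rng r4_8 (by norm_num) (by norm_num) (by norm_num) (bad_sub (by decide +kernel)) hp h1 h
  rcases Nat.lt_or_ge p 45001 with h | h1
  · exact of_rng r4_9 (by norm_num) (by norm_num) (by norm_num) (bad_sub (by decide +kernel)) hp h1 h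
  rcases Nat.lt_or_ge p 45501 with h | h1
  · exact of_rng r4_10 (by norm_num) (by norm_num) (by norm_num) (bad_sub (by decide +kernel)) hp h1 h
  rcases Nat.lt_or_ge p 46001 with h | h1
  · exact of_rng r4_11 (by norm_num) (by norm_num) (by norm_num) (bad_sub (by decide +kernel)) hp h1 h
  rcases Nat.lt_or_ge p 46501 with h | h1
  · exact of_rng r4_12 (by norm_num) (by norm_num) (by norm_num) (bad_sub (by decide +kernel)) hp h1 h
  rcases Nat.lt_or_ge p 47001 with h | h1
  · exact of_rng r4_13 (by norm_num) (by norm_num) (by norm_num) (bad_sub (by decide +kernel)) hp h1 h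
  rcases Nat.lt_or_ge p 47501 with h | h1
  · exact of_rng r4_14 (by norm_num) (by norm_num) (by norm_num) (bad_sub (by decide +kernel)) hp h1 h
  rcases Nat.lt_or_ge p 48001 with h | h1
  · exact of_rng r4_15 (by norm_num) (by norm_num) (by norm_num) (bad_sub (by decide +kernel)) hp h1 h
  rcases Nat.lt_or_ge p 48501 with h | h1
  · exact of_rng r4_16 (by norm_num) (by norm_num) (by norm_num) (bad_sub (by decide +kernel)) hp h1 h
  rcases Nat.lt_or_ge p 49001 with h | h1
  · exact of_rng r4_17 (by norm_num) (by norm_num) (by norm_num) (bad_sub (by decide +kernel)) hp h1 h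
  rcases Nat.lt_or_ge p 49501 with h | h1
  · exact of_rng r4_18 (by norm_num) (by norm_num) (by norm_num) (bad_sub (by decide +kernel)) hp h1 h
  exact of_rng r4_19 (by norm_num) (by norm_num) (by norm_num) (bad_sub (by decide +kernel)) hp h1 h2

end OEX.K
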