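import Pool.Agent.OEX.KBad

/-!
The primes between 50000 and 60000.
-/

namespace OEX.K

theorem r5_0 : rng PR0 (ckp SL0 [nat_lit 50177] (nat_lit 225)) (nat_lit 250) (nat_lit 50001) = true := by
  decide +kernel

theorem r5_1 : rng PR0 (ckp SL0 [] (nat_lit 226)) (nat_lit 250) (nat_lit 50501) = true := by
  decide +kernel

theorem r5_2 : rng PR0 (ckp SL0 [] (nat_lit 227)) (nat_lit 250) (nat_lit 51001) = true := by
  decide +kernel

theorem r5_3 : rng PR0 (ckp SL0 [] (nat_lit 229)) (nat_lit 250) (nat_lit 51501) = true := by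
  decide +kernel

theorem r5_4 : rng PR0 (ckp SL0 [nat_lit 52313] (nat_lit 230)) (nat_lit 250) (nat_lit 52001) = true := by
  decide +kernel

theorem r5_5 : rng PR0 (ckp SL0 [] (nat_lit 231)) (nat_lit 250) (nat_lit 52501) = true := by
  decide +kernel

theorem r5_6 : rng PR0 (ckp SL0 [] (nat_lit 232)) (nat_lit 250) (nat_lit 53001) = true := by
  decide +kernel

theorem r5_7 : rng PR0 (ckp SL0 [nat_lit 53717] (nat_lit 233)) (nat_lit 250) (nat_lit 53501) = true := by
  decide +kernel

theorem r5_8 : rng PR0 (ckp SL0 [nat_lit 54133] (nat_lit 234)) (nat_lit 250) (nat_lit 54001) = true := by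
  decide +kernel

theorem r5_9 : rng PR0 (ckp SL0 [] (nat_lit 235)) (nat_lit 250) (nat_lit 54501) = true := by
  decide +kernel

theorem r5_10 : rng PR0 (ckp SL0 [] (nat_lit 236)) (nat_lit 250) (nat_lit 55001) = true := by
  decide +kernel

theorem r5_11 : rng PR0 (ckp SL0 [nat_lit 55541] (nat_lit 237)) (nat_lit 250) (nat_lit 55501) = true := by
  decide +kernel

theorem r5_12 : rng PR0 (ckp SL0 [] (nat_lit 238)) (nat_lit 250) (nat_lit 56001) = true := by
  decide +kernel

theorem r5_13 : rng PR0 (ckp SL0 [] (nat_lit 239)) (nat_lit 250) (nat_lit 56501) = true := by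
  decide +kernel

theorem r5_14 : rng PR0 (ckp SL0 [] (nat_lit 240)) (nat_lit 250) (nat_lit 57001) = true := by
  decide +kernel

theorem r5_15 : rng PR0 (ckp SL0 [] (nat_lit 241)) (nat_lit 250) (nat_lit 57501) = true := by
  decide +kernel

theorem r5_16 : rng PR0 (ckp SL0 [] (nat_lit 242)) (nat_lit 250) (nat_lit 58001) = true := by
  decide +kernel

theorem r5_17 : rng PR0 (ckp SL0 [nat_lit 58907, nat_lit 58967] (nat_lit 243)) (nat_lit 250) (nat_lit 58501) = true := by
  decide +kernel

theorem r5_18 : rng PR0 (ckp SL0 [nat_lit 59063] (nat_lit 244)) (nat_lit 250) (nat_lit 59001) = true := by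
  decide +kernel

theorem r5_19 : rng PR0 (ckp SL0 [] (nat_lit 245)) (nat_lit 250) (nat_lit 59501) = true := by
  decide +kernel

/-- the primes of this file -/
theorem cov5 : ∀ p : ℕ, p.Prime → 50001 ≤ p → p < 60001 → Cv p := by
  intro p hp h1 h2
  rcases Nat.lt_or_ge p 50501 with h | h1
  · exact of_rng r5_0 (by norm_num) (by norm_num) (by norm_num) (bad_sub (by decide +kernel)) hp h1 h
  rcases Nat.lt_or_ge p 51001 with h | h1
  · exact of_rng r5_1 (by norm_num) (by norm_num) (by norm_num) (bad_sub (by decide +kernel)) hp h1 h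
  rcases Nat.lt_or_ge p 51501 with h | h1
  · exact of_rng r5_2 (by norm_num) (by norm_num) (by norm_num) (bad_sub (by decide +kernel)) hp h1 h
  rcases Nat.lt_or_ge p 52001 with h | h1
  · exact of_rng r5_3 (by norm_num) (by norm_num) (by norm_num) (bad_sub (by decide +kernel)) hp h1 h
  rcases Nat.lt_or_ge p 52501 with h | h1
  · exact of_rng r5_4 (by norm_num) (by norm_num) (by norm_num) (bad_sub (by decide +kernel)) hp h1 h
  rcases Nat.lt_or_ge p 53001 with h | h1
  · exact of_rng r5_5 (by norm_num) (by norm_num) (by norm_num) (bad_sub (by decide +kernel)) hp h1 h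
  rcases Nat.lt_or_ge p 53501 with h | h1
  · exact of_rng r5_6 (by norm_num) (by norm_num) (by norm_num) (bad_sub (by decide +kernel)) hp h1 h
  rcases Nat.lt_or_ge p 54001 with h | h1
  · exact of_rng r5_7 (by norm_num) (by norm_num) (by norm_num) (bad_sub (by decide +kernel)) hp h1 h
  rcases Nat.lt_or_ge p 54501 with h | h1
  · exact of_rng r5_8 (by norm_num) (by norm_num) (by norm_num) (bad_sub (by decide +kernel)) hp h1 h
  rcases Nat.lt_or_ge p 55001 with h | h1
  · exact of_rng r5_9 (by norm_num) (by norm_num) (by norm_num) (bad_sub (by decide +kernel)) hp h1 h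
  rcases Nat.lt_or_ge p 55501 with h | h1
  · exact of_rng r5_10 (by norm_num) (by norm_num) (by norm_num) (bad_sub (by decide +kernel)) hp h1 h
  rcases Nat.lt_or_ge p 56001 with h | h1
  · exact of_rng r5_11 (by norm_num) (by norm_num) (by norm_num) (bad_sub (by decide +kernel)) hp h1 h
  rcases Nat.lt_or_ge p 56501 with h | h1
  · exact of_rng r5_12 (by norm_num) (by norm_num) (by norm_num) (bad_sub (by decide +kernel)) hp h1 h
  rcases Nat.lt_or_ge p 57001 with h | h1
  · exact of_rng r5_13 (by norm_num) (by norm_num) (by norm_num) (bad_sub (by decide +kernel)) hp h1 h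
  rcases Nat.lt_or_ge p 57501 with h | h1
  · exact of_rng r5_14 (by norm_num) (by norm_num) (by norm_num) (bad_sub (by decide +kernel)) hp h1 h
  rcases Nat.lt_or_ge p 58001 with h | h1
  · exact of_rng r5_15 (by norm_num) (by norm_num) (by norm_num) (bad_sub (by decide +kernel)) hp h1 h
  rcases Nat.lt_or_ge p 58501 with h | h1
  · exact of_rng r5_16 (by norm_num) (by norm_num) (by norm_num) (bad_sub (by decide +kernel)) hp h1 h
  rcases Nat.lt_or_ge p 59001 with h | h1
  · exact of_rng r5_17 (by norm_num) (by norm_num) (by norm_num) (bad_sub (by decide +kernel)) hp h1 h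
  rcases Nat.lt_or_ge p 59501 with h | h1
  · exact of_rng r5_18 (by norm_num) (by norm_num) (by norm_num) (bad_sub (by decide +kernel)) hp h1 h
  exact of_rng r5_19 (by norm_num) (by norm_num) (by norm_num) (bad_sub (by decide +kernel)) hp h1 h2

end OEX.K
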