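import Pool.Agent.OEX.KBad

/-!
The primes between 60000 and 70000.
-/

namespace OEX.K

theorem r6_0 : rng PR0 (ckp SL0 [nat_lit 60217, nat_lit 60413] (nat_lit 246)) (nat_lit 250) (nat_lit 60001) = true := by
  decide +kernel

theorem r6_1 : rng PR0 (ckp SL0 [] (nat_lit 247)) (nat_lit 250) (nat_lit 60501) = true := by
  decide +kernel

theorem r6_2 : rng PR0 (ckp SL0 [nat_lit 61403] (nat_lit 248)) (nat_lit 250) (nat_lit 61001) = true := by
  decide +kernel

theorem r6_3 : rng PR0 (ckp SL0 [nat_lit 61543, nat_lit 61553] (nat_lit 250)) (nat_lit 250) (nat_lit 61501) = true := by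
  decide +kernel

theorem r6_4 : rng PR0 (ckp SL0 [] (nat_lit 251)) (nat_lit 250) (nat_lit 62001) = true := by
  decide +kernel

theorem r6_5 : rng PR0 (ckp SL0 [] (nat_lit 252)) (nat_lit 250) (nat_lit 62501) = true := by
  decide +kernel

theorem r6_6 : rng PR0 (ckp SL0 [nat_lit 63353] (nat_lit 252)) (nat_lit 250) (nat_lit 63001) = true := by
  decide +kernel

theorem r6_7 : rng PR0 (ckp SL0 [nat_lit 63863] (nat_lit 253)) (nat_lit 250) (nat_lit 63501) = true := by
  decide +kernel

theorem r6_8 : rng PR0 (ckp SL0 [nat_lit 64271] (nat_lit 254)) (nat_lit 250) (nat_lit 64001) = true := by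
  decide +kernel

theorem r6_9 : rng PR0 (ckp SL0 [] (nat_lit 255)) (nat_lit 250) (nat_lit 64501) = true := by
  decide +kernel

theorem r6_10 : rng PR0 (ckp SL0 [] (nat_lit 256)) (nat_lit 250) (nat_lit 65001) = true := by
  decide +kernel

theorem r6_11 : rng PR0 (ckp SL0 [] (nat_lit 257)) (nat_lit 250) (nat_lit 65501) = true := by
  decide +kernel

theorem r6_12 : rng PR0 (ckp SL0 [] (nat_lit 258)) (nat_lit 250) (nat_lit 66001) = true := by
  decide +kernel

theorem r6_13 : rng PR0 (ckp SL0 [nat_lit 66533, nat_lit 66943, nat_lit 66947] (nat_lit 259)) (nat_lit 250) (nat_lit 66501) = true := by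
  decide +kernel

theorem r6_14 : rng PR0 (ckp SL0 [nat_lit 67073] (nat_lit 260)) (nat_lit 250) (nat_lit 67001) = true := by
  decide +kernel

theorem r6_15 : rng PR0 (ckp SL0 [] (nat_lit 261)) (nat_lit 250) (nat_lit 67501) = true := by
  decide +kernel

theorem r6_16 : rng PR0 (ckp SL0 [] (nat_lit 262)) (nat_lit 250) (nat_lit 68001) = true := by
  decide +kernel

theorem r6_17 : rng PR0 (ckp SL0 [] (nat_lit 263)) (nat_lit 250) (nat_lit 68501) = true := by
  decide +kernel

theorem r6_18 : rng PR0 (ckp SL0 [nat_lit 69263] (nat_lit 264)) (nat_lit 250) (nat_lit 69001) = true := by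
  decide +kernel

theorem r6_19 : rng PR0 (ckp SL0 [] (nat_lit 265)) (nat_lit 250) (nat_lit 69501) = true := by
  decide +kernel

/-- the primes of this file -/
theorem cov6 : ∀ p : ℕ, p.Prime → 60001 ≤ p → p < 70001 → Cv p := by
  intro p hp h1 h2
  rcases Nat.lt_or_ge p 60501 with h | h1
  · exact of_rng r6_0 (by norm_num) (by norm_num) (by norm_num) (bad_sub (by decide +kernel)) hp h1 h
  rcases Nat.lt_or_ge p 61001 with h | h1
  · exact of_rng r6_1 (by norm_num) (by norm_num) (by norm_num) (bad_sub (by decide +kernel)) hp h1 h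
  rcases Nat.lt_or_ge p 61501 with h | h1
  · exact of_rng r6_2 (by norm_num) (by norm_num) (by norm_num) (bad_sub (by decide +kernel)) hp h1 h
  rcases Nat.lt_or_ge p 62001 with h | h1
  · exact of_rng r6_3 (by norm_num) (by norm_num) (by norm_num) (bad_sub (by decide +kernel)) hp h1 h
  rcases Nat.lt_or_ge p 62501 with h | h1
  · exact of_rng r6_4 (by norm_num) (by norm_num) (by norm_num) (bad_sub (by decide +kernel)) hp h1 h
  rcases Nat.lt_or_ge p 63001 with h | h1
  · exact of_rng r6_5 (by norm_num) (by norm_num) (by norm_num) (bad_sub (by decide +kernel)) hp h1 h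
  rcases Nat.lt_or_ge p 63501 with h | h1
  · exact of_rng r6_6 (by norm_num) (by norm_num) (by norm_num) (bad_sub (by decide +kernel)) hp h1 h
  rcases Nat.lt_or_ge p 64001 with h | h1
  · exact of_rng r6_7 (by norm_num) (by norm_num) (by norm_num) (bad_sub (by decide +kernel)) hp h1 h
  rcases Nat.lt_or_ge p 64501 with h | h1
  · exact of_rng r6_8 (by norm_num) (by norm_num) (by norm_num) (bad_sub (by decide +kernel)) hp h1 h
  rcases Nat.lt_or_ge p 65001 with h | h1
  · exact of_rng r6_9 (by norm_num) (by norm_num) (by norm_num) (bad_sub (by decide +kernel)) hp h1 h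
  rcases Nat.lt_or_ge p 65501 with h | h1
  · exact of_rng r6_10 (by norm_num) (by norm_num) (by norm_num) (bad_sub (by decide +kernel)) hp h1 h
  rcases Nat.lt_or_ge p 66001 with h | h1
  · exact of_rng r6_11 (by norm_num) (by norm_num) (by norm_num) (bad_sub (by decide +kernel)) hp h1 h
  rcases Nat.lt_or_ge p 66501 with h | h1
  · exact of_rng r6_12 (by norm_num) (by norm_num) (by norm_num) (bad_sub (by decide +kernel)) hp h1 h
  rcases Nat.lt_or_ge p 67001 with h | h1
  · exact of_rng r6_13 (by norm_num) (by norm_num) (by norm_num) (bad_sub (by decide +kernel)) hp h1 h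
  rcases Nat.lt_or_ge p 67501 with h | h1
  · exact of_rng r6_14 (by norm_num) (by norm_num) (by norm_num) (bad_sub (by decide +kernel)) hp h1 h
  rcases Nat.lt_or_ge p 68001 with h | h1
  · exact of_rng r6_15 (by norm_num) (by norm_num) (by norm_num) (bad_sub (by decide +kernel)) hp h1 h
  rcases Nat.lt_or_ge p 68501 with h | h1
  · exact of_rng r6_16 (by norm_num) (by norm_num) (by norm_num) (bad_sub (by decide +kernel)) hp h1 h
  rcases Nat.lt_or_ge p 69001 with h | h1
  · exact of_rng r6_17 (by norm_num) (by norm_num) (by norm_num) (bad_sub (by decide +kernel)) hp h1 h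
  rcases Nat.lt_or_ge p 69501 with h | h1
  · exact of_rng r6_18 (by norm_num) (by norm_num) (by norm_num) (bad_sub (by decide +kernel)) hp h1 h
  exact of_rng r6_19 (by norm_num) (by norm_num) (by norm_num) (bad_sub (by decide +kernel)) hp h1 h2

end OEX.K
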