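import Pool.Agent.OEX.KBad

/-!
The primes between 70000 and 80000.
-/

namespace OEX.K

theorem r7_0 : rng PR0 (ckp SL0 [] (nat_lit 266)) (nat_lit 250) (nat_lit 70001) = true := by
  decide +kernel

theorem r7_1 : rng PR0 (ckp SL0 [nat_lit 70957] (nat_lit 267)) (nat_lit 250) (nat_lit 70501) = true := by
  decide +kernel

theorem r7_2 : rng PR0 (ckp SL0 [] (nat_lit 268)) (nat_lit 250) (nat_lit 71001) = true := by
  decide +kernel

theorem r7_3 : rng PR0 (ckp SL0 [nat_lit 71663] (nat_lit 269)) (nat_lit 250) (nat_lit 71501) = true := by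
  decide +kernel

theorem r7_4 : rng PR0 (ckp SL0 [] (nat_lit 270)) (nat_lit 250) (nat_lit 72001) = true := by
  decide +kernel

theorem r7_5 : rng PR0 (ckp SL0 [] (nat_lit 271)) (nat_lit 250) (nat_lit 72501) = true := by
  decide +kernel

theorem r7_6 : rng PR0 (ckp SL0 [] (nat_lit 272)) (nat_lit 250) (nat_lit 73001) = true := by
  decide +kernel

theorem r7_7 : rng PR0 (ckp SL0 [] (nat_lit 273)) (nat_lit 250) (nat_lit 73501) = true := by
  decide +kernel

theorem r7_8 : rng PR0 (ckp SL0 [nat_lit 74167, nat_lit 74257] (nat_lit 273)) (nat_lit 250) (nat_lit 74001) = true := by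
  decide +kernel

theorem r7_9 : rng PR0 (ckp SL0 [nat_lit 74923] (nat_lit 274)) (nat_lit 250) (nat_lit 74501) = true := by
  decide +kernel

theorem r7_10 : rng PR0 (ckp SL0 [] (nat_lit 275)) (nat_lit 250) (nat_lit 75001) = true := by
  decide +kernel

theorem r7_11 : rng PR0 (ckp SL0 [nat_lit 75553, nat_lit 75983] (nat_lit 276)) (nat_lit 250) (nat_lit 75501) = true := by
  decide +kernel

theorem r7_12 : rng PR0 (ckp SL0 [nat_lit 76147] (nat_lit 277)) (nat_lit 250) (nat_lit 76001) = true := by
  decide +kernel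

theorem r7_13 : rng PR0 (ckp SL0 [] (nat_lit 278)) (nat_lit 250) (nat_lit 76501) = true := by
  decide +kernel

theorem r7_14 : rng PR0 (ckp SL0 [nat_lit 77323] (nat_lit 279)) (nat_lit 250) (nat_lit 77001) = true := by
  decide +kernel

theorem r7_15 : rng PR0 (ckp SL0 [nat_lit 77513, nat_lit 77723] (nat_lit 280)) (nat_lit 250) (nat_lit 77501) = true := by
  decide +kernel

theorem r7_16 : rng PR0 (ckp SL0 [nat_lit 78163] (nat_lit 281)) (nat_lit 250) (nat_lit 78001) = true := by
  decide +kernel

theorem r7_17 : rng PR0 (ckp SL0 [] (nat_lit 282)) (nat_lit 250) (nat_lit 78501) = true := by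
  decide +kernel

theorem r7_18 : rng PR0 (ckp SL0 [] (nat_lit 282)) (nat_lit 250) (nat_lit 79001) = true := by
  decide +kernel

theorem r7_19 : rng PR0 (ckp SL0 [nat_lit 79987] (nat_lit 283)) (nat_lit 250) (nat_lit 79501) = true := by
  decide +kernel

/-- the primes of this file -/
theorem cov7 : ∀ p : ℕ, p.Prime → 70001 ≤ p → p < 80001 → Cv p := by
  intro p hp h1 h2
  rcases Nat.lt_or_ge p 70501 with h | h1
  · exact of_rng r7_0 (by norm_num) (by norm_num) (by norm_num) (bad_sub (by decide +kernel)) hp h1 h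
  rcases Nat.lt_or_ge p 71001 with h | h1
  · exact of_rng r7_1 (by norm_num) (by norm_num) (by norm_num) (bad_sub (by decide +kernel)) hp h1 h
  rcases Nat.lt_or_ge p 71501 with h | h1
  · exact of_rng r7_2 (by norm_num) (by norm_num) (by norm_num) (bad_sub (by decide +kernel)) hp h1 h
  rcases Nat.lt_or_ge p 72001 with h | h1
  · exact of_rng r7_3 (by norm_num) (by norm_num) (by norm_num) (bad_sub (by decide +kernel)) hp h1 h
  rcases Nat.lt_or_ge p 72501 with h | h1
  · exact of_rng r7_4 (by norm_num) (by norm_num) (by norm_num) (bad_sub (by decide +kernel)) hp h1 h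
  rcases Nat.lt_or_ge p 73001 with h | h1
  · exact of_rng r7_5 (by norm_num) (by norm_num) (by norm_num) (bad_sub (by decide +kernel)) hp h1 h
  rcases Nat.lt_or_ge p 73501 with h | h1
  · exact of_rng r7_6 (by norm_num) (by norm_num) (by norm_num) (bad_sub (by decide +kernel)) hp h1 h
  rcases Nat.lt_or_ge p 74001 with h | h1
  · exact of_rng r7_7 (by norm_num) (by norm_num) (by norm_num) (bad_sub (by decide +kernel)) hp h1 h
  rcases Nat.lt_or_ge p 74501 with h | h1
  · exact of_rng r7_8 (by norm_num) (by norm_num) (by norm_num) (bad_sub (by decide +kernel)) hp h1 h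
  rcases Nat.lt_or_ge p 75001 with h | h1
  · exact of_rng r7_9 (by norm_num) (by norm_num) (by norm_num) (bad_sub (by decide +kernel)) hp h1 h
  rcases Nat.lt_or_ge p 75501 with h | h1
  · exact of_rng r7_10 (by norm_num) (by norm_num) (by norm_num) (bad_sub (by decide +kernel)) hp h1 h
  rcases Nat.lt_or_ge p 76001 with h | h1
  · exact of_rng r7_11 (by norm_num) (by norm_num) (by norm_num) (bad_sub (by decide +kernel)) hp h1 h
  rcases Nat.lt_or_ge p 76501 with h | h1
  · exact of_rng r7_12 (by norm_num) (by norm_num) (by norm_num) (bad_sub (by decide +kernel)) hp h1 h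
  rcases Nat.lt_or_ge p 77001 with h | h1
  · exact of_rng r7_13 (by norm_num) (by norm_num) (by norm_num) (bad_sub (by decide +kernel)) hp h1 h
  rcases Nat.lt_or_ge p 77501 with h | h1
  · exact of_rng r7_14 (by norm_num) (by norm_num) (by norm_num) (bad_sub (by decide +kernel)) hp h1 h
  rcases Nat.lt_or_ge p 78001 with h | h1
  · exact of_rng r7_15 (by norm_num) (by norm_num) (by norm_num) (bad_sub (by decide +kernel)) hp h1 h
  rcases Nat.lt_or_ge p 78501 with h | h1
  · exact of_rng r7_16 (by norm_num) (by norm_num) (by norm_num) (bad_sub (by decide +kernel)) hp h1 h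
  rcases Nat.lt_or_ge p 79001 with h | h1
  · exact of_rng r7_17 (by norm_num) (by norm_num) (by norm_num) (bad_sub (by decide +kernel)) hp h1 h
  rcases Nat.lt_or_ge p 79501 with h | h1
  · exact of_rng r7_18 (by norm_num) (by norm_num) (by norm_num) (bad_sub (by decide +kernel)) hp h1 h
  exact of_rng r7_19 (by norm_num) (by norm_num) (by norm_num) (bad_sub (by decide +kernel)) hp h1 h2

end OEX.K
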