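import Pool.Agent.OEX.KBad

/-!
The primes between 80000 and 90000.
-/

namespace OEX.K

theorem r8_0 : rng PR0 (ckp SL0 [] (nat_lit 284)) (nat_lit 250) (nat_lit 80001) = true := by
  decide +kernel

theorem r8_1 : rng PR0 (ckp SL0 [] (nat_lit 285)) (nat_lit 250) (nat_lit 80501) = true := by
  decide +kernel

theorem r8_2 : rng PR0 (ckp SL0 [] (nat_lit 286)) (nat_lit 250) (nat_lit 81001) = true := by
  decide +kernel

theorem r8_3 : rng PR0 (ckp SL0 [] (nat_lit 287)) (nat_lit 250) (nat_lit 81501) = true := by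
  decide +kernel

theorem r8_4 : rng PR0 (ckp SL0 [] (nat_lit 288)) (nat_lit 250) (nat_lit 82001) = true := by
  decide +kernel

theorem r8_5 : rng PR0 (ckp SL0 [] (nat_lit 289)) (nat_lit 250) (nat_lit 82501) = true := by
  decide +kernel

theorem r8_6 : rng PR0 (ckp SL0 [] (nat_lit 289)) (nat_lit 250) (nat_lit 83001) = true := by
  decide +kernel

theorem r8_7 : rng PR0 (ckp SL0 [] (nat_lit 290)) (nat_lit 250) (nat_lit 83501) = true := by
  decide +kernel

theorem r8_8 : rng PR0 (ckp SL0 [nat_lit 84463] (nat_lit 291)) (nat_lit 250) (nat_lit 84001) = true := by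
  decide +kernel

theorem r8_9 : rng PR0 (ckp SL0 [nat_lit 84503] (nat_lit 292)) (nat_lit 250) (nat_lit 84501) = true := by
  decide +kernel

theorem r8_10 : rng PR0 (ckp SL0 [nat_lit 85037] (nat_lit 293)) (nat_lit 250) (nat_lit 85001) = true := by
  decide +kernel

theorem r8_11 : rng PR0 (ckp SL0 [] (nat_lit 294)) (nat_lit 250) (nat_lit 85501) = true := by
  decide +kernel

theorem r8_12 : rng PR0 (ckp SL0 [] (nat_lit 295)) (nat_lit 250) (nat_lit 86001) = true := by
  decide +kernel

theorem r8_13 : rng PR0 (ckp SL0 [] (nat_lit 295)) (nat_lit 250) (nat_lit 86501) = true := by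
  decide +kernel

theorem r8_14 : rng PR0 (ckp SL0 [] (nat_lit 296)) (nat_lit 250) (nat_lit 87001) = true := by
  decide +kernel

theorem r8_15 : rng PR0 (ckp SL0 [] (nat_lit 297)) (nat_lit 250) (nat_lit 87501) = true := by
  decide +kernel

theorem r8_16 : rng PR0 (ckp SL0 [] (nat_lit 298)) (nat_lit 250) (nat_lit 88001) = true := by
  decide +kernel

theorem r8_17 : rng PR0 (ckp SL0 [] (nat_lit 299)) (nat_lit 250) (nat_lit 88501) = true := by
  decide +kernel

theorem r8_18 : rng PR0 (ckp SL0 [] (nat_lit 300)) (nat_lit 250) (nat_lit 89001) = true := by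
  decide +kernel

theorem r8_19 : rng PR0 (ckp SL0 [nat_lit 89923] (nat_lit 301)) (nat_lit 250) (nat_lit 89501) = true := by
  decide +kernel

/-- the primes of this file -/
theorem cov8 : ∀ p : ℕ, p.Prime → 80001 ≤ p → p < 90001 → Cv p := by
  intro p hp h1 h2
  rcases Nat.lt_or_ge p 80501 with h | h1
  · exact of_rng r8_0 (by norm_num) (by norm_num) (by norm_num) (bad_sub (by decide +kernel)) hp h1 h
  rcases Nat.lt_or_ge p 81001 with h | h1
  · exact of_rng r8_1 (by norm_num) (by norm_num) (by norm_num) (bad_sub (by decide +kernel)) hp h1 h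
  rcases Nat.lt_or_ge p 81501 with h | h1
  · exact of_rng r8_2 (by norm_num) (by norm_num) (by norm_num) (bad_sub (by decide +kernel)) hp h1 h
  rcases Nat.lt_or_ge p 82001 with h | h1
  · exact of_rng r8_3 (by norm_num) (by norm_num) (by norm_num) (bad_sub (by decide +kernel)) hp h1 h
  rcases Nat.lt_or_ge p 82501 with h | h1
  · exact of_rng r8_4 (by norm_num) (by norm_num) (by norm_num) (bad_sub (by decide +kernel)) hp h1 h
  rcases Nat.lt_or_ge p 83001 with h | h1
  · exact of_rng r8_5 (by norm_num) (by norm_num) (by norm_num) (bad_sub (by decide +kernel)) hp h1 h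
  rcases Nat.lt_or_ge p 83501 with h | h1
  · exact of_rng r8_6 (by norm_num) (by norm_num) (by norm_num) (bad_sub (by decide +kernel)) hp h1 h
  rcases Nat.lt_or_ge p 84001 with h | h1
  · exact of_rng r8_7 (by norm_num) (by norm_num) (by norm_num) (bad_sub (by decide +kernel)) hp h1 h
  rcases Nat.lt_or_ge p 84501 with h | h1
  · exact of_rng r8_8 (by norm_num) (by norm_num) (by norm_num) (bad_sub (by decide +kernel)) hp h1 h
  rcases Nat.lt_or_ge p 85001 with h | h1
  · exact of_rng r8_9 (by norm_num) (by norm_num) (by norm_num) (bad_sub (by decide +kernel)) hp h1 h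
  rcases Nat.lt_or_ge p 85501 with h | h1
  · exact of_rng r8_10 (by norm_num) (by norm_num) (by norm_num) (bad_sub (by decide +kernel)) hp h1 h
  rcases Nat.lt_or_ge p 86001 with h | h1
  · exact of_rng r8_11 (by norm_num) (by norm_num) (by norm_num) (bad_sub (by decide +kernel)) hp h1 h
  rcases Nat.lt_or_ge p 86501 with h | h1
  · exact of_rng r8_12 (by norm_num) (by norm_num) (by norm_num) (bad_sub (by decide +kernel)) hp h1 h
  rcases Nat.lt_or_ge p 87001 with h | h1
  · exact of_rng r8_13 (by norm_num) (by norm_num) (by norm_num) (bad_sub (by decide +kernel)) hp h1 h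
  rcases Nat.lt_or_ge p 87501 with h | h1
  · exact of_rng r8_14 (by norm_num) (by norm_num) (by norm_num) (bad_sub (by decide +kernel)) hp h1 h
  rcases Nat.lt_or_ge p 88001 with h | h1
  · exact of_rng r8_15 (by norm_num) (by norm_num) (by norm_num) (bad_sub (by decide +kernel)) hp h1 h
  rcases Nat.lt_or_ge p 88501 with h | h1
  · exact of_rng r8_16 (by norm_num) (by norm_num) (by norm_num) (bad_sub (by decide +kernel)) hp h1 h
  rcases Nat.lt_or_ge p 89001 with h | h1
  · exact of_rng r8_17 (by norm_num) (by norm_num) (by norm_num) (bad_sub (by decide +kernel)) hp h1 h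
  rcases Nat.lt_or_ge p 89501 with h | h1
  · exact of_rng r8_18 (by norm_num) (by norm_num) (by norm_num) (bad_sub (by decide +kernel)) hp h1 h
  exact of_rng r8_19 (by norm_num) (by norm_num) (by norm_num) (bad_sub (by decide +kernel)) hp h1 h2

end OEX.K
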