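import Pool.Agent.OEX.KBad

/-!
The primes between 90000 and 100000.
-/

namespace OEX.K

theorem r9_0 : rng PR0 (ckp SL0 [nat_lit 90191] (nat_lit 301)) (nat_lit 250) (nat_lit 90001) = true := by
  decide +kernel

theorem r9_1 : rng PR0 (ckp SL0 [] (nat_lit 302)) (nat_lit 250) (nat_lit 90501) = true := by
  decide +kernel

theorem r9_2 : rng PR0 (ckp SL0 [] (nat_lit 303)) (nat_lit 250) (nat_lit 91001) = true := by
  decide +kernel

theorem r9_3 : rng PR0 (ckp SL0 [] (nat_lit 304)) (nat_lit 250) (nat_lit 91501) = true := by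
  decide +kernel

theorem r9_4 : rng PR0 (ckp SL0 [] (nat_lit 305)) (nat_lit 250) (nat_lit 92001) = true := by
  decide +kernel

theorem r9_5 : rng PR0 (ckp SL0 [nat_lit 92507, nat_lit 92647, nat_lit 92693] (nat_lit 305)) (nat_lit 250) (nat_lit 92501) = true := by
  decide +kernel

theorem r9_6 : rng PR0 (ckp SL0 [nat_lit 93077, nat_lit 93287, nat_lit 93383, nat_lit 93493] (nat_lit 306)) (nat_lit 250) (nat_lit 93001) = true := by
  decide +kernel

theorem r9_7 : rng PR0 (ckp SL0 [nat_lit 93893] (nat_lit 307)) (nat_lit 250) (nat_lit 93501) = true := by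
  decide +kernel

theorem r9_8 : rng PR0 (ckp SL0 [] (nat_lit 308)) (nat_lit 250) (nat_lit 94001) = true := by
  decide +kernel

theorem r9_9 : rng PR0 (ckp SL0 [] (nat_lit 309)) (nat_lit 250) (nat_lit 94501) = true := by
  decide +kernel

theorem r9_10 : rng PR0 (ckp SL0 [] (nat_lit 310)) (nat_lit 250) (nat_lit 95001) = true := by
  decide +kernel

theorem r9_11 : rng PR0 (ckp SL0 [] (nat_lit 310)) (nat_lit 250) (nat_lit 95501) = true := by
  decide +kernel

theorem r9_12 : rng PR0 (ckp SL0 [] (nat_lit 311)) (nat_lit 250) (nat_lit 96001) = true := by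
  decide +kernel

theorem r9_13 : rng PR0 (ckp SL0 [nat_lit 96587, nat_lit 96797] (nat_lit 312)) (nat_lit 250) (nat_lit 96501) = true := by
  decide +kernel

theorem r9_14 : rng PR0 (ckp SL0 [] (nat_lit 313)) (nat_lit 250) (nat_lit 97001) = true := by
  decide +kernel

theorem r9_15 : rng PR0 (ckp SL0 [nat_lit 97523, nat_lit 97987] (nat_lit 314)) (nat_lit 250) (nat_lit 97501) = true := by
  decide +kernel

theorem r9_16 : rng PR0 (ckp SL0 [nat_lit 98227, nat_lit 98297] (nat_lit 314)) (nat_lit 250) (nat_lit 98001) = true := by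
  decide +kernel

theorem r9_17 : rng PR0 (ckp SL0 [] (nat_lit 315)) (nat_lit 250) (nat_lit 98501) = true := by
  decide +kernel

theorem r9_18 : rng PR0 (ckp SL0 [] (nat_lit 316)) (nat_lit 250) (nat_lit 99001) = true := by
  decide +kernel

theorem r9_19 : rng PR0 (ckp SL0 [] (nat_lit 317)) (nat_lit 250) (nat_lit 99501) = true := by
  decide +kernel

/-- the primes of this file -/
theorem cov9 : ∀ p : ℕ, p.Prime → 90001 ≤ p → p < 100001 → Cv p := by
  intro p hp h1 h2
  rcases Nat.lt_or_ge p 90501 with h | h1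
  · exact of_rng r9_0 (by norm_num) (by norm_num) (by norm_num) (bad_sub (by decide +kernel)) hp h1 h
  rcases Nat.lt_or_ge p 91001 with h | h1
  · exact of_rng r9_1 (by norm_num) (by norm_num) (by norm_num) (bad_sub (by decide +kernel)) hp h1 h
  rcases Nat.lt_or_ge p 91501 with h | h1
  · exact of_rng r9_2 (by norm_num) (by norm_num) (by norm_num) (bad_sub (by decide +kernel)) hp h1 h
  rcases Nat.lt_or_ge p 92001 with h | h1
  · exact of_rng r9_3 (by norm_num) (by norm_num) (by norm_num) (bad_sub (by decide +kernel)) hp h1 h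
  rcases Nat.lt_or_ge p 92501 with h | h1
  · exact of_rng r9_4 (by norm_num) (by norm_num) (by norm_num) (bad_sub (by decide +kernel)) hp h1 h
  rcases Nat.lt_or_ge p 93001 with h | h1
  · exact of_rng r9_5 (by norm_num) (by norm_num) (by norm_num) (bad_sub (by decide +kernel)) hp h1 h
  rcases Nat.lt_or_ge p 93501 with h | h1
  · exact of_rng r9_6 (by norm_num) (by norm_num) (by norm_num) (bad_sub (by decide +kernel)) hp h1 h
  rcases Nat.lt_or_ge p 94001 with h | h1
  · exact of_rng r9_7 (by norm_num) (by norm_num) (by norm_num) (bad_sub (by decide +kernel)) hp h1 h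
  rcases Nat.lt_or_ge p 94501 with h | h1
  · exact of_rng r9_8 (by norm_num) (by norm_num) (by norm_num) (bad_sub (by decide +kernel)) hp h1 h
  rcases Nat.lt_or_ge p 95001 with h | h1
  · exact of_rng r9_9 (by norm_num) (by norm_num) (by norm_num) (bad_sub (by decide +kernel)) hp h1 h
  rcases Nat.lt_or_ge p 95501 with h | h1
  · exact of_rng r9_10 (by norm_num) (by norm_num) (by norm_num) (bad_sub (by decide +kernel)) hp h1 h
  rcases Nat.lt_or_ge p 96001 with h | h1
  · exact of_rng r9_11 (by norm_num) (by norm_num) (by norm_num) (bad_sub (by decide +kernel)) hp h1 h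
  rcases Nat.lt_or_ge p 96501 with h | h1
  · exact of_rng r9_12 (by norm_num) (by norm_num) (by norm_num) (bad_sub (by decide +kernel)) hp h1 h
  rcases Nat.lt_or_ge p 97001 with h | h1
  · exact of_rng r9_13 (by norm_num) (by norm_num) (by norm_num) (bad_sub (by decide +kernel)) hp h1 h
  rcases Nat.lt_or_ge p 97501 with h | h1
  · exact of_rng r9_14 (by norm_num) (by norm_num) (by norm_num) (bad_sub (by decide +kernel)) hp h1 h
  rcases Nat.lt_or_ge p 98001 with h | h1
  · exact of_rng r9_15 (by norm_num) (by norm_num) (by norm_num) (bad_sub (by decide +kernel)) hp h1 h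
  rcases Nat.lt_or_ge p 98501 with h | h1
  · exact of_rng r9_16 (by norm_num) (by norm_num) (by norm_num) (bad_sub (by decide +kernel)) hp h1 h
  rcases Nat.lt_or_ge p 99001 with h | h1
  · exact of_rng r9_17 (by norm_num) (by norm_num) (by norm_num) (bad_sub (by decide +kernel)) hp h1 h
  rcases Nat.lt_or_ge p 99501 with h | h1
  · exact of_rng r9_18 (by norm_num) (by norm_num) (by norm_num) (bad_sub (by decide +kernel)) hp h1 h
  exact of_rng r9_19 (by norm_num) (by norm_num) (by norm_num) (bad_sub (by decide +kernel)) hp h1 h2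

end OEX.K
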