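import Pool.Agent.OEX.KS
import Pool.Agent.OEX.KC0
import Pool.Agent.OEX.KC1
import Pool.Agent.OEX.KC2
import Pool.Agent.OEX.KC3
import Pool.Agent.OEX.KC4
import Pool.Agent.OEX.KC5
import Pool.Agent.OEX.KC6
import Pool.Agent.OEX.KC7
import Pool.Agent.OEX.KC8
import Pool.Agent.OEX.KC9

/-!
The covering for all primes below `100000`.
-/

namespace OEX.K

theorem cov (p : ℕ) (hp : p.Prime) (h : p < 100000) : Cv p := by
  rcases Nat.lt_or_ge p 317 with h0 | h0
  · exact covs p hp h0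
  rcases Nat.lt_or_ge p 10001 with h1 | h1
  · exact cov0 p hp h0 h1
  rcases Nat.lt_or_ge p 20001 with h2 | h2
  · exact cov1 p hp h1 h2
  rcases Nat.lt_or_ge p 30001 with h3 | h3
  · exact cov2 p hp h2 h3
  rcases Nat.lt_or_ge p 40001 with h4 | h4
  · exact cov3 p hp h3 h4
  rcases Nat.lt_or_ge p 50001 with h5 | h5
  · exact cov4 p hp h4 h5
  rcases Nat.lt_or_ge p 60001 with h6 | h6
  · exact cov5 p hp h5 h6
  rcases Nat.lt_or_ge p 70001 with h7 | h7
  · exact cov6 p hp h6 h7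
  rcases Nat.lt_or_ge p 80001 with h8 | h8
  · exact cov7 p hp h7 h8
  rcases Nat.lt_or_ge p 90001 with h9 | h9
  · exact cov8 p hp h8 h9
  · exact cov9 p hp h9 (by omega)

end OEX.K
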