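import Pool.Agent.OEX.KLst

/-!
Primes which need longer lists.
-/

namespace OEX.K

/-- the primes and their lists -/
def PB0 : PL :=
  .cons (nat_lit 223) (.mk
    (.cons (nat_lit 3) (nat_lit 1) (nat_lit 2) (.cons (nat_lit 37) (nat_lit 18) (nat_lit 70) .nil))
    (.cons (nat_lit 7) (nat_lit 3) (nat_lit 10) .nil)
    (.cons (nat_lit 31) (nat_lit 15) (nat_lit 58) (.cons (nat_lit 1597) (nat_lit 798) (nat_lit 3190) .nil))
    (.cons (nat_lit 5) (nat_lit 2) (nat_lit 6) (.cons (nat_lit 13) (nat_lit 6) (nat_lit 22) (.cons (nat_lit 61) (nat_lit 30) (nat_lit 118) (.cons (nat_lit 4973) (nat_lit 2486) (nat_lit 9942) .nil))))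
    (.cons (nat_lit 11) (nat_lit 5) (nat_lit 18) (.cons (nat_lit 41) (nat_lit 20) (nat_lit 78) (.cons (nat_lit 181) (nat_lit 90) (nat_lit 358) (.cons (nat_lit 1021) (nat_lit 510) (nat_lit 2038) (.cons (nat_lit 2221) (nat_lit 1110) (nat_lit 4438) .nil)))))
    (.cons (nat_lit 19) (nat_lit 9) (nat_lit 34) (.cons (nat_lit 73) (nat_lit 36) (nat_lit 142) (.cons (nat_lit 199) (nat_lit 99) (nat_lit 394) (.cons (nat_lit 1549) (nat_lit 774) (nat_lit 3094) (.cons (nat_lit 2503) (nat_lit 1251) (nat_lit 5002) .nil)))))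
    (.cons (nat_lit 17) (nat_lit 8) (nat_lit 30) (.cons (nat_lit 241) (nat_lit 120) (nat_lit 478) (.cons (nat_lit 601) (nat_lit 300) (nat_lit 1198) (.cons (nat_lit 1009) (nat_lit 504) (nat_lit 2014) (.cons (nat_lit 1049) (nat_lit 524) (nat_lit 2094) (.cons (nat_lit 3121) (nat_lit 1560) (nat_lit 6238) .nil))))))
    (.cons (nat_lit 29) (nat_lit 14) (nat_lit 54) (.cons (nat_lit 43) (nat_lit 21) (nat_lit 82) (.cons (nat_lit 71) (nat_lit 35) (nat_lit 138) (.cons (nat_lit 113) (nat_lit 56) (nat_lit 222) (.cons (nat_lit 127) (nat_lit 63) (nat_lit 250) (.cons (nat_lit 211) (nat_lit 105) (nat_lit 418) (.cons (nat_lit 281) (nat_lit 140) (nat_lit 558) (.cons (nat_lit 337) (nat_lit 168) (nat_lit 670) (.cons (nat_lit 421) (nat_lit 210) (nat_lit 838) (.cons (nat_lit 491) (nat_lit 245) (nat_lit 978) (.cons (nat_lit 631) (nat_lit 315) (nat_lit 1258) (.cons (nat_lit 673) (nat_lit 336) (nat_lit 1342) (.cons (nat_lit 1709) (nat_lit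 854) (nat_lit 3414) (.cons (nat_lit 2521) (nat_lit 1260) (nat_lit 5038) (.cons (nat_lit 2801) (nat_lit 1400) (nat_lit 5598) (.cons (nat_lit 3361) (nat_lit 1680) (nat_lit 6718) (.cons (nat_lit 4621) (nat_lit 2310) (nat_lit 9238) (.cons (nat_lit 4789) (nat_lit 2394) (nat_lit 9574) .nil))))))))))))))))))) <|
  .cons (nat_lit 883) (.mk
    (.cons (nat_lit 3) (nat_lit 1) (nat_lit 2) (.cons (nat_lit 7) (nat_lit 3) (nat_lit 10) .nil))
    (.cons (nat_lit 13) (nat_lit 6) (nat_lit 22) (.cons (nat_lit 17) (nat_lit 8) (nat_lit 30) .nil))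
    (.cons (nat_lit 337) (nat_lit 168) (nat_lit 670) (.cons (nat_lit 2311) (nat_lit 1155) (nat_lit 4618) .nil))
    (.cons (nat_lit 5) (nat_lit 2) (nat_lit 6) (.cons (nat_lit 61) (nat_lit 30) (nat_lit 118) .nil))
    (.cons (nat_lit 11) (nat_lit 5) (nat_lit 18) (.cons (nat_lit 31) (nat_lit 15) (nat_lit 58) (.cons (nat_lit 151) (nat_lit 75) (nat_lit 298) (.cons (nat_lit 181) (nat_lit 90) (nat_lit 358) (.cons (nat_lit 241) (nat_lit 120) (nat_lit 478) (.cons (nat_lit 281) (nat_lit 140) (nat_lit 558) .nil))))))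
    (.cons (nat_lit 19) (nat_lit 9) (nat_lit 34) (.cons (nat_lit 37) (nat_lit 18) (nat_lit 70) (.cons (nat_lit 1117) (nat_lit 558) (nat_lit 2230) (.cons (nat_lit 1801) (nat_lit 900) (nat_lit 3598) .nil))))
    (.cons (nat_lit 41) (nat_lit 20) (nat_lit 78) (.cons (nat_lit 73) (nat_lit 36) (nat_lit 142) (.cons (nat_lit 929) (nat_lit 464) (nat_lit 1854) (.cons (nat_lit 4561) (nat_lit 2280) (nat_lit 9118) .nil))))
    (.cons (nat_lit 29) (nat_lit 14) (nat_lit 54) (.cons (nat_lit 43) (nat_lit 21) (nat_lit 82) (.cons (nat_lit 71) (nat_lit 35) (nat_lit 138) (.cons (nat_lit 113) (nat_lit 56) (nat_lit 222) (.cons (nat_lit 127) (nat_lit 63) (nat_lit 250) (.cons (nat_lit 211) (nat_lit 105) (nat_lit 418) (.cons (nat_lit 379) (nat_lit 189) (nat_lit 754) (.cons (nat_lit 421) (nat_lit 210) (nat_lit 838) (.cons (nat_lit 631) (nat_lit 315) (nat_lit 1258) (.cons (nat_lit 701) (nat_lit 350) (nat_lit 1398) (.cons (nat_lit 1009)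 (nat_lit 504) (nat_lit 2014) (.cons (nat_lit 2017) (nat_lit 1008) (nat_lit 4030) (.cons (nat_lit 2129) (nat_lit 1064) (nat_lit 4254) (.cons (nat_lit 2437) (nat_lit 1218) (nat_lit 4870) (.cons (nat_lit 2521) (nat_lit 1260) (nat_lit 5038) (.cons (nat_lit 3361) (nat_lit 1680) (nat_lit 6718) (.cons (nat_lit 3389) (nat_lit 1694) (nat_lit 6774) (.cons (nat_lit 3697) (nat_lit 1848) (nat_lit 7390) .nil))))))))))))))))))) <|
  .cons (nat_lit 1093) (.mk
    (.cons (nat_lit 3) (nat_lit 1) (nat_lit 2) (.cons (nat_lit 7) (nat_lit 3) (nat_lit 10) (.cons (nat_lit 13) (nat_lit 6) (nat_lit 22) .nil)))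
    (.cons (nat_lit 547) (nat_lit 273) (nat_lit 1090) .nil)
    .nil
    (.cons (nat_lit 5) (nat_lit 2) (nat_lit 6) (.cons (nat_lit 181) (nat_lit 90) (nat_lit 358) (.cons (nat_lit 2053) (nat_lit 1026) (nat_lit 4102) .nil)))
    (.cons (nat_lit 11) (nat_lit 5) (nat_lit 18) (.cons (nat_lit 31) (nat_lit 15) (nat_lit 58) (.cons (nat_lit 61) (nat_lit 30) (nat_lit 118) (.cons (nat_lit 271) (nat_lit 135) (nat_lit 538) (.cons (nat_lit 1361) (nat_lit 680) (nat_lit 2718) .nil)))))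
    (.cons (nat_lit 19) (nat_lit 9) (nat_lit 34) (.cons (nat_lit 37) (nat_lit 18) (nat_lit 70) (.cons (nat_lit 73) (nat_lit 36) (nat_lit 142) (.cons (nat_lit 1459) (nat_lit 729) (nat_lit 2914) .nil))))
    (.cons (nat_lit 17) (nat_lit 8) (nat_lit 30) (.cons (nat_lit 41) (nat_lit 20) (nat_lit 78) (.cons (nat_lit 241) (nat_lit 120) (nat_lit 478) (.cons (nat_lit 433) (nat_lit 216) (nat_lit 862) (.cons (nat_lit 1297) (nat_lit 648) (nat_lit 2590) (.cons (nat_lit 1873) (nat_lit 936) (nat_lit 3742) (.cons (nat_lit 2161) (nat_lit 1080) (nat_lit 4318) (.cons (nat_lit 3001) (nat_lit 1500) (nat_lit 5998) (.cons (nat_lit 3121) (nat_lit 1560) (nat_lit 6238) (.cons (nat_lit 3361) (nat_lit 1680) (nat_lit 6718) .nil))))))))))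
    (.cons (nat_lit 29) (nat_lit 14) (nat_lit 54) (.cons (nat_lit 43) (nat_lit 21) (nat_lit 82) (.cons (nat_lit 71) (nat_lit 35) (nat_lit 138) (.cons (nat_lit 113) (nat_lit 56) (nat_lit 222) (.cons (nat_lit 127) (nat_lit 63) (nat_lit 250) (.cons (nat_lit 211) (nat_lit 105) (nat_lit 418) (.cons (nat_lit 281) (nat_lit 140) (nat_lit 558) (.cons (nat_lit 337) (nat_lit 168) (nat_lit 670) (.cons (nat_lit 379) (nat_lit 189) (nat_lit 754) (.cons (nat_lit 421) (nat_lit 210) (nat_lit 838) (.cons (nat_lit 449) (nat_lit 224) (nat_lit 894) (.cons (nat_lit 631) (nat_lit 315) (nat_lit 1258) (.cons (nat_lit 1009) (nat_lit 504) (nat_lit 2014) (.cons (nat_lit 2017) (nat_lit 1008) (nat_lit 4030) (.cons (nat_lit 2213) (nat_lit 1106) (nat_lit 4422) (.cons (nat_lit 2521) (nat_lit 1260) (nat_lit 5038) (.cons (nat_lit 2731) (nat_lit 1365) (nat_lit 5458) (.cons (nat_lit 3221) (nat_lit 1610) (nat_lit 6438) .nil))))))))))))))))))) <|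
  .cons (nat_lit 1163) (.mk
    (.cons (nat_lit 7) (nat_lit 3) (nat_lit 10) (.cons (nat_lit 83) (nat_lit 41) (nat_lit 162) .nil))
    (.cons (nat_lit 3) (nat_lit 1) (nat_lit 2) (.cons (nat_lit 97) (nat_lit 48) (nat_lit 190) .nil))
    (.cons (nat_lit 127) (nat_lit 63) (nat_lit 250) (.cons (nat_lit 3547) (nat_lit 1773) (nat_lit 7090) .nil))
    (.cons (nat_lit 5) (nat_lit 2) (nat_lit 6) (.cons (nat_lit 13) (nat_lit 6) (nat_lit 22) (.cons (nat_lit 229) (nat_lit 114) (nat_lit 454) .nil)))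
    (.cons (nat_lit 11) (nat_lit 5) (nat_lit 18) (.cons (nat_lit 31) (nat_lit 15) (nat_lit 58) (.cons (nat_lit 61) (nat_lit 30) (nat_lit 118) .nil)))
    (.cons (nat_lit 19) (nat_lit 9) (nat_lit 34) (.cons (nat_lit 37) (nat_lit 18) (nat_lit 70) (.cons (nat_lit 181) (nat_lit 90) (nat_lit 358) (.cons (nat_lit 271) (nat_lit 135) (nat_lit 538) (.cons (nat_lit 1621) (nat_lit 810) (nat_lit 3238) .nil)))))
    (.cons (nat_lit 17) (nat_lit 8) (nat_lit 30) (.cons (nat_lit 41) (nat_lit 20) (nat_lit 78) (.cons (nat_lit 73) (nat_lit 36) (nat_lit 142) (.cons (nat_lit 241) (nat_lit 120) (nat_lit 478) (.cons (nat_lit 577) (nat_lit 288) (nat_lit 1150) (.cons (nat_lit 1201) (nat_lit 600) (nat_lit 2398) (.cons (nat_lit 1361) (nat_lit 680) (nat_lit 2718) (.cons (nat_lit 4129) (nat_lit 2064) (nat_lit 8254) .nil))))))))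
    (.cons (nat_lit 29) (nat_lit 14) (nat_lit 54) (.cons (nat_lit 43) (nat_lit 21) (nat_lit 82) (.cons (nat_lit 71) (nat_lit 35) (nat_lit 138) (.cons (nat_lit 113) (nat_lit 56) (nat_lit 222) (.cons (nat_lit 197) (nat_lit 98) (nat_lit 390) (.cons (nat_lit 211) (nat_lit 105) (nat_lit 418) (.cons (nat_lit 281) (nat_lit 140) (nat_lit 558) (.cons (nat_lit 337) (nat_lit 168) (nat_lit 670) (.cons (nat_lit 421) (nat_lit 210) (nat_lit 838) (.cons (nat_lit 491) (nat_lit 245) (nat_lit 978) (.cons (nat_lit 631) (nat_lit 315) (nat_lit 1258) (.cons (nat_lit 701) (nat_lit 350) (nat_lit 1398) (.cons (nat_lit 1009) (nat_lit 504) (nat_lit 2014) (.cons (nat_lit 2017) (nat_lit 1008) (nat_lit 4030) (.cons (nat_lit 2521) (nat_lit 1260) (nat_lit 5038) (.cons (nat_lit 3361) (nat_lit 1680) (nat_lit 6718) .nil))))))))))))))))) <|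
  .cons (nat_lit 2351) (.mk
    (.cons (nat_lit 5) (nat_lit 2) (nat_lit 6) (.cons (nat_lit 47) (nat_lit 23) (nat_lit 90) .nil))
    (.cons (nat_lit 3) (nat_lit 1) (nat_lit 2) (.cons (nat_lit 7) (nat_lit 3) (nat_lit 10) .nil))
    (.cons (nat_lit 31) (nat_lit 15) (nat_lit 58) (.cons (nat_lit 2269) (nat_lit 1134) (nat_lit 4534) (.cons (nat_lit 2437) (nat_lit 1218) (nat_lit 4870) .nil)))
    (.cons (nat_lit 13) (nat_lit 6) (nat_lit 22) .nil)
    (.cons (nat_lit 11) (nat_lit 5) (nat_lit 18) (.cons (nat_lit 61) (nat_lit 30) (nat_lit 118) (.cons (nat_lit 1871) (nat_lit 935) (nat_lit 3738) .nil)))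
    (.cons (nat_lit 19) (nat_lit 9) (nat_lit 34) (.cons (nat_lit 37) (nat_lit 18) (nat_lit 70) (.cons (nat_lit 181) (nat_lit 90) (nat_lit 358) (.cons (nat_lit 199) (nat_lit 99) (nat_lit 394) .nil))))
    (.cons (nat_lit 17) (nat_lit 8) (nat_lit 30) (.cons (nat_lit 41) (nat_lit 20) (nat_lit 78) (.cons (nat_lit 73) (nat_lit 36) (nat_lit 142) (.cons (nat_lit 89) (nat_lit 44) (nat_lit 174) (.cons (nat_lit 241) (nat_lit 120) (nat_lit 478) (.cons (nat_lit 1201) (nat_lit 600) (nat_lit 2398) (.cons (nat_lit 3769) (nat_lit 1884) (nat_lit 7534) .nil)))))))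
    (.cons (nat_lit 29) (nat_lit 14) (nat_lit 54) (.cons (nat_lit 43) (nat_lit 21) (nat_lit 82) (.cons (nat_lit 71) (nat_lit 35) (nat_lit 138) (.cons (nat_lit 113) (nat_lit 56) (nat_lit 222) (.cons (nat_lit 127) (nat_lit 63) (nat_lit 250) (.cons (nat_lit 211) (nat_lit 105) (nat_lit 418) (.cons (nat_lit 281) (nat_lit 140) (nat_lit 558) (.cons (nat_lit 337) (nat_lit 168) (nat_lit 670) (.cons (nat_lit 379) (nat_lit 189) (nat_lit 754) (.cons (nat_lit 421) (nat_lit 210) (nat_lit 838) (.cons (nat_lit 449) (nat_lit 224) (nat_lit 894) (.cons (nat_lit 631) (nat_lit 315) (nat_lit 1258) (.cons (nat_lit 673) (nat_lit 336) (nat_lit 1342) (.cons (nat_lit 953) (nat_lit 476) (nat_lit 1902) (.cons (nat_lit 1009) (nat_lit 504) (nat_lit 2014) (.cons (nat_lit 1709) (nat_lit 854) (nat_lit 3414) (.cons (nat_lit 2521) (nat_lit 1260) (nat_lit 5038) (.cons (nat_lit 4789) (nat_lit 2394) (nat_lit 9574) .nil))))))))))))))))))) <|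
  .cons (nat_lit 2663) (.mk
    (.cons (nat_lit 11) (nat_lit 5) (nat_lit 18) .nil)
    (.cons (nat_lit 3) (nat_lit 1) (nat_lit 2) (.cons (nat_lit 37) (nat_lit 18) (nat_lit 70) .nil))
    (.cons (nat_lit 7) (nat_lit 3) (nat_lit 10) (.cons (nat_lit 79) (nat_lit 39) (nat_lit 154) (.cons (nat_lit 4273) (nat_lit 2136) (nat_lit 8542) .nil)))
    (.cons (nat_lit 5) (nat_lit 2) (nat_lit 6) (.cons (nat_lit 13) (nat_lit 6) (nat_lit 22) (.cons (nat_lit 61) (nat_lit 30) (nat_lit 118) .nil)))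
    (.cons (nat_lit 31) (nat_lit 15) (nat_lit 58) (.cons (nat_lit 41) (nat_lit 20) (nat_lit 78) (.cons (nat_lit 2131) (nat_lit 1065) (nat_lit 4258) .nil)))
    (.cons (nat_lit 19) (nat_lit 9) (nat_lit 34) (.cons (nat_lit 73) (nat_lit 36) (nat_lit 142) (.cons (nat_lit 181) (nat_lit 90) (nat_lit 358) (.cons (nat_lit 271) (nat_lit 135) (nat_lit 538) (.cons (nat_lit 487) (nat_lit 243) (nat_lit 970) (.cons (nat_lit 541) (nat_lit 270) (nat_lit 1078) .nil))))))
    (.cons (nat_lit 17) (nat_lit 8) (nat_lit 30) (.cons (nat_lit 97) (nat_lit 48) (nat_lit 190) (.cons (nat_lit 241) (nat_lit 120) (nat_lit 478) (.cons (nat_lit 673) (nat_lit 336) (nat_lit 1342) (.cons (nat_lit 1153) (nat_lit 576) (nat_lit 2302) (.cons (nat_lit 1409) (nat_lit 704) (nat_lit 2814) (.cons (nat_lit 2729) (nat_lit 1364) (nat_lit 5454) (.cons (nat_lit 3457) (nat_lit 1728) (nat_lit 6910) (.cons (nat_lit 3673) (nat_lit 1836) (nat_lit 7342) .nil)))))))))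
    (.cons (nat_lit 29) (nat_lit 14) (nat_lit 54) (.cons (nat_lit 43) (nat_lit 21) (nat_lit 82) (.cons (nat_lit 71) (nat_lit 35) (nat_lit 138) (.cons (nat_lit 113) (nat_lit 56) (nat_lit 222) (.cons (nat_lit 127) (nat_lit 63) (nat_lit 250) (.cons (nat_lit 211) (nat_lit 105) (nat_lit 418) (.cons (nat_lit 281) (nat_lit 140) (nat_lit 558) (.cons (nat_lit 337) (nat_lit 168) (nat_lit 670) (.cons (nat_lit 421) (nat_lit 210) (nat_lit 838) (.cons (nat_lit 491) (nat_lit 245) (nat_lit 978) (.cons (nat_lit 631) (nat_lit 315) (nat_lit 1258) (.cons (nat_lit 1009) (nat_lit 504) (nat_lit 2014) (.cons (nat_lit 1051) (nat_lit 525) (nat_lit 2098) (.cons (nat_lit 2017) (nat_lit 1008) (nat_lit 4030) (.cons (nat_lit 2521) (nat_lit 1260) (nat_lit 5038) (.cons (nat_lit 3137) (nat_lit 1568) (nat_lit 6270) .nil))))))))))))))))) <|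
  .cons (nat_lit 2753) (.mk
    (.cons (nat_lit 43) (nat_lit 21) (nat_lit 82) .nil)
    (.cons (nat_lit 3) (nat_lit 1) (nat_lit 2) (.cons (nat_lit 17) (nat_lit 8) (nat_lit 30) .nil))
    (.cons (nat_lit 7) (nat_lit 3) (nat_lit 10) (.cons (nat_lit 13) (nat_lit 6) (nat_lit 22) (.cons (nat_lit 31) (nat_lit 15) (nat_lit 58) .nil)))
    (.cons (nat_lit 5) (nat_lit 2) (nat_lit 6) (.cons (nat_lit 509) (nat_lit 254) (nat_lit 1014) (.cons (nat_lit 1489) (nat_lit 744) (nat_lit 2974) .nil)))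
    (.cons (nat_lit 11) (nat_lit 5) (nat_lit 18) (.cons (nat_lit 61) (nat_lit 30) (nat_lit 118) (.cons (nat_lit 211) (nat_lit 105) (nat_lit 418) (.cons (nat_lit 541) (nat_lit 270) (nat_lit 1078) .nil))))
    (.cons (nat_lit 19) (nat_lit 9) (nat_lit 34) (.cons (nat_lit 37) (nat_lit 18) (nat_lit 70) (.cons (nat_lit 181) (nat_lit 90) (nat_lit 358) .nil)))
    (.cons (nat_lit 41) (nat_lit 20) (nat_lit 78) (.cons (nat_lit 73) (nat_lit 36) (nat_lit 142) (.cons (nat_lit 241) (nat_lit 120) (nat_lit 478) (.cons (nat_lit 1657) (nat_lit 828) (nat_lit 3310) (.cons (nat_lit 3169) (nat_lit 1584) (nat_lit 6334) (.cons (nat_lit 3457) (nat_lit 1728) (nat_lit 6910) .nil))))))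
    (.cons (nat_lit 29) (nat_lit 14) (nat_lit 54) (.cons (nat_lit 71) (nat_lit 35) (nat_lit 138) (.cons (nat_lit 113) (nat_lit 56) (nat_lit 222) (.cons (nat_lit 127) (nat_lit 63) (nat_lit 250) (.cons (nat_lit 281) (nat_lit 140) (nat_lit 558) (.cons (nat_lit 337) (nat_lit 168) (nat_lit 670) (.cons (nat_lit 421) (nat_lit 210) (nat_lit 838) (.cons (nat_lit 631) (nat_lit 315) (nat_lit 1258) (.cons (nat_lit 911) (nat_lit 455) (nat_lit 1818) (.cons (nat_lit 1009) (nat_lit 504) (nat_lit 2014) (.cons (nat_lit 1051) (nat_lit 525) (nat_lit 2098) (.cons (nat_lit 2017) (nat_lit 1008) (nat_lit 4030) (.cons (nat_lit 2269) (nat_lit 1134) (nat_lit 4534) (.cons (nat_lit 2521) (nat_lit 1260) (nat_lit 5038) (.cons (nat_lit 2689) (nat_lit 1344) (nat_lit 5374) (.cons (nat_lit 3361) (nat_lit 1680) (nat_lit 6718) (.cons (nat_lit 4201) (nat_lit 2100) (nat_lit 8398) .nil)))))))))))))))))) <|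
  .cons (nat_lit 4007) (.mk
    (.cons (nat_lit 2003) (nat_lit 1001) (nat_lit 4002) .nil)
    (.cons (nat_lit 3) (nat_lit 1) (nat_lit 2) (.cons (nat_lit 167) (nat_lit 83) (nat_lit 330) .nil))
    (.cons (nat_lit 7) (nat_lit 3) (nat_lit 10) (.cons (nat_lit 13) (nat_lit 6) (nat_lit 22) (.cons (nat_lit 37) (nat_lit 18) (nat_lit 70) (.cons (nat_lit 73) (nat_lit 36) (nat_lit 142) (.cons (nat_lit 283) (nat_lit 141) (nat_lit 562) .nil)))))
    (.cons (nat_lit 5) (nat_lit 2) (nat_lit 6) (.cons (nat_lit 317) (nat_lit 158) (nat_lit 630) (.cons (nat_lit 1013) (nat_lit 506) (nat_lit 2022) .nil)))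
    (.cons (nat_lit 11) (nat_lit 5) (nat_lit 18) (.cons (nat_lit 31) (nat_lit 15) (nat_lit 58) (.cons (nat_lit 61) (nat_lit 30) (nat_lit 118) (.cons (nat_lit 181) (nat_lit 90) (nat_lit 358) (.cons (nat_lit 241) (nat_lit 120) (nat_lit 478) (.cons (nat_lit 311) (nat_lit 155) (nat_lit 618) (.cons (nat_lit 1801) (nat_lit 900) (nat_lit 3598) .nil)))))))
    (.cons (nat_lit 19) (nat_lit 9) (nat_lit 34) (.cons (nat_lit 1621) (nat_lit 810) (nat_lit 3238) (.cons (nat_lit 2791) (nat_lit 1395) (nat_lit 5578) .nil)))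
    (.cons (nat_lit 17) (nat_lit 8) (nat_lit 30) (.cons (nat_lit 41) (nat_lit 20) (nat_lit 78) (.cons (nat_lit 193) (nat_lit 96) (nat_lit 382) (.cons (nat_lit 577) (nat_lit 288) (nat_lit 1150) (.cons (nat_lit 2081) (nat_lit 1040) (nat_lit 4158) (.cons (nat_lit 3457) (nat_lit 1728) (nat_lit 6910) (.cons (nat_lit 4801) (nat_lit 2400) (nat_lit 9598) .nil)))))))
    (.cons (nat_lit 29) (nat_lit 14) (nat_lit 54) (.cons (nat_lit 43) (nat_lit 21) (nat_lit 82) (.cons (nat_lit 71) (nat_lit 35) (nat_lit 138) (.cons (nat_lit 113) (nat_lit 56) (nat_lit 222) (.cons (nat_lit 127) (nat_lit 63) (nat_lit 250) (.cons (nat_lit 211) (nat_lit 105) (nat_lit 418) (.cons (nat_lit 281) (nat_lit 140) (nat_lit 558) (.cons (nat_lit 337) (nat_lit 168) (nat_lit 670) (.cons (nat_lit 379) (nat_lit 189) (nat_lit 754) (.cons (nat_lit 421) (nat_lit 210) (nat_lit 838) (.cons (nat_lit 547) (nat_lit 273) (nat_lit 1090) (.cons (nat_lit 617) (nat_lit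 308) (nat_lit 1230) (.cons (nat_lit 631) (nat_lit 315) (nat_lit 1258) (.cons (nat_lit 757) (nat_lit 378) (nat_lit 1510) (.cons (nat_lit 1009) (nat_lit 504) (nat_lit 2014) (.cons (nat_lit 1303) (nat_lit 651) (nat_lit 2602) (.cons (nat_lit 2017) (nat_lit 1008) (nat_lit 4030) (.cons (nat_lit 2129) (nat_lit 1064) (nat_lit 4254) (.cons (nat_lit 2521) (nat_lit 1260) (nat_lit 5038) (.cons (nat_lit 3529) (nat_lit 1764) (nat_lit 7054) (.cons (nat_lit 3571) (nat_lit 1785) (nat_lit 7138) .nil)))))))))))))))))))))) <|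
  .cons (nat_lit 4133) (.mk
    (.cons (nat_lit 1033) (nat_lit 516) (nat_lit 2062) .nil)
    (.cons (nat_lit 3) (nat_lit 1) (nat_lit 2) (.cons (nat_lit 13) (nat_lit 6) (nat_lit 22) (.cons (nat_lit 53) (nat_lit 26) (nat_lit 102) .nil)))
    (.cons (nat_lit 7) (nat_lit 3) (nat_lit 10) (.cons (nat_lit 37) (nat_lit 18) (nat_lit 70) (.cons (nat_lit 163) (nat_lit 81) (nat_lit 322) (.cons (nat_lit 2833) (nat_lit 1416) (nat_lit 5662) .nil))))
    (.cons (nat_lit 5) (nat_lit 2) (nat_lit 6) .nil)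
    (.cons (nat_lit 11) (nat_lit 5) (nat_lit 18) (.cons (nat_lit 31) (nat_lit 15) (nat_lit 58) (.cons (nat_lit 41) (nat_lit 20) (nat_lit 78) (.cons (nat_lit 61) (nat_lit 30) (nat_lit 118) (.cons (nat_lit 181) (nat_lit 90) (nat_lit 358) (.cons (nat_lit 241) (nat_lit 120) (nat_lit 478) (.cons (nat_lit 421) (nat_lit 210) (nat_lit 838) (.cons (nat_lit 3691) (nat_lit 1845) (nat_lit 7378) .nil))))))))
    (.cons (nat_lit 19) (nat_lit 9) (nat_lit 34) (.cons (nat_lit 3169) (nat_lit 1584) (nat_lit 6334) .nil))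
    (.cons (nat_lit 17) (nat_lit 8) (nat_lit 30) (.cons (nat_lit 73) (nat_lit 36) (nat_lit 142) (.cons (nat_lit 113) (nat_lit 56) (nat_lit 222) (.cons (nat_lit 449) (nat_lit 224) (nat_lit 894) (.cons (nat_lit 1801) (nat_lit 900) (nat_lit 3598) (.cons (nat_lit 2017) (nat_lit 1008) (nat_lit 4030) (.cons (nat_lit 3121) (nat_lit 1560) (nat_lit 6238) .nil)))))))
    (.cons (nat_lit 29) (nat_lit 14) (nat_lit 54) (.cons (nat_lit 43) (nat_lit 21) (nat_lit 82) (.cons (nat_lit 71) (nat_lit 35) (nat_lit 138) (.cons (nat_lit 127) (nat_lit 63) (nat_lit 250) (.cons (nat_lit 211) (nat_lit 105) (nat_lit 418) (.cons (nat_lit 281) (nat_lit 140) (nat_lit 558) (.cons (nat_lit 337) (nat_lit 168) (nat_lit 670) (.cons (nat_lit 379) (nat_lit 189) (nat_lit 754) (.cons (nat_lit 463) (nat_lit 231) (nat_lit 922) (.cons (nat_lit 547) (nat_lit 273) (nat_lit 1090) (.cons (nat_lit 631) (nat_lit 315) (nat_lit 1258) (.cons (nat_lit 673) (nat_lit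 336) (nat_lit 1342) (.cons (nat_lit 1009) (nat_lit 504) (nat_lit 2014) (.cons (nat_lit 2521) (nat_lit 1260) (nat_lit 5038) (.cons (nat_lit 2801) (nat_lit 1400) (nat_lit 5598) (.cons (nat_lit 4201) (nat_lit 2100) (nat_lit 8398) .nil))))))))))))))))) <|
  .cons (nat_lit 4493) (.mk
    (.cons (nat_lit 1123) (nat_lit 561) (nat_lit 2242) .nil)
    (.cons (nat_lit 3) (nat_lit 1) (nat_lit 2) (.cons (nat_lit 7) (nat_lit 3) (nat_lit 10) (.cons (nat_lit 107) (nat_lit 53) (nat_lit 210) .nil)))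
    (.cons (nat_lit 2797) (nat_lit 1398) (nat_lit 5590) .nil)
    (.cons (nat_lit 5) (nat_lit 2) (nat_lit 6) (.cons (nat_lit 13) (nat_lit 6) (nat_lit 22) (.cons (nat_lit 61) (nat_lit 30) (nat_lit 118) (.cons (nat_lit 2389) (nat_lit 1194) (nat_lit 4774) .nil))))
    (.cons (nat_lit 11) (nat_lit 5) (nat_lit 18) (.cons (nat_lit 31) (nat_lit 15) (nat_lit 58) .nil))
    (.cons (nat_lit 19) (nat_lit 9) (nat_lit 34) (.cons (nat_lit 37) (nat_lit 18) (nat_lit 70) (.cons (nat_lit 181) (nat_lit 90) (nat_lit 358) (.cons (nat_lit 1171) (nat_lit 585) (nat_lit 2338) .nil))))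
    (.cons (nat_lit 17) (nat_lit 8) (nat_lit 30) (.cons (nat_lit 41) (nat_lit 20) (nat_lit 78) (.cons (nat_lit 73) (nat_lit 36) (nat_lit 142) (.cons (nat_lit 97) (nat_lit 48) (nat_lit 190) (.cons (nat_lit 241) (nat_lit 120) (nat_lit 478) (.cons (nat_lit 1201) (nat_lit 600) (nat_lit 2398) (.cons (nat_lit 1601) (nat_lit 800) (nat_lit 3198) .nil)))))))
    (.cons (nat_lit 29) (nat_lit 14) (nat_lit 54) (.cons (nat_lit 43) (nat_lit 21) (nat_lit 82) (.cons (nat_lit 71) (nat_lit 35) (nat_lit 138) (.cons (nat_lit 113) (nat_lit 56) (nat_lit 222) (.cons (nat_lit 127) (nat_lit 63) (nat_lit 250) (.cons (nat_lit 211) (nat_lit 105) (nat_lit 418) (.cons (nat_lit 281) (nat_lit 140) (nat_lit 558) (.cons (nat_lit 337) (nat_lit 168) (nat_lit 670) (.cons (nat_lit 421) (nat_lit 210) (nat_lit 838) (.cons (nat_lit 547) (nat_lit 273) (nat_lit 1090) (.cons (nat_lit 631) (nat_lit 315) (nat_lit 1258) (.cons (nat_lit 1009) (nat_lit 504)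 (nat_lit 2014) (.cons (nat_lit 2381) (nat_lit 1190) (nat_lit 4758) (.cons (nat_lit 2521) (nat_lit 1260) (nat_lit 5038) (.cons (nat_lit 2731) (nat_lit 1365) (nat_lit 5458) (.cons (nat_lit 2801) (nat_lit 1400) (nat_lit 5598) (.cons (nat_lit 3361) (nat_lit 1680) (nat_lit 6718) .nil)))))))))))))))))) <|
  .cons (nat_lit 10453) (.mk
    (.cons (nat_lit 3) (nat_lit 1) (nat_lit 2) (.cons (nat_lit 13) (nat_lit 6) (nat_lit 22) (.cons (nat_lit 67) (nat_lit 33) (nat_lit 130) .nil)))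
    .nil
    (.cons (nat_lit 7) (nat_lit 3) (nat_lit 10) (.cons (nat_lit 31) (nat_lit 15) (nat_lit 58) .nil))
    (.cons (nat_lit 5) (nat_lit 2) (nat_lit 6) (.cons (nat_lit 1201) (nat_lit 600) (nat_lit 2398) .nil))
    (.cons (nat_lit 11) (nat_lit 5) (nat_lit 18) (.cons (nat_lit 41) (nat_lit 20) (nat_lit 78) (.cons (nat_lit 61) (nat_lit 30) (nat_lit 118) (.cons (nat_lit 241) (nat_lit 120) (nat_lit 478) (.cons (nat_lit 1801) (nat_lit 900) (nat_lit 3598) .nil)))))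
    (.cons (nat_lit 19) (nat_lit 9) (nat_lit 34) (.cons (nat_lit 37) (nat_lit 18) (nat_lit 70) (.cons (nat_lit 181) (nat_lit 90) (nat_lit 358) (.cons (nat_lit 541) (nat_lit 270) (nat_lit 1078) .nil))))
    (.cons (nat_lit 17) (nat_lit 8) (nat_lit 30) (.cons (nat_lit 73) (nat_lit 36) (nat_lit 142) (.cons (nat_lit 137) (nat_lit 68) (nat_lit 270) (.cons (nat_lit 521) (nat_lit 260) (nat_lit 1038) .nil))))
    (.cons (nat_lit 29) (nat_lit 14) (nat_lit 54) (.cons (nat_lit 43) (nat_lit 21) (nat_lit 82) (.cons (nat_lit 71) (nat_lit 35) (nat_lit 138) (.cons (nat_lit 113) (nat_lit 56) (nat_lit 222) (.cons (nat_lit 127) (nat_lit 63) (nat_lit 250) (.cons (nat_lit 211) (nat_lit 105) (nat_lit 418) (.cons (nat_lit 281) (nat_lit 140) (nat_lit 558) (.cons (nat_lit 337) (nat_lit 168) (nat_lit 670) (.cons (nat_lit 379) (nat_lit 189) (nat_lit 754) (.cons (nat_lit 421) (nat_lit 210) (nat_lit 838) (.cons (nat_lit 449) (nat_lit 224)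 (nat_lit 894) (.cons (nat_lit 463) (nat_lit 231) (nat_lit 922) (.cons (nat_lit 617) (nat_lit 308) (nat_lit 1230) (.cons (nat_lit 631) (nat_lit 315) (nat_lit 1258) (.cons (nat_lit 1009) (nat_lit 504) (nat_lit 2014) (.cons (nat_lit 1051) (nat_lit 525) (nat_lit 2098) (.cons (nat_lit 2017) (nat_lit 1008) (nat_lit 4030) (.cons (nat_lit 2311) (nat_lit 1155) (nat_lit 4618) (.cons (nat_lit 2521) (nat_lit 1260) (nat_lit 5038) (.cons (nat_lit 4201) (nat_lit 2100) (nat_lit 8398) (.cons (nat_lit 4789) (nat_lit 2394) (nat_lit 9574) .nil)))))))))))))))))))))) <|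
  .cons (nat_lit 10723) (.mk
    (.cons (nat_lit 3) (nat_lit 1) (nat_lit 2) (.cons (nat_lit 1787) (nat_lit 893) (nat_lit 3570) .nil))
    (.cons (nat_lit 7) (nat_lit 3) (nat_lit 10) (.cons (nat_lit 383) (nat_lit 191) (nat_lit 762) .nil))
    (.cons (nat_lit 19) (nat_lit 9) (nat_lit 34) (.cons (nat_lit 61) (nat_lit 30) (nat_lit 118) (.cons (nat_lit 73) (nat_lit 36) (nat_lit 142) (.cons (nat_lit 193) (nat_lit 96) (nat_lit 382) .nil))))
    (.cons (nat_lit 5) (nat_lit 2) (nat_lit 6) (.cons (nat_lit 13) (nat_lit 6) (nat_lit 22) (.cons (nat_lit 17) (nat_lit 8) (nat_lit 30) (.cons (nat_lit 109) (nat_lit 54) (nat_lit 214) (.cons (nat_lit 137) (nat_lit 68) (nat_lit 270) (.cons (nat_lit 4937) (nat_lit 2468) (nat_lit 9870) .nil))))))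
    (.cons (nat_lit 11) (nat_lit 5) (nat_lit 18) (.cons (nat_lit 31) (nat_lit 15) (nat_lit 58) (.cons (nat_lit 101) (nat_lit 50) (nat_lit 198) (.cons (nat_lit 151) (nat_lit 75) (nat_lit 298) (.cons (nat_lit 241) (nat_lit 120) (nat_lit 478) (.cons (nat_lit 1171) (nat_lit 585) (nat_lit 2338) (.cons (nat_lit 1741) (nat_lit 870) (nat_lit 3478) (.cons (nat_lit 3541) (nat_lit 1770) (nat_lit 7078) (.cons (nat_lit 4561) (nat_lit 2280) (nat_lit 9118) .nil)))))))))
    (.cons (nat_lit 37) (nat_lit 18) (nat_lit 70) (.cons (nat_lit 181) (nat_lit 90) (nat_lit 358) (.cons (nat_lit 271) (nat_lit 135) (nat_lit 538) (.cons (nat_lit 631) (nat_lit 315) (nat_lit 1258) (.cons (nat_lit 1297) (nat_lit 648) (nat_lit 2590) (.cons (nat_lit 2341) (nat_lit 1170) (nat_lit 4678) .nil))))))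
    (.cons (nat_lit 41) (nat_lit 20) (nat_lit 78) (.cons (nat_lit 97) (nat_lit 48) (nat_lit 190) (.cons (nat_lit 2417) (nat_lit 1208) (nat_lit 4830) (.cons (nat_lit 4177) (nat_lit 2088) (nat_lit 8350) .nil))))
    (.cons (nat_lit 29) (nat_lit 14) (nat_lit 54) (.cons (nat_lit 43) (nat_lit 21) (nat_lit 82) (.cons (nat_lit 71) (nat_lit 35) (nat_lit 138) (.cons (nat_lit 113) (nat_lit 56) (nat_lit 222) (.cons (nat_lit 127) (nat_lit 63) (nat_lit 250) (.cons (nat_lit 211) (nat_lit 105) (nat_lit 418) (.cons (nat_lit 281) (nat_lit 140) (nat_lit 558) (.cons (nat_lit 337) (nat_lit 168) (nat_lit 670) (.cons (nat_lit 421) (nat_lit 210) (nat_lit 838) (.cons (nat_lit 757) (nat_lit 378) (nat_lit 1510) (.cons (nat_lit 1009) (nat_lit 504) (nat_lit 2014) (.cons (nat_lit 2017) (nat_lit 1008) (nat_lit 4030) (.cons (nat_lit 2269) (nat_lit 1134) (nat_lit 4534) (.cons (nat_lit 2521) (nat_lit 1260) (nat_lit 5038) (.cons (nat_lit 2689)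 (nat_lit 1344) (nat_lit 5374) (.cons (nat_lit 2801) (nat_lit 1400) (nat_lit 5598) (.cons (nat_lit 3361) (nat_lit 1680) (nat_lit 6718) .nil)))))))))))))))))) <|
  .cons (nat_lit 11423) (.mk
    .nil
    (.cons (nat_lit 3) (nat_lit 1) (nat_lit 2) (.cons (nat_lit 7) (nat_lit 3) (nat_lit 10) (.cons (nat_lit 17) (nat_lit 8) (nat_lit 30) .nil)))
    (.cons (nat_lit 13) (nat_lit 6) (nat_lit 22) (.cons (nat_lit 37) (nat_lit 18) (nat_lit 70) .nil))
    (.cons (nat_lit 5) (nat_lit 2) (nat_lit 6) (.cons (nat_lit 101) (nat_lit 50) (nat_lit 198) .nil))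
    (.cons (nat_lit 11) (nat_lit 5) (nat_lit 18) (.cons (nat_lit 31) (nat_lit 15) (nat_lit 58) (.cons (nat_lit 41) (nat_lit 20) (nat_lit 78) (.cons (nat_lit 61) (nat_lit 30) (nat_lit 118) (.cons (nat_lit 241) (nat_lit 120) (nat_lit 478) .nil)))))
    (.cons (nat_lit 19) (nat_lit 9) (nat_lit 34) (.cons (nat_lit 73) (nat_lit 36) (nat_lit 142) (.cons (nat_lit 181) (nat_lit 90) (nat_lit 358) (.cons (nat_lit 271) (nat_lit 135) (nat_lit 538) (.cons (nat_lit 1117) (nat_lit 558) (nat_lit 2230) (.cons (nat_lit 1531) (nat_lit 765) (nat_lit 3058) (.cons (nat_lit 2251) (nat_lit 1125) (nat_lit 4498) .nil)))))))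
    (.cons (nat_lit 193) (nat_lit 96) (nat_lit 382) (.cons (nat_lit 433) (nat_lit 216) (nat_lit 862) (.cons (nat_lit 1321) (nat_lit 660) (nat_lit 2638) (.cons (nat_lit 1777) (nat_lit 888) (nat_lit 3550) (.cons (nat_lit 2161) (nat_lit 1080) (nat_lit 4318) .nil)))))
    (.cons (nat_lit 29) (nat_lit 14) (nat_lit 54) (.cons (nat_lit 43) (nat_lit 21) (nat_lit 82) (.cons (nat_lit 71) (nat_lit 35) (nat_lit 138) (.cons (nat_lit 113) (nat_lit 56) (nat_lit 222) (.cons (nat_lit 127) (nat_lit 63) (nat_lit 250) (.cons (nat_lit 211) (nat_lit 105) (nat_lit 418) (.cons (nat_lit 281) (nat_lit 140) (nat_lit 558) (.cons (nat_lit 337) (nat_lit 168) (nat_lit 670) (.cons (nat_lit 421) (nat_lit 210) (nat_lit 838) (.cons (nat_lit 449) (nat_lit 224) (nat_lit 894) (.cons (nat_lit 631) (nat_lit 315) (nat_lit 1258) (.cons (nat_lit 673) (nat_lit 336) (nat_lit 1342) (.cons (nat_lit 967) (nat_lit 483) (nat_lit 1930) (.cons (nat_lit 1009) (nat_lit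 504) (nat_lit 2014) (.cons (nat_lit 1597) (nat_lit 798) (nat_lit 3190) (.cons (nat_lit 2521) (nat_lit 1260) (nat_lit 5038) .nil))))))))))))))))) <|
  .cons (nat_lit 12433) (.mk
    (.cons (nat_lit 3) (nat_lit 1) (nat_lit 2) (.cons (nat_lit 7) (nat_lit 3) (nat_lit 10) (.cons (nat_lit 37) (nat_lit 18) (nat_lit 70) .nil)))
    .nil
    (.cons (nat_lit 19) (nat_lit 9) (nat_lit 34) (.cons (nat_lit 43) (nat_lit 21) (nat_lit 82) (.cons (nat_lit 67) (nat_lit 33) (nat_lit 130) .nil)))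
    (.cons (nat_lit 5) (nat_lit 2) (nat_lit 6) (.cons (nat_lit 13) (nat_lit 6) (nat_lit 22) (.cons (nat_lit 61) (nat_lit 30) (nat_lit 118) (.cons (nat_lit 101) (nat_lit 50) (nat_lit 198) (.cons (nat_lit 193) (nat_lit 96) (nat_lit 382) .nil)))))
    (.cons (nat_lit 11) (nat_lit 5) (nat_lit 18) (.cons (nat_lit 31) (nat_lit 15) (nat_lit 58) (.cons (nat_lit 41) (nat_lit 20) (nat_lit 78) (.cons (nat_lit 181) (nat_lit 90) (nat_lit 358) (.cons (nat_lit 421) (nat_lit 210) (nat_lit 838) (.cons (nat_lit 661) (nat_lit 330) (nat_lit 1318) (.cons (nat_lit 1831) (nat_lit 915) (nat_lit 3658) (.cons (nat_lit 4441) (nat_lit 2220) (nat_lit 8878) .nil))))))))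
    (.cons (nat_lit 73) (nat_lit 36) (nat_lit 142) .nil)
    (.cons (nat_lit 17) (nat_lit 8) (nat_lit 30) (.cons (nat_lit 241) (nat_lit 120) (nat_lit 478) (.cons (nat_lit 1321) (nat_lit 660) (nat_lit 2638) (.cons (nat_lit 1801) (nat_lit 900) (nat_lit 3598) .nil))))
    (.cons (nat_lit 29) (nat_lit 14) (nat_lit 54) (.cons (nat_lit 71) (nat_lit 35) (nat_lit 138) (.cons (nat_lit 113) (nat_lit 56) (nat_lit 222) (.cons (nat_lit 127) (nat_lit 63) (nat_lit 250) (.cons (nat_lit 211) (nat_lit 105) (nat_lit 418) (.cons (nat_lit 281) (nat_lit 140) (nat_lit 558) (.cons (nat_lit 337) (nat_lit 168) (nat_lit 670) (.cons (nat_lit 631) (nat_lit 315) (nat_lit 1258) (.cons (nat_lit 883) (nat_lit 441) (nat_lit 1762) (.cons (nat_lit 1009) (nat_lit 504) (nat_lit 2014) (.cons (nat_lit 1051) (nat_lit 525) (nat_lit 2098) (.cons (nat_lit 2017) (nat_lit 1008) (nat_lit 4030) (.cons (nat_lit 2521) (nat_lit 1260) (nat_lit 5038) (.cons (nat_lit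 3361) (nat_lit 1680) (nat_lit 6718) (.cons (nat_lit 3613) (nat_lit 1806) (nat_lit 7222) (.cons (nat_lit 4621) (nat_lit 2310) (nat_lit 9238) .nil))))))))))))))))) <|
  .cons (nat_lit 12853) (.mk
    (.cons (nat_lit 3) (nat_lit 1) (nat_lit 2) (.cons (nat_lit 7) (nat_lit 3) (nat_lit 10) (.cons (nat_lit 17) (nat_lit 8) (nat_lit 30) .nil)))
    .nil
    (.cons (nat_lit 13) (nat_lit 6) (nat_lit 22) (.cons (nat_lit 79) (nat_lit 39) (nat_lit 154) .nil))
    (.cons (nat_lit 5) (nat_lit 2) (nat_lit 6) (.cons (nat_lit 37) (nat_lit 18) (nat_lit 70) (.cons (nat_lit 709) (nat_lit 354) (nat_lit 1414) .nil)))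
    (.cons (nat_lit 11) (nat_lit 5) (nat_lit 18) (.cons (nat_lit 31) (nat_lit 15) (nat_lit 58) (.cons (nat_lit 41) (nat_lit 20) (nat_lit 78) (.cons (nat_lit 61) (nat_lit 30) (nat_lit 118) .nil))))
    (.cons (nat_lit 19) (nat_lit 9) (nat_lit 34) (.cons (nat_lit 181) (nat_lit 90) (nat_lit 358) (.cons (nat_lit 433) (nat_lit 216) (nat_lit 862) .nil)))
    (.cons (nat_lit 73) (nat_lit 36) (nat_lit 142) (.cons (nat_lit 89) (nat_lit 44) (nat_lit 174) (.cons (nat_lit 97) (nat_lit 48) (nat_lit 190) (.cons (nat_lit 241) (nat_lit 120) (nat_lit 478) (.cons (nat_lit 1153) (nat_lit 576) (nat_lit 2302) (.cons (nat_lit 1201) (nat_lit 600) (nat_lit 2398) .nil))))))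
    (.cons (nat_lit 29) (nat_lit 14) (nat_lit 54) (.cons (nat_lit 43) (nat_lit 21) (nat_lit 82) (.cons (nat_lit 71) (nat_lit 35) (nat_lit 138) (.cons (nat_lit 113) (nat_lit 56) (nat_lit 222) (.cons (nat_lit 127) (nat_lit 63) (nat_lit 250) (.cons (nat_lit 211) (nat_lit 105) (nat_lit 418) (.cons (nat_lit 281) (nat_lit 140) (nat_lit 558) (.cons (nat_lit 337) (nat_lit 168) (nat_lit 670) (.cons (nat_lit 379) (nat_lit 189) (nat_lit 754) (.cons (nat_lit 421) (nat_lit 210) (nat_lit 838) (.cons (nat_lit 631) (nat_lit 315) (nat_lit 1258) (.cons (nat_lit 1009) (nat_lit 504) (nat_lit 2014) (.cons (nat_lit 1429) (nat_lit 714) (nat_lit 2854) (.cons (nat_lit 2521) (nat_lit 1260) (nat_lit 5038) (.cons (nat_lit 2689) (nat_lit 1344) (nat_lit 5374) (.cons (nat_lit 3529) (nat_lit 1764) (nat_lit 7054) .nil))))))))))))))))) <|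
  .cons (nat_lit 13093) (.mk
    (.cons (nat_lit 3) (nat_lit 1) (nat_lit 2) (.cons (nat_lit 1091) (nat_lit 545) (nat_lit 2178) .nil))
    .nil
    (.cons (nat_lit 7) (nat_lit 3) (nat_lit 10) .nil)
    (.cons (nat_lit 5) (nat_lit 2) (nat_lit 6) (.cons (nat_lit 13) (nat_lit 6) (nat_lit 22) (.cons (nat_lit 113) (nat_lit 56) (nat_lit 222) .nil)))
    (.cons (nat_lit 11) (nat_lit 5) (nat_lit 18) (.cons (nat_lit 31) (nat_lit 15) (nat_lit 58) (.cons (nat_lit 61) (nat_lit 30) (nat_lit 118) (.cons (nat_lit 2371) (nat_lit 1185) (nat_lit 4738) (.cons (nat_lit 3571) (nat_lit 1785) (nat_lit 7138) .nil)))))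
    (.cons (nat_lit 19) (nat_lit 9) (nat_lit 34) (.cons (nat_lit 37) (nat_lit 18) (nat_lit 70) (.cons (nat_lit 163) (nat_lit 81) (nat_lit 322) (.cons (nat_lit 181) (nat_lit 90) (nat_lit 358) (.cons (nat_lit 631) (nat_lit 315) (nat_lit 1258) .nil)))))
    (.cons (nat_lit 17) (nat_lit 8) (nat_lit 30) (.cons (nat_lit 41) (nat_lit 20) (nat_lit 78) (.cons (nat_lit 73) (nat_lit 36) (nat_lit 142) (.cons (nat_lit 97) (nat_lit 48) (nat_lit 190) (.cons (nat_lit 241) (nat_lit 120) (nat_lit 478) (.cons (nat_lit 433) (nat_lit 216) (nat_lit 862) .nil))))))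
    (.cons (nat_lit 29) (nat_lit 14) (nat_lit 54) (.cons (nat_lit 43) (nat_lit 21) (nat_lit 82) (.cons (nat_lit 71) (nat_lit 35) (nat_lit 138) (.cons (nat_lit 127) (nat_lit 63) (nat_lit 250) (.cons (nat_lit 211) (nat_lit 105) (nat_lit 418) (.cons (nat_lit 281) (nat_lit 140) (nat_lit 558) (.cons (nat_lit 337) (nat_lit 168) (nat_lit 670) (.cons (nat_lit 421) (nat_lit 210) (nat_lit 838) (.cons (nat_lit 449) (nat_lit 224) (nat_lit 894) (.cons (nat_lit 757) (nat_lit 378) (nat_lit 1510) (.cons (nat_lit 1009) (nat_lit 504) (nat_lit 2014) (.cons (nat_lit 1471) (nat_lit 735) (nat_lit 2938) (.cons (nat_lit 2521) (nat_lit 1260) (nat_lit 5038) (.cons (nat_lit 4201) (nat_lit 2100) (nat_lit 8398) .nil))))))))))))))) <|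
  .cons (nat_lit 14533) (.mk
    (.cons (nat_lit 3) (nat_lit 1) (nat_lit 2) (.cons (nat_lit 7) (nat_lit 3) (nat_lit 10) (.cons (nat_lit 173) (nat_lit 86) (nat_lit 342) .nil)))
    (.cons (nat_lit 13) (nat_lit 6) (nat_lit 22) (.cons (nat_lit 43) (nat_lit 21) (nat_lit 82) .nil))
    (.cons (nat_lit 31) (nat_lit 15) (nat_lit 58) (.cons (nat_lit 331) (nat_lit 165) (nat_lit 658) (.cons (nat_lit 1051) (nat_lit 525) (nat_lit 2098) (.cons (nat_lit 2161) (nat_lit 1080) (nat_lit 4318) .nil))))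
    (.cons (nat_lit 5) (nat_lit 2) (nat_lit 6) (.cons (nat_lit 37) (nat_lit 18) (nat_lit 70) (.cons (nat_lit 1693) (nat_lit 846) (nat_lit 3382) .nil)))
    (.cons (nat_lit 11) (nat_lit 5) (nat_lit 18) (.cons (nat_lit 61) (nat_lit 30) (nat_lit 118) (.cons (nat_lit 1321) (nat_lit 660) (nat_lit 2638) (.cons (nat_lit 1381) (nat_lit 690) (nat_lit 2758) (.cons (nat_lit 2731) (nat_lit 1365) (nat_lit 5458) .nil)))))
    (.cons (nat_lit 19) (nat_lit 9) (nat_lit 34) (.cons (nat_lit 73) (nat_lit 36) (nat_lit 142) (.cons (nat_lit 181) (nat_lit 90) (nat_lit 358) (.cons (nat_lit 4177) (nat_lit 2088) (nat_lit 8350) .nil))))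
    (.cons (nat_lit 17) (nat_lit 8) (nat_lit 30) (.cons (nat_lit 41) (nat_lit 20) (nat_lit 78) (.cons (nat_lit 113) (nat_lit 56) (nat_lit 222) (.cons (nat_lit 241) (nat_lit 120) (nat_lit 478) (.cons (nat_lit 353) (nat_lit 176) (nat_lit 702) (.cons (nat_lit 577) (nat_lit 288) (nat_lit 1150) .nil))))))
    (.cons (nat_lit 29) (nat_lit 14) (nat_lit 54) (.cons (nat_lit 71) (nat_lit 35) (nat_lit 138) (.cons (nat_lit 127) (nat_lit 63) (nat_lit 250) (.cons (nat_lit 211) (nat_lit 105) (nat_lit 418) (.cons (nat_lit 281) (nat_lit 140) (nat_lit 558) (.cons (nat_lit 337) (nat_lit 168) (nat_lit 670) (.cons (nat_lit 421) (nat_lit 210) (nat_lit 838) (.cons (nat_lit 491) (nat_lit 245) (nat_lit 978) (.cons (nat_lit 631) (nat_lit 315) (nat_lit 1258) (.cons (nat_lit 673) (nat_lit 336) (nat_lit 1342) (.cons (nat_lit 757) (nat_lit 378) (nat_lit 1510) (.cons (nat_lit 883) (nat_lit 441) (nat_lit 1762) (.cons (nat_lit 1009) (nat_lit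 504) (nat_lit 2014) (.cons (nat_lit 2017) (nat_lit 1008) (nat_lit 4030) (.cons (nat_lit 2087) (nat_lit 1043) (nat_lit 4170) (.cons (nat_lit 2521) (nat_lit 1260) (nat_lit 5038) (.cons (nat_lit 3361) (nat_lit 1680) (nat_lit 6718) (.cons (nat_lit 4481) (nat_lit 2240) (nat_lit 8958) .nil))))))))))))))))))) <|
  .cons (nat_lit 14813) (.mk
    (.cons (nat_lit 7) (nat_lit 3) (nat_lit 10) (.cons (nat_lit 23) (nat_lit 11) (nat_lit 42) .nil))
    (.cons (nat_lit 3) (nat_lit 1) (nat_lit 2) (.cons (nat_lit 823) (nat_lit 411) (nat_lit 1642) .nil))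
    (.cons (nat_lit 19) (nat_lit 9) (nat_lit 34) (.cons (nat_lit 31) (nat_lit 15) (nat_lit 58) (.cons (nat_lit 4567) (nat_lit 2283) (nat_lit 9130) .nil)))
    (.cons (nat_lit 5) (nat_lit 2) (nat_lit 6) (.cons (nat_lit 13) (nat_lit 6) (nat_lit 22) .nil))
    (.cons (nat_lit 11) (nat_lit 5) (nat_lit 18) (.cons (nat_lit 61) (nat_lit 30) (nat_lit 118) (.cons (nat_lit 181) (nat_lit 90) (nat_lit 358) (.cons (nat_lit 1721) (nat_lit 860) (nat_lit 3438) (.cons (nat_lit 1801) (nat_lit 900) (nat_lit 3598) (.cons (nat_lit 3671) (nat_lit 1835) (nat_lit 7338) .nil))))))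
    (.cons (nat_lit 37) (nat_lit 18) (nat_lit 70) (.cons (nat_lit 73) (nat_lit 36) (nat_lit 142) (.cons (nat_lit 991) (nat_lit 495) (nat_lit 1978) (.cons (nat_lit 4231) (nat_lit 2115) (nat_lit 8458) (.cons (nat_lit 4861) (nat_lit 2430) (nat_lit 9718) .nil)))))
    (.cons (nat_lit 17) (nat_lit 8) (nat_lit 30) (.cons (nat_lit 41) (nat_lit 20) (nat_lit 78) (.cons (nat_lit 193) (nat_lit 96) (nat_lit 382) (.cons (nat_lit 241) (nat_lit 120) (nat_lit 478) (.cons (nat_lit 433) (nat_lit 216) (nat_lit 862) (.cons (nat_lit 2017) (nat_lit 1008) (nat_lit 4030) (.cons (nat_lit 2441) (nat_lit 1220) (nat_lit 4878) (.cons (nat_lit 4289) (nat_lit 2144) (nat_lit 8574) .nil))))))))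
    (.cons (nat_lit 29) (nat_lit 14) (nat_lit 54) (.cons (nat_lit 43) (nat_lit 21) (nat_lit 82) (.cons (nat_lit 71) (nat_lit 35) (nat_lit 138) (.cons (nat_lit 113) (nat_lit 56) (nat_lit 222) (.cons (nat_lit 127) (nat_lit 63) (nat_lit 250) (.cons (nat_lit 211) (nat_lit 105) (nat_lit 418) (.cons (nat_lit 281) (nat_lit 140) (nat_lit 558) (.cons (nat_lit 337) (nat_lit 168) (nat_lit 670) (.cons (nat_lit 421) (nat_lit 210) (nat_lit 838) (.cons (nat_lit 449) (nat_lit 224) (nat_lit 894) (.cons (nat_lit 631) (nat_lit 315) (nat_lit 1258) (.cons (nat_lit 673) (nat_lit 336) (nat_lit 1342) (.cons (nat_lit 757) (nat_lit 378) (nat_lit 1510) (.cons (nat_lit 1009) (nat_lit 504) (nat_lit 2014) (.cons (nat_lit 2521) (nat_lit 1260) (nat_lit 5038) (.cons (nat_lit 3361) (nat_lit 1680) (nat_lit 6718) (.cons (nat_lit 4621) (nat_lit 2310) (nat_lit 9238) .nil)))))))))))))))))) <|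
  .cons (nat_lit 15527) (.mk
    (.cons (nat_lit 7) (nat_lit 3) (nat_lit 10) (.cons (nat_lit 1109) (nat_lit 554) (nat_lit 2214) .nil))
    (.cons (nat_lit 3) (nat_lit 1) (nat_lit 2) (.cons (nat_lit 647) (nat_lit 323) (nat_lit 1290) .nil))
    (.cons (nat_lit 571) (nat_lit 285) (nat_lit 1138) .nil)
    (.cons (nat_lit 5) (nat_lit 2) (nat_lit 6) (.cons (nat_lit 13) (nat_lit 6) (nat_lit 22) (.cons (nat_lit 29) (nat_lit 14) (nat_lit 54) .nil)))
    (.cons (nat_lit 11) (nat_lit 5) (nat_lit 18) (.cons (nat_lit 31) (nat_lit 15) (nat_lit 58) (.cons (nat_lit 61) (nat_lit 30) (nat_lit 118) (.cons (nat_lit 2381) (nat_lit 1190) (nat_lit 4758) (.cons (nat_lit 2731) (nat_lit 1365) (nat_lit 5458) (.cons (nat_lit 4451) (nat_lit 2225) (nat_lit 8898) .nil))))))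
    (.cons (nat_lit 19) (nat_lit 9) (nat_lit 34) (.cons (nat_lit 37) (nat_lit 18) (nat_lit 70) (.cons (nat_lit 181) (nat_lit 90) (nat_lit 358) (.cons (nat_lit 271) (nat_lit 135) (nat_lit 538) (.cons (nat_lit 541) (nat_lit 270) (nat_lit 1078) (.cons (nat_lit 1531) (nat_lit 765) (nat_lit 3058) .nil))))))
    (.cons (nat_lit 17) (nat_lit 8) (nat_lit 30) (.cons (nat_lit 41) (nat_lit 20) (nat_lit 78) (.cons (nat_lit 73) (nat_lit 36) (nat_lit 142) (.cons (nat_lit 241) (nat_lit 120) (nat_lit 478) (.cons (nat_lit 601) (nat_lit 300) (nat_lit 1198) (.cons (nat_lit 2521) (nat_lit 1260) (nat_lit 5038) (.cons (nat_lit 3001) (nat_lit 1500) (nat_lit 5998) (.cons (nat_lit 3313) (nat_lit 1656) (nat_lit 6622) .nil))))))))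
    (.cons (nat_lit 43) (nat_lit 21) (nat_lit 82) (.cons (nat_lit 71) (nat_lit 35) (nat_lit 138) (.cons (nat_lit 113) (nat_lit 56) (nat_lit 222) (.cons (nat_lit 127) (nat_lit 63) (nat_lit 250) (.cons (nat_lit 197) (nat_lit 98) (nat_lit 390) (.cons (nat_lit 211) (nat_lit 105) (nat_lit 418) (.cons (nat_lit 281) (nat_lit 140) (nat_lit 558) (.cons (nat_lit 337) (nat_lit 168) (nat_lit 670) (.cons (nat_lit 421) (nat_lit 210) (nat_lit 838) (.cons (nat_lit 631) (nat_lit 315) (nat_lit 1258) (.cons (nat_lit 673) (nat_lit 336) (nat_lit 1342) (.cons (nat_lit 1009) (nat_lit 504) (nat_lit 2014) (.cons (nat_lit 2017) (nat_lit 1008) (nat_lit 4030) (.cons (nat_lit 3361) (nat_lit 1680) (nat_lit 6718) (.cons (nat_lit 3697) (nat_lit 1848) (nat_lit 7390) (.cons (nat_lit 4481) (nat_lit 2240) (nat_lit 8958) .nil))))))))))))))))) <|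
  .cons (nat_lit 15797) (.mk
    (.cons (nat_lit 11) (nat_lit 5) (nat_lit 18) (.cons (nat_lit 359) (nat_lit 179) (nat_lit 714) .nil))
    (.cons (nat_lit 3) (nat_lit 1) (nat_lit 2) (.cons (nat_lit 2633) (nat_lit 1316) (nat_lit 5262) .nil))
    (.cons (nat_lit 7) (nat_lit 3) (nat_lit 10) (.cons (nat_lit 19) (nat_lit 9) (nat_lit 34) .nil))
    (.cons (nat_lit 5) (nat_lit 2) (nat_lit 6) (.cons (nat_lit 13) (nat_lit 6) (nat_lit 22) (.cons (nat_lit 17) (nat_lit 8) (nat_lit 30) (.cons (nat_lit 109) (nat_lit 54) (nat_lit 214) .nil))))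
    (.cons (nat_lit 31) (nat_lit 15) (nat_lit 58) (.cons (nat_lit 61) (nat_lit 30) (nat_lit 118) (.cons (nat_lit 101) (nat_lit 50) (nat_lit 198) (.cons (nat_lit 1951) (nat_lit 975) (nat_lit 3898) .nil))))
    (.cons (nat_lit 37) (nat_lit 18) (nat_lit 70) (.cons (nat_lit 181) (nat_lit 90) (nat_lit 358) (.cons (nat_lit 271) (nat_lit 135) (nat_lit 538) (.cons (nat_lit 631) (nat_lit 315) (nat_lit 1258) (.cons (nat_lit 991) (nat_lit 495) (nat_lit 1978) .nil)))))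
    (.cons (nat_lit 41) (nat_lit 20) (nat_lit 78) (.cons (nat_lit 73) (nat_lit 36) (nat_lit 142) (.cons (nat_lit 241) (nat_lit 120) (nat_lit 478) (.cons (nat_lit 281) (nat_lit 140) (nat_lit 558) (.cons (nat_lit 401) (nat_lit 200) (nat_lit 798) (.cons (nat_lit 1201) (nat_lit 600) (nat_lit 2398) (.cons (nat_lit 2521) (nat_lit 1260) (nat_lit 5038) (.cons (nat_lit 3329) (nat_lit 1664) (nat_lit 6654) .nil))))))))
    (.cons (nat_lit 29) (nat_lit 14) (nat_lit 54) (.cons (nat_lit 43) (nat_lit 21) (nat_lit 82) (.cons (nat_lit 71) (nat_lit 35) (nat_lit 138) (.cons (nat_lit 113) (nat_lit 56) (nat_lit 222) (.cons (nat_lit 127) (nat_lit 63) (nat_lit 250) (.cons (nat_lit 211) (nat_lit 105) (nat_lit 418) (.cons (nat_lit 337) (nat_lit 168) (nat_lit 670) (.cons (nat_lit 421) (nat_lit 210) (nat_lit 838) (.cons (nat_lit 449) (nat_lit 224) (nat_lit 894) (.cons (nat_lit 617) (nat_lit 308) (nat_lit 1230) (.cons (nat_lit 673) (nat_lit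 336) (nat_lit 1342) (.cons (nat_lit 1009) (nat_lit 504) (nat_lit 2014) (.cons (nat_lit 1051) (nat_lit 525) (nat_lit 2098) (.cons (nat_lit 2549) (nat_lit 1274) (nat_lit 5094) (.cons (nat_lit 3361) (nat_lit 1680) (nat_lit 6718) (.cons (nat_lit 3571) (nat_lit 1785) (nat_lit 7138) (.cons (nat_lit 4831) (nat_lit 2415) (nat_lit 9658) .nil)))))))))))))))))) <|
  .cons (nat_lit 17387) (.mk
    .nil
    (.cons (nat_lit 3) (nat_lit 1) (nat_lit 2) (.cons (nat_lit 7) (nat_lit 3) (nat_lit 10) (.cons (nat_lit 23) (nat_lit 11) (nat_lit 42) .nil)))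
    (.cons (nat_lit 1699) (nat_lit 849) (nat_lit 3394) (.cons (nat_lit 4783) (nat_lit 2391) (nat_lit 9562) .nil))
    (.cons (nat_lit 5) (nat_lit 2) (nat_lit 6) (.cons (nat_lit 13) (nat_lit 6) (nat_lit 22) (.cons (nat_lit 17) (nat_lit 8) (nat_lit 30) (.cons (nat_lit 113) (nat_lit 56) (nat_lit 222) (.cons (nat_lit 1069) (nat_lit 534) (nat_lit 2134) .nil)))))
    (.cons (nat_lit 11) (nat_lit 5) (nat_lit 18) (.cons (nat_lit 31) (nat_lit 15) (nat_lit 58) (.cons (nat_lit 61) (nat_lit 30) (nat_lit 118) (.cons (nat_lit 1171) (nat_lit 585) (nat_lit 2338) (.cons (nat_lit 2221) (nat_lit 1110) (nat_lit 4438) .nil)))))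
    (.cons (nat_lit 19) (nat_lit 9) (nat_lit 34) (.cons (nat_lit 37) (nat_lit 18) (nat_lit 70) (.cons (nat_lit 181) (nat_lit 90) (nat_lit 358) (.cons (nat_lit 631) (nat_lit 315) (nat_lit 1258) (.cons (nat_lit 1657) (nat_lit 828) (nat_lit 3310) (.cons (nat_lit 2161) (nat_lit 1080) (nat_lit 4318) (.cons (nat_lit 3061) (nat_lit 1530) (nat_lit 6118) .nil)))))))
    (.cons (nat_lit 41) (nat_lit 20) (nat_lit 78) (.cons (nat_lit 73) (nat_lit 36) (nat_lit 142) (.cons (nat_lit 97) (nat_lit 48) (nat_lit 190) (.cons (nat_lit 241) (nat_lit 120) (nat_lit 478) (.cons (nat_lit 433) (nat_lit 216) (nat_lit 862) (.cons (nat_lit 1153) (nat_lit 576) (nat_lit 2302) (.cons (nat_lit 1297) (nat_lit 648) (nat_lit 2590) .nil)))))))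
    (.cons (nat_lit 29) (nat_lit 14) (nat_lit 54) (.cons (nat_lit 43) (nat_lit 21) (nat_lit 82) (.cons (nat_lit 71) (nat_lit 35) (nat_lit 138) (.cons (nat_lit 127) (nat_lit 63) (nat_lit 250) (.cons (nat_lit 211) (nat_lit 105) (nat_lit 418) (.cons (nat_lit 281) (nat_lit 140) (nat_lit 558) (.cons (nat_lit 337) (nat_lit 168) (nat_lit 670) (.cons (nat_lit 421) (nat_lit 210) (nat_lit 838) (.cons (nat_lit 547) (nat_lit 273) (nat_lit 1090) (.cons (nat_lit 673) (nat_lit 336) (nat_lit 1342) (.cons (nat_lit 701) (nat_lit 350) (nat_lit 1398) (.cons (nat_lit 757) (nat_lit 378) (nat_lit 1510) (.cons (nat_lit 827) (nat_lit 413) (nat_lit 1650) (.cons (nat_lit 1009) (nat_lit 504) (nat_lit 2014) (.cons (nat_lit 1093) (nat_lit 546) (nat_lit 2182) (.cons (nat_lit 1597) (nat_lit 798) (nat_lit 3190) (.cons (nat_lit 1933) (nat_lit 966) (nat_lit 3862) (.cons (nat_lit 2017) (nat_lit 1008) (nat_lit 4030) (.cons (nat_lit 2521) (nat_lit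 1260) (nat_lit 5038) (.cons (nat_lit 3109) (nat_lit 1554) (nat_lit 6214) (.cons (nat_lit 3529) (nat_lit 1764) (nat_lit 7054) (.cons (nat_lit 4159) (nat_lit 2079) (nat_lit 8314) .nil))))))))))))))))))))))) <|
  .cons (nat_lit 17987) (.mk
    (.cons (nat_lit 17) (nat_lit 8) (nat_lit 30) (.cons (nat_lit 23) (nat_lit 11) (nat_lit 42) .nil))
    (.cons (nat_lit 3) (nat_lit 1) (nat_lit 2) (.cons (nat_lit 1499) (nat_lit 749) (nat_lit 2994) .nil))
    (.cons (nat_lit 7) (nat_lit 3) (nat_lit 10) (.cons (nat_lit 433) (nat_lit 216) (nat_lit 862) .nil))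
    (.cons (nat_lit 5) (nat_lit 2) (nat_lit 6) (.cons (nat_lit 13) (nat_lit 6) (nat_lit 22) .nil))
    (.cons (nat_lit 11) (nat_lit 5) (nat_lit 18) (.cons (nat_lit 31) (nat_lit 15) (nat_lit 58) (.cons (nat_lit 61) (nat_lit 30) (nat_lit 118) (.cons (nat_lit 181) (nat_lit 90) (nat_lit 358) .nil))))
    (.cons (nat_lit 19) (nat_lit 9) (nat_lit 34) (.cons (nat_lit 37) (nat_lit 18) (nat_lit 70) (.cons (nat_lit 109) (nat_lit 54) (nat_lit 214) .nil)))
    (.cons (nat_lit 41) (nat_lit 20) (nat_lit 78) (.cons (nat_lit 73) (nat_lit 36) (nat_lit 142) (.cons (nat_lit 241) (nat_lit 120) (nat_lit 478) (.cons (nat_lit 1801) (nat_lit 900) (nat_lit 3598) .nil))))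
    (.cons (nat_lit 29) (nat_lit 14) (nat_lit 54) (.cons (nat_lit 43) (nat_lit 21) (nat_lit 82) (.cons (nat_lit 71) (nat_lit 35) (nat_lit 138) (.cons (nat_lit 113) (nat_lit 56) (nat_lit 222) (.cons (nat_lit 127) (nat_lit 63) (nat_lit 250) (.cons (nat_lit 211) (nat_lit 105) (nat_lit 418) (.cons (nat_lit 281) (nat_lit 140) (nat_lit 558) (.cons (nat_lit 337) (nat_lit 168) (nat_lit 670) (.cons (nat_lit 379) (nat_lit 189) (nat_lit 754) (.cons (nat_lit 421) (nat_lit 210) (nat_lit 838) (.cons (nat_lit 631) (nat_lit 315) (nat_lit 1258) (.cons (nat_lit 673) (nat_lit 336) (nat_lit 1342) (.cons (nat_lit 701) (nat_lit 350) (nat_lit 1398) (.cons (nat_lit 757) (nat_lit 378) (nat_lit 1510) (.cons (nat_lit 883) (nat_lit 441) (nat_lit 1762) (.cons (nat_lit 1009) (nat_lit 504) (nat_lit 2014) (.cons (nat_lit 2017) (nat_lit 1008) (nat_lit 4030) (.cons (nat_lit 2269) (nat_lit 1134) (nat_lit 4534) (.cons (nat_lit 2311) (nat_lit 1155)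 (nat_lit 4618) (.cons (nat_lit 2521) (nat_lit 1260) (nat_lit 5038) (.cons (nat_lit 2647) (nat_lit 1323) (nat_lit 5290) (.cons (nat_lit 4201) (nat_lit 2100) (nat_lit 8398) .nil))))))))))))))))))))))) <|
  .cons (nat_lit 18713) (.mk
    (.cons (nat_lit 2339) (nat_lit 1169) (nat_lit 4674) .nil)
    (.cons (nat_lit 3) (nat_lit 1) (nat_lit 2) (.cons (nat_lit 3119) (nat_lit 1559) (nat_lit 6234) .nil))
    (.cons (nat_lit 7) (nat_lit 3) (nat_lit 10) (.cons (nat_lit 61) (nat_lit 30) (nat_lit 118) .nil))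
    (.cons (nat_lit 5) (nat_lit 2) (nat_lit 6) (.cons (nat_lit 13) (nat_lit 6) (nat_lit 22) (.cons (nat_lit 17) (nat_lit 8) (nat_lit 30) .nil)))
    (.cons (nat_lit 11) (nat_lit 5) (nat_lit 18) (.cons (nat_lit 31) (nat_lit 15) (nat_lit 58) (.cons (nat_lit 1291) (nat_lit 645) (nat_lit 2578) .nil)))
    (.cons (nat_lit 19) (nat_lit 9) (nat_lit 34) (.cons (nat_lit 37) (nat_lit 18) (nat_lit 70) (.cons (nat_lit 73) (nat_lit 36) (nat_lit 142) (.cons (nat_lit 181) (nat_lit 90) (nat_lit 358) (.cons (nat_lit 991) (nat_lit 495) (nat_lit 1978) (.cons (nat_lit 2953) (nat_lit 1476) (nat_lit 5902) .nil))))))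
    (.cons (nat_lit 41) (nat_lit 20) (nat_lit 78) (.cons (nat_lit 97) (nat_lit 48) (nat_lit 190) (.cons (nat_lit 241) (nat_lit 120) (nat_lit 478) (.cons (nat_lit 521) (nat_lit 260) (nat_lit 1038) (.cons (nat_lit 1601) (nat_lit 800) (nat_lit 3198) (.cons (nat_lit 4201) (nat_lit 2100) (nat_lit 8398) .nil))))))
    (.cons (nat_lit 29) (nat_lit 14) (nat_lit 54) (.cons (nat_lit 43) (nat_lit 21) (nat_lit 82) (.cons (nat_lit 71) (nat_lit 35) (nat_lit 138) (.cons (nat_lit 113) (nat_lit 56) (nat_lit 222) (.cons (nat_lit 127) (nat_lit 63) (nat_lit 250) (.cons (nat_lit 211) (nat_lit 105) (nat_lit 418) (.cons (nat_lit 281) (nat_lit 140) (nat_lit 558) (.cons (nat_lit 337) (nat_lit 168) (nat_lit 670) (.cons (nat_lit 379) (nat_lit 189) (nat_lit 754) (.cons (nat_lit 421) (nat_lit 210) (nat_lit 838) (.cons (nat_lit 631) (nat_lit 315) (nat_lit 1258) (.cons (nat_lit 1009) (nat_lit 504) (nat_lit 2014) (.cons (nat_lit 2269) (nat_lit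 1134) (nat_lit 4534) (.cons (nat_lit 2521) (nat_lit 1260) (nat_lit 5038) .nil))))))))))))))) <|
  .cons (nat_lit 20123) (.mk
    .nil
    (.cons (nat_lit 3) (nat_lit 1) (nat_lit 2) (.cons (nat_lit 13) (nat_lit 6) (nat_lit 22) (.cons (nat_lit 43) (nat_lit 21) (nat_lit 82) .nil)))
    (.cons (nat_lit 7) (nat_lit 3) (nat_lit 10) .nil)
    (.cons (nat_lit 5) (nat_lit 2) (nat_lit 6) .nil)
    (.cons (nat_lit 11) (nat_lit 5) (nat_lit 18) (.cons (nat_lit 31) (nat_lit 15) (nat_lit 58) (.cons (nat_lit 41) (nat_lit 20) (nat_lit 78) (.cons (nat_lit 61) (nat_lit 30) (nat_lit 118) (.cons (nat_lit 631) (nat_lit 315) (nat_lit 1258) (.cons (nat_lit 1171) (nat_lit 585) (nat_lit 2338) (.cons (nat_lit 1201) (nat_lit 600) (nat_lit 2398) (.cons (nat_lit 2861) (nat_lit 1430) (nat_lit 5718) .nil))))))))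
    (.cons (nat_lit 19) (nat_lit 9) (nat_lit 34) (.cons (nat_lit 37) (nat_lit 18) (nat_lit 70) (.cons (nat_lit 73) (nat_lit 36) (nat_lit 142) (.cons (nat_lit 181) (nat_lit 90) (nat_lit 358) (.cons (nat_lit 199) (nat_lit 99) (nat_lit 394) (.cons (nat_lit 271) (nat_lit 135) (nat_lit 538) (.cons (nat_lit 307) (nat_lit 153) (nat_lit 610) (.cons (nat_lit 541) (nat_lit 270) (nat_lit 1078) (.cons (nat_lit 919) (nat_lit 459) (nat_lit 1834) .nil)))))))))
    (.cons (nat_lit 17) (nat_lit 8) (nat_lit 30) (.cons (nat_lit 97) (nat_lit 48) (nat_lit 190) (.cons (nat_lit 241) (nat_lit 120) (nat_lit 478) (.cons (nat_lit 577) (nat_lit 288) (nat_lit 1150) (.cons (nat_lit 1657) (nat_lit 828) (nat_lit 3310) (.cons (nat_lit 1801) (nat_lit 900) (nat_lit 3598) (.cons (nat_lit 2161) (nat_lit 1080) (nat_lit 4318) (.cons (nat_lit 3169) (nat_lit 1584) (nat_lit 6334) .nil))))))))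
    (.cons (nat_lit 29) (nat_lit 14) (nat_lit 54) (.cons (nat_lit 71) (nat_lit 35) (nat_lit 138) (.cons (nat_lit 113) (nat_lit 56) (nat_lit 222) (.cons (nat_lit 127) (nat_lit 63) (nat_lit 250) (.cons (nat_lit 211) (nat_lit 105) (nat_lit 418) (.cons (nat_lit 281) (nat_lit 140) (nat_lit 558) (.cons (nat_lit 337) (nat_lit 168) (nat_lit 670) (.cons (nat_lit 379) (nat_lit 189) (nat_lit 754) (.cons (nat_lit 421) (nat_lit 210) (nat_lit 838) (.cons (nat_lit 449) (nat_lit 224) (nat_lit 894) (.cons (nat_lit 617) (nat_lit 308) (nat_lit 1230) (.cons (nat_lit 1009) (nat_lit 504) (nat_lit 2014) (.cons (nat_lit 2311) (nat_lit 1155) (nat_lit 4618) (.cons (nat_lit 2521) (nat_lit 1260) (nat_lit 5038) (.cons (nat_lit 4201) (nat_lit 2100) (nat_lit 8398) .nil)))))))))))))))) <|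
  .cons (nat_lit 20323) (.mk
    (.cons (nat_lit 3) (nat_lit 1) (nat_lit 2) (.cons (nat_lit 1129) (nat_lit 564) (nat_lit 2254) .nil))
    .nil
    (.cons (nat_lit 7) (nat_lit 3) (nat_lit 10) (.cons (nat_lit 13) (nat_lit 6) (nat_lit 22) (.cons (nat_lit 19) (nat_lit 9) (nat_lit 34) (.cons (nat_lit 37) (nat_lit 18) (nat_lit 70) .nil))))
    (.cons (nat_lit 5) (nat_lit 2) (nat_lit 6) (.cons (nat_lit 1753) (nat_lit 876) (nat_lit 3502) .nil))
    (.cons (nat_lit 11) (nat_lit 5) (nat_lit 18) (.cons (nat_lit 31) (nat_lit 15) (nat_lit 58) (.cons (nat_lit 61) (nat_lit 30) (nat_lit 118) (.cons (nat_lit 71) (nat_lit 35) (nat_lit 138) (.cons (nat_lit 181) (nat_lit 90) (nat_lit 358) (.cons (nat_lit 1291) (nat_lit 645) (nat_lit 2578) (.cons (nat_lit 1381) (nat_lit 690) (nat_lit 2758) .nil)))))))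
    (.cons (nat_lit 3079) (nat_lit 1539) (nat_lit 6154) (.cons (nat_lit 4591) (nat_lit 2295) (nat_lit 9178) .nil))
    (.cons (nat_lit 17) (nat_lit 8) (nat_lit 30) (.cons (nat_lit 41) (nat_lit 20) (nat_lit 78) (.cons (nat_lit 73) (nat_lit 36) (nat_lit 142) (.cons (nat_lit 97) (nat_lit 48) (nat_lit 190) (.cons (nat_lit 241) (nat_lit 120) (nat_lit 478) (.cons (nat_lit 577) (nat_lit 288) (nat_lit 1150) .nil))))))
    (.cons (nat_lit 29) (nat_lit 14) (nat_lit 54) (.cons (nat_lit 43) (nat_lit 21) (nat_lit 82) (.cons (nat_lit 113) (nat_lit 56) (nat_lit 222) (.cons (nat_lit 127) (nat_lit 63) (nat_lit 250) (.cons (nat_lit 211) (nat_lit 105) (nat_lit 418) (.cons (nat_lit 281) (nat_lit 140) (nat_lit 558) (.cons (nat_lit 337) (nat_lit 168) (nat_lit 670) (.cons (nat_lit 421) (nat_lit 210) (nat_lit 838) (.cons (nat_lit 449) (nat_lit 224) (nat_lit 894) (.cons (nat_lit 631) (nat_lit 315) (nat_lit 1258) (.cons (nat_lit 701)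 (nat_lit 350) (nat_lit 1398) (.cons (nat_lit 1009) (nat_lit 504) (nat_lit 2014) (.cons (nat_lit 2437) (nat_lit 1218) (nat_lit 4870) (.cons (nat_lit 2521) (nat_lit 1260) (nat_lit 5038) (.cons (nat_lit 2647) (nat_lit 1323) (nat_lit 5290) (.cons (nat_lit 3137) (nat_lit 1568) (nat_lit 6270) (.cons (nat_lit 3361) (nat_lit 1680) (nat_lit 6718) (.cons (nat_lit 3851) (nat_lit 1925) (nat_lit 7698) .nil))))))))))))))))))) <|
  .cons (nat_lit 20717) (.mk
    .nil
    (.cons (nat_lit 3) (nat_lit 1) (nat_lit 2) (.cons (nat_lit 1151) (nat_lit 575) (nat_lit 2298) .nil))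
    (.cons (nat_lit 7) (nat_lit 3) (nat_lit 10) (.cons (nat_lit 19) (nat_lit 9) (nat_lit 34) (.cons (nat_lit 1723) (nat_lit 861) (nat_lit 3442) (.cons (nat_lit 1873) (nat_lit 936) (nat_lit 3742) .nil))))
    (.cons (nat_lit 5) (nat_lit 2) (nat_lit 6) (.cons (nat_lit 13) (nat_lit 6) (nat_lit 22) (.cons (nat_lit 229) (nat_lit 114) (nat_lit 454) (.cons (nat_lit 1109) (nat_lit 554) (nat_lit 2214) .nil))))
    (.cons (nat_lit 11) (nat_lit 5) (nat_lit 18) (.cons (nat_lit 31) (nat_lit 15) (nat_lit 58) (.cons (nat_lit 61) (nat_lit 30) (nat_lit 118) (.cons (nat_lit 241) (nat_lit 120) (nat_lit 478) (.cons (nat_lit 4441) (nat_lit 2220) (nat_lit 8878) .nil)))))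
    (.cons (nat_lit 37) (nat_lit 18) (nat_lit 70) (.cons (nat_lit 181) (nat_lit 90) (nat_lit 358) (.cons (nat_lit 199) (nat_lit 99) (nat_lit 394) (.cons (nat_lit 1459) (nat_lit 729) (nat_lit 2914) .nil))))
    (.cons (nat_lit 17) (nat_lit 8) (nat_lit 30) (.cons (nat_lit 41) (nat_lit 20) (nat_lit 78) (.cons (nat_lit 73) (nat_lit 36) (nat_lit 142) (.cons (nat_lit 433) (nat_lit 216) (nat_lit 862) (.cons (nat_lit 3169) (nat_lit 1584) (nat_lit 6334) .nil)))))
    (.cons (nat_lit 29) (nat_lit 14) (nat_lit 54) (.cons (nat_lit 43) (nat_lit 21) (nat_lit 82) (.cons (nat_lit 71) (nat_lit 35) (nat_lit 138) (.cons (nat_lit 113) (nat_lit 56) (nat_lit 222) (.cons (nat_lit 127) (nat_lit 63) (nat_lit 250) (.cons (nat_lit 211) (nat_lit 105) (nat_lit 418) (.cons (nat_lit 281) (nat_lit 140) (nat_lit 558) (.cons (nat_lit 337) (nat_lit 168) (nat_lit 670) (.cons (nat_lit 421) (nat_lit 210) (nat_lit 838) (.cons (nat_lit 463) (nat_lit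 231) (nat_lit 922) (.cons (nat_lit 631) (nat_lit 315) (nat_lit 1258) (.cons (nat_lit 673) (nat_lit 336) (nat_lit 1342) (.cons (nat_lit 757) (nat_lit 378) (nat_lit 1510) (.cons (nat_lit 1009) (nat_lit 504) (nat_lit 2014) (.cons (nat_lit 1093) (nat_lit 546) (nat_lit 2182) (.cons (nat_lit 2521) (nat_lit 1260) (nat_lit 5038) (.cons (nat_lit 2801) (nat_lit 1400) (nat_lit 5598) (.cons (nat_lit 4201) (nat_lit 2100) (nat_lit 8398) .nil))))))))))))))))))) <|
  .cons (nat_lit 21557) (.mk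
    (.cons (nat_lit 17) (nat_lit 8) (nat_lit 30) (.cons (nat_lit 317) (nat_lit 158) (nat_lit 630) .nil))
    (.cons (nat_lit 3) (nat_lit 1) (nat_lit 2) (.cons (nat_lit 3593) (nat_lit 1796) (nat_lit 7182) .nil))
    (.cons (nat_lit 7) (nat_lit 3) (nat_lit 10) (.cons (nat_lit 13) (nat_lit 6) (nat_lit 22) (.cons (nat_lit 19) (nat_lit 9) (nat_lit 34) .nil)))
    (.cons (nat_lit 5) (nat_lit 2) (nat_lit 6) (.cons (nat_lit 37) (nat_lit 18) (nat_lit 70) (.cons (nat_lit 41) (nat_lit 20) (nat_lit 78) .nil)))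
    (.cons (nat_lit 11) (nat_lit 5) (nat_lit 18) (.cons (nat_lit 31) (nat_lit 15) (nat_lit 58) (.cons (nat_lit 61) (nat_lit 30) (nat_lit 118) (.cons (nat_lit 101) (nat_lit 50) (nat_lit 198) (.cons (nat_lit 131) (nat_lit 65) (nat_lit 258) (.cons (nat_lit 461) (nat_lit 230) (nat_lit 918) .nil))))))
    (.cons (nat_lit 181) (nat_lit 90) (nat_lit 358) (.cons (nat_lit 271) (nat_lit 135) (nat_lit 538) .nil))
    (.cons (nat_lit 73) (nat_lit 36) (nat_lit 142) (.cons (nat_lit 193) (nat_lit 96) (nat_lit 382) (.cons (nat_lit 241) (nat_lit 120) (nat_lit 478) (.cons (nat_lit 593) (nat_lit 296) (nat_lit 1182) (.cons (nat_lit 673) (nat_lit 336) (nat_lit 1342) (.cons (nat_lit 2801) (nat_lit 1400) (nat_lit 5598) .nil))))))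
    (.cons (nat_lit 29) (nat_lit 14) (nat_lit 54) (.cons (nat_lit 43) (nat_lit 21) (nat_lit 82) (.cons (nat_lit 71) (nat_lit 35) (nat_lit 138) (.cons (nat_lit 113) (nat_lit 56) (nat_lit 222) (.cons (nat_lit 127) (nat_lit 63) (nat_lit 250) (.cons (nat_lit 197) (nat_lit 98) (nat_lit 390) (.cons (nat_lit 211) (nat_lit 105) (nat_lit 418) (.cons (nat_lit 281) (nat_lit 140) (nat_lit 558) (.cons (nat_lit 337) (nat_lit 168) (nat_lit 670) (.cons (nat_lit 421) (nat_lit 210) (nat_lit 838) (.cons (nat_lit 449) (nat_lit 224) (nat_lit 894) (.cons (nat_lit 631) (nat_lit 315) (nat_lit 1258) (.cons (nat_lit 1009) (nat_lit 504) (nat_lit 2014) (.cons (nat_lit 1051) (nat_lit 525) (nat_lit 2098) (.cons (nat_lit 1093) (nat_lit 546) (nat_lit 2182) (.cons (nat_lit 1597) (nat_lit 798) (nat_lit 3190) (.cons (nat_lit 2143) (nat_lit 1071) (nat_lit 4282) (.cons (nat_lit 2521) (nat_lit 1260) (nat_lit 5038) (.cons (nat_lit 2689) (nat_lit 1344)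 (nat_lit 5374) (.cons (nat_lit 3319) (nat_lit 1659) (nat_lit 6634) .nil))))))))))))))))))))) <|
  .cons (nat_lit 21617) (.mk
    (.cons (nat_lit 7) (nat_lit 3) (nat_lit 10) (.cons (nat_lit 193) (nat_lit 96) (nat_lit 382) .nil))
    (.cons (nat_lit 3) (nat_lit 1) (nat_lit 2) (.cons (nat_lit 1201) (nat_lit 600) (nat_lit 2398) .nil))
    (.cons (nat_lit 73) (nat_lit 36) (nat_lit 142) (.cons (nat_lit 1213) (nat_lit 606) (nat_lit 2422) (.cons (nat_lit 1759) (nat_lit 879) (nat_lit 3514) .nil)))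
    (.cons (nat_lit 5) (nat_lit 2) (nat_lit 6) (.cons (nat_lit 13) (nat_lit 6) (nat_lit 22) (.cons (nat_lit 29) (nat_lit 14) (nat_lit 54) .nil)))
    (.cons (nat_lit 11) (nat_lit 5) (nat_lit 18) (.cons (nat_lit 31) (nat_lit 15) (nat_lit 58) (.cons (nat_lit 41) (nat_lit 20) (nat_lit 78) (.cons (nat_lit 61) (nat_lit 30) (nat_lit 118) .nil))))
    (.cons (nat_lit 19) (nat_lit 9) (nat_lit 34) (.cons (nat_lit 37) (nat_lit 18) (nat_lit 70) (.cons (nat_lit 181) (nat_lit 90) (nat_lit 358) (.cons (nat_lit 1531) (nat_lit 765) (nat_lit 3058) (.cons (nat_lit 1657) (nat_lit 828) (nat_lit 3310) .nil)))))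
    (.cons (nat_lit 17) (nat_lit 8) (nat_lit 30) (.cons (nat_lit 241) (nat_lit 120) (nat_lit 478) (.cons (nat_lit 937) (nat_lit 468) (nat_lit 1870) (.cons (nat_lit 1489) (nat_lit 744) (nat_lit 2974) (.cons (nat_lit 2017) (nat_lit 1008) (nat_lit 4030) (.cons (nat_lit 2521) (nat_lit 1260) (nat_lit 5038) .nil))))))
    (.cons (nat_lit 43) (nat_lit 21) (nat_lit 82) (.cons (nat_lit 71) (nat_lit 35) (nat_lit 138) (.cons (nat_lit 113) (nat_lit 56) (nat_lit 222) (.cons (nat_lit 127) (nat_lit 63) (nat_lit 250) (.cons (nat_lit 211) (nat_lit 105) (nat_lit 418) (.cons (nat_lit 281) (nat_lit 140) (nat_lit 558) (.cons (nat_lit 337) (nat_lit 168) (nat_lit 670) (.cons (nat_lit 379) (nat_lit 189) (nat_lit 754) (.cons (nat_lit 421) (nat_lit 210) (nat_lit 838) (.cons (nat_lit 631) (nat_lit 315) (nat_lit 1258) (.cons (nat_lit 673) (nat_lit 336) (nat_lit 1342) (.cons (nat_lit 701) (nat_lit 350) (nat_lit 1398) (.cons (nat_lit 1009)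 (nat_lit 504) (nat_lit 2014) (.cons (nat_lit 1093) (nat_lit 546) (nat_lit 2182) (.cons (nat_lit 2689) (nat_lit 1344) (nat_lit 5374) (.cons (nat_lit 4201) (nat_lit 2100) (nat_lit 8398) (.cons (nat_lit 4663) (nat_lit 2331) (nat_lit 9322) .nil)))))))))))))))))) <|
  .cons (nat_lit 22643) (.mk
    .nil
    (.cons (nat_lit 3) (nat_lit 1) (nat_lit 2) (.cons (nat_lit 17) (nat_lit 8) (nat_lit 30) (.cons (nat_lit 37) (nat_lit 18) (nat_lit 70) .nil)))
    (.cons (nat_lit 7) (nat_lit 3) (nat_lit 10) (.cons (nat_lit 13) (nat_lit 6) (nat_lit 22) .nil))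
    (.cons (nat_lit 5) (nat_lit 2) (nat_lit 6) (.cons (nat_lit 1597) (nat_lit 798) (nat_lit 3190) .nil))
    (.cons (nat_lit 11) (nat_lit 5) (nat_lit 18) (.cons (nat_lit 31) (nat_lit 15) (nat_lit 58) (.cons (nat_lit 61) (nat_lit 30) (nat_lit 118) (.cons (nat_lit 1871) (nat_lit 935) (nat_lit 3738) .nil))))
    (.cons (nat_lit 19) (nat_lit 9) (nat_lit 34) (.cons (nat_lit 127) (nat_lit 63) (nat_lit 250) (.cons (nat_lit 181) (nat_lit 90) (nat_lit 358) (.cons (nat_lit 199) (nat_lit 99) (nat_lit 394) (.cons (nat_lit 397) (nat_lit 198) (nat_lit 790) (.cons (nat_lit 631) (nat_lit 315) (nat_lit 1258) .nil))))))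
    (.cons (nat_lit 41) (nat_lit 20) (nat_lit 78) (.cons (nat_lit 73) (nat_lit 36) (nat_lit 142) (.cons (nat_lit 89) (nat_lit 44) (nat_lit 174) (.cons (nat_lit 193) (nat_lit 96) (nat_lit 382) (.cons (nat_lit 241) (nat_lit 120) (nat_lit 478) (.cons (nat_lit 433) (nat_lit 216) (nat_lit 862) (.cons (nat_lit 457) (nat_lit 228) (nat_lit 910) (.cons (nat_lit 641) (nat_lit 320) (nat_lit 1278) (.cons (nat_lit 1217) (nat_lit 608) (nat_lit 2430) (.cons (nat_lit 4001) (nat_lit 2000) (nat_lit 7998) .nil))))))))))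
    (.cons (nat_lit 29) (nat_lit 14) (nat_lit 54) (.cons (nat_lit 43) (nat_lit 21) (nat_lit 82) (.cons (nat_lit 71) (nat_lit 35) (nat_lit 138) (.cons (nat_lit 113) (nat_lit 56) (nat_lit 222) (.cons (nat_lit 211) (nat_lit 105) (nat_lit 418) (.cons (nat_lit 281) (nat_lit 140) (nat_lit 558) (.cons (nat_lit 337) (nat_lit 168) (nat_lit 670) (.cons (nat_lit 421) (nat_lit 210) (nat_lit 838) (.cons (nat_lit 449) (nat_lit 224) (nat_lit 894) (.cons (nat_lit 1009) (nat_lit 504) (nat_lit 2014) (.cons (nat_lit 2381) (nat_lit 1190) (nat_lit 4758) (.cons (nat_lit 2521) (nat_lit 1260) (nat_lit 5038) (.cons (nat_lit 3361) (nat_lit 1680) (nat_lit 6718) (.cons (nat_lit 4229) (nat_lit 2114) (nat_lit 8454) .nil))))))))))))))) <|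
  .cons (nat_lit 22853) (.mk
    (.cons (nat_lit 29) (nat_lit 14) (nat_lit 54) (.cons (nat_lit 197) (nat_lit 98) (nat_lit 390) .nil))
    (.cons (nat_lit 3) (nat_lit 1) (nat_lit 2) (.cons (nat_lit 13) (nat_lit 6) (nat_lit 22) (.cons (nat_lit 293) (nat_lit 146) (nat_lit 582) .nil)))
    (.cons (nat_lit 7) (nat_lit 3) (nat_lit 10) (.cons (nat_lit 31) (nat_lit 15) (nat_lit 58) .nil))
    (.cons (nat_lit 5) (nat_lit 2) (nat_lit 6) (.cons (nat_lit 1193) (nat_lit 596) (nat_lit 2382) .nil))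
    (.cons (nat_lit 11) (nat_lit 5) (nat_lit 18) (.cons (nat_lit 41) (nat_lit 20) (nat_lit 78) (.cons (nat_lit 61) (nat_lit 30) (nat_lit 118) (.cons (nat_lit 1741) (nat_lit 870) (nat_lit 3478) (.cons (nat_lit 2521) (nat_lit 1260) (nat_lit 5038) (.cons (nat_lit 2851) (nat_lit 1425) (nat_lit 5698) .nil))))))
    (.cons (nat_lit 19) (nat_lit 9) (nat_lit 34) (.cons (nat_lit 37) (nat_lit 18) (nat_lit 70) (.cons (nat_lit 73) (nat_lit 36) (nat_lit 142) (.cons (nat_lit 181) (nat_lit 90) (nat_lit 358) (.cons (nat_lit 613) (nat_lit 306) (nat_lit 1222) (.cons (nat_lit 1621) (nat_lit 810) (nat_lit 3238) (.cons (nat_lit 1801) (nat_lit 900) (nat_lit 3598) (.cons (nat_lit 1999) (nat_lit 999) (nat_lit 3994) (.cons (nat_lit 3061) (nat_lit 1530) (nat_lit 6118) .nil)))))))))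
    (.cons (nat_lit 17) (nat_lit 8) (nat_lit 30) (.cons (nat_lit 241) (nat_lit 120) (nat_lit 478) (.cons (nat_lit 673) (nat_lit 336) (nat_lit 1342) (.cons (nat_lit 1009) (nat_lit 504) (nat_lit 2014) (.cons (nat_lit 1249) (nat_lit 624) (nat_lit 2494) (.cons (nat_lit 1873) (nat_lit 936) (nat_lit 3742) (.cons (nat_lit 2593) (nat_lit 1296) (nat_lit 5182) (.cons (nat_lit 3457) (nat_lit 1728) (nat_lit 6910) (.cons (nat_lit 4409) (nat_lit 2204) (nat_lit 8814) .nil)))))))))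
    (.cons (nat_lit 43) (nat_lit 21) (nat_lit 82) (.cons (nat_lit 71) (nat_lit 35) (nat_lit 138) (.cons (nat_lit 113) (nat_lit 56) (nat_lit 222) (.cons (nat_lit 127) (nat_lit 63) (nat_lit 250) (.cons (nat_lit 211) (nat_lit 105) (nat_lit 418) (.cons (nat_lit 281) (nat_lit 140) (nat_lit 558) (.cons (nat_lit 337) (nat_lit 168) (nat_lit 670) (.cons (nat_lit 421) (nat_lit 210) (nat_lit 838) (.cons (nat_lit 631) (nat_lit 315) (nat_lit 1258) (.cons (nat_lit 2857) (nat_lit 1428) (nat_lit 5710) (.cons (nat_lit 3137) (nat_lit 1568) (nat_lit 6270) (.cons (nat_lit 3361) (nat_lit 1680) (nat_lit 6718) (.cons (nat_lit 3697) (nat_lit 1848) (nat_lit 7390) (.cons (nat_lit 4831) (nat_lit 2415) (nat_lit 9658) .nil))))))))))))))) <|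
  .nil

set_option maxRecDepth 100000 in
theorem pb0 : badck 5041 PB0 = true := by decide +kernel

/-- the primes -/
def LB0 : List ℕ := [223, 883, 1093, 1163, 2351, 2663, 2753, 4007, 4133, 4493, 10453, 10723, 11423, 12433, 12853, 13093, 14533, 14813, 15527, 15797, 17387, 17987, 18713, 20123, 20323, 20717, 21557, 21617, 22643, 22853]

lemma lb0 : PB0.ps = LB0 := by decide +kernel

end OEX.K
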