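import Pool.Agent.OEX.KLst

/-!
Primes which need longer lists.
-/

namespace OEX.K

/-- the primes and their lists -/
def PB1 : PL :=
  .cons (nat_lit 22973) (.mk
    .nil
    (.cons (nat_lit 3) (nat_lit 1) (nat_lit 2) (.cons (nat_lit 7) (nat_lit 3) (nat_lit 10) (.cons (nat_lit 547) (nat_lit 273) (nat_lit 1090) .nil)))
    (.cons (nat_lit 2131) (nat_lit 1065) (nat_lit 4258) .nil)
    (.cons (nat_lit 5) (nat_lit 2) (nat_lit 6) (.cons (nat_lit 13) (nat_lit 6) (nat_lit 22) (.cons (nat_lit 97) (nat_lit 48) (nat_lit 190) (.cons (nat_lit 1153) (nat_lit 576) (nat_lit 2302) .nil))))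
    (.cons (nat_lit 11) (nat_lit 5) (nat_lit 18) (.cons (nat_lit 31) (nat_lit 15) (nat_lit 58) (.cons (nat_lit 61) (nat_lit 30) (nat_lit 118) (.cons (nat_lit 1321) (nat_lit 660) (nat_lit 2638) (.cons (nat_lit 3061) (nat_lit 1530) (nat_lit 6118) .nil)))))
    (.cons (nat_lit 19) (nat_lit 9) (nat_lit 34) (.cons (nat_lit 37) (nat_lit 18) (nat_lit 70) (.cons (nat_lit 181) (nat_lit 90) (nat_lit 358) .nil)))
    (.cons (nat_lit 17) (nat_lit 8) (nat_lit 30) (.cons (nat_lit 41) (nat_lit 20) (nat_lit 78) (.cons (nat_lit 73) (nat_lit 36) (nat_lit 142) (.cons (nat_lit 241) (nat_lit 120) (nat_lit 478) (.cons (nat_lit 577) (nat_lit 288) (nat_lit 1150) (.cons (nat_lit 641) (nat_lit 320) (nat_lit 1278) (.cons (nat_lit 1801) (nat_lit 900) (nat_lit 3598) (.cons (nat_lit 2161) (nat_lit 1080) (nat_lit 4318) (.cons (nat_lit 3169) (nat_lit 1584) (nat_lit 6334) .nil)))))))))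
    (.cons (nat_lit 29) (nat_lit 14) (nat_lit 54) (.cons (nat_lit 43) (nat_lit 21) (nat_lit 82) (.cons (nat_lit 71) (nat_lit 35) (nat_lit 138) (.cons (nat_lit 113) (nat_lit 56) (nat_lit 222) (.cons (nat_lit 127) (nat_lit 63) (nat_lit 250) (.cons (nat_lit 211) (nat_lit 105) (nat_lit 418) (.cons (nat_lit 281) (nat_lit 140) (nat_lit 558) (.cons (nat_lit 337) (nat_lit 168) (nat_lit 670) (.cons (nat_lit 421) (nat_lit 210) (nat_lit 838) (.cons (nat_lit 463) (nat_lit 231) (nat_lit 922) (.cons (nat_lit 631) (nat_lit 315) (nat_lit 1258) (.cons (nat_lit 673) (nat_lit 336) (nat_lit 1342) (.cons (nat_lit 883) (nat_lit 441) (nat_lit 1762) (.cons (nat_lit 953) (nat_lit 476) (nat_lit 1902) (.cons (nat_lit 1009) (nat_lit 504) (nat_lit 2014) (.cons (nat_lit 1051) (nat_lit 525) (nat_lit 2098) (.cons (nat_lit 2017) (nat_lit 1008) (nat_lit 4030) (.cons (nat_lit 2521) (nat_lit 1260) (nat_lit 5038) (.cons (nat_lit 2689) (nat_lit 1344)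 (nat_lit 5374) (.cons (nat_lit 2857) (nat_lit 1428) (nat_lit 5710) .nil))))))))))))))))))))) <|
  .cons (nat_lit 23053) (.mk
    (.cons (nat_lit 3) (nat_lit 1) (nat_lit 2) (.cons (nat_lit 17) (nat_lit 8) (nat_lit 30) (.cons (nat_lit 113) (nat_lit 56) (nat_lit 222) .nil)))
    .nil
    (.cons (nat_lit 7) (nat_lit 3) (nat_lit 10) (.cons (nat_lit 13) (nat_lit 6) (nat_lit 22) .nil))
    (.cons (nat_lit 5) (nat_lit 2) (nat_lit 6) (.cons (nat_lit 137) (nat_lit 68) (nat_lit 270) .nil))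
    (.cons (nat_lit 11) (nat_lit 5) (nat_lit 18) (.cons (nat_lit 31) (nat_lit 15) (nat_lit 58) (.cons (nat_lit 61) (nat_lit 30) (nat_lit 118) (.cons (nat_lit 241) (nat_lit 120) (nat_lit 478) (.cons (nat_lit 1031) (nat_lit 515) (nat_lit 2058) (.cons (nat_lit 1321) (nat_lit 660) (nat_lit 2638) (.cons (nat_lit 2221) (nat_lit 1110) (nat_lit 4438) (.cons (nat_lit 3851) (nat_lit 1925) (nat_lit 7698) .nil))))))))
    (.cons (nat_lit 19) (nat_lit 9) (nat_lit 34) (.cons (nat_lit 37) (nat_lit 18) (nat_lit 70) (.cons (nat_lit 109) (nat_lit 54) (nat_lit 214) (.cons (nat_lit 181) (nat_lit 90) (nat_lit 358) (.cons (nat_lit 631) (nat_lit 315) (nat_lit 1258) (.cons (nat_lit 1459) (nat_lit 729) (nat_lit 2914) (.cons (nat_lit 1693) (nat_lit 846) (nat_lit 3382) .nil)))))))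
    (.cons (nat_lit 41) (nat_lit 20) (nat_lit 78) (.cons (nat_lit 73) (nat_lit 36) (nat_lit 142) (.cons (nat_lit 97) (nat_lit 48) (nat_lit 190) (.cons (nat_lit 577) (nat_lit 288) (nat_lit 1150) (.cons (nat_lit 1489) (nat_lit 744) (nat_lit 2974) (.cons (nat_lit 2161) (nat_lit 1080) (nat_lit 4318) .nil))))))
    (.cons (nat_lit 29) (nat_lit 14) (nat_lit 54) (.cons (nat_lit 43) (nat_lit 21) (nat_lit 82) (.cons (nat_lit 71) (nat_lit 35) (nat_lit 138) (.cons (nat_lit 127) (nat_lit 63) (nat_lit 250) (.cons (nat_lit 211) (nat_lit 105) (nat_lit 418) (.cons (nat_lit 281) (nat_lit 140) (nat_lit 558) (.cons (nat_lit 337) (nat_lit 168) (nat_lit 670) (.cons (nat_lit 421) (nat_lit 210) (nat_lit 838) (.cons (nat_lit 659) (nat_lit 329) (nat_lit 1314) (.cons (nat_lit 757) (nat_lit 378) (nat_lit 1510) (.cons (nat_lit 1009) (nat_lit 504) (nat_lit 2014) (.cons (nat_lit 1429) (nat_lit 714) (nat_lit 2854) (.cons (nat_lit 2017) (nat_lit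 1008) (nat_lit 4030) (.cons (nat_lit 2521) (nat_lit 1260) (nat_lit 5038) (.cons (nat_lit 2731) (nat_lit 1365) (nat_lit 5458) .nil)))))))))))))))) <|
  .cons (nat_lit 24337) (.mk
    (.cons (nat_lit 3) (nat_lit 1) (nat_lit 2) (.cons (nat_lit 13) (nat_lit 6) (nat_lit 22) .nil))
    (.cons (nat_lit 43) (nat_lit 21) (nat_lit 82) (.cons (nat_lit 283) (nat_lit 141) (nat_lit 562) .nil))
    (.cons (nat_lit 7) (nat_lit 3) (nat_lit 10) (.cons (nat_lit 2011) (nat_lit 1005) (nat_lit 4018) (.cons (nat_lit 3499) (nat_lit 1749) (nat_lit 6994) .nil)))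
    (.cons (nat_lit 5) (nat_lit 2) (nat_lit 6) (.cons (nat_lit 241) (nat_lit 120) (nat_lit 478) (.cons (nat_lit 3917) (nat_lit 1958) (nat_lit 7830) .nil)))
    (.cons (nat_lit 11) (nat_lit 5) (nat_lit 18) (.cons (nat_lit 31) (nat_lit 15) (nat_lit 58) (.cons (nat_lit 61) (nat_lit 30) (nat_lit 118) .nil)))
    (.cons (nat_lit 19) (nat_lit 9) (nat_lit 34) (.cons (nat_lit 37) (nat_lit 18) (nat_lit 70) (.cons (nat_lit 181) (nat_lit 90) (nat_lit 358) (.cons (nat_lit 541) (nat_lit 270) (nat_lit 1078) (.cons (nat_lit 2179) (nat_lit 1089) (nat_lit 4354) .nil)))))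
    (.cons (nat_lit 17) (nat_lit 8) (nat_lit 30) (.cons (nat_lit 41) (nat_lit 20) (nat_lit 78) (.cons (nat_lit 73) (nat_lit 36) (nat_lit 142) (.cons (nat_lit 113) (nat_lit 56) (nat_lit 222) (.cons (nat_lit 433) (nat_lit 216) (nat_lit 862) (.cons (nat_lit 1201) (nat_lit 600) (nat_lit 2398) (.cons (nat_lit 1321) (nat_lit 660) (nat_lit 2638) .nil)))))))
    (.cons (nat_lit 29) (nat_lit 14) (nat_lit 54) (.cons (nat_lit 71) (nat_lit 35) (nat_lit 138) (.cons (nat_lit 127) (nat_lit 63) (nat_lit 250) (.cons (nat_lit 211) (nat_lit 105) (nat_lit 418) (.cons (nat_lit 281) (nat_lit 140) (nat_lit 558) (.cons (nat_lit 337) (nat_lit 168) (nat_lit 670) (.cons (nat_lit 421) (nat_lit 210) (nat_lit 838) (.cons (nat_lit 491) (nat_lit 245) (nat_lit 978) (.cons (nat_lit 631) (nat_lit 315) (nat_lit 1258) (.cons (nat_lit 1009) (nat_lit 504) (nat_lit 2014) (.cons (nat_lit 2269) (nat_lit 1134) (nat_lit 4534) (.cons (nat_lit 2311) (nat_lit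 1155) (nat_lit 4618) (.cons (nat_lit 2521) (nat_lit 1260) (nat_lit 5038) (.cons (nat_lit 2801) (nat_lit 1400) (nat_lit 5598) (.cons (nat_lit 3361) (nat_lit 1680) (nat_lit 6718) (.cons (nat_lit 4621) (nat_lit 2310) (nat_lit 9238) .nil))))))))))))))))) <|
  .cons (nat_lit 24971) (.mk
    (.cons (nat_lit 5) (nat_lit 2) (nat_lit 6) (.cons (nat_lit 11) (nat_lit 5) (nat_lit 18) (.cons (nat_lit 227) (nat_lit 113) (nat_lit 450) .nil)))
    (.cons (nat_lit 3) (nat_lit 1) (nat_lit 2) (.cons (nat_lit 2081) (nat_lit 1040) (nat_lit 4158) .nil))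
    (.cons (nat_lit 7) (nat_lit 3) (nat_lit 10) (.cons (nat_lit 1423) (nat_lit 711) (nat_lit 2842) .nil))
    (.cons (nat_lit 13) (nat_lit 6) (nat_lit 22) (.cons (nat_lit 137) (nat_lit 68) (nat_lit 270) (.cons (nat_lit 181) (nat_lit 90) (nat_lit 358) .nil)))
    (.cons (nat_lit 31) (nat_lit 15) (nat_lit 58) (.cons (nat_lit 41) (nat_lit 20) (nat_lit 78) (.cons (nat_lit 61) (nat_lit 30) (nat_lit 118) (.cons (nat_lit 1021) (nat_lit 510) (nat_lit 2038) (.cons (nat_lit 1321) (nat_lit 660) (nat_lit 2638) .nil)))))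
    (.cons (nat_lit 19) (nat_lit 9) (nat_lit 34) (.cons (nat_lit 37) (nat_lit 18) (nat_lit 70) (.cons (nat_lit 271) (nat_lit 135) (nat_lit 538) (.cons (nat_lit 1801) (nat_lit 900) (nat_lit 3598) (.cons (nat_lit 2377) (nat_lit 1188) (nat_lit 4750) (.cons (nat_lit 2557) (nat_lit 1278) (nat_lit 5110) .nil))))))
    (.cons (nat_lit 17) (nat_lit 8) (nat_lit 30) (.cons (nat_lit 73) (nat_lit 36) (nat_lit 142) (.cons (nat_lit 241) (nat_lit 120) (nat_lit 478) .nil)))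
    (.cons (nat_lit 29) (nat_lit 14) (nat_lit 54) (.cons (nat_lit 43) (nat_lit 21) (nat_lit 82) (.cons (nat_lit 71) (nat_lit 35) (nat_lit 138) (.cons (nat_lit 113) (nat_lit 56) (nat_lit 222) (.cons (nat_lit 127) (nat_lit 63) (nat_lit 250) (.cons (nat_lit 211) (nat_lit 105) (nat_lit 418) (.cons (nat_lit 281) (nat_lit 140) (nat_lit 558) (.cons (nat_lit 337) (nat_lit 168) (nat_lit 670) (.cons (nat_lit 421) (nat_lit 210) (nat_lit 838) (.cons (nat_lit 631) (nat_lit 315) (nat_lit 1258) (.cons (nat_lit 1009) (nat_lit 504) (nat_lit 2014) (.cons (nat_lit 2017) (nat_lit 1008) (nat_lit 4030) (.cons (nat_lit 2521) (nat_lit 1260) (nat_lit 5038) (.cons (nat_lit 2689) (nat_lit 1344) (nat_lit 5374) (.cons (nat_lit 3361) (nat_lit 1680) (nat_lit 6718) (.cons (nat_lit 4201) (nat_lit 2100) (nat_lit 8398) (.cons (nat_lit 4621) (nat_lit 2310) (nat_lit 9238) .nil)))))))))))))))))) <|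
  .cons (nat_lit 25373) (.mk
    .nil
    (.cons (nat_lit 3) (nat_lit 1) (nat_lit 2) (.cons (nat_lit 4229) (nat_lit 2114) (nat_lit 8454) .nil))
    (.cons (nat_lit 7) (nat_lit 3) (nat_lit 10) (.cons (nat_lit 13) (nat_lit 6) (nat_lit 22) (.cons (nat_lit 19) (nat_lit 9) (nat_lit 34) (.cons (nat_lit 397) (nat_lit 198) (nat_lit 790) .nil))))
    (.cons (nat_lit 5) (nat_lit 2) (nat_lit 6) (.cons (nat_lit 1069) (nat_lit 534) (nat_lit 2134) .nil))
    (.cons (nat_lit 11) (nat_lit 5) (nat_lit 18) (.cons (nat_lit 31) (nat_lit 15) (nat_lit 58) (.cons (nat_lit 61) (nat_lit 30) (nat_lit 118) (.cons (nat_lit 661) (nat_lit 330) (nat_lit 1318) (.cons (nat_lit 1021) (nat_lit 510) (nat_lit 2038) (.cons (nat_lit 1831) (nat_lit 915) (nat_lit 3658) (.cons (nat_lit 2441) (nat_lit 1220) (nat_lit 4878) .nil)))))))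
    (.cons (nat_lit 37) (nat_lit 18) (nat_lit 70) (.cons (nat_lit 181) (nat_lit 90) (nat_lit 358) (.cons (nat_lit 1747) (nat_lit 873) (nat_lit 3490) (.cons (nat_lit 2341) (nat_lit 1170) (nat_lit 4678) .nil))))
    (.cons (nat_lit 17) (nat_lit 8) (nat_lit 30) (.cons (nat_lit 41) (nat_lit 20) (nat_lit 78) (.cons (nat_lit 73) (nat_lit 36) (nat_lit 142) (.cons (nat_lit 241) (nat_lit 120) (nat_lit 478) (.cons (nat_lit 449) (nat_lit 224) (nat_lit 894) .nil)))))
    (.cons (nat_lit 29) (nat_lit 14) (nat_lit 54) (.cons (nat_lit 43) (nat_lit 21) (nat_lit 82) (.cons (nat_lit 71) (nat_lit 35) (nat_lit 138) (.cons (nat_lit 113) (nat_lit 56) (nat_lit 222) (.cons (nat_lit 127) (nat_lit 63) (nat_lit 250) (.cons (nat_lit 211) (nat_lit 105) (nat_lit 418) (.cons (nat_lit 281) (nat_lit 140) (nat_lit 558) (.cons (nat_lit 337) (nat_lit 168) (nat_lit 670) (.cons (nat_lit 421) (nat_lit 210) (nat_lit 838) (.cons (nat_lit 491) (nat_lit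 245) (nat_lit 978) (.cons (nat_lit 631) (nat_lit 315) (nat_lit 1258) (.cons (nat_lit 743) (nat_lit 371) (nat_lit 1482) (.cons (nat_lit 1009) (nat_lit 504) (nat_lit 2014) (.cons (nat_lit 1051) (nat_lit 525) (nat_lit 2098) (.cons (nat_lit 1471) (nat_lit 735) (nat_lit 2938) (.cons (nat_lit 2521) (nat_lit 1260) (nat_lit 5038) (.cons (nat_lit 3221) (nat_lit 1610) (nat_lit 6438) (.cons (nat_lit 3529) (nat_lit 1764) (nat_lit 7054) (.cons (nat_lit 4201) (nat_lit 2100) (nat_lit 8398) .nil)))))))))))))))))))) <|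
  .cons (nat_lit 25391) (.mk
    (.cons (nat_lit 5) (nat_lit 2) (nat_lit 6) (.cons (nat_lit 2539) (nat_lit 1269) (nat_lit 5074) .nil))
    (.cons (nat_lit 3) (nat_lit 1) (nat_lit 2) (.cons (nat_lit 23) (nat_lit 11) (nat_lit 42) .nil))
    (.cons (nat_lit 7) (nat_lit 3) (nat_lit 10) (.cons (nat_lit 19) (nat_lit 9) (nat_lit 34) (.cons (nat_lit 193) (nat_lit 96) (nat_lit 382) .nil)))
    (.cons (nat_lit 13) (nat_lit 6) (nat_lit 22) (.cons (nat_lit 2957) (nat_lit 1478) (nat_lit 5910) .nil))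
    (.cons (nat_lit 11) (nat_lit 5) (nat_lit 18) (.cons (nat_lit 31) (nat_lit 15) (nat_lit 58) (.cons (nat_lit 61) (nat_lit 30) (nat_lit 118) (.cons (nat_lit 151) (nat_lit 75) (nat_lit 298) (.cons (nat_lit 181) (nat_lit 90) (nat_lit 358) (.cons (nat_lit 211) (nat_lit 105) (nat_lit 418) (.cons (nat_lit 1231) (nat_lit 615) (nat_lit 2458) (.cons (nat_lit 2131) (nat_lit 1065) (nat_lit 4258) .nil))))))))
    (.cons (nat_lit 37) (nat_lit 18) (nat_lit 70) (.cons (nat_lit 541) (nat_lit 270) (nat_lit 1078) .nil))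
    (.cons (nat_lit 17) (nat_lit 8) (nat_lit 30) (.cons (nat_lit 41) (nat_lit 20) (nat_lit 78) (.cons (nat_lit 73) (nat_lit 36) (nat_lit 142) (.cons (nat_lit 241) (nat_lit 120) (nat_lit 478) (.cons (nat_lit 577) (nat_lit 288) (nat_lit 1150) (.cons (nat_lit 2161) (nat_lit 1080) (nat_lit 4318) .nil))))))
    (.cons (nat_lit 29) (nat_lit 14) (nat_lit 54) (.cons (nat_lit 43) (nat_lit 21) (nat_lit 82) (.cons (nat_lit 71) (nat_lit 35) (nat_lit 138) (.cons (nat_lit 113) (nat_lit 56) (nat_lit 222) (.cons (nat_lit 127) (nat_lit 63) (nat_lit 250) (.cons (nat_lit 281) (nat_lit 140) (nat_lit 558) (.cons (nat_lit 337) (nat_lit 168) (nat_lit 670) (.cons (nat_lit 421) (nat_lit 210) (nat_lit 838) (.cons (nat_lit 449) (nat_lit 224) (nat_lit 894) (.cons (nat_lit 631) (nat_lit 315) (nat_lit 1258) (.cons (nat_lit 757) (nat_lit 378) (nat_lit 1510) (.cons (nat_lit 1009) (nat_lit 504) (nat_lit 2014) (.cons (nat_lit 1051) (nat_lit 525)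 (nat_lit 2098) (.cons (nat_lit 2143) (nat_lit 1071) (nat_lit 4282) (.cons (nat_lit 2381) (nat_lit 1190) (nat_lit 4758) (.cons (nat_lit 2521) (nat_lit 1260) (nat_lit 5038) .nil))))))))))))))))) <|
  .cons (nat_lit 27737) (.mk
    (.cons (nat_lit 3467) (nat_lit 1733) (nat_lit 6930) .nil)
    (.cons (nat_lit 3) (nat_lit 1) (nat_lit 2) (.cons (nat_lit 23) (nat_lit 11) (nat_lit 42) (.cons (nat_lit 67) (nat_lit 33) (nat_lit 130) .nil)))
    (.cons (nat_lit 7) (nat_lit 3) (nat_lit 10) .nil)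
    (.cons (nat_lit 5) (nat_lit 2) (nat_lit 6) (.cons (nat_lit 13) (nat_lit 6) (nat_lit 22) (.cons (nat_lit 73) (nat_lit 36) (nat_lit 142) (.cons (nat_lit 2137) (nat_lit 1068) (nat_lit 4270) .nil))))
    (.cons (nat_lit 11) (nat_lit 5) (nat_lit 18) (.cons (nat_lit 31) (nat_lit 15) (nat_lit 58) (.cons (nat_lit 41) (nat_lit 20) (nat_lit 78) (.cons (nat_lit 61) (nat_lit 30) (nat_lit 118) (.cons (nat_lit 1321) (nat_lit 660) (nat_lit 2638) (.cons (nat_lit 2281) (nat_lit 1140) (nat_lit 4558) (.cons (nat_lit 4651) (nat_lit 2325) (nat_lit 9298) .nil)))))))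
    (.cons (nat_lit 19) (nat_lit 9) (nat_lit 34) (.cons (nat_lit 37) (nat_lit 18) (nat_lit 70) (.cons (nat_lit 181) (nat_lit 90) (nat_lit 358) (.cons (nat_lit 1621) (nat_lit 810) (nat_lit 3238) (.cons (nat_lit 1693) (nat_lit 846) (nat_lit 3382) (.cons (nat_lit 1801) (nat_lit 900) (nat_lit 3598) .nil))))))
    (.cons (nat_lit 17) (nat_lit 8) (nat_lit 30) (.cons (nat_lit 193) (nat_lit 96) (nat_lit 382) (.cons (nat_lit 241) (nat_lit 120) (nat_lit 478) (.cons (nat_lit 401) (nat_lit 200) (nat_lit 798) (.cons (nat_lit 3697) (nat_lit 1848) (nat_lit 7390) .nil)))))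
    (.cons (nat_lit 29) (nat_lit 14) (nat_lit 54) (.cons (nat_lit 43) (nat_lit 21) (nat_lit 82) (.cons (nat_lit 71) (nat_lit 35) (nat_lit 138) (.cons (nat_lit 113) (nat_lit 56) (nat_lit 222) (.cons (nat_lit 127) (nat_lit 63) (nat_lit 250) (.cons (nat_lit 211) (nat_lit 105) (nat_lit 418) (.cons (nat_lit 281) (nat_lit 140) (nat_lit 558) (.cons (nat_lit 337) (nat_lit 168) (nat_lit 670) (.cons (nat_lit 379) (nat_lit 189) (nat_lit 754) (.cons (nat_lit 421) (nat_lit 210) (nat_lit 838) (.cons (nat_lit 631) (nat_lit 315) (nat_lit 1258) (.cons (nat_lit 673) (nat_lit 336) (nat_lit 1342) (.cons (nat_lit 757) (nat_lit 378) (nat_lit 1510) (.cons (nat_lit 1009) (nat_lit 504) (nat_lit 2014) (.cons (nat_lit 1051) (nat_lit 525) (nat_lit 2098) (.cons (nat_lit 2087) (nat_lit 1043) (nat_lit 4170) (.cons (nat_lit 2521) (nat_lit 1260) (nat_lit 5038) (.cons (nat_lit 3361) (nat_lit 1680) (nat_lit 6718) (.cons (nat_lit 4831) (nat_lit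 2415) (nat_lit 9658) .nil)))))))))))))))))))) <|
  .cons (nat_lit 28057) (.mk
    (.cons (nat_lit 3) (nat_lit 1) (nat_lit 2) (.cons (nat_lit 7) (nat_lit 3) (nat_lit 10) (.cons (nat_lit 167) (nat_lit 83) (nat_lit 330) .nil)))
    .nil
    (.cons (nat_lit 13) (nat_lit 6) (nat_lit 22) (.cons (nat_lit 37) (nat_lit 18) (nat_lit 70) .nil))
    (.cons (nat_lit 5) (nat_lit 2) (nat_lit 6) (.cons (nat_lit 1129) (nat_lit 564) (nat_lit 2254) (.cons (nat_lit 2789) (nat_lit 1394) (nat_lit 5574) .nil)))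
    (.cons (nat_lit 11) (nat_lit 5) (nat_lit 18) (.cons (nat_lit 31) (nat_lit 15) (nat_lit 58) (.cons (nat_lit 61) (nat_lit 30) (nat_lit 118) .nil)))
    (.cons (nat_lit 19) (nat_lit 9) (nat_lit 34) (.cons (nat_lit 73) (nat_lit 36) (nat_lit 142) (.cons (nat_lit 181) (nat_lit 90) (nat_lit 358) (.cons (nat_lit 811) (nat_lit 405) (nat_lit 1618) (.cons (nat_lit 2161) (nat_lit 1080) (nat_lit 4318) (.cons (nat_lit 3709) (nat_lit 1854) (nat_lit 7414) .nil))))))
    (.cons (nat_lit 17) (nat_lit 8) (nat_lit 30) (.cons (nat_lit 41) (nat_lit 20) (nat_lit 78) (.cons (nat_lit 97) (nat_lit 48) (nat_lit 190) (.cons (nat_lit 233) (nat_lit 116) (nat_lit 462) (.cons (nat_lit 241) (nat_lit 120) (nat_lit 478) (.cons (nat_lit 577) (nat_lit 288) (nat_lit 1150) (.cons (nat_lit 673) (nat_lit 336) (nat_lit 1342) (.cons (nat_lit 2129) (nat_lit 1064) (nat_lit 4254) .nil))))))))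
    (.cons (nat_lit 29) (nat_lit 14) (nat_lit 54) (.cons (nat_lit 43) (nat_lit 21) (nat_lit 82) (.cons (nat_lit 71) (nat_lit 35) (nat_lit 138) (.cons (nat_lit 113) (nat_lit 56) (nat_lit 222) (.cons (nat_lit 127) (nat_lit 63) (nat_lit 250) (.cons (nat_lit 197) (nat_lit 98) (nat_lit 390) (.cons (nat_lit 211) (nat_lit 105) (nat_lit 418) (.cons (nat_lit 281) (nat_lit 140) (nat_lit 558) (.cons (nat_lit 337) (nat_lit 168) (nat_lit 670) (.cons (nat_lit 421) (nat_lit 210) (nat_lit 838) (.cons (nat_lit 631) (nat_lit 315) (nat_lit 1258) (.cons (nat_lit 701) (nat_lit 350) (nat_lit 1398) (.cons (nat_lit 883) (nat_lit 441) (nat_lit 1762) (.cons (nat_lit 1009) (nat_lit 504) (nat_lit 2014) (.cons (nat_lit 2381) (nat_lit 1190) (nat_lit 4758) (.cons (nat_lit 2521) (nat_lit 1260) (nat_lit 5038) (.cons (nat_lit 2633) (nat_lit 1316) (nat_lit 5262) (.cons (nat_lit 3361) (nat_lit 1680) (nat_lit 6718) (.cons (nat_lit 4789) (nat_lit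 2394) (nat_lit 9574) .nil)))))))))))))))))))) <|
  .cons (nat_lit 28393) (.mk
    (.cons (nat_lit 3) (nat_lit 1) (nat_lit 2) (.cons (nat_lit 7) (nat_lit 3) (nat_lit 10) (.cons (nat_lit 13) (nat_lit 6) (nat_lit 22) .nil)))
    .nil
    (.cons (nat_lit 19) (nat_lit 9) (nat_lit 34) .nil)
    (.cons (nat_lit 5) (nat_lit 2) (nat_lit 6) (.cons (nat_lit 37) (nat_lit 18) (nat_lit 70) (.cons (nat_lit 1129) (nat_lit 564) (nat_lit 2254) .nil)))
    (.cons (nat_lit 11) (nat_lit 5) (nat_lit 18) (.cons (nat_lit 31) (nat_lit 15) (nat_lit 58) (.cons (nat_lit 41) (nat_lit 20) (nat_lit 78) (.cons (nat_lit 61) (nat_lit 30) (nat_lit 118) (.cons (nat_lit 3121) (nat_lit 1560) (nat_lit 6238) .nil)))))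
    (.cons (nat_lit 73) (nat_lit 36) (nat_lit 142) (.cons (nat_lit 181) (nat_lit 90) (nat_lit 358) (.cons (nat_lit 631) (nat_lit 315) (nat_lit 1258) (.cons (nat_lit 811) (nat_lit 405) (nat_lit 1618) .nil))))
    (.cons (nat_lit 17) (nat_lit 8) (nat_lit 30) (.cons (nat_lit 241) (nat_lit 120) (nat_lit 478) (.cons (nat_lit 337) (nat_lit 168) (nat_lit 670) (.cons (nat_lit 1201) (nat_lit 600) (nat_lit 2398) (.cons (nat_lit 1297) (nat_lit 648) (nat_lit 2590) (.cons (nat_lit 1321) (nat_lit 660) (nat_lit 2638) (.cons (nat_lit 2521) (nat_lit 1260) (nat_lit 5038) .nil)))))))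
    (.cons (nat_lit 29) (nat_lit 14) (nat_lit 54) (.cons (nat_lit 43) (nat_lit 21) (nat_lit 82) (.cons (nat_lit 71) (nat_lit 35) (nat_lit 138) (.cons (nat_lit 113) (nat_lit 56) (nat_lit 222) (.cons (nat_lit 127) (nat_lit 63) (nat_lit 250) (.cons (nat_lit 211) (nat_lit 105) (nat_lit 418) (.cons (nat_lit 281) (nat_lit 140) (nat_lit 558) (.cons (nat_lit 421) (nat_lit 210) (nat_lit 838) (.cons (nat_lit 449) (nat_lit 224) (nat_lit 894) (.cons (nat_lit 673) (nat_lit 336) (nat_lit 1342) (.cons (nat_lit 1009) (nat_lit 504) (nat_lit 2014) (.cons (nat_lit 1429) (nat_lit 714) (nat_lit 2854) (.cons (nat_lit 1933) (nat_lit 966) (nat_lit 3862) (.cons (nat_lit 2731) (nat_lit 1365) (nat_lit 5458) .nil))))))))))))))) <|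
  .cons (nat_lit 28867) (.mk
    (.cons (nat_lit 3) (nat_lit 1) (nat_lit 2) (.cons (nat_lit 17) (nat_lit 8) (nat_lit 30) (.cons (nat_lit 283) (nat_lit 141) (nat_lit 562) .nil)))
    (.cons (nat_lit 7) (nat_lit 3) (nat_lit 10) (.cons (nat_lit 1031) (nat_lit 515) (nat_lit 2058) .nil))
    (.cons (nat_lit 31) (nat_lit 15) (nat_lit 58) (.cons (nat_lit 61) (nat_lit 30) (nat_lit 118) (.cons (nat_lit 967) (nat_lit 483) (nat_lit 1930) .nil)))
    (.cons (nat_lit 5) (nat_lit 2) (nat_lit 6) (.cons (nat_lit 13) (nat_lit 6) (nat_lit 22) (.cons (nat_lit 29) (nat_lit 14) (nat_lit 54) .nil)))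
    (.cons (nat_lit 11) (nat_lit 5) (nat_lit 18) (.cons (nat_lit 541) (nat_lit 270) (nat_lit 1078) (.cons (nat_lit 1061) (nat_lit 530) (nat_lit 2118) (.cons (nat_lit 3121) (nat_lit 1560) (nat_lit 6238) .nil))))
    (.cons (nat_lit 19) (nat_lit 9) (nat_lit 34) (.cons (nat_lit 37) (nat_lit 18) (nat_lit 70) (.cons (nat_lit 73) (nat_lit 36) (nat_lit 142) (.cons (nat_lit 181) (nat_lit 90) (nat_lit 358) (.cons (nat_lit 271) (nat_lit 135) (nat_lit 538) (.cons (nat_lit 1747) (nat_lit 873) (nat_lit 3490) (.cons (nat_lit 2377) (nat_lit 1188) (nat_lit 4750) .nil)))))))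
    (.cons (nat_lit 41) (nat_lit 20) (nat_lit 78) (.cons (nat_lit 241) (nat_lit 120) (nat_lit 478) (.cons (nat_lit 4481) (nat_lit 2240) (nat_lit 8958) .nil)))
    (.cons (nat_lit 43) (nat_lit 21) (nat_lit 82) (.cons (nat_lit 71) (nat_lit 35) (nat_lit 138) (.cons (nat_lit 113) (nat_lit 56) (nat_lit 222) (.cons (nat_lit 127) (nat_lit 63) (nat_lit 250) (.cons (nat_lit 211) (nat_lit 105) (nat_lit 418) (.cons (nat_lit 281) (nat_lit 140) (nat_lit 558) (.cons (nat_lit 337) (nat_lit 168) (nat_lit 670) (.cons (nat_lit 379) (nat_lit 189) (nat_lit 754) (.cons (nat_lit 421) (nat_lit 210) (nat_lit 838) (.cons (nat_lit 631) (nat_lit 315) (nat_lit 1258) (.cons (nat_lit 673) (nat_lit 336) (nat_lit 1342) (.cons (nat_lit 1009) (nat_lit 504) (nat_lit 2014) (.cons (nat_lit 1051) (nat_lit 525) (nat_lit 2098) (.cons (nat_lit 2017) (nat_lit 1008) (nat_lit 4030) (.cons (nat_lit 2269) (nat_lit 1134) (nat_lit 4534) (.cons (nat_lit 2521)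 (nat_lit 1260) (nat_lit 5038) (.cons (nat_lit 3361) (nat_lit 1680) (nat_lit 6718) (.cons (nat_lit 4663) (nat_lit 2331) (nat_lit 9322) .nil))))))))))))))))))) <|
  .cons (nat_lit 29483) (.mk
    .nil
    (.cons (nat_lit 3) (nat_lit 1) (nat_lit 2) (.cons (nat_lit 7) (nat_lit 3) (nat_lit 10) (.cons (nat_lit 13) (nat_lit 6) (nat_lit 22) .nil)))
    (.cons (nat_lit 73) (nat_lit 36) (nat_lit 142) (.cons (nat_lit 127) (nat_lit 63) (nat_lit 250) .nil))
    (.cons (nat_lit 5) (nat_lit 2) (nat_lit 6) (.cons (nat_lit 37) (nat_lit 18) (nat_lit 70) .nil))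
    (.cons (nat_lit 11) (nat_lit 5) (nat_lit 18) (.cons (nat_lit 31) (nat_lit 15) (nat_lit 58) (.cons (nat_lit 41) (nat_lit 20) (nat_lit 78) (.cons (nat_lit 61) (nat_lit 30) (nat_lit 118) (.cons (nat_lit 151) (nat_lit 75) (nat_lit 298) (.cons (nat_lit 241) (nat_lit 120) (nat_lit 478) (.cons (nat_lit 421) (nat_lit 210) (nat_lit 838) (.cons (nat_lit 2131) (nat_lit 1065) (nat_lit 4258) .nil))))))))
    (.cons (nat_lit 19) (nat_lit 9) (nat_lit 34) (.cons (nat_lit 181) (nat_lit 90) (nat_lit 358) .nil))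
    (.cons (nat_lit 17) (nat_lit 8) (nat_lit 30) (.cons (nat_lit 193) (nat_lit 96) (nat_lit 382) (.cons (nat_lit 2521) (nat_lit 1260) (nat_lit 5038) (.cons (nat_lit 4801) (nat_lit 2400) (nat_lit 9598) .nil))))
    (.cons (nat_lit 29) (nat_lit 14) (nat_lit 54) (.cons (nat_lit 43) (nat_lit 21) (nat_lit 82) (.cons (nat_lit 71) (nat_lit 35) (nat_lit 138) (.cons (nat_lit 113) (nat_lit 56) (nat_lit 222) (.cons (nat_lit 211) (nat_lit 105) (nat_lit 418) (.cons (nat_lit 281) (nat_lit 140) (nat_lit 558) (.cons (nat_lit 337) (nat_lit 168) (nat_lit 670) (.cons (nat_lit 631) (nat_lit 315) (nat_lit 1258) (.cons (nat_lit 1009) (nat_lit 504) (nat_lit 2014) (.cons (nat_lit 2297) (nat_lit 1148) (nat_lit 4590) (.cons (nat_lit 2647) (nat_lit 1323) (nat_lit 5290) (.cons (nat_lit 2801) (nat_lit 1400) (nat_lit 5598) (.cons (nat_lit 3221) (nat_lit 1610) (nat_lit 6438) .nil)))))))))))))) <|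
  .cons (nat_lit 30187) (.mk
    (.cons (nat_lit 3) (nat_lit 1) (nat_lit 2) (.cons (nat_lit 13) (nat_lit 6) (nat_lit 22) (.cons (nat_lit 43) (nat_lit 21) (nat_lit 82) .nil)))
    .nil
    (.cons (nat_lit 7) (nat_lit 3) (nat_lit 10) (.cons (nat_lit 67) (nat_lit 33) (nat_lit 130) (.cons (nat_lit 211) (nat_lit 105) (nat_lit 418) .nil)))
    (.cons (nat_lit 5) (nat_lit 2) (nat_lit 6) (.cons (nat_lit 53) (nat_lit 26) (nat_lit 102) (.cons (nat_lit 653) (nat_lit 326) (nat_lit 1302) (.cons (nat_lit 2633) (nat_lit 1316) (nat_lit 5262) .nil))))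
    (.cons (nat_lit 11) (nat_lit 5) (nat_lit 18) (.cons (nat_lit 31) (nat_lit 15) (nat_lit 58) (.cons (nat_lit 61) (nat_lit 30) (nat_lit 118) (.cons (nat_lit 181) (nat_lit 90) (nat_lit 358) .nil))))
    (.cons (nat_lit 19) (nat_lit 9) (nat_lit 34) (.cons (nat_lit 37) (nat_lit 18) (nat_lit 70) (.cons (nat_lit 73) (nat_lit 36) (nat_lit 142) (.cons (nat_lit 271) (nat_lit 135) (nat_lit 538) (.cons (nat_lit 1801) (nat_lit 900) (nat_lit 3598) (.cons (nat_lit 2521) (nat_lit 1260) (nat_lit 5038) (.cons (nat_lit 4357) (nat_lit 2178) (nat_lit 8710) .nil)))))))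
    (.cons (nat_lit 17) (nat_lit 8) (nat_lit 30) (.cons (nat_lit 41) (nat_lit 20) (nat_lit 78) (.cons (nat_lit 241) (nat_lit 120) (nat_lit 478) (.cons (nat_lit 1193) (nat_lit 596) (nat_lit 2382) (.cons (nat_lit 1873) (nat_lit 936) (nat_lit 3742) (.cons (nat_lit 2657) (nat_lit 1328) (nat_lit 5310) .nil))))))
    (.cons (nat_lit 29) (nat_lit 14) (nat_lit 54) (.cons (nat_lit 71) (nat_lit 35) (nat_lit 138) (.cons (nat_lit 113) (nat_lit 56) (nat_lit 222) (.cons (nat_lit 127) (nat_lit 63) (nat_lit 250) (.cons (nat_lit 281) (nat_lit 140) (nat_lit 558) (.cons (nat_lit 337) (nat_lit 168) (nat_lit 670) (.cons (nat_lit 379) (nat_lit 189) (nat_lit 754) (.cons (nat_lit 421) (nat_lit 210) (nat_lit 838) (.cons (nat_lit 491) (nat_lit 245) (nat_lit 978) (.cons (nat_lit 631) (nat_lit 315) (nat_lit 1258) (.cons (nat_lit 673) (nat_lit 336) (nat_lit 1342) (.cons (nat_lit 701) (nat_lit 350) (nat_lit 1398) (.cons (nat_lit 1009) (nat_lit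 504) (nat_lit 2014) (.cons (nat_lit 3529) (nat_lit 1764) (nat_lit 7054) .nil))))))))))))))) <|
  .cons (nat_lit 31583) (.mk
    .nil
    (.cons (nat_lit 3) (nat_lit 1) (nat_lit 2) (.cons (nat_lit 7) (nat_lit 3) (nat_lit 10) (.cons (nat_lit 47) (nat_lit 23) (nat_lit 90) .nil)))
    (.cons (nat_lit 31) (nat_lit 15) (nat_lit 58) .nil)
    (.cons (nat_lit 5) (nat_lit 2) (nat_lit 6) (.cons (nat_lit 13) (nat_lit 6) (nat_lit 22) (.cons (nat_lit 397) (nat_lit 198) (nat_lit 790) .nil)))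
    (.cons (nat_lit 11) (nat_lit 5) (nat_lit 18) (.cons (nat_lit 61) (nat_lit 30) (nat_lit 118) (.cons (nat_lit 1831) (nat_lit 915) (nat_lit 3658) .nil)))
    (.cons (nat_lit 19) (nat_lit 9) (nat_lit 34) (.cons (nat_lit 37) (nat_lit 18) (nat_lit 70) (.cons (nat_lit 109) (nat_lit 54) (nat_lit 214) (.cons (nat_lit 181) (nat_lit 90) (nat_lit 358) (.cons (nat_lit 199) (nat_lit 99) (nat_lit 394) (.cons (nat_lit 541) (nat_lit 270) (nat_lit 1078) (.cons (nat_lit 1279) (nat_lit 639) (nat_lit 2554) (.cons (nat_lit 2269) (nat_lit 1134) (nat_lit 4534) .nil))))))))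
    (.cons (nat_lit 17) (nat_lit 8) (nat_lit 30) (.cons (nat_lit 41) (nat_lit 20) (nat_lit 78) (.cons (nat_lit 73) (nat_lit 36) (nat_lit 142) (.cons (nat_lit 89) (nat_lit 44) (nat_lit 174) (.cons (nat_lit 241) (nat_lit 120) (nat_lit 478) (.cons (nat_lit 577) (nat_lit 288) (nat_lit 1150) (.cons (nat_lit 1201) (nat_lit 600) (nat_lit 2398) .nil)))))))
    (.cons (nat_lit 29) (nat_lit 14) (nat_lit 54) (.cons (nat_lit 43) (nat_lit 21) (nat_lit 82) (.cons (nat_lit 71) (nat_lit 35) (nat_lit 138) (.cons (nat_lit 113) (nat_lit 56) (nat_lit 222) (.cons (nat_lit 127) (nat_lit 63) (nat_lit 250) (.cons (nat_lit 211) (nat_lit 105) (nat_lit 418) (.cons (nat_lit 281) (nat_lit 140) (nat_lit 558) (.cons (nat_lit 337) (nat_lit 168) (nat_lit 670) (.cons (nat_lit 421) (nat_lit 210) (nat_lit 838) (.cons (nat_lit 491) (nat_lit 245) (nat_lit 978) (.cons (nat_lit 631) (nat_lit 315) (nat_lit 1258) (.cons (nat_lit 673) (nat_lit 336) (nat_lit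 1342) (.cons (nat_lit 1009) (nat_lit 504) (nat_lit 2014) (.cons (nat_lit 1051) (nat_lit 525) (nat_lit 2098) (.cons (nat_lit 2017) (nat_lit 1008) (nat_lit 4030) (.cons (nat_lit 2521) (nat_lit 1260) (nat_lit 5038) (.cons (nat_lit 3137) (nat_lit 1568) (nat_lit 6270) (.cons (nat_lit 3529) (nat_lit 1764) (nat_lit 7054) (.cons (nat_lit 3907) (nat_lit 1953) (nat_lit 7810) (.cons (nat_lit 4201) (nat_lit 2100) (nat_lit 8398) (.cons (nat_lit 4831) (nat_lit 2415) (nat_lit 9658) .nil)))))))))))))))))))))) <|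
  .cons (nat_lit 31847) (.mk
    .nil
    (.cons (nat_lit 3) (nat_lit 1) (nat_lit 2) (.cons (nat_lit 1327) (nat_lit 663) (nat_lit 2650) .nil))
    (.cons (nat_lit 7) (nat_lit 3) (nat_lit 10) (.cons (nat_lit 13) (nat_lit 6) (nat_lit 22) (.cons (nat_lit 37) (nat_lit 18) (nat_lit 70) (.cons (nat_lit 211) (nat_lit 105) (nat_lit 418) (.cons (nat_lit 3331) (nat_lit 1665) (nat_lit 6658) .nil)))))
    (.cons (nat_lit 5) (nat_lit 2) (nat_lit 6) (.cons (nat_lit 1993) (nat_lit 996) (nat_lit 3982) .nil))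
    (.cons (nat_lit 11) (nat_lit 5) (nat_lit 18) (.cons (nat_lit 31) (nat_lit 15) (nat_lit 58) (.cons (nat_lit 41) (nat_lit 20) (nat_lit 78) (.cons (nat_lit 61) (nat_lit 30) (nat_lit 118) (.cons (nat_lit 101) (nat_lit 50) (nat_lit 198) (.cons (nat_lit 661) (nat_lit 330) (nat_lit 1318) (.cons (nat_lit 1301) (nat_lit 650) (nat_lit 2598) (.cons (nat_lit 1721) (nat_lit 860) (nat_lit 3438) (.cons (nat_lit 1831) (nat_lit 915) (nat_lit 3658) (.cons (nat_lit 4801) (nat_lit 2400) (nat_lit 9598) .nil))))))))))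
    (.cons (nat_lit 19) (nat_lit 9) (nat_lit 34) (.cons (nat_lit 73) (nat_lit 36) (nat_lit 142) (.cons (nat_lit 109) (nat_lit 54) (nat_lit 214) (.cons (nat_lit 181) (nat_lit 90) (nat_lit 358) (.cons (nat_lit 3691) (nat_lit 1845) (nat_lit 7378) .nil)))))
    (.cons (nat_lit 17) (nat_lit 8) (nat_lit 30) (.cons (nat_lit 97) (nat_lit 48) (nat_lit 190) (.cons (nat_lit 241) (nat_lit 120) (nat_lit 478) (.cons (nat_lit 433) (nat_lit 216) (nat_lit 862) (.cons (nat_lit 1033) (nat_lit 516) (nat_lit 2062) (.cons (nat_lit 2161) (nat_lit 1080) (nat_lit 4318) .nil))))))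
    (.cons (nat_lit 29) (nat_lit 14) (nat_lit 54) (.cons (nat_lit 43) (nat_lit 21) (nat_lit 82) (.cons (nat_lit 71) (nat_lit 35) (nat_lit 138) (.cons (nat_lit 113) (nat_lit 56) (nat_lit 222) (.cons (nat_lit 127) (nat_lit 63) (nat_lit 250) (.cons (nat_lit 281) (nat_lit 140) (nat_lit 558) (.cons (nat_lit 337) (nat_lit 168) (nat_lit 670) (.cons (nat_lit 421) (nat_lit 210) (nat_lit 838) (.cons (nat_lit 631) (nat_lit 315) (nat_lit 1258) (.cons (nat_lit 673) (nat_lit 336) (nat_lit 1342) (.cons (nat_lit 1009) (nat_lit 504) (nat_lit 2014) (.cons (nat_lit 1093) (nat_lit 546) (nat_lit 2182) (.cons (nat_lit 1373) (nat_lit 686) (nat_lit 2742) (.cons (nat_lit 2269) (nat_lit 1134) (nat_lit 4534) (.cons (nat_lit 2521) (nat_lit 1260) (nat_lit 5038) (.cons (nat_lit 3613) (nat_lit 1806) (nat_lit 7222) (.cons (nat_lit 4999) (nat_lit 2499) (nat_lit 9994) .nil)))))))))))))))))) <|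
  .cons (nat_lit 32507) (.mk
    .nil
    (.cons (nat_lit 3) (nat_lit 1) (nat_lit 2) (.cons (nat_lit 7) (nat_lit 3) (nat_lit 10) (.cons (nat_lit 43) (nat_lit 21) (nat_lit 82) .nil)))
    .nil
    (.cons (nat_lit 5) (nat_lit 2) (nat_lit 6) (.cons (nat_lit 13) (nat_lit 6) (nat_lit 22) (.cons (nat_lit 617) (nat_lit 308) (nat_lit 1230) .nil)))
    (.cons (nat_lit 11) (nat_lit 5) (nat_lit 18) (.cons (nat_lit 31) (nat_lit 15) (nat_lit 58) (.cons (nat_lit 61) (nat_lit 30) (nat_lit 118) (.cons (nat_lit 491) (nat_lit 245) (nat_lit 978) .nil))))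
    (.cons (nat_lit 19) (nat_lit 9) (nat_lit 34) (.cons (nat_lit 37) (nat_lit 18) (nat_lit 70) (.cons (nat_lit 181) (nat_lit 90) (nat_lit 358) (.cons (nat_lit 271) (nat_lit 135) (nat_lit 538) (.cons (nat_lit 1171) (nat_lit 585) (nat_lit 2338) (.cons (nat_lit 3691) (nat_lit 1845) (nat_lit 7378) .nil))))))
    (.cons (nat_lit 17) (nat_lit 8) (nat_lit 30) (.cons (nat_lit 41) (nat_lit 20) (nat_lit 78) (.cons (nat_lit 73) (nat_lit 36) (nat_lit 142) (.cons (nat_lit 97) (nat_lit 48) (nat_lit 190) (.cons (nat_lit 241) (nat_lit 120) (nat_lit 478) (.cons (nat_lit 281) (nat_lit 140) (nat_lit 558) (.cons (nat_lit 401) (nat_lit 200) (nat_lit 798) (.cons (nat_lit 433) (nat_lit 216) (nat_lit 862) (.cons (nat_lit 577) (nat_lit 288) (nat_lit 1150) (.cons (nat_lit 1201) (nat_lit 600) (nat_lit 2398) (.cons (nat_lit 1409) (nat_lit 704) (nat_lit 2814) .nil)))))))))))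
    (.cons (nat_lit 29) (nat_lit 14) (nat_lit 54) (.cons (nat_lit 71) (nat_lit 35) (nat_lit 138) (.cons (nat_lit 113) (nat_lit 56) (nat_lit 222) (.cons (nat_lit 127) (nat_lit 63) (nat_lit 250) (.cons (nat_lit 211) (nat_lit 105) (nat_lit 418) (.cons (nat_lit 337) (nat_lit 168) (nat_lit 670) (.cons (nat_lit 421) (nat_lit 210) (nat_lit 838) (.cons (nat_lit 631) (nat_lit 315) (nat_lit 1258) (.cons (nat_lit 673) (nat_lit 336) (nat_lit 1342) (.cons (nat_lit 1009) (nat_lit 504) (nat_lit 2014) (.cons (nat_lit 2017) (nat_lit 1008) (nat_lit 4030) (.cons (nat_lit 2521) (nat_lit 1260) (nat_lit 5038) (.cons (nat_lit 2689) (nat_lit 1344) (nat_lit 5374) .nil)))))))))))))) <|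
  .cons (nat_lit 32771) (.mk
    (.cons (nat_lit 5) (nat_lit 2) (nat_lit 6) (.cons (nat_lit 29) (nat_lit 14) (nat_lit 54) (.cons (nat_lit 113) (nat_lit 56) (nat_lit 222) .nil)))
    (.cons (nat_lit 3) (nat_lit 1) (nat_lit 2) (.cons (nat_lit 2731) (nat_lit 1365) (nat_lit 5458) .nil))
    (.cons (nat_lit 7) (nat_lit 3) (nat_lit 10) (.cons (nat_lit 37) (nat_lit 18) (nat_lit 70) (.cons (nat_lit 61) (nat_lit 30) (nat_lit 118) (.cons (nat_lit 457) (nat_lit 228) (nat_lit 910) (.cons (nat_lit 1867) (nat_lit 933) (nat_lit 3730) (.cons (nat_lit 2221) (nat_lit 1110) (nat_lit 4438) .nil))))))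
    (.cons (nat_lit 13) (nat_lit 6) (nat_lit 22) .nil)
    (.cons (nat_lit 11) (nat_lit 5) (nat_lit 18) (.cons (nat_lit 31) (nat_lit 15) (nat_lit 58) (.cons (nat_lit 151) (nat_lit 75) (nat_lit 298) (.cons (nat_lit 331) (nat_lit 165) (nat_lit 658) (.cons (nat_lit 421) (nat_lit 210) (nat_lit 838) (.cons (nat_lit 1381) (nat_lit 690) (nat_lit 2758) (.cons (nat_lit 1801) (nat_lit 900) (nat_lit 3598) (.cons (nat_lit 2441) (nat_lit 1220) (nat_lit 4878) .nil))))))))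
    (.cons (nat_lit 19) (nat_lit 9) (nat_lit 34) (.cons (nat_lit 73) (nat_lit 36) (nat_lit 142) (.cons (nat_lit 109) (nat_lit 54) (nat_lit 214) (.cons (nat_lit 181) (nat_lit 90) (nat_lit 358) (.cons (nat_lit 433) (nat_lit 216) (nat_lit 862) .nil)))))
    (.cons (nat_lit 17) (nat_lit 8) (nat_lit 30) (.cons (nat_lit 41) (nat_lit 20) (nat_lit 78) (.cons (nat_lit 241) (nat_lit 120) (nat_lit 478) (.cons (nat_lit 1201) (nat_lit 600) (nat_lit 2398) (.cons (nat_lit 3361) (nat_lit 1680) (nat_lit 6718) (.cons (nat_lit 4057) (nat_lit 2028) (nat_lit 8110) .nil))))))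
    (.cons (nat_lit 43) (nat_lit 21) (nat_lit 82) (.cons (nat_lit 71) (nat_lit 35) (nat_lit 138) (.cons (nat_lit 127) (nat_lit 63) (nat_lit 250) (.cons (nat_lit 197) (nat_lit 98) (nat_lit 390) (.cons (nat_lit 211) (nat_lit 105) (nat_lit 418) (.cons (nat_lit 281) (nat_lit 140) (nat_lit 558) (.cons (nat_lit 337) (nat_lit 168) (nat_lit 670) (.cons (nat_lit 617) (nat_lit 308) (nat_lit 1230) (.cons (nat_lit 631) (nat_lit 315) (nat_lit 1258) (.cons (nat_lit 673) (nat_lit 336) (nat_lit 1342) (.cons (nat_lit 1009) (nat_lit 504) (nat_lit 2014) (.cons (nat_lit 2017) (nat_lit 1008) (nat_lit 4030) (.cons (nat_lit 2143) (nat_lit 1071) (nat_lit 4282) (.cons (nat_lit 2521) (nat_lit 1260) (nat_lit 5038) (.cons (nat_lit 2549) (nat_lit 1274) (nat_lit 5094) .nil)))))))))))))))) <|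
  .cons (nat_lit 32843) (.mk
    .nil
    (.cons (nat_lit 3) (nat_lit 1) (nat_lit 2) (.cons (nat_lit 7) (nat_lit 3) (nat_lit 10) (.cons (nat_lit 17) (nat_lit 8) (nat_lit 30) (.cons (nat_lit 23) (nat_lit 11) (nat_lit 42) .nil))))
    (.cons (nat_lit 19) (nat_lit 9) (nat_lit 34) .nil)
    (.cons (nat_lit 5) (nat_lit 2) (nat_lit 6) (.cons (nat_lit 13) (nat_lit 6) (nat_lit 22) (.cons (nat_lit 137) (nat_lit 68) (nat_lit 270) (.cons (nat_lit 1021) (nat_lit 510) (nat_lit 2038) .nil))))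
    (.cons (nat_lit 11) (nat_lit 5) (nat_lit 18) (.cons (nat_lit 31) (nat_lit 15) (nat_lit 58) (.cons (nat_lit 41) (nat_lit 20) (nat_lit 78) (.cons (nat_lit 61) (nat_lit 30) (nat_lit 118) (.cons (nat_lit 151) (nat_lit 75) (nat_lit 298) (.cons (nat_lit 181) (nat_lit 90) (nat_lit 358) (.cons (nat_lit 401) (nat_lit 200) (nat_lit 798) .nil)))))))
    (.cons (nat_lit 37) (nat_lit 18) (nat_lit 70) (.cons (nat_lit 109) (nat_lit 54) (nat_lit 214) (.cons (nat_lit 2089) (nat_lit 1044) (nat_lit 4174) .nil)))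
    (.cons (nat_lit 73) (nat_lit 36) (nat_lit 142) (.cons (nat_lit 113) (nat_lit 56) (nat_lit 222) (.cons (nat_lit 241) (nat_lit 120) (nat_lit 478) .nil)))
    (.cons (nat_lit 29) (nat_lit 14) (nat_lit 54) (.cons (nat_lit 43) (nat_lit 21) (nat_lit 82) (.cons (nat_lit 71) (nat_lit 35) (nat_lit 138) (.cons (nat_lit 127) (nat_lit 63) (nat_lit 250) (.cons (nat_lit 211) (nat_lit 105) (nat_lit 418) (.cons (nat_lit 239) (nat_lit 119) (nat_lit 474) (.cons (nat_lit 281) (nat_lit 140) (nat_lit 558) (.cons (nat_lit 337) (nat_lit 168) (nat_lit 670) (.cons (nat_lit 421) (nat_lit 210) (nat_lit 838) (.cons (nat_lit 617) (nat_lit 308) (nat_lit 1230) (.cons (nat_lit 631) (nat_lit 315) (nat_lit 1258) (.cons (nat_lit 701) (nat_lit 350) (nat_lit 1398) (.cons (nat_lit 743) (nat_lit 371) (nat_lit 1482) (.cons (nat_lit 757) (nat_lit 378) (nat_lit 1510) (.cons (nat_lit 1009) (nat_lit 504) (nat_lit 2014) (.cons (nat_lit 2129) (nat_lit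 1064) (nat_lit 4254) (.cons (nat_lit 2521) (nat_lit 1260) (nat_lit 5038) (.cons (nat_lit 3529) (nat_lit 1764) (nat_lit 7054) .nil))))))))))))))))))) <|
  .cons (nat_lit 33347) (.mk
    .nil
    (.cons (nat_lit 3) (nat_lit 1) (nat_lit 2) (.cons (nat_lit 7) (nat_lit 3) (nat_lit 10) (.cons (nat_lit 397) (nat_lit 198) (nat_lit 790) .nil)))
    (.cons (nat_lit 37) (nat_lit 18) (nat_lit 70) (.cons (nat_lit 661) (nat_lit 330) (nat_lit 1318) .nil))
    (.cons (nat_lit 5) (nat_lit 2) (nat_lit 6) (.cons (nat_lit 13) (nat_lit 6) (nat_lit 22) .nil))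
    (.cons (nat_lit 11) (nat_lit 5) (nat_lit 18) (.cons (nat_lit 31) (nat_lit 15) (nat_lit 58) (.cons (nat_lit 61) (nat_lit 30) (nat_lit 118) (.cons (nat_lit 101) (nat_lit 50) (nat_lit 198) (.cons (nat_lit 131) (nat_lit 65) (nat_lit 258) (.cons (nat_lit 941) (nat_lit 470) (nat_lit 1878) (.cons (nat_lit 3851) (nat_lit 1925) (nat_lit 7698) (.cons (nat_lit 4481) (nat_lit 2240) (nat_lit 8958) .nil))))))))
    (.cons (nat_lit 19) (nat_lit 9) (nat_lit 34) (.cons (nat_lit 181) (nat_lit 90) (nat_lit 358) (.cons (nat_lit 2269) (nat_lit 1134) (nat_lit 4534) .nil)))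
    (.cons (nat_lit 17) (nat_lit 8) (nat_lit 30) (.cons (nat_lit 41) (nat_lit 20) (nat_lit 78) (.cons (nat_lit 73) (nat_lit 36) (nat_lit 142) (.cons (nat_lit 241) (nat_lit 120) (nat_lit 478) (.cons (nat_lit 4801) (nat_lit 2400) (nat_lit 9598) .nil)))))
    (.cons (nat_lit 29) (nat_lit 14) (nat_lit 54) (.cons (nat_lit 43) (nat_lit 21) (nat_lit 82) (.cons (nat_lit 71) (nat_lit 35) (nat_lit 138) (.cons (nat_lit 113) (nat_lit 56) (nat_lit 222) (.cons (nat_lit 127) (nat_lit 63) (nat_lit 250) (.cons (nat_lit 211) (nat_lit 105) (nat_lit 418) (.cons (nat_lit 281) (nat_lit 140) (nat_lit 558) (.cons (nat_lit 337) (nat_lit 168) (nat_lit 670) (.cons (nat_lit 379) (nat_lit 189) (nat_lit 754) (.cons (nat_lit 421) (nat_lit 210) (nat_lit 838) (.cons (nat_lit 449) (nat_lit 224) (nat_lit 894) (.cons (nat_lit 491) (nat_lit 245) (nat_lit 978) (.cons (nat_lit 631) (nat_lit 315) (nat_lit 1258) (.cons (nat_lit 701) (nat_lit 350) (nat_lit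 1398) (.cons (nat_lit 1009) (nat_lit 504) (nat_lit 2014) (.cons (nat_lit 2297) (nat_lit 1148) (nat_lit 4590) (.cons (nat_lit 2521) (nat_lit 1260) (nat_lit 5038) (.cons (nat_lit 3361) (nat_lit 1680) (nat_lit 6718) .nil))))))))))))))))))) <|
  .cons (nat_lit 33827) (.mk
    (.cons (nat_lit 13) (nat_lit 6) (nat_lit 22) (.cons (nat_lit 1301) (nat_lit 650) (nat_lit 2598) .nil))
    (.cons (nat_lit 3) (nat_lit 1) (nat_lit 2) (.cons (nat_lit 2819) (nat_lit 1409) (nat_lit 5634) .nil))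
    (.cons (nat_lit 7) (nat_lit 3) (nat_lit 10) (.cons (nat_lit 19) (nat_lit 9) (nat_lit 34) (.cons (nat_lit 31) (nat_lit 15) (nat_lit 58) .nil)))
    (.cons (nat_lit 5) (nat_lit 2) (nat_lit 6) (.cons (nat_lit 1553) (nat_lit 776) (nat_lit 3102) .nil))
    (.cons (nat_lit 11) (nat_lit 5) (nat_lit 18) (.cons (nat_lit 41) (nat_lit 20) (nat_lit 78) (.cons (nat_lit 61) (nat_lit 30) (nat_lit 118) (.cons (nat_lit 241) (nat_lit 120) (nat_lit 478) (.cons (nat_lit 2671) (nat_lit 1335) (nat_lit 5338) (.cons (nat_lit 2731) (nat_lit 1365) (nat_lit 5458) (.cons (nat_lit 3191) (nat_lit 1595) (nat_lit 6378) .nil)))))))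
    (.cons (nat_lit 37) (nat_lit 18) (nat_lit 70) (.cons (nat_lit 181) (nat_lit 90) (nat_lit 358) .nil))
    (.cons (nat_lit 17) (nat_lit 8) (nat_lit 30) (.cons (nat_lit 73) (nat_lit 36) (nat_lit 142) (.cons (nat_lit 113) (nat_lit 56) (nat_lit 222) (.cons (nat_lit 577) (nat_lit 288) (nat_lit 1150) (.cons (nat_lit 769) (nat_lit 384) (nat_lit 1534) (.cons (nat_lit 1201) (nat_lit 600) (nat_lit 2398) (.cons (nat_lit 1361) (nat_lit 680) (nat_lit 2718) .nil)))))))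
    (.cons (nat_lit 29) (nat_lit 14) (nat_lit 54) (.cons (nat_lit 43) (nat_lit 21) (nat_lit 82) (.cons (nat_lit 71) (nat_lit 35) (nat_lit 138) (.cons (nat_lit 127) (nat_lit 63) (nat_lit 250) (.cons (nat_lit 211) (nat_lit 105) (nat_lit 418) (.cons (nat_lit 281) (nat_lit 140) (nat_lit 558) (.cons (nat_lit 337) (nat_lit 168) (nat_lit 670) (.cons (nat_lit 421) (nat_lit 210) (nat_lit 838) (.cons (nat_lit 631) (nat_lit 315) (nat_lit 1258) (.cons (nat_lit 701) (nat_lit 350) (nat_lit 1398) (.cons (nat_lit 1009) (nat_lit 504) (nat_lit 2014) (.cons (nat_lit 2017) (nat_lit 1008) (nat_lit 4030) (.cons (nat_lit 2521) (nat_lit 1260) (nat_lit 5038) (.cons (nat_lit 2647) (nat_lit 1323) (nat_lit 5290) (.cons (nat_lit 3571) (nat_lit 1785) (nat_lit 7138) .nil)))))))))))))))) <|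
  .cons (nat_lit 35803) (.mk
    (.cons (nat_lit 3) (nat_lit 1) (nat_lit 2) (.cons (nat_lit 13) (nat_lit 6) (nat_lit 22) (.cons (nat_lit 17) (nat_lit 8) (nat_lit 30) .nil)))
    .nil
    (.cons (nat_lit 7) (nat_lit 3) (nat_lit 10) (.cons (nat_lit 19) (nat_lit 9) (nat_lit 34) .nil))
    (.cons (nat_lit 5) (nat_lit 2) (nat_lit 6) (.cons (nat_lit 29) (nat_lit 14) (nat_lit 54) .nil))
    (.cons (nat_lit 11) (nat_lit 5) (nat_lit 18) (.cons (nat_lit 31) (nat_lit 15) (nat_lit 58) (.cons (nat_lit 41) (nat_lit 20) (nat_lit 78) (.cons (nat_lit 61) (nat_lit 30) (nat_lit 118) (.cons (nat_lit 151) (nat_lit 75) (nat_lit 298) (.cons (nat_lit 181) (nat_lit 90) (nat_lit 358) (.cons (nat_lit 241) (nat_lit 120) (nat_lit 478) (.cons (nat_lit 4831) (nat_lit 2415) (nat_lit 9658) .nil))))))))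
    (.cons (nat_lit 37) (nat_lit 18) (nat_lit 70) (.cons (nat_lit 271) (nat_lit 135) (nat_lit 538) (.cons (nat_lit 1747) (nat_lit 873) (nat_lit 3490) (.cons (nat_lit 2251) (nat_lit 1125) (nat_lit 4498) .nil))))
    (.cons (nat_lit 73) (nat_lit 36) (nat_lit 142) (.cons (nat_lit 113) (nat_lit 56) (nat_lit 222) (.cons (nat_lit 401) (nat_lit 200) (nat_lit 798) (.cons (nat_lit 1321) (nat_lit 660) (nat_lit 2638) (.cons (nat_lit 1489) (nat_lit 744) (nat_lit 2974) (.cons (nat_lit 4481) (nat_lit 2240) (nat_lit 8958) .nil))))))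
    (.cons (nat_lit 43) (nat_lit 21) (nat_lit 82) (.cons (nat_lit 71) (nat_lit 35) (nat_lit 138) (.cons (nat_lit 127) (nat_lit 63) (nat_lit 250) (.cons (nat_lit 211) (nat_lit 105) (nat_lit 418) (.cons (nat_lit 281) (nat_lit 140) (nat_lit 558) (.cons (nat_lit 337) (nat_lit 168) (nat_lit 670) (.cons (nat_lit 421) (nat_lit 210) (nat_lit 838) (.cons (nat_lit 631) (nat_lit 315) (nat_lit 1258) (.cons (nat_lit 757) (nat_lit 378) (nat_lit 1510) (.cons (nat_lit 1009) (nat_lit 504) (nat_lit 2014) (.cons (nat_lit 1093) (nat_lit 546) (nat_lit 2182) (.cons (nat_lit 2521) (nat_lit 1260) (nat_lit 5038) (.cons (nat_lit 2801) (nat_lit 1400) (nat_lit 5598) (.cons (nat_lit 3361) (nat_lit 1680) (nat_lit 6718) .nil))))))))))))))) <|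
  .cons (nat_lit 37243) (.mk
    (.cons (nat_lit 3) (nat_lit 1) (nat_lit 2) (.cons (nat_lit 2069) (nat_lit 1034) (nat_lit 4134) .nil))
    .nil
    (.cons (nat_lit 7) (nat_lit 3) (nat_lit 10) (.cons (nat_lit 2647) (nat_lit 1323) (nat_lit 5290) .nil))
    (.cons (nat_lit 5) (nat_lit 2) (nat_lit 6) (.cons (nat_lit 13) (nat_lit 6) (nat_lit 22) (.cons (nat_lit 17) (nat_lit 8) (nat_lit 30) .nil)))
    (.cons (nat_lit 11) (nat_lit 5) (nat_lit 18) (.cons (nat_lit 31) (nat_lit 15) (nat_lit 58) (.cons (nat_lit 61) (nat_lit 30) (nat_lit 118) (.cons (nat_lit 211) (nat_lit 105) (nat_lit 418) (.cons (nat_lit 1741) (nat_lit 870) (nat_lit 3478) .nil)))))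
    (.cons (nat_lit 19) (nat_lit 9) (nat_lit 34) (.cons (nat_lit 37) (nat_lit 18) (nat_lit 70) (.cons (nat_lit 181) (nat_lit 90) (nat_lit 358) (.cons (nat_lit 4357) (nat_lit 2178) (nat_lit 8710) .nil))))
    (.cons (nat_lit 41) (nat_lit 20) (nat_lit 78) (.cons (nat_lit 73) (nat_lit 36) (nat_lit 142) (.cons (nat_lit 241) (nat_lit 120) (nat_lit 478) (.cons (nat_lit 281) (nat_lit 140) (nat_lit 558) .nil))))
    (.cons (nat_lit 29) (nat_lit 14) (nat_lit 54) (.cons (nat_lit 43) (nat_lit 21) (nat_lit 82) (.cons (nat_lit 71) (nat_lit 35) (nat_lit 138) (.cons (nat_lit 113) (nat_lit 56) (nat_lit 222) (.cons (nat_lit 127) (nat_lit 63) (nat_lit 250) (.cons (nat_lit 337) (nat_lit 168) (nat_lit 670) (.cons (nat_lit 421) (nat_lit 210) (nat_lit 838) (.cons (nat_lit 631) (nat_lit 315) (nat_lit 1258) (.cons (nat_lit 757) (nat_lit 378) (nat_lit 1510) (.cons (nat_lit 883) (nat_lit 441) (nat_lit 1762) (.cons (nat_lit 1009) (nat_lit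 504) (nat_lit 2014) (.cons (nat_lit 1093) (nat_lit 546) (nat_lit 2182) (.cons (nat_lit 1933) (nat_lit 966) (nat_lit 3862) (.cons (nat_lit 2521) (nat_lit 1260) (nat_lit 5038) (.cons (nat_lit 2801) (nat_lit 1400) (nat_lit 5598) (.cons (nat_lit 4621) (nat_lit 2310) (nat_lit 9238) .nil))))))))))))))))) <|
  .cons (nat_lit 37987) (.mk
    (.cons (nat_lit 3) (nat_lit 1) (nat_lit 2) (.cons (nat_lit 13) (nat_lit 6) (nat_lit 22) (.cons (nat_lit 487) (nat_lit 243) (nat_lit 970) .nil)))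
    .nil
    (.cons (nat_lit 7) (nat_lit 3) (nat_lit 10) (.cons (nat_lit 463) (nat_lit 231) (nat_lit 922) (.cons (nat_lit 811) (nat_lit 405) (nat_lit 1618) .nil)))
    (.cons (nat_lit 5) (nat_lit 2) (nat_lit 6) (.cons (nat_lit 73) (nat_lit 36) (nat_lit 142) .nil))
    (.cons (nat_lit 11) (nat_lit 5) (nat_lit 18) (.cons (nat_lit 31) (nat_lit 15) (nat_lit 58) (.cons (nat_lit 41) (nat_lit 20) (nat_lit 78) (.cons (nat_lit 61) (nat_lit 30) (nat_lit 118) (.cons (nat_lit 241) (nat_lit 120) (nat_lit 478) (.cons (nat_lit 661) (nat_lit 330) (nat_lit 1318) (.cons (nat_lit 751) (nat_lit 375) (nat_lit 1498) .nil)))))))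
    (.cons (nat_lit 19) (nat_lit 9) (nat_lit 34) (.cons (nat_lit 37) (nat_lit 18) (nat_lit 70) (.cons (nat_lit 109) (nat_lit 54) (nat_lit 214) (.cons (nat_lit 181) (nat_lit 90) (nat_lit 358) (.cons (nat_lit 271) (nat_lit 135) (nat_lit 538) (.cons (nat_lit 1171) (nat_lit 585) (nat_lit 2338) .nil))))))
    (.cons (nat_lit 17) (nat_lit 8) (nat_lit 30) (.cons (nat_lit 401) (nat_lit 200) (nat_lit 798) (.cons (nat_lit 433) (nat_lit 216) (nat_lit 862) (.cons (nat_lit 1049) (nat_lit 524) (nat_lit 2094) (.cons (nat_lit 2161) (nat_lit 1080) (nat_lit 4318) .nil)))))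
    (.cons (nat_lit 29) (nat_lit 14) (nat_lit 54) (.cons (nat_lit 43) (nat_lit 21) (nat_lit 82) (.cons (nat_lit 71) (nat_lit 35) (nat_lit 138) (.cons (nat_lit 113) (nat_lit 56) (nat_lit 222) (.cons (nat_lit 127) (nat_lit 63) (nat_lit 250) (.cons (nat_lit 211) (nat_lit 105) (nat_lit 418) (.cons (nat_lit 281) (nat_lit 140) (nat_lit 558) (.cons (nat_lit 337) (nat_lit 168) (nat_lit 670) (.cons (nat_lit 421) (nat_lit 210) (nat_lit 838) (.cons (nat_lit 631) (nat_lit 315) (nat_lit 1258) (.cons (nat_lit 673) (nat_lit 336) (nat_lit 1342) (.cons (nat_lit 1009) (nat_lit 504) (nat_lit 2014) (.cons (nat_lit 1093) (nat_lit 546) (nat_lit 2182) (.cons (nat_lit 2017) (nat_lit 1008) (nat_lit 4030) (.cons (nat_lit 2269) (nat_lit 1134) (nat_lit 4534) (.cons (nat_lit 2521) (nat_lit 1260) (nat_lit 5038) .nil))))))))))))))))) <|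
  .cons (nat_lit 38333) (.mk
    (.cons (nat_lit 7) (nat_lit 3) (nat_lit 10) (.cons (nat_lit 37) (nat_lit 18) (nat_lit 70) .nil))
    (.cons (nat_lit 3) (nat_lit 1) (nat_lit 2) .nil)
    (.cons (nat_lit 13) (nat_lit 6) (nat_lit 22) (.cons (nat_lit 73) (nat_lit 36) (nat_lit 142) (.cons (nat_lit 3499) (nat_lit 1749) (nat_lit 6994) .nil)))
    (.cons (nat_lit 5) (nat_lit 2) (nat_lit 6) (.cons (nat_lit 773) (nat_lit 386) (nat_lit 1542) .nil))
    (.cons (nat_lit 11) (nat_lit 5) (nat_lit 18) (.cons (nat_lit 31) (nat_lit 15) (nat_lit 58) (.cons (nat_lit 41) (nat_lit 20) (nat_lit 78) (.cons (nat_lit 61) (nat_lit 30) (nat_lit 118) (.cons (nat_lit 431) (nat_lit 215) (nat_lit 858) (.cons (nat_lit 4051) (nat_lit 2025) (nat_lit 8098) .nil))))))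
    (.cons (nat_lit 19) (nat_lit 9) (nat_lit 34) (.cons (nat_lit 181) (nat_lit 90) (nat_lit 358) (.cons (nat_lit 631) (nat_lit 315) (nat_lit 1258) (.cons (nat_lit 829) (nat_lit 414) (nat_lit 1654) .nil))))
    (.cons (nat_lit 17) (nat_lit 8) (nat_lit 30) (.cons (nat_lit 97) (nat_lit 48) (nat_lit 190) (.cons (nat_lit 241) (nat_lit 120) (nat_lit 478) (.cons (nat_lit 337) (nat_lit 168) (nat_lit 670) (.cons (nat_lit 521) (nat_lit 260) (nat_lit 1038) (.cons (nat_lit 1361) (nat_lit 680) (nat_lit 2718) (.cons (nat_lit 1777) (nat_lit 888) (nat_lit 3550) (.cons (nat_lit 2521) (nat_lit 1260) (nat_lit 5038) .nil))))))))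
    (.cons (nat_lit 29) (nat_lit 14) (nat_lit 54) (.cons (nat_lit 43) (nat_lit 21) (nat_lit 82) (.cons (nat_lit 71) (nat_lit 35) (nat_lit 138) (.cons (nat_lit 113) (nat_lit 56) (nat_lit 222) (.cons (nat_lit 127) (nat_lit 63) (nat_lit 250) (.cons (nat_lit 211) (nat_lit 105) (nat_lit 418) (.cons (nat_lit 281) (nat_lit 140) (nat_lit 558) (.cons (nat_lit 421) (nat_lit 210) (nat_lit 838) (.cons (nat_lit 673) (nat_lit 336) (nat_lit 1342) (.cons (nat_lit 757) (nat_lit 378) (nat_lit 1510) (.cons (nat_lit 1009) (nat_lit 504) (nat_lit 2014) (.cons (nat_lit 2311) (nat_lit 1155) (nat_lit 4618) (.cons (nat_lit 4621) (nat_lit 2310) (nat_lit 9238) (.cons (nat_lit 4789) (nat_lit 2394) (nat_lit 9574) .nil))))))))))))))) <|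
  .cons (nat_lit 38557) (.mk
    (.cons (nat_lit 3) (nat_lit 1) (nat_lit 2) (.cons (nat_lit 7) (nat_lit 3) (nat_lit 10) (.cons (nat_lit 17) (nat_lit 8) (nat_lit 30) .nil)))
    (.cons (nat_lit 13) (nat_lit 6) (nat_lit 22) (.cons (nat_lit 1483) (nat_lit 741) (nat_lit 2962) .nil))
    .nil
    (.cons (nat_lit 5) (nat_lit 2) (nat_lit 6) .nil)
    (.cons (nat_lit 11) (nat_lit 5) (nat_lit 18) (.cons (nat_lit 31) (nat_lit 15) (nat_lit 58) (.cons (nat_lit 61) (nat_lit 30) (nat_lit 118) (.cons (nat_lit 4721) (nat_lit 2360) (nat_lit 9438) .nil))))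
    (.cons (nat_lit 19) (nat_lit 9) (nat_lit 34) (.cons (nat_lit 37) (nat_lit 18) (nat_lit 70) (.cons (nat_lit 181) (nat_lit 90) (nat_lit 358) (.cons (nat_lit 811) (nat_lit 405) (nat_lit 1618) .nil))))
    (.cons (nat_lit 41) (nat_lit 20) (nat_lit 78) (.cons (nat_lit 73) (nat_lit 36) (nat_lit 142) (.cons (nat_lit 97) (nat_lit 48) (nat_lit 190) (.cons (nat_lit 193) (nat_lit 96) (nat_lit 382) (.cons (nat_lit 241) (nat_lit 120) (nat_lit 478) (.cons (nat_lit 281) (nat_lit 140) (nat_lit 558) (.cons (nat_lit 1217) (nat_lit 608) (nat_lit 2430) (.cons (nat_lit 1657) (nat_lit 828) (nat_lit 3310) (.cons (nat_lit 1801) (nat_lit 900) (nat_lit 3598) (.cons (nat_lit 3361) (nat_lit 1680) (nat_lit 6718) (.cons (nat_lit 4177) (nat_lit 2088) (nat_lit 8350) .nil)))))))))))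
    (.cons (nat_lit 29) (nat_lit 14) (nat_lit 54) (.cons (nat_lit 43) (nat_lit 21) (nat_lit 82) (.cons (nat_lit 71) (nat_lit 35) (nat_lit 138) (.cons (nat_lit 113) (nat_lit 56) (nat_lit 222) (.cons (nat_lit 127) (nat_lit 63) (nat_lit 250) (.cons (nat_lit 211) (nat_lit 105) (nat_lit 418) (.cons (nat_lit 337) (nat_lit 168) (nat_lit 670) (.cons (nat_lit 421) (nat_lit 210) (nat_lit 838) (.cons (nat_lit 491) (nat_lit 245) (nat_lit 978) (.cons (nat_lit 631) (nat_lit 315) (nat_lit 1258) (.cons (nat_lit 673) (nat_lit 336) (nat_lit 1342) (.cons (nat_lit 757) (nat_lit 378) (nat_lit 1510) (.cons (nat_lit 1009) (nat_lit 504) (nat_lit 2014) (.cons (nat_lit 2521) (nat_lit 1260) (nat_lit 5038) .nil))))))))))))))) <|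
  .cons (nat_lit 40093) (.mk
    (.cons (nat_lit 3) (nat_lit 1) (nat_lit 2) (.cons (nat_lit 13) (nat_lit 6) (nat_lit 22) (.cons (nat_lit 257) (nat_lit 128) (nat_lit 510) .nil)))
    .nil
    (.cons (nat_lit 7) (nat_lit 3) (nat_lit 10) (.cons (nat_lit 757) (nat_lit 378) (nat_lit 1510) .nil))
    (.cons (nat_lit 5) (nat_lit 2) (nat_lit 6) (.cons (nat_lit 229) (nat_lit 114) (nat_lit 454) (.cons (nat_lit 313) (nat_lit 156) (nat_lit 622) .nil)))
    (.cons (nat_lit 11) (nat_lit 5) (nat_lit 18) (.cons (nat_lit 31) (nat_lit 15) (nat_lit 58) (.cons (nat_lit 41) (nat_lit 20) (nat_lit 78) (.cons (nat_lit 61) (nat_lit 30) (nat_lit 118) (.cons (nat_lit 241) (nat_lit 120) (nat_lit 478) (.cons (nat_lit 281) (nat_lit 140) (nat_lit 558) (.cons (nat_lit 2341) (nat_lit 1170) (nat_lit 4678) .nil)))))))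
    (.cons (nat_lit 19) (nat_lit 9) (nat_lit 34) (.cons (nat_lit 37) (nat_lit 18) (nat_lit 70) (.cons (nat_lit 73) (nat_lit 36) (nat_lit 142) (.cons (nat_lit 109) (nat_lit 54) (nat_lit 214) (.cons (nat_lit 181) (nat_lit 90) (nat_lit 358) .nil)))))
    (.cons (nat_lit 17) (nat_lit 8) (nat_lit 30) (.cons (nat_lit 97) (nat_lit 48) (nat_lit 190) (.cons (nat_lit 1201) (nat_lit 600) (nat_lit 2398) .nil)))
    (.cons (nat_lit 29) (nat_lit 14) (nat_lit 54) (.cons (nat_lit 43) (nat_lit 21) (nat_lit 82) (.cons (nat_lit 71) (nat_lit 35) (nat_lit 138) (.cons (nat_lit 113) (nat_lit 56) (nat_lit 222) (.cons (nat_lit 127) (nat_lit 63) (nat_lit 250) (.cons (nat_lit 211) (nat_lit 105) (nat_lit 418) (.cons (nat_lit 337) (nat_lit 168) (nat_lit 670) (.cons (nat_lit 421) (nat_lit 210) (nat_lit 838) (.cons (nat_lit 631) (nat_lit 315) (nat_lit 1258) (.cons (nat_lit 1009) (nat_lit 504) (nat_lit 2014) (.cons (nat_lit 1051) (nat_lit 525)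 (nat_lit 2098) (.cons (nat_lit 2017) (nat_lit 1008) (nat_lit 4030) (.cons (nat_lit 2269) (nat_lit 1134) (nat_lit 4534) (.cons (nat_lit 2521) (nat_lit 1260) (nat_lit 5038) (.cons (nat_lit 2689) (nat_lit 1344) (nat_lit 5374) (.cons (nat_lit 3361) (nat_lit 1680) (nat_lit 6718) (.cons (nat_lit 4201) (nat_lit 2100) (nat_lit 8398) .nil)))))))))))))))))) <|
  .cons (nat_lit 41141) (.mk
    (.cons (nat_lit 5) (nat_lit 2) (nat_lit 6) (.cons (nat_lit 11) (nat_lit 5) (nat_lit 18) (.cons (nat_lit 17) (nat_lit 8) (nat_lit 30) .nil)))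
    (.cons (nat_lit 3) (nat_lit 1) (nat_lit 2) .nil)
    (.cons (nat_lit 7) (nat_lit 3) (nat_lit 10) (.cons (nat_lit 13) (nat_lit 6) (nat_lit 22) (.cons (nat_lit 487) (nat_lit 243) (nat_lit 970) .nil)))
    (.cons (nat_lit 1201) (nat_lit 600) (nat_lit 2398) (.cons (nat_lit 2437) (nat_lit 1218) (nat_lit 4870) (.cons (nat_lit 2549) (nat_lit 1274) (nat_lit 5094) .nil)))
    (.cons (nat_lit 31) (nat_lit 15) (nat_lit 58) (.cons (nat_lit 41) (nat_lit 20) (nat_lit 78) (.cons (nat_lit 61) (nat_lit 30) (nat_lit 118) .nil)))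
    (.cons (nat_lit 19) (nat_lit 9) (nat_lit 34) (.cons (nat_lit 37) (nat_lit 18) (nat_lit 70) (.cons (nat_lit 181) (nat_lit 90) (nat_lit 358) .nil)))
    (.cons (nat_lit 73) (nat_lit 36) (nat_lit 142) (.cons (nat_lit 137) (nat_lit 68) (nat_lit 270) (.cons (nat_lit 241) (nat_lit 120) (nat_lit 478) (.cons (nat_lit 401) (nat_lit 200) (nat_lit 798) (.cons (nat_lit 601) (nat_lit 300) (nat_lit 1198) (.cons (nat_lit 2521) (nat_lit 1260) (nat_lit 5038) (.cons (nat_lit 4801) (nat_lit 2400) (nat_lit 9598) .nil)))))))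
    (.cons (nat_lit 29) (nat_lit 14) (nat_lit 54) (.cons (nat_lit 43) (nat_lit 21) (nat_lit 82) (.cons (nat_lit 71) (nat_lit 35) (nat_lit 138) (.cons (nat_lit 113) (nat_lit 56) (nat_lit 222) (.cons (nat_lit 127) (nat_lit 63) (nat_lit 250) (.cons (nat_lit 211) (nat_lit 105) (nat_lit 418) (.cons (nat_lit 281) (nat_lit 140) (nat_lit 558) (.cons (nat_lit 337) (nat_lit 168) (nat_lit 670) (.cons (nat_lit 421) (nat_lit 210) (nat_lit 838) (.cons (nat_lit 631) (nat_lit 315) (nat_lit 1258) (.cons (nat_lit 1009) (nat_lit 504) (nat_lit 2014) (.cons (nat_lit 3319) (nat_lit 1659) (nat_lit 6634) (.cons (nat_lit 3361) (nat_lit 1680) (nat_lit 6718) (.cons (nat_lit 4229) (nat_lit 2114) (nat_lit 8454) (.cons (nat_lit 4817) (nat_lit 2408) (nat_lit 9630) .nil)))))))))))))))) <|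
  .cons (nat_lit 41627) (.mk
    (.cons (nat_lit 13) (nat_lit 6) (nat_lit 22) (.cons (nat_lit 1601) (nat_lit 800) (nat_lit 3198) .nil))
    (.cons (nat_lit 3) (nat_lit 1) (nat_lit 2) (.cons (nat_lit 3469) (nat_lit 1734) (nat_lit 6934) .nil))
    (.cons (nat_lit 7) (nat_lit 3) (nat_lit 10) (.cons (nat_lit 31) (nat_lit 15) (nat_lit 58) (.cons (nat_lit 487) (nat_lit 243) (nat_lit 970) .nil)))
    (.cons (nat_lit 5) (nat_lit 2) (nat_lit 6) (.cons (nat_lit 29) (nat_lit 14) (nat_lit 54) (.cons (nat_lit 157) (nat_lit 78) (nat_lit 310) .nil)))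
    (.cons (nat_lit 11) (nat_lit 5) (nat_lit 18) (.cons (nat_lit 61) (nat_lit 30) (nat_lit 118) (.cons (nat_lit 1051) (nat_lit 525) (nat_lit 2098) (.cons (nat_lit 3371) (nat_lit 1685) (nat_lit 6738) .nil))))
    (.cons (nat_lit 19) (nat_lit 9) (nat_lit 34) (.cons (nat_lit 37) (nat_lit 18) (nat_lit 70) (.cons (nat_lit 181) (nat_lit 90) (nat_lit 358) (.cons (nat_lit 1801) (nat_lit 900) (nat_lit 3598) .nil))))
    (.cons (nat_lit 17) (nat_lit 8) (nat_lit 30) (.cons (nat_lit 41) (nat_lit 20) (nat_lit 78) (.cons (nat_lit 73) (nat_lit 36) (nat_lit 142) (.cons (nat_lit 241) (nat_lit 120) (nat_lit 478) (.cons (nat_lit 2161) (nat_lit 1080) (nat_lit 4318) (.cons (nat_lit 3001) (nat_lit 1500) (nat_lit 5998) (.cons (nat_lit 3889) (nat_lit 1944) (nat_lit 7774) (.cons (nat_lit 4241) (nat_lit 2120) (nat_lit 8478) (.cons (nat_lit 4801) (nat_lit 2400) (nat_lit 9598) .nil)))))))))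
    (.cons (nat_lit 43) (nat_lit 21) (nat_lit 82) (.cons (nat_lit 71) (nat_lit 35) (nat_lit 138) (.cons (nat_lit 113) (nat_lit 56) (nat_lit 222) (.cons (nat_lit 127) (nat_lit 63) (nat_lit 250) (.cons (nat_lit 211) (nat_lit 105) (nat_lit 418) (.cons (nat_lit 281) (nat_lit 140) (nat_lit 558) (.cons (nat_lit 337) (nat_lit 168) (nat_lit 670) (.cons (nat_lit 379) (nat_lit 189) (nat_lit 754) (.cons (nat_lit 421) (nat_lit 210) (nat_lit 838) (.cons (nat_lit 631) (nat_lit 315) (nat_lit 1258) (.cons (nat_lit 757) (nat_lit 378) (nat_lit 1510) (.cons (nat_lit 1009) (nat_lit 504) (nat_lit 2014) (.cons (nat_lit 2381) (nat_lit 1190) (nat_lit 4758) (.cons (nat_lit 2521) (nat_lit 1260) (nat_lit 5038) .nil))))))))))))))) <|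
  .cons (nat_lit 42433) (.mk
    (.cons (nat_lit 3) (nat_lit 1) (nat_lit 2) (.cons (nat_lit 13) (nat_lit 6) (nat_lit 22) (.cons (nat_lit 17) (nat_lit 8) (nat_lit 30) .nil)))
    (.cons (nat_lit 7) (nat_lit 3) (nat_lit 10) (.cons (nat_lit 433) (nat_lit 216) (nat_lit 862) .nil))
    (.cons (nat_lit 31) (nat_lit 15) (nat_lit 58) (.cons (nat_lit 373) (nat_lit 186) (nat_lit 742) (.cons (nat_lit 3541) (nat_lit 1770) (nat_lit 7078) .nil)))
    (.cons (nat_lit 5) (nat_lit 2) (nat_lit 6) (.cons (nat_lit 37) (nat_lit 18) (nat_lit 70) (.cons (nat_lit 137) (nat_lit 68) (nat_lit 270) .nil)))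
    (.cons (nat_lit 11) (nat_lit 5) (nat_lit 18) (.cons (nat_lit 41) (nat_lit 20) (nat_lit 78) (.cons (nat_lit 61) (nat_lit 30) (nat_lit 118) (.cons (nat_lit 71) (nat_lit 35) (nat_lit 138) (.cons (nat_lit 151) (nat_lit 75) (nat_lit 298) .nil)))))
    (.cons (nat_lit 19) (nat_lit 9) (nat_lit 34) (.cons (nat_lit 109) (nat_lit 54) (nat_lit 214) (.cons (nat_lit 163) (nat_lit 81) (nat_lit 322) (.cons (nat_lit 181) (nat_lit 90) (nat_lit 358) .nil))))
    (.cons (nat_lit 73) (nat_lit 36) (nat_lit 142) (.cons (nat_lit 97) (nat_lit 48) (nat_lit 190) (.cons (nat_lit 193) (nat_lit 96) (nat_lit 382) (.cons (nat_lit 241) (nat_lit 120) (nat_lit 478) .nil))))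
    (.cons (nat_lit 29) (nat_lit 14) (nat_lit 54) (.cons (nat_lit 43) (nat_lit 21) (nat_lit 82) (.cons (nat_lit 113) (nat_lit 56) (nat_lit 222) (.cons (nat_lit 127) (nat_lit 63) (nat_lit 250) (.cons (nat_lit 211) (nat_lit 105) (nat_lit 418) (.cons (nat_lit 281) (nat_lit 140) (nat_lit 558) (.cons (nat_lit 337) (nat_lit 168) (nat_lit 670) (.cons (nat_lit 421) (nat_lit 210) (nat_lit 838) (.cons (nat_lit 463) (nat_lit 231) (nat_lit 922) (.cons (nat_lit 631) (nat_lit 315) (nat_lit 1258) (.cons (nat_lit 701) (nat_lit 350) (nat_lit 1398) (.cons (nat_lit 1009) (nat_lit 504) (nat_lit 2014) (.cons (nat_lit 2521) (nat_lit 1260) (nat_lit 5038) (.cons (nat_lit 3361) (nat_lit 1680) (nat_lit 6718) (.cons (nat_lit 3557) (nat_lit 1778) (nat_lit 7110) (.cons (nat_lit 4201) (nat_lit 2100) (nat_lit 8398) .nil))))))))))))))))) <|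
  .cons (nat_lit 42793) (.mk
    (.cons (nat_lit 3) (nat_lit 1) (nat_lit 2) (.cons (nat_lit 1783) (nat_lit 891) (nat_lit 3562) .nil))
    .nil
    (.cons (nat_lit 7) (nat_lit 3) (nat_lit 10) (.cons (nat_lit 13) (nat_lit 6) (nat_lit 22) .nil))
    (.cons (nat_lit 5) (nat_lit 2) (nat_lit 6) (.cons (nat_lit 17) (nat_lit 8) (nat_lit 30) (.cons (nat_lit 61) (nat_lit 30) (nat_lit 118) (.cons (nat_lit 97) (nat_lit 48) (nat_lit 190) (.cons (nat_lit 641) (nat_lit 320) (nat_lit 1278) (.cons (nat_lit 3361) (nat_lit 1680) (nat_lit 6718) .nil))))))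
    (.cons (nat_lit 11) (nat_lit 5) (nat_lit 18) (.cons (nat_lit 31) (nat_lit 15) (nat_lit 58) (.cons (nat_lit 2161) (nat_lit 1080) (nat_lit 4318) .nil)))
    (.cons (nat_lit 19) (nat_lit 9) (nat_lit 34) (.cons (nat_lit 37) (nat_lit 18) (nat_lit 70) (.cons (nat_lit 181) (nat_lit 90) (nat_lit 358) (.cons (nat_lit 433) (nat_lit 216) (nat_lit 862) (.cons (nat_lit 1873) (nat_lit 936) (nat_lit 3742) .nil)))))
    (.cons (nat_lit 41) (nat_lit 20) (nat_lit 78) (.cons (nat_lit 73) (nat_lit 36) (nat_lit 142) (.cons (nat_lit 241) (nat_lit 120) (nat_lit 478) (.cons (nat_lit 401) (nat_lit 200) (nat_lit 798) (.cons (nat_lit 1721) (nat_lit 860) (nat_lit 3438) (.cons (nat_lit 1801) (nat_lit 900) (nat_lit 3598) (.cons (nat_lit 2833) (nat_lit 1416) (nat_lit 5662) (.cons (nat_lit 5009) (nat_lit 2504) (nat_lit 10014) .nil))))))))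
    (.cons (nat_lit 29) (nat_lit 14) (nat_lit 54) (.cons (nat_lit 43) (nat_lit 21) (nat_lit 82) (.cons (nat_lit 71) (nat_lit 35) (nat_lit 138) (.cons (nat_lit 113) (nat_lit 56) (nat_lit 222) (.cons (nat_lit 127) (nat_lit 63) (nat_lit 250) (.cons (nat_lit 211) (nat_lit 105) (nat_lit 418) (.cons (nat_lit 281) (nat_lit 140) (nat_lit 558) (.cons (nat_lit 337) (nat_lit 168) (nat_lit 670) (.cons (nat_lit 421) (nat_lit 210) (nat_lit 838) (.cons (nat_lit 631) (nat_lit 315) (nat_lit 1258) (.cons (nat_lit 701) (nat_lit 350) (nat_lit 1398) (.cons (nat_lit 757) (nat_lit 378) (nat_lit 1510) (.cons (nat_lit 1009) (nat_lit 504) (nat_lit 2014) (.cons (nat_lit 1471) (nat_lit 735) (nat_lit 2938) (.cons (nat_lit 1583) (nat_lit 791) (nat_lit 3162) (.cons (nat_lit 2521) (nat_lit 1260) (nat_lit 5038) (.cons (nat_lit 2801) (nat_lit 1400) (nat_lit 5598) (.cons (nat_lit 4621) (nat_lit 2310) (nat_lit 9238) (.cons (nat_lit 4789) (nat_lit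 2394) (nat_lit 9574) .nil)))))))))))))))))))) <|
  .cons (nat_lit 43991) (.mk
    (.cons (nat_lit 5) (nat_lit 2) (nat_lit 6) (.cons (nat_lit 53) (nat_lit 26) (nat_lit 102) (.cons (nat_lit 83) (nat_lit 41) (nat_lit 162) .nil)))
    (.cons (nat_lit 3) (nat_lit 1) (nat_lit 2) (.cons (nat_lit 13) (nat_lit 6) (nat_lit 22) (.cons (nat_lit 47) (nat_lit 23) (nat_lit 90) .nil)))
    (.cons (nat_lit 7) (nat_lit 3) (nat_lit 10) (.cons (nat_lit 109) (nat_lit 54) (nat_lit 214) (.cons (nat_lit 331) (nat_lit 165) (nat_lit 658) (.cons (nat_lit 661) (nat_lit 330) (nat_lit 1318) (.cons (nat_lit 1279) (nat_lit 639) (nat_lit 2554) .nil)))))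
    .nil
    (.cons (nat_lit 11) (nat_lit 5) (nat_lit 18) (.cons (nat_lit 31) (nat_lit 15) (nat_lit 58) (.cons (nat_lit 41) (nat_lit 20) (nat_lit 78) (.cons (nat_lit 61) (nat_lit 30) (nat_lit 118) (.cons (nat_lit 181) (nat_lit 90) (nat_lit 358) (.cons (nat_lit 1381) (nat_lit 690) (nat_lit 2758) (.cons (nat_lit 2251) (nat_lit 1125) (nat_lit 4498) .nil)))))))
    (.cons (nat_lit 19) (nat_lit 9) (nat_lit 34) (.cons (nat_lit 37) (nat_lit 18) (nat_lit 70) .nil))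
    (.cons (nat_lit 17) (nat_lit 8) (nat_lit 30) (.cons (nat_lit 73) (nat_lit 36) (nat_lit 142) (.cons (nat_lit 97) (nat_lit 48) (nat_lit 190) (.cons (nat_lit 241) (nat_lit 120) (nat_lit 478) (.cons (nat_lit 337) (nat_lit 168) (nat_lit 670) (.cons (nat_lit 401) (nat_lit 200) (nat_lit 798) (.cons (nat_lit 2969) (nat_lit 1484) (nat_lit 5934) .nil)))))))
    (.cons (nat_lit 29) (nat_lit 14) (nat_lit 54) (.cons (nat_lit 43) (nat_lit 21) (nat_lit 82) (.cons (nat_lit 71) (nat_lit 35) (nat_lit 138) (.cons (nat_lit 113) (nat_lit 56) (nat_lit 222) (.cons (nat_lit 127) (nat_lit 63) (nat_lit 250) (.cons (nat_lit 211) (nat_lit 105) (nat_lit 418) (.cons (nat_lit 281) (nat_lit 140) (nat_lit 558) (.cons (nat_lit 379) (nat_lit 189) (nat_lit 754) (.cons (nat_lit 421) (nat_lit 210) (nat_lit 838) (.cons (nat_lit 449) (nat_lit 224) (nat_lit 894) (.cons (nat_lit 631) (nat_lit 315) (nat_lit 1258) (.cons (nat_lit 701) (nat_lit 350)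 (nat_lit 1398) (.cons (nat_lit 757) (nat_lit 378) (nat_lit 1510) (.cons (nat_lit 911) (nat_lit 455) (nat_lit 1818) (.cons (nat_lit 1009) (nat_lit 504) (nat_lit 2014) (.cons (nat_lit 2017) (nat_lit 1008) (nat_lit 4030) (.cons (nat_lit 2521) (nat_lit 1260) (nat_lit 5038) (.cons (nat_lit 2549) (nat_lit 1274) (nat_lit 5094) (.cons (nat_lit 2801) (nat_lit 1400) (nat_lit 5598) (.cons (nat_lit 4201) (nat_lit 2100) (nat_lit 8398) .nil))))))))))))))))))))) <|
  .nil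

set_option maxRecDepth 100000 in
theorem pb1 : badck 5041 PB1 = true := by decide +kernel

/-- the primes -/
def LB1 : List ℕ := [22973, 23053, 24337, 24971, 25373, 25391, 27737, 28057, 28393, 28867, 29483, 30187, 31583, 31847, 32507, 32771, 32843, 33347, 33827, 35803, 37243, 37987, 38333, 38557, 40093, 41141, 41627, 42433, 42793, 43991]

lemma lb1 : PB1.ps = LB1 := by decide +kernel

end OEX.K
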