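import Pool.Agent.OEX.KLst

/-!
Primes which need longer lists.
-/

namespace OEX.K

/-- the primes and their lists -/
def PB2 : PL :=
  .cons (nat_lit 44633) (.mk
    (.cons (nat_lit 7) (nat_lit 3) (nat_lit 10) (.cons (nat_lit 797) (nat_lit 398) (nat_lit 1590) .nil))
    (.cons (nat_lit 3) (nat_lit 1) (nat_lit 2) (.cons (nat_lit 43) (nat_lit 21) (nat_lit 82) (.cons (nat_lit 173) (nat_lit 86) (nat_lit 342) .nil)))
    (.cons (nat_lit 13) (nat_lit 6) (nat_lit 22) (.cons (nat_lit 37) (nat_lit 18) (nat_lit 70) .nil))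
    (.cons (nat_lit 5) (nat_lit 2) (nat_lit 6) .nil)
    (.cons (nat_lit 11) (nat_lit 5) (nat_lit 18) (.cons (nat_lit 31) (nat_lit 15) (nat_lit 58) (.cons (nat_lit 41) (nat_lit 20) (nat_lit 78) (.cons (nat_lit 61) (nat_lit 30) (nat_lit 118) (.cons (nat_lit 181) (nat_lit 90) (nat_lit 358) (.cons (nat_lit 3001) (nat_lit 1500) (nat_lit 5998) .nil))))))
    (.cons (nat_lit 19) (nat_lit 9) (nat_lit 34) .nil)
    (.cons (nat_lit 17) (nat_lit 8) (nat_lit 30) (.cons (nat_lit 73) (nat_lit 36) (nat_lit 142) (.cons (nat_lit 193) (nat_lit 96) (nat_lit 382) (.cons (nat_lit 241) (nat_lit 120) (nat_lit 478) (.cons (nat_lit 881) (nat_lit 440) (nat_lit 1758) (.cons (nat_lit 3889) (nat_lit 1944) (nat_lit 7774) .nil))))))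
    (.cons (nat_lit 29) (nat_lit 14) (nat_lit 54) (.cons (nat_lit 71) (nat_lit 35) (nat_lit 138) (.cons (nat_lit 113) (nat_lit 56) (nat_lit 222) (.cons (nat_lit 127) (nat_lit 63) (nat_lit 250) (.cons (nat_lit 211) (nat_lit 105) (nat_lit 418) (.cons (nat_lit 281) (nat_lit 140) (nat_lit 558) (.cons (nat_lit 337) (nat_lit 168) (nat_lit 670) (.cons (nat_lit 421) (nat_lit 210) (nat_lit 838) (.cons (nat_lit 617) (nat_lit 308) (nat_lit 1230) (.cons (nat_lit 631) (nat_lit 315) (nat_lit 1258) (.cons (nat_lit 673) (nat_lit 336) (nat_lit 1342) (.cons (nat_lit 967) (nat_lit 483) (nat_lit 1930) (.cons (nat_lit 1009) (nat_lit 504) (nat_lit 2014) (.cons (nat_lit 1051) (nat_lit 525) (nat_lit 2098) (.cons (nat_lit 2269) (nat_lit 1134) (nat_lit 4534) (.cons (nat_lit 2521) (nat_lit 1260) (nat_lit 5038) (.cons (nat_lit 2647) (nat_lit 1323) (nat_lit 5290) (.cons (nat_lit 3361) (nat_lit 1680) (nat_lit 6718) .nil)))))))))))))))))))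 <|
  .cons (nat_lit 44983) (.mk
    (.cons (nat_lit 3) (nat_lit 1) (nat_lit 2) (.cons (nat_lit 7) (nat_lit 3) (nat_lit 10) (.cons (nat_lit 17) (nat_lit 8) (nat_lit 30) .nil)))
    .nil
    (.cons (nat_lit 13) (nat_lit 6) (nat_lit 22) .nil)
    (.cons (nat_lit 5) (nat_lit 2) (nat_lit 6) (.cons (nat_lit 1453) (nat_lit 726) (nat_lit 2902) .nil))
    (.cons (nat_lit 11) (nat_lit 5) (nat_lit 18) (.cons (nat_lit 31) (nat_lit 15) (nat_lit 58) (.cons (nat_lit 61) (nat_lit 30) (nat_lit 118) (.cons (nat_lit 181) (nat_lit 90) (nat_lit 358) (.cons (nat_lit 271) (nat_lit 135) (nat_lit 538) (.cons (nat_lit 941) (nat_lit 470) (nat_lit 1878) .nil))))))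
    (.cons (nat_lit 19) (nat_lit 9) (nat_lit 34) (.cons (nat_lit 37) (nat_lit 18) (nat_lit 70) (.cons (nat_lit 109) (nat_lit 54) (nat_lit 214) (.cons (nat_lit 4591) (nat_lit 2295) (nat_lit 9178) .nil))))
    (.cons (nat_lit 41) (nat_lit 20) (nat_lit 78) (.cons (nat_lit 73) (nat_lit 36) (nat_lit 142) (.cons (nat_lit 97) (nat_lit 48) (nat_lit 190) (.cons (nat_lit 241) (nat_lit 120) (nat_lit 478) (.cons (nat_lit 257) (nat_lit 128) (nat_lit 510) (.cons (nat_lit 409) (nat_lit 204) (nat_lit 814) (.cons (nat_lit 1153) (nat_lit 576) (nat_lit 2302) (.cons (nat_lit 2161) (nat_lit 1080) (nat_lit 4318) (.cons (nat_lit 3793) (nat_lit 1896) (nat_lit 7582) (.cons (nat_lit 4177) (nat_lit 2088) (nat_lit 8350) (.cons (nat_lit 4561) (nat_lit 2280) (nat_lit 9118) .nil)))))))))))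
    (.cons (nat_lit 29) (nat_lit 14) (nat_lit 54) (.cons (nat_lit 43) (nat_lit 21) (nat_lit 82) (.cons (nat_lit 71) (nat_lit 35) (nat_lit 138) (.cons (nat_lit 113) (nat_lit 56) (nat_lit 222) (.cons (nat_lit 127) (nat_lit 63) (nat_lit 250) (.cons (nat_lit 211) (nat_lit 105) (nat_lit 418) (.cons (nat_lit 281) (nat_lit 140) (nat_lit 558) (.cons (nat_lit 337) (nat_lit 168) (nat_lit 670) (.cons (nat_lit 421) (nat_lit 210) (nat_lit 838) (.cons (nat_lit 631) (nat_lit 315) (nat_lit 1258) (.cons (nat_lit 673) (nat_lit 336) (nat_lit 1342) (.cons (nat_lit 1009) (nat_lit 504) (nat_lit 2014) (.cons (nat_lit 2017) (nat_lit 1008) (nat_lit 4030) (.cons (nat_lit 2521) (nat_lit 1260) (nat_lit 5038) (.cons (nat_lit 2857) (nat_lit 1428) (nat_lit 5710) (.cons (nat_lit 3109) (nat_lit 1554) (nat_lit 6214) (.cons (nat_lit 3697) (nat_lit 1848) (nat_lit 7390) (.cons (nat_lit 4663) (nat_lit 2331) (nat_lit 9322) .nil))))))))))))))))))) <|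
  .cons (nat_lit 46307) (.mk
    (.cons (nat_lit 13) (nat_lit 6) (nat_lit 22) (.cons (nat_lit 137) (nat_lit 68) (nat_lit 270) .nil))
    (.cons (nat_lit 3) (nat_lit 1) (nat_lit 2) (.cons (nat_lit 17) (nat_lit 8) (nat_lit 30) (.cons (nat_lit 227) (nat_lit 113) (nat_lit 450) .nil)))
    (.cons (nat_lit 7) (nat_lit 3) (nat_lit 10) (.cons (nat_lit 1249) (nat_lit 624) (nat_lit 2494) .nil))
    (.cons (nat_lit 5) (nat_lit 2) (nat_lit 6) .nil)
    (.cons (nat_lit 11) (nat_lit 5) (nat_lit 18) (.cons (nat_lit 31) (nat_lit 15) (nat_lit 58) (.cons (nat_lit 41) (nat_lit 20) (nat_lit 78) (.cons (nat_lit 61) (nat_lit 30) (nat_lit 118) (.cons (nat_lit 181) (nat_lit 90) (nat_lit 358) (.cons (nat_lit 1021) (nat_lit 510) (nat_lit 2038) (.cons (nat_lit 1511) (nat_lit 755) (nat_lit 3018) .nil)))))))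
    (.cons (nat_lit 19) (nat_lit 9) (nat_lit 34) (.cons (nat_lit 37) (nat_lit 18) (nat_lit 70) (.cons (nat_lit 73) (nat_lit 36) (nat_lit 142) (.cons (nat_lit 271) (nat_lit 135) (nat_lit 538) (.cons (nat_lit 541) (nat_lit 270) (nat_lit 1078) (.cons (nat_lit 991) (nat_lit 495) (nat_lit 1978) (.cons (nat_lit 1621) (nat_lit 810) (nat_lit 3238) (.cons (nat_lit 2017) (nat_lit 1008) (nat_lit 4030) (.cons (nat_lit 2143) (nat_lit 1071) (nat_lit 4282) (.cons (nat_lit 3313) (nat_lit 1656) (nat_lit 6622) .nil))))))))))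
    (.cons (nat_lit 241) (nat_lit 120) (nat_lit 478) (.cons (nat_lit 337) (nat_lit 168) (nat_lit 670) (.cons (nat_lit 1601) (nat_lit 800) (nat_lit 3198) (.cons (nat_lit 2153) (nat_lit 1076) (nat_lit 4302) (.cons (nat_lit 3121) (nat_lit 1560) (nat_lit 6238) .nil)))))
    (.cons (nat_lit 29) (nat_lit 14) (nat_lit 54) (.cons (nat_lit 43) (nat_lit 21) (nat_lit 82) (.cons (nat_lit 71) (nat_lit 35) (nat_lit 138) (.cons (nat_lit 113) (nat_lit 56) (nat_lit 222) (.cons (nat_lit 127) (nat_lit 63) (nat_lit 250) (.cons (nat_lit 211) (nat_lit 105) (nat_lit 418) (.cons (nat_lit 281) (nat_lit 140) (nat_lit 558) (.cons (nat_lit 421) (nat_lit 210) (nat_lit 838) (.cons (nat_lit 491) (nat_lit 245) (nat_lit 978) (.cons (nat_lit 631) (nat_lit 315) (nat_lit 1258) (.cons (nat_lit 1009) (nat_lit 504) (nat_lit 2014) (.cons (nat_lit 1471) (nat_lit 735) (nat_lit 2938) (.cons (nat_lit 2129) (nat_lit 1064) (nat_lit 4254) (.cons (nat_lit 2269)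 (nat_lit 1134) (nat_lit 4534) (.cons (nat_lit 2521) (nat_lit 1260) (nat_lit 5038) (.cons (nat_lit 2689) (nat_lit 1344) (nat_lit 5374) (.cons (nat_lit 2731) (nat_lit 1365) (nat_lit 5458) (.cons (nat_lit 2857) (nat_lit 1428) (nat_lit 5710) (.cons (nat_lit 3361) (nat_lit 1680) (nat_lit 6718) (.cons (nat_lit 4201) (nat_lit 2100) (nat_lit 8398) .nil))))))))))))))))))))) <|
  .cons (nat_lit 46867) (.mk
    (.cons (nat_lit 3) (nat_lit 1) (nat_lit 2) (.cons (nat_lit 73) (nat_lit 36) (nat_lit 142) (.cons (nat_lit 107) (nat_lit 53) (nat_lit 210) .nil)))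
    .nil
    (.cons (nat_lit 7) (nat_lit 3) (nat_lit 10) (.cons (nat_lit 31) (nat_lit 15) (nat_lit 58) (.cons (nat_lit 3631) (nat_lit 1815) (nat_lit 7258) .nil)))
    (.cons (nat_lit 5) (nat_lit 2) (nat_lit 6) (.cons (nat_lit 13) (nat_lit 6) (nat_lit 22) (.cons (nat_lit 97) (nat_lit 48) (nat_lit 190) (.cons (nat_lit 653) (nat_lit 326) (nat_lit 1302) .nil))))
    (.cons (nat_lit 11) (nat_lit 5) (nat_lit 18) (.cons (nat_lit 41) (nat_lit 20) (nat_lit 78) (.cons (nat_lit 61) (nat_lit 30) (nat_lit 118) (.cons (nat_lit 2281) (nat_lit 1140) (nat_lit 4558) .nil))))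
    (.cons (nat_lit 19) (nat_lit 9) (nat_lit 34) (.cons (nat_lit 37) (nat_lit 18) (nat_lit 70) (.cons (nat_lit 181) (nat_lit 90) (nat_lit 358) (.cons (nat_lit 1531) (nat_lit 765) (nat_lit 3058) (.cons (nat_lit 2341) (nat_lit 1170) (nat_lit 4678) (.cons (nat_lit 2467) (nat_lit 1233) (nat_lit 4930) .nil))))))
    (.cons (nat_lit 17) (nat_lit 8) (nat_lit 30) (.cons (nat_lit 241) (nat_lit 120) (nat_lit 478) (.cons (nat_lit 281) (nat_lit 140) (nat_lit 558) (.cons (nat_lit 433) (nat_lit 216) (nat_lit 862) (.cons (nat_lit 577) (nat_lit 288) (nat_lit 1150) (.cons (nat_lit 3361) (nat_lit 1680) (nat_lit 6718) .nil))))))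
    (.cons (nat_lit 29) (nat_lit 14) (nat_lit 54) (.cons (nat_lit 43) (nat_lit 21) (nat_lit 82) (.cons (nat_lit 71) (nat_lit 35) (nat_lit 138) (.cons (nat_lit 113) (nat_lit 56) (nat_lit 222) (.cons (nat_lit 127) (nat_lit 63) (nat_lit 250) (.cons (nat_lit 197) (nat_lit 98) (nat_lit 390) (.cons (nat_lit 211) (nat_lit 105) (nat_lit 418) (.cons (nat_lit 337) (nat_lit 168) (nat_lit 670) (.cons (nat_lit 421) (nat_lit 210) (nat_lit 838) (.cons (nat_lit 631) (nat_lit 315) (nat_lit 1258) (.cons (nat_lit 673) (nat_lit 336) (nat_lit 1342) (.cons (nat_lit 1009) (nat_lit 504) (nat_lit 2014) (.cons (nat_lit 2521) (nat_lit 1260) (nat_lit 5038) .nil)))))))))))))) <|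
  .cons (nat_lit 47807) (.mk
    (.cons (nat_lit 11) (nat_lit 5) (nat_lit 18) (.cons (nat_lit 41) (nat_lit 20) (nat_lit 78) (.cons (nat_lit 53) (nat_lit 26) (nat_lit 102) .nil)))
    (.cons (nat_lit 3) (nat_lit 1) (nat_lit 2) (.cons (nat_lit 83) (nat_lit 41) (nat_lit 162) .nil))
    (.cons (nat_lit 7) (nat_lit 3) (nat_lit 10) (.cons (nat_lit 31) (nat_lit 15) (nat_lit 58) (.cons (nat_lit 73) (nat_lit 36) (nat_lit 142) (.cons (nat_lit 1459) (nat_lit 729) (nat_lit 2914) .nil))))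
    (.cons (nat_lit 5) (nat_lit 2) (nat_lit 6) (.cons (nat_lit 13) (nat_lit 6) (nat_lit 22) .nil))
    (.cons (nat_lit 61) (nat_lit 30) (nat_lit 118) (.cons (nat_lit 521) (nat_lit 260) (nat_lit 1038) .nil))
    (.cons (nat_lit 19) (nat_lit 9) (nat_lit 34) (.cons (nat_lit 37) (nat_lit 18) (nat_lit 70) (.cons (nat_lit 181) (nat_lit 90) (nat_lit 358) (.cons (nat_lit 433) (nat_lit 216) (nat_lit 862) (.cons (nat_lit 1153) (nat_lit 576) (nat_lit 2302) (.cons (nat_lit 4951) (nat_lit 2475) (nat_lit 9898) .nil))))))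
    (.cons (nat_lit 17) (nat_lit 8) (nat_lit 30) (.cons (nat_lit 241) (nat_lit 120) (nat_lit 478) (.cons (nat_lit 601) (nat_lit 300) (nat_lit 1198) (.cons (nat_lit 2161) (nat_lit 1080) (nat_lit 4318) .nil))))
    (.cons (nat_lit 29) (nat_lit 14) (nat_lit 54) (.cons (nat_lit 43) (nat_lit 21) (nat_lit 82) (.cons (nat_lit 71) (nat_lit 35) (nat_lit 138) (.cons (nat_lit 113) (nat_lit 56) (nat_lit 222) (.cons (nat_lit 127) (nat_lit 63) (nat_lit 250) (.cons (nat_lit 211) (nat_lit 105) (nat_lit 418) (.cons (nat_lit 281) (nat_lit 140) (nat_lit 558) (.cons (nat_lit 337) (nat_lit 168) (nat_lit 670) (.cons (nat_lit 421) (nat_lit 210) (nat_lit 838) (.cons (nat_lit 463) (nat_lit 231) (nat_lit 922) (.cons (nat_lit 631) (nat_lit 315) (nat_lit 1258) (.cons (nat_lit 673) (nat_lit 336) (nat_lit 1342) (.cons (nat_lit 883) (nat_lit 441) (nat_lit 1762) (.cons (nat_lit 911) (nat_lit 455) (nat_lit 1818) (.cons (nat_lit 1009) (nat_lit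 504) (nat_lit 2014) (.cons (nat_lit 2521) (nat_lit 1260) (nat_lit 5038) (.cons (nat_lit 2801) (nat_lit 1400) (nat_lit 5598) (.cons (nat_lit 3557) (nat_lit 1778) (nat_lit 7110) .nil))))))))))))))))))) <|
  .cons (nat_lit 49871) (.mk
    (.cons (nat_lit 5) (nat_lit 2) (nat_lit 6) (.cons (nat_lit 4987) (nat_lit 2493) (nat_lit 9970) .nil))
    (.cons (nat_lit 3) (nat_lit 1) (nat_lit 2) (.cons (nat_lit 1039) (nat_lit 519) (nat_lit 2074) .nil))
    (.cons (nat_lit 7) (nat_lit 3) (nat_lit 10) (.cons (nat_lit 13) (nat_lit 6) (nat_lit 22) (.cons (nat_lit 241) (nat_lit 120) (nat_lit 478) (.cons (nat_lit 661) (nat_lit 330) (nat_lit 1318) (.cons (nat_lit 1201) (nat_lit 600) (nat_lit 2398) .nil)))))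
    (.cons (nat_lit 149) (nat_lit 74) (nat_lit 294) .nil)
    (.cons (nat_lit 11) (nat_lit 5) (nat_lit 18) (.cons (nat_lit 31) (nat_lit 15) (nat_lit 58) (.cons (nat_lit 61) (nat_lit 30) (nat_lit 118) (.cons (nat_lit 4591) (nat_lit 2295) (nat_lit 9178) .nil))))
    (.cons (nat_lit 19) (nat_lit 9) (nat_lit 34) (.cons (nat_lit 37) (nat_lit 18) (nat_lit 70) (.cons (nat_lit 73) (nat_lit 36) (nat_lit 142) (.cons (nat_lit 181) (nat_lit 90) (nat_lit 358) (.cons (nat_lit 631) (nat_lit 315) (nat_lit 1258) (.cons (nat_lit 739) (nat_lit 369) (nat_lit 1474) (.cons (nat_lit 1531) (nat_lit 765) (nat_lit 3058) (.cons (nat_lit 2251) (nat_lit 1125) (nat_lit 4498) .nil))))))))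
    (.cons (nat_lit 17) (nat_lit 8) (nat_lit 30) (.cons (nat_lit 41) (nat_lit 20) (nat_lit 78) (.cons (nat_lit 401) (nat_lit 200) (nat_lit 798) (.cons (nat_lit 593) (nat_lit 296) (nat_lit 1182) (.cons (nat_lit 1801) (nat_lit 900) (nat_lit 3598) (.cons (nat_lit 1873) (nat_lit 936) (nat_lit 3742) .nil))))))
    (.cons (nat_lit 29) (nat_lit 14) (nat_lit 54) (.cons (nat_lit 43) (nat_lit 21) (nat_lit 82) (.cons (nat_lit 71) (nat_lit 35) (nat_lit 138) (.cons (nat_lit 113) (nat_lit 56) (nat_lit 222) (.cons (nat_lit 127) (nat_lit 63) (nat_lit 250) (.cons (nat_lit 211) (nat_lit 105) (nat_lit 418) (.cons (nat_lit 281) (nat_lit 140) (nat_lit 558) (.cons (nat_lit 337) (nat_lit 168) (nat_lit 670) (.cons (nat_lit 379) (nat_lit 189) (nat_lit 754) (.cons (nat_lit 421) (nat_lit 210) (nat_lit 838) (.cons (nat_lit 673) (nat_lit 336) (nat_lit 1342) (.cons (nat_lit 757) (nat_lit 378) (nat_lit 1510) (.cons (nat_lit 1009) (nat_lit 504)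 (nat_lit 2014) (.cons (nat_lit 2521) (nat_lit 1260) (nat_lit 5038) (.cons (nat_lit 2731) (nat_lit 1365) (nat_lit 5458) (.cons (nat_lit 3907) (nat_lit 1953) (nat_lit 7810) .nil))))))))))))))))) <|
  .cons (nat_lit 50177) (.mk
    (.cons (nat_lit 7) (nat_lit 3) (nat_lit 10) .nil)
    (.cons (nat_lit 3) (nat_lit 1) (nat_lit 2) .nil)
    (.cons (nat_lit 13) (nat_lit 6) (nat_lit 22) (.cons (nat_lit 3877) (nat_lit 1938) (nat_lit 7750) .nil))
    (.cons (nat_lit 5) (nat_lit 2) (nat_lit 6) .nil)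
    (.cons (nat_lit 11) (nat_lit 5) (nat_lit 18) (.cons (nat_lit 31) (nat_lit 15) (nat_lit 58) (.cons (nat_lit 61) (nat_lit 30) (nat_lit 118) (.cons (nat_lit 181) (nat_lit 90) (nat_lit 358) (.cons (nat_lit 571) (nat_lit 285) (nat_lit 1138) (.cons (nat_lit 2281) (nat_lit 1140) (nat_lit 4558) .nil))))))
    (.cons (nat_lit 19) (nat_lit 9) (nat_lit 34) (.cons (nat_lit 37) (nat_lit 18) (nat_lit 70) (.cons (nat_lit 541) (nat_lit 270) (nat_lit 1078) .nil)))
    (.cons (nat_lit 17) (nat_lit 8) (nat_lit 30) (.cons (nat_lit 41) (nat_lit 20) (nat_lit 78) (.cons (nat_lit 73) (nat_lit 36) (nat_lit 142) (.cons (nat_lit 193) (nat_lit 96) (nat_lit 382) (.cons (nat_lit 241) (nat_lit 120) (nat_lit 478) (.cons (nat_lit 2017) (nat_lit 1008) (nat_lit 4030) .nil))))))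
    (.cons (nat_lit 29) (nat_lit 14) (nat_lit 54) (.cons (nat_lit 43) (nat_lit 21) (nat_lit 82) (.cons (nat_lit 71) (nat_lit 35) (nat_lit 138) (.cons (nat_lit 113) (nat_lit 56) (nat_lit 222) (.cons (nat_lit 127) (nat_lit 63) (nat_lit 250) (.cons (nat_lit 211) (nat_lit 105) (nat_lit 418) (.cons (nat_lit 281) (nat_lit 140) (nat_lit 558) (.cons (nat_lit 337) (nat_lit 168) (nat_lit 670) (.cons (nat_lit 421) (nat_lit 210) (nat_lit 838) (.cons (nat_lit 449) (nat_lit 224) (nat_lit 894) (.cons (nat_lit 631) (nat_lit 315) (nat_lit 1258) (.cons (nat_lit 827) (nat_lit 413) (nat_lit 1650) (.cons (nat_lit 883) (nat_lit 441) (nat_lit 1762) (.cons (nat_lit 1009) (nat_lit 504) (nat_lit 2014) (.cons (nat_lit 1093) (nat_lit 546) (nat_lit 2182) (.cons (nat_lit 2269) (nat_lit 1134) (nat_lit 4534) (.cons (nat_lit 2521) (nat_lit 1260) (nat_lit 5038) (.cons (nat_lit 2731) (nat_lit 1365) (nat_lit 5458) (.cons (nat_lit 4201) (nat_lit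 2100) (nat_lit 8398) (.cons (nat_lit 4789) (nat_lit 2394) (nat_lit 9574) .nil))))))))))))))))))))) <|
  .cons (nat_lit 52313) (.mk
    (.cons (nat_lit 13) (nat_lit 6) (nat_lit 22) (.cons (nat_lit 503) (nat_lit 251) (nat_lit 1002) .nil))
    (.cons (nat_lit 3) (nat_lit 1) (nat_lit 2) .nil)
    (.cons (nat_lit 7) (nat_lit 3) (nat_lit 10) (.cons (nat_lit 211) (nat_lit 105) (nat_lit 418) (.cons (nat_lit 241) (nat_lit 120) (nat_lit 478) (.cons (nat_lit 1093) (nat_lit 546) (nat_lit 2182) (.cons (nat_lit 3463) (nat_lit 1731) (nat_lit 6922) .nil)))))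
    (.cons (nat_lit 5) (nat_lit 2) (nat_lit 6) (.cons (nat_lit 17) (nat_lit 8) (nat_lit 30) (.cons (nat_lit 2381) (nat_lit 1190) (nat_lit 4758) .nil)))
    (.cons (nat_lit 11) (nat_lit 5) (nat_lit 18) (.cons (nat_lit 31) (nat_lit 15) (nat_lit 58) (.cons (nat_lit 61) (nat_lit 30) (nat_lit 118) (.cons (nat_lit 71) (nat_lit 35) (nat_lit 138) (.cons (nat_lit 271) (nat_lit 135) (nat_lit 538) (.cons (nat_lit 2221) (nat_lit 1110) (nat_lit 4438) .nil))))))
    (.cons (nat_lit 19) (nat_lit 9) (nat_lit 34) (.cons (nat_lit 37) (nat_lit 18) (nat_lit 70) (.cons (nat_lit 181) (nat_lit 90) (nat_lit 358) (.cons (nat_lit 199) (nat_lit 99) (nat_lit 394) .nil))))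
    (.cons (nat_lit 41) (nat_lit 20) (nat_lit 78) (.cons (nat_lit 73) (nat_lit 36) (nat_lit 142) (.cons (nat_lit 449) (nat_lit 224) (nat_lit 894) (.cons (nat_lit 4561) (nat_lit 2280) (nat_lit 9118) .nil))))
    (.cons (nat_lit 29) (nat_lit 14) (nat_lit 54) (.cons (nat_lit 43) (nat_lit 21) (nat_lit 82) (.cons (nat_lit 113) (nat_lit 56) (nat_lit 222) (.cons (nat_lit 127) (nat_lit 63) (nat_lit 250) (.cons (nat_lit 281) (nat_lit 140) (nat_lit 558) (.cons (nat_lit 337) (nat_lit 168) (nat_lit 670) (.cons (nat_lit 421) (nat_lit 210) (nat_lit 838) (.cons (nat_lit 631) (nat_lit 315) (nat_lit 1258) (.cons (nat_lit 1009) (nat_lit 504) (nat_lit 2014) (.cons (nat_lit 1933) (nat_lit 966) (nat_lit 3862) (.cons (nat_lit 2311) (nat_lit 1155) (nat_lit 4618) (.cons (nat_lit 2521) (nat_lit 1260) (nat_lit 5038) (.cons (nat_lit 3529) (nat_lit 1764) (nat_lit 7054) (.cons (nat_lit 4201) (nat_lit 2100) (nat_lit 8398) .nil)))))))))))))))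 <|
  .cons (nat_lit 53717) (.mk
    (.cons (nat_lit 13) (nat_lit 6) (nat_lit 22) (.cons (nat_lit 1033) (nat_lit 516) (nat_lit 2062) .nil))
    (.cons (nat_lit 3) (nat_lit 1) (nat_lit 2) (.cons (nat_lit 7) (nat_lit 3) (nat_lit 10) (.cons (nat_lit 1279) (nat_lit 639) (nat_lit 2554) .nil)))
    (.cons (nat_lit 31) (nat_lit 15) (nat_lit 58) .nil)
    (.cons (nat_lit 5) (nat_lit 2) (nat_lit 6) (.cons (nat_lit 193) (nat_lit 96) (nat_lit 382) .nil))
    (.cons (nat_lit 11) (nat_lit 5) (nat_lit 18) (.cons (nat_lit 61) (nat_lit 30) (nat_lit 118) (.cons (nat_lit 181) (nat_lit 90) (nat_lit 358) (.cons (nat_lit 811) (nat_lit 405) (nat_lit 1618) .nil))))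
    (.cons (nat_lit 19) (nat_lit 9) (nat_lit 34) (.cons (nat_lit 37) (nat_lit 18) (nat_lit 70) (.cons (nat_lit 1009) (nat_lit 504) (nat_lit 2014) .nil)))
    (.cons (nat_lit 17) (nat_lit 8) (nat_lit 30) (.cons (nat_lit 41) (nat_lit 20) (nat_lit 78) (.cons (nat_lit 73) (nat_lit 36) (nat_lit 142) (.cons (nat_lit 113) (nat_lit 56) (nat_lit 222) (.cons (nat_lit 241) (nat_lit 120) (nat_lit 478) (.cons (nat_lit 257) (nat_lit 128) (nat_lit 510) (.cons (nat_lit 1721) (nat_lit 860) (nat_lit 3438) (.cons (nat_lit 2161) (nat_lit 1080) (nat_lit 4318) .nil))))))))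
    (.cons (nat_lit 29) (nat_lit 14) (nat_lit 54) (.cons (nat_lit 43) (nat_lit 21) (nat_lit 82) (.cons (nat_lit 71) (nat_lit 35) (nat_lit 138) (.cons (nat_lit 127) (nat_lit 63) (nat_lit 250) (.cons (nat_lit 211) (nat_lit 105) (nat_lit 418) (.cons (nat_lit 281) (nat_lit 140) (nat_lit 558) (.cons (nat_lit 337) (nat_lit 168) (nat_lit 670) (.cons (nat_lit 421) (nat_lit 210) (nat_lit 838) (.cons (nat_lit 631) (nat_lit 315) (nat_lit 1258) (.cons (nat_lit 1289) (nat_lit 644) (nat_lit 2574) (.cons (nat_lit 2521) (nat_lit 1260) (nat_lit 5038) (.cons (nat_lit 3361) (nat_lit 1680) (nat_lit 6718) (.cons (nat_lit 3389) (nat_lit 1694) (nat_lit 6774) (.cons (nat_lit 3571) (nat_lit 1785) (nat_lit 7138) .nil))))))))))))))) <|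
  .cons (nat_lit 54133) (.mk
    (.cons (nat_lit 3) (nat_lit 1) (nat_lit 2) (.cons (nat_lit 13) (nat_lit 6) (nat_lit 22) (.cons (nat_lit 347) (nat_lit 173) (nat_lit 690) .nil)))
    .nil
    (.cons (nat_lit 7) (nat_lit 3) (nat_lit 10) .nil)
    (.cons (nat_lit 5) (nat_lit 2) (nat_lit 6) (.cons (nat_lit 229) (nat_lit 114) (nat_lit 454) (.cons (nat_lit 1733) (nat_lit 866) (nat_lit 3462) .nil)))
    (.cons (nat_lit 11) (nat_lit 5) (nat_lit 18) (.cons (nat_lit 31) (nat_lit 15) (nat_lit 58) (.cons (nat_lit 61) (nat_lit 30) (nat_lit 118) (.cons (nat_lit 151) (nat_lit 75) (nat_lit 298) (.cons (nat_lit 3511) (nat_lit 1755) (nat_lit 7018) .nil)))))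
    (.cons (nat_lit 19) (nat_lit 9) (nat_lit 34) (.cons (nat_lit 37) (nat_lit 18) (nat_lit 70) (.cons (nat_lit 181) (nat_lit 90) (nat_lit 358) (.cons (nat_lit 541) (nat_lit 270) (nat_lit 1078) .nil))))
    (.cons (nat_lit 17) (nat_lit 8) (nat_lit 30) (.cons (nat_lit 41) (nat_lit 20) (nat_lit 78) (.cons (nat_lit 73) (nat_lit 36) (nat_lit 142) (.cons (nat_lit 241) (nat_lit 120) (nat_lit 478) (.cons (nat_lit 433) (nat_lit 216) (nat_lit 862) (.cons (nat_lit 457) (nat_lit 228) (nat_lit 910) (.cons (nat_lit 2089) (nat_lit 1044) (nat_lit 4174) (.cons (nat_lit 2521) (nat_lit 1260) (nat_lit 5038) .nil))))))))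
    (.cons (nat_lit 29) (nat_lit 14) (nat_lit 54) (.cons (nat_lit 43) (nat_lit 21) (nat_lit 82) (.cons (nat_lit 71) (nat_lit 35) (nat_lit 138) (.cons (nat_lit 113) (nat_lit 56) (nat_lit 222) (.cons (nat_lit 127) (nat_lit 63) (nat_lit 250) (.cons (nat_lit 211) (nat_lit 105) (nat_lit 418) (.cons (nat_lit 281) (nat_lit 140) (nat_lit 558) (.cons (nat_lit 337) (nat_lit 168) (nat_lit 670) (.cons (nat_lit 379) (nat_lit 189) (nat_lit 754) (.cons (nat_lit 421) (nat_lit 210) (nat_lit 838) (.cons (nat_lit 449) (nat_lit 224) (nat_lit 894) (.cons (nat_lit 631) (nat_lit 315) (nat_lit 1258) (.cons (nat_lit 673) (nat_lit 336) (nat_lit 1342) (.cons (nat_lit 757) (nat_lit 378) (nat_lit 1510) (.cons (nat_lit 1009) (nat_lit 504) (nat_lit 2014) (.cons (nat_lit 1051) (nat_lit 525) (nat_lit 2098) (.cons (nat_lit 2017) (nat_lit 1008) (nat_lit 4030) (.cons (nat_lit 2129) (nat_lit 1064) (nat_lit 4254) (.cons (nat_lit 2143) (nat_lit 1071)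 (nat_lit 4282) (.cons (nat_lit 4201) (nat_lit 2100) (nat_lit 8398) (.cons (nat_lit 4481) (nat_lit 2240) (nat_lit 8958) .nil)))))))))))))))))))))) <|
  .cons (nat_lit 55541) (.mk
    (.cons (nat_lit 5) (nat_lit 2) (nat_lit 6) (.cons (nat_lit 2777) (nat_lit 1388) (nat_lit 5550) .nil))
    (.cons (nat_lit 3) (nat_lit 1) (nat_lit 2) .nil)
    (.cons (nat_lit 7) (nat_lit 3) (nat_lit 10) (.cons (nat_lit 4597) (nat_lit 2298) (nat_lit 9190) .nil))
    (.cons (nat_lit 13) (nat_lit 6) (nat_lit 22) (.cons (nat_lit 181) (nat_lit 90) (nat_lit 358) (.cons (nat_lit 1249) (nat_lit 624) (nat_lit 2494) (.cons (nat_lit 1741) (nat_lit 870) (nat_lit 3478) .nil))))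
    (.cons (nat_lit 11) (nat_lit 5) (nat_lit 18) (.cons (nat_lit 31) (nat_lit 15) (nat_lit 58) (.cons (nat_lit 61) (nat_lit 30) (nat_lit 118) .nil)))
    (.cons (nat_lit 19) (nat_lit 9) (nat_lit 34) (.cons (nat_lit 37) (nat_lit 18) (nat_lit 70) (.cons (nat_lit 73) (nat_lit 36) (nat_lit 142) (.cons (nat_lit 1171) (nat_lit 585) (nat_lit 2338) (.cons (nat_lit 1549) (nat_lit 774) (nat_lit 3094) (.cons (nat_lit 4933) (nat_lit 2466) (nat_lit 9862) .nil))))))
    (.cons (nat_lit 17) (nat_lit 8) (nat_lit 30) (.cons (nat_lit 41) (nat_lit 20) (nat_lit 78) (.cons (nat_lit 193) (nat_lit 96) (nat_lit 382) (.cons (nat_lit 241) (nat_lit 120) (nat_lit 478) (.cons (nat_lit 433) (nat_lit 216) (nat_lit 862) (.cons (nat_lit 521) (nat_lit 260) (nat_lit 1038) (.cons (nat_lit 577) (nat_lit 288) (nat_lit 1150) (.cons (nat_lit 593) (nat_lit 296) (nat_lit 1182) (.cons (nat_lit 769) (nat_lit 384) (nat_lit 1534) (.cons (nat_lit 1153) (nat_lit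 576) (nat_lit 2302) (.cons (nat_lit 1217) (nat_lit 608) (nat_lit 2430) (.cons (nat_lit 1297) (nat_lit 648) (nat_lit 2590) (.cons (nat_lit 1801) (nat_lit 900) (nat_lit 3598) .nil)))))))))))))
    (.cons (nat_lit 29) (nat_lit 14) (nat_lit 54) (.cons (nat_lit 43) (nat_lit 21) (nat_lit 82) (.cons (nat_lit 71) (nat_lit 35) (nat_lit 138) (.cons (nat_lit 113) (nat_lit 56) (nat_lit 222) (.cons (nat_lit 127) (nat_lit 63) (nat_lit 250) (.cons (nat_lit 211) (nat_lit 105) (nat_lit 418) (.cons (nat_lit 281) (nat_lit 140) (nat_lit 558) (.cons (nat_lit 337) (nat_lit 168) (nat_lit 670) (.cons (nat_lit 421) (nat_lit 210) (nat_lit 838) (.cons (nat_lit 631) (nat_lit 315) (nat_lit 1258) (.cons (nat_lit 673) (nat_lit 336) (nat_lit 1342) (.cons (nat_lit 1009) (nat_lit 504) (nat_lit 2014) (.cons (nat_lit 1471) (nat_lit 735) (nat_lit 2938) (.cons (nat_lit 1933) (nat_lit 966) (nat_lit 3862) (.cons (nat_lit 2017) (nat_lit 1008) (nat_lit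 4030) (.cons (nat_lit 2521) (nat_lit 1260) (nat_lit 5038) (.cons (nat_lit 2731) (nat_lit 1365) (nat_lit 5458) (.cons (nat_lit 3361) (nat_lit 1680) (nat_lit 6718) (.cons (nat_lit 4159) (nat_lit 2079) (nat_lit 8314) .nil)))))))))))))))))))) <|
  .cons (nat_lit 58907) (.mk
    .nil
    (.cons (nat_lit 3) (nat_lit 1) (nat_lit 2) (.cons (nat_lit 4909) (nat_lit 2454) (nat_lit 9814) .nil))
    (.cons (nat_lit 7) (nat_lit 3) (nat_lit 10) (.cons (nat_lit 13) (nat_lit 6) (nat_lit 22) (.cons (nat_lit 19) (nat_lit 9) (nat_lit 34) .nil)))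
    (.cons (nat_lit 5) (nat_lit 2) (nat_lit 6) (.cons (nat_lit 1657) (nat_lit 828) (nat_lit 3310) (.cons (nat_lit 3109) (nat_lit 1554) (nat_lit 6214) (.cons (nat_lit 4057) (nat_lit 2028) (nat_lit 8110) .nil))))
    (.cons (nat_lit 11) (nat_lit 5) (nat_lit 18) (.cons (nat_lit 31) (nat_lit 15) (nat_lit 58) (.cons (nat_lit 41) (nat_lit 20) (nat_lit 78) (.cons (nat_lit 61) (nat_lit 30) (nat_lit 118) (.cons (nat_lit 181) (nat_lit 90) (nat_lit 358) (.cons (nat_lit 271) (nat_lit 135) (nat_lit 538) (.cons (nat_lit 2141) (nat_lit 1070) (nat_lit 4278) (.cons (nat_lit 4261) (nat_lit 2130) (nat_lit 8518) .nil))))))))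
    (.cons (nat_lit 37) (nat_lit 18) (nat_lit 70) (.cons (nat_lit 73) (nat_lit 36) (nat_lit 142) .nil))
    (.cons (nat_lit 17) (nat_lit 8) (nat_lit 30) (.cons (nat_lit 241) (nat_lit 120) (nat_lit 478) .nil))
    (.cons (nat_lit 29) (nat_lit 14) (nat_lit 54) (.cons (nat_lit 43) (nat_lit 21) (nat_lit 82) (.cons (nat_lit 71) (nat_lit 35) (nat_lit 138) (.cons (nat_lit 113) (nat_lit 56) (nat_lit 222) (.cons (nat_lit 127) (nat_lit 63) (nat_lit 250) (.cons (nat_lit 211) (nat_lit 105) (nat_lit 418) (.cons (nat_lit 281) (nat_lit 140) (nat_lit 558) (.cons (nat_lit 337) (nat_lit 168) (nat_lit 670) (.cons (nat_lit 379) (nat_lit 189) (nat_lit 754) (.cons (nat_lit 421) (nat_lit 210) (nat_lit 838) (.cons (nat_lit 547) (nat_lit 273) (nat_lit 1090) (.cons (nat_lit 631) (nat_lit 315) (nat_lit 1258) (.cons (nat_lit 673) (nat_lit 336) (nat_lit 1342) (.cons (nat_lit 701) (nat_lit 350) (nat_lit 1398) (.cons (nat_lit 1009) (nat_lit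 504) (nat_lit 2014) (.cons (nat_lit 1303) (nat_lit 651) (nat_lit 2602) (.cons (nat_lit 2017) (nat_lit 1008) (nat_lit 4030) (.cons (nat_lit 2521) (nat_lit 1260) (nat_lit 5038) (.cons (nat_lit 2801) (nat_lit 1400) (nat_lit 5598) (.cons (nat_lit 3361) (nat_lit 1680) (nat_lit 6718) .nil))))))))))))))))))))) <|
  .cons (nat_lit 58967) (.mk
    .nil
    (.cons (nat_lit 3) (nat_lit 1) (nat_lit 2) (.cons (nat_lit 7) (nat_lit 3) (nat_lit 10) (.cons (nat_lit 13) (nat_lit 6) (nat_lit 22) .nil)))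
    (.cons (nat_lit 31) (nat_lit 15) (nat_lit 58) (.cons (nat_lit 37) (nat_lit 18) (nat_lit 70) .nil))
    (.cons (nat_lit 5) (nat_lit 2) (nat_lit 6) (.cons (nat_lit 41) (nat_lit 20) (nat_lit 78) (.cons (nat_lit 401) (nat_lit 200) (nat_lit 798) .nil)))
    (.cons (nat_lit 11) (nat_lit 5) (nat_lit 18) (.cons (nat_lit 61) (nat_lit 30) (nat_lit 118) (.cons (nat_lit 101) (nat_lit 50) (nat_lit 198) .nil)))
    (.cons (nat_lit 19) (nat_lit 9) (nat_lit 34) (.cons (nat_lit 109) (nat_lit 54) (nat_lit 214) (.cons (nat_lit 181) (nat_lit 90) (nat_lit 358) (.cons (nat_lit 1117) (nat_lit 558) (nat_lit 2230) .nil))))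
    (.cons (nat_lit 17) (nat_lit 8) (nat_lit 30) (.cons (nat_lit 73) (nat_lit 36) (nat_lit 142) (.cons (nat_lit 97) (nat_lit 48) (nat_lit 190) (.cons (nat_lit 241) (nat_lit 120) (nat_lit 478) (.cons (nat_lit 433) (nat_lit 216) (nat_lit 862) (.cons (nat_lit 1049) (nat_lit 524) (nat_lit 2094) (.cons (nat_lit 1361) (nat_lit 680) (nat_lit 2718) (.cons (nat_lit 2161) (nat_lit 1080) (nat_lit 4318) .nil))))))))
    (.cons (nat_lit 29) (nat_lit 14) (nat_lit 54) (.cons (nat_lit 43) (nat_lit 21) (nat_lit 82) (.cons (nat_lit 71) (nat_lit 35) (nat_lit 138) (.cons (nat_lit 113) (nat_lit 56) (nat_lit 222) (.cons (nat_lit 127) (nat_lit 63) (nat_lit 250) (.cons (nat_lit 211) (nat_lit 105) (nat_lit 418) (.cons (nat_lit 281) (nat_lit 140) (nat_lit 558) (.cons (nat_lit 337) (nat_lit 168) (nat_lit 670) (.cons (nat_lit 379) (nat_lit 189) (nat_lit 754) (.cons (nat_lit 421) (nat_lit 210) (nat_lit 838) (.cons (nat_lit 631) (nat_lit 315)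 (nat_lit 1258) (.cons (nat_lit 673) (nat_lit 336) (nat_lit 1342) (.cons (nat_lit 757) (nat_lit 378) (nat_lit 1510) (.cons (nat_lit 1009) (nat_lit 504) (nat_lit 2014) (.cons (nat_lit 1429) (nat_lit 714) (nat_lit 2854) (.cons (nat_lit 2017) (nat_lit 1008) (nat_lit 4030) (.cons (nat_lit 2269) (nat_lit 1134) (nat_lit 4534) (.cons (nat_lit 2311) (nat_lit 1155) (nat_lit 4618) (.cons (nat_lit 2521) (nat_lit 1260) (nat_lit 5038) (.cons (nat_lit 2689) (nat_lit 1344) (nat_lit 5374) (.cons (nat_lit 2801) (nat_lit 1400) (nat_lit 5598) (.cons (nat_lit 3529) (nat_lit 1764) (nat_lit 7054) .nil))))))))))))))))))))))) <|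
  .cons (nat_lit 59063) (.mk
    .nil
    (.cons (nat_lit 3) (nat_lit 1) (nat_lit 2) (.cons (nat_lit 23) (nat_lit 11) (nat_lit 42) (.cons (nat_lit 107) (nat_lit 53) (nat_lit 210) .nil)))
    (.cons (nat_lit 7) (nat_lit 3) (nat_lit 10) (.cons (nat_lit 13) (nat_lit 6) (nat_lit 22) (.cons (nat_lit 19) (nat_lit 9) (nat_lit 34) (.cons (nat_lit 37) (nat_lit 18) (nat_lit 70) (.cons (nat_lit 1531) (nat_lit 765) (nat_lit 3058) (.cons (nat_lit 1579) (nat_lit 789) (nat_lit 3154) .nil))))))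
    (.cons (nat_lit 5) (nat_lit 2) (nat_lit 6) (.cons (nat_lit 281) (nat_lit 140) (nat_lit 558) .nil))
    (.cons (nat_lit 11) (nat_lit 5) (nat_lit 18) (.cons (nat_lit 31) (nat_lit 15) (nat_lit 58) (.cons (nat_lit 41) (nat_lit 20) (nat_lit 78) (.cons (nat_lit 61) (nat_lit 30) (nat_lit 118) (.cons (nat_lit 971) (nat_lit 485) (nat_lit 1938) .nil)))))
    (.cons (nat_lit 73) (nat_lit 36) (nat_lit 142) (.cons (nat_lit 181) (nat_lit 90) (nat_lit 358) (.cons (nat_lit 829) (nat_lit 414) (nat_lit 1654) .nil)))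
    (.cons (nat_lit 17) (nat_lit 8) (nat_lit 30) (.cons (nat_lit 241) (nat_lit 120) (nat_lit 478) (.cons (nat_lit 673) (nat_lit 336) (nat_lit 1342) (.cons (nat_lit 1201) (nat_lit 600) (nat_lit 2398) (.cons (nat_lit 2017) (nat_lit 1008) (nat_lit 4030) (.cons (nat_lit 2417) (nat_lit 1208) (nat_lit 4830) .nil))))))
    (.cons (nat_lit 29) (nat_lit 14) (nat_lit 54) (.cons (nat_lit 43) (nat_lit 21) (nat_lit 82) (.cons (nat_lit 71) (nat_lit 35) (nat_lit 138) (.cons (nat_lit 113) (nat_lit 56) (nat_lit 222) (.cons (nat_lit 127) (nat_lit 63) (nat_lit 250) (.cons (nat_lit 211) (nat_lit 105) (nat_lit 418) (.cons (nat_lit 337) (nat_lit 168) (nat_lit 670) (.cons (nat_lit 421) (nat_lit 210) (nat_lit 838) (.cons (nat_lit 547) (nat_lit 273) (nat_lit 1090) (.cons (nat_lit 631) (nat_lit 315) (nat_lit 1258) (.cons (nat_lit 701) (nat_lit 350) (nat_lit 1398) (.cons (nat_lit 883) (nat_lit 441) (nat_lit 1762) (.cons (nat_lit 1009) (nat_lit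 504) (nat_lit 2014) (.cons (nat_lit 2297) (nat_lit 1148) (nat_lit 4590) (.cons (nat_lit 2521) (nat_lit 1260) (nat_lit 5038) (.cons (nat_lit 2731) (nat_lit 1365) (nat_lit 5458) (.cons (nat_lit 2801) (nat_lit 1400) (nat_lit 5598) (.cons (nat_lit 3361) (nat_lit 1680) (nat_lit 6718) .nil))))))))))))))))))) <|
  .cons (nat_lit 60217) (.mk
    (.cons (nat_lit 3) (nat_lit 1) (nat_lit 2) (.cons (nat_lit 13) (nat_lit 6) (nat_lit 22) (.cons (nat_lit 193) (nat_lit 96) (nat_lit 382) .nil)))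
    .nil
    (.cons (nat_lit 7) (nat_lit 3) (nat_lit 10) (.cons (nat_lit 73) (nat_lit 36) (nat_lit 142) (.cons (nat_lit 127) (nat_lit 63) (nat_lit 250) (.cons (nat_lit 151) (nat_lit 75) (nat_lit 298) .nil))))
    (.cons (nat_lit 5) (nat_lit 2) (nat_lit 6) (.cons (nat_lit 349) (nat_lit 174) (nat_lit 694) .nil))
    (.cons (nat_lit 11) (nat_lit 5) (nat_lit 18) (.cons (nat_lit 31) (nat_lit 15) (nat_lit 58) (.cons (nat_lit 61) (nat_lit 30) (nat_lit 118) (.cons (nat_lit 181) (nat_lit 90) (nat_lit 358) .nil))))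
    (.cons (nat_lit 19) (nat_lit 9) (nat_lit 34) (.cons (nat_lit 37) (nat_lit 18) (nat_lit 70) (.cons (nat_lit 271) (nat_lit 135) (nat_lit 538) (.cons (nat_lit 739) (nat_lit 369) (nat_lit 1474) (.cons (nat_lit 1801) (nat_lit 900) (nat_lit 3598) (.cons (nat_lit 2521) (nat_lit 1260) (nat_lit 5038) .nil))))))
    (.cons (nat_lit 17) (nat_lit 8) (nat_lit 30) (.cons (nat_lit 41) (nat_lit 20) (nat_lit 78) (.cons (nat_lit 241) (nat_lit 120) (nat_lit 478) (.cons (nat_lit 977) (nat_lit 488) (nat_lit 1950) (.cons (nat_lit 1201) (nat_lit 600) (nat_lit 2398) (.cons (nat_lit 1873) (nat_lit 936) (nat_lit 3742) (.cons (nat_lit 2081) (nat_lit 1040) (nat_lit 4158) (.cons (nat_lit 2713) (nat_lit 1356) (nat_lit 5422) (.cons (nat_lit 2953) (nat_lit 1476) (nat_lit 5902) (.cons (nat_lit 3041) (nat_lit 1520) (nat_lit 6078) (.cons (nat_lit 3889) (nat_lit 1944) (nat_lit 7774) .nil)))))))))))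
    (.cons (nat_lit 29) (nat_lit 14) (nat_lit 54) (.cons (nat_lit 43) (nat_lit 21) (nat_lit 82) (.cons (nat_lit 71) (nat_lit 35) (nat_lit 138) (.cons (nat_lit 113) (nat_lit 56) (nat_lit 222) (.cons (nat_lit 211) (nat_lit 105) (nat_lit 418) (.cons (nat_lit 281) (nat_lit 140) (nat_lit 558) (.cons (nat_lit 337) (nat_lit 168) (nat_lit 670) (.cons (nat_lit 379) (nat_lit 189) (nat_lit 754) (.cons (nat_lit 421) (nat_lit 210) (nat_lit 838) (.cons (nat_lit 449) (nat_lit 224) (nat_lit 894) (.cons (nat_lit 631) (nat_lit 315) (nat_lit 1258) (.cons (nat_lit 757) (nat_lit 378) (nat_lit 1510) (.cons (nat_lit 1009) (nat_lit 504) (nat_lit 2014) (.cons (nat_lit 2689) (nat_lit 1344) (nat_lit 5374) (.cons (nat_lit 2857) (nat_lit 1428) (nat_lit 5710) .nil)))))))))))))))) <|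
  .cons (nat_lit 60413) (.mk
    (.cons (nat_lit 11) (nat_lit 5) (nat_lit 18) (.cons (nat_lit 1373) (nat_lit 686) (nat_lit 2742) .nil))
    (.cons (nat_lit 3) (nat_lit 1) (nat_lit 2) .nil)
    (.cons (nat_lit 7) (nat_lit 3) (nat_lit 10) (.cons (nat_lit 19) (nat_lit 9) (nat_lit 34) (.cons (nat_lit 31) (nat_lit 15) (nat_lit 58) (.cons (nat_lit 733) (nat_lit 366) (nat_lit 1462) .nil))))
    (.cons (nat_lit 5) (nat_lit 2) (nat_lit 6) (.cons (nat_lit 13) (nat_lit 6) (nat_lit 22) (.cons (nat_lit 37) (nat_lit 18) (nat_lit 70) .nil)))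
    (.cons (nat_lit 41) (nat_lit 20) (nat_lit 78) (.cons (nat_lit 61) (nat_lit 30) (nat_lit 118) (.cons (nat_lit 3541) (nat_lit 1770) (nat_lit 7078) .nil)))
    (.cons (nat_lit 109) (nat_lit 54) (nat_lit 214) (.cons (nat_lit 181) (nat_lit 90) (nat_lit 358) (.cons (nat_lit 541) (nat_lit 270) (nat_lit 1078) .nil)))
    (.cons (nat_lit 17) (nat_lit 8) (nat_lit 30) (.cons (nat_lit 73) (nat_lit 36) (nat_lit 142) (.cons (nat_lit 97) (nat_lit 48) (nat_lit 190) (.cons (nat_lit 113) (nat_lit 56) (nat_lit 222) (.cons (nat_lit 193) (nat_lit 96) (nat_lit 382) (.cons (nat_lit 241) (nat_lit 120) (nat_lit 478) (.cons (nat_lit 937) (nat_lit 468) (nat_lit 1870) (.cons (nat_lit 1201) (nat_lit 600) (nat_lit 2398) (.cons (nat_lit 2161) (nat_lit 1080) (nat_lit 4318) .nil)))))))))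
    (.cons (nat_lit 29) (nat_lit 14) (nat_lit 54) (.cons (nat_lit 43) (nat_lit 21) (nat_lit 82) (.cons (nat_lit 71) (nat_lit 35) (nat_lit 138) (.cons (nat_lit 127) (nat_lit 63) (nat_lit 250) (.cons (nat_lit 211) (nat_lit 105) (nat_lit 418) (.cons (nat_lit 281) (nat_lit 140) (nat_lit 558) (.cons (nat_lit 337) (nat_lit 168) (nat_lit 670) (.cons (nat_lit 421) (nat_lit 210) (nat_lit 838) (.cons (nat_lit 449) (nat_lit 224) (nat_lit 894) (.cons (nat_lit 491) (nat_lit 245) (nat_lit 978) (.cons (nat_lit 547) (nat_lit 273) (nat_lit 1090) (.cons (nat_lit 631) (nat_lit 315) (nat_lit 1258) (.cons (nat_lit 701) (nat_lit 350) (nat_lit 1398) (.cons (nat_lit 1009) (nat_lit 504) (nat_lit 2014) (.cons (nat_lit 1051) (nat_lit 525) (nat_lit 2098) (.cons (nat_lit 2143) (nat_lit 1071) (nat_lit 4282) (.cons (nat_lit 2521) (nat_lit 1260) (nat_lit 5038) .nil)))))))))))))))))) <|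
  .cons (nat_lit 61403) (.mk
    (.cons (nat_lit 11) (nat_lit 5) (nat_lit 18) (.cons (nat_lit 2791) (nat_lit 1395) (nat_lit 5578) .nil))
    (.cons (nat_lit 3) (nat_lit 1) (nat_lit 2) (.cons (nat_lit 7) (nat_lit 3) (nat_lit 10) (.cons (nat_lit 17) (nat_lit 8) (nat_lit 30) (.cons (nat_lit 43) (nat_lit 21) (nat_lit 82) .nil))))
    (.cons (nat_lit 13) (nat_lit 6) (nat_lit 22) (.cons (nat_lit 409) (nat_lit 204) (nat_lit 814) .nil))
    (.cons (nat_lit 5) (nat_lit 2) (nat_lit 6) .nil)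
    (.cons (nat_lit 31) (nat_lit 15) (nat_lit 58) (.cons (nat_lit 61) (nat_lit 30) (nat_lit 118) (.cons (nat_lit 1181) (nat_lit 590) (nat_lit 2358) (.cons (nat_lit 2311) (nat_lit 1155) (nat_lit 4618) .nil))))
    (.cons (nat_lit 19) (nat_lit 9) (nat_lit 34) (.cons (nat_lit 37) (nat_lit 18) (nat_lit 70) (.cons (nat_lit 181) (nat_lit 90) (nat_lit 358) (.cons (nat_lit 487) (nat_lit 243) (nat_lit 970) .nil))))
    (.cons (nat_lit 41) (nat_lit 20) (nat_lit 78) (.cons (nat_lit 73) (nat_lit 36) (nat_lit 142) (.cons (nat_lit 97) (nat_lit 48) (nat_lit 190) (.cons (nat_lit 113) (nat_lit 56) (nat_lit 222) (.cons (nat_lit 241) (nat_lit 120) (nat_lit 478) (.cons (nat_lit 761) (nat_lit 380) (nat_lit 1518) (.cons (nat_lit 1129) (nat_lit 564) (nat_lit 2254) (.cons (nat_lit 1153) (nat_lit 576) (nat_lit 2302) .nil))))))))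
    (.cons (nat_lit 29) (nat_lit 14) (nat_lit 54) (.cons (nat_lit 71) (nat_lit 35) (nat_lit 138) (.cons (nat_lit 127) (nat_lit 63) (nat_lit 250) (.cons (nat_lit 211) (nat_lit 105) (nat_lit 418) (.cons (nat_lit 281) (nat_lit 140) (nat_lit 558) (.cons (nat_lit 337) (nat_lit 168) (nat_lit 670) (.cons (nat_lit 379) (nat_lit 189) (nat_lit 754) (.cons (nat_lit 421) (nat_lit 210) (nat_lit 838) (.cons (nat_lit 631) (nat_lit 315) (nat_lit 1258) (.cons (nat_lit 883) (nat_lit 441) (nat_lit 1762) (.cons (nat_lit 1009) (nat_lit 504) (nat_lit 2014) (.cons (nat_lit 2017) (nat_lit 1008) (nat_lit 4030) (.cons (nat_lit 2521) (nat_lit 1260) (nat_lit 5038) (.cons (nat_lit 4201) (nat_lit 2100) (nat_lit 8398) (.cons (nat_lit 4481) (nat_lit 2240) (nat_lit 8958) .nil)))))))))))))))) <|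
  .cons (nat_lit 61543) (.mk
    (.cons (nat_lit 3) (nat_lit 1) (nat_lit 2) (.cons (nat_lit 13) (nat_lit 6) (nat_lit 22) (.cons (nat_lit 263) (nat_lit 131) (nat_lit 522) .nil)))
    (.cons (nat_lit 7) (nat_lit 3) (nat_lit 10) (.cons (nat_lit 157) (nat_lit 78) (nat_lit 310) .nil))
    (.cons (nat_lit 67) (nat_lit 33) (nat_lit 130) (.cons (nat_lit 337) (nat_lit 168) (nat_lit 670) .nil))
    (.cons (nat_lit 5) (nat_lit 2) (nat_lit 6) .nil)
    (.cons (nat_lit 11) (nat_lit 5) (nat_lit 18) (.cons (nat_lit 31) (nat_lit 15) (nat_lit 58) (.cons (nat_lit 41) (nat_lit 20) (nat_lit 78) (.cons (nat_lit 61) (nat_lit 30) (nat_lit 118) (.cons (nat_lit 71) (nat_lit 35) (nat_lit 138) (.cons (nat_lit 421) (nat_lit 210) (nat_lit 838) (.cons (nat_lit 2011) (nat_lit 1005) (nat_lit 4018) .nil)))))))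
    (.cons (nat_lit 19) (nat_lit 9) (nat_lit 34) (.cons (nat_lit 37) (nat_lit 18) (nat_lit 70) (.cons (nat_lit 73) (nat_lit 36) (nat_lit 142) (.cons (nat_lit 127) (nat_lit 63) (nat_lit 250) (.cons (nat_lit 181) (nat_lit 90) (nat_lit 358) (.cons (nat_lit 379) (nat_lit 189) (nat_lit 754) (.cons (nat_lit 1801) (nat_lit 900) (nat_lit 3598) .nil)))))))
    (.cons (nat_lit 17) (nat_lit 8) (nat_lit 30) (.cons (nat_lit 113) (nat_lit 56) (nat_lit 222) (.cons (nat_lit 241) (nat_lit 120) (nat_lit 478) (.cons (nat_lit 937) (nat_lit 468) (nat_lit 1870) (.cons (nat_lit 1201) (nat_lit 600) (nat_lit 2398) (.cons (nat_lit 1321) (nat_lit 660) (nat_lit 2638) (.cons (nat_lit 2089) (nat_lit 1044) (nat_lit 4174) (.cons (nat_lit 3889) (nat_lit 1944) (nat_lit 7774) .nil))))))))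
    (.cons (nat_lit 29) (nat_lit 14) (nat_lit 54) (.cons (nat_lit 43) (nat_lit 21) (nat_lit 82) (.cons (nat_lit 211) (nat_lit 105) (nat_lit 418) (.cons (nat_lit 281) (nat_lit 140) (nat_lit 558) (.cons (nat_lit 631) (nat_lit 315) (nat_lit 1258) (.cons (nat_lit 673) (nat_lit 336) (nat_lit 1342) (.cons (nat_lit 757) (nat_lit 378) (nat_lit 1510) (.cons (nat_lit 1009) (nat_lit 504) (nat_lit 2014) (.cons (nat_lit 2017) (nat_lit 1008) (nat_lit 4030) (.cons (nat_lit 2521) (nat_lit 1260) (nat_lit 5038) .nil))))))))))) <|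
  .cons (nat_lit 61553) (.mk
    (.cons (nat_lit 3847) (nat_lit 1923) (nat_lit 7690) .nil)
    (.cons (nat_lit 3) (nat_lit 1) (nat_lit 2) .nil)
    (.cons (nat_lit 7) (nat_lit 3) (nat_lit 10) (.cons (nat_lit 19) (nat_lit 9) (nat_lit 34) (.cons (nat_lit 4177) (nat_lit 2088) (nat_lit 8350) .nil)))
    (.cons (nat_lit 5) (nat_lit 2) (nat_lit 6) (.cons (nat_lit 13) (nat_lit 6) (nat_lit 22) (.cons (nat_lit 17) (nat_lit 8) (nat_lit 30) (.cons (nat_lit 701) (nat_lit 350) (nat_lit 1398) (.cons (nat_lit 3673) (nat_lit 1836) (nat_lit 7342) .nil)))))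
    (.cons (nat_lit 11) (nat_lit 5) (nat_lit 18) (.cons (nat_lit 31) (nat_lit 15) (nat_lit 58) (.cons (nat_lit 61) (nat_lit 30) (nat_lit 118) (.cons (nat_lit 101) (nat_lit 50) (nat_lit 198) (.cons (nat_lit 241) (nat_lit 120) (nat_lit 478) (.cons (nat_lit 1531) (nat_lit 765) (nat_lit 3058) .nil))))))
    (.cons (nat_lit 37) (nat_lit 18) (nat_lit 70) (.cons (nat_lit 109) (nat_lit 54) (nat_lit 214) (.cons (nat_lit 181) (nat_lit 90) (nat_lit 358) (.cons (nat_lit 1801) (nat_lit 900) (nat_lit 3598) (.cons (nat_lit 3061) (nat_lit 1530) (nat_lit 6118) .nil)))))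
    (.cons (nat_lit 41) (nat_lit 20) (nat_lit 78) (.cons (nat_lit 73) (nat_lit 36) (nat_lit 142) (.cons (nat_lit 433) (nat_lit 216) (nat_lit 862) (.cons (nat_lit 577) (nat_lit 288) (nat_lit 1150) .nil))))
    (.cons (nat_lit 29) (nat_lit 14) (nat_lit 54) (.cons (nat_lit 43) (nat_lit 21) (nat_lit 82) (.cons (nat_lit 71) (nat_lit 35) (nat_lit 138) (.cons (nat_lit 113) (nat_lit 56) (nat_lit 222) (.cons (nat_lit 127) (nat_lit 63) (nat_lit 250) (.cons (nat_lit 211) (nat_lit 105) (nat_lit 418) (.cons (nat_lit 281) (nat_lit 140) (nat_lit 558) (.cons (nat_lit 337) (nat_lit 168) (nat_lit 670) (.cons (nat_lit 421) (nat_lit 210) (nat_lit 838) (.cons (nat_lit 631) (nat_lit 315) (nat_lit 1258) (.cons (nat_lit 673) (nat_lit 336) (nat_lit 1342) (.cons (nat_lit 883) (nat_lit 441) (nat_lit 1762) (.cons (nat_lit 1009) (nat_lit 504) (nat_lit 2014) (.cons (nat_lit 2017) (nat_lit 1008) (nat_lit 4030) (.cons (nat_lit 2521) (nat_lit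 1260) (nat_lit 5038) (.cons (nat_lit 3361) (nat_lit 1680) (nat_lit 6718) .nil))))))))))))))))) <|
  .cons (nat_lit 63353) (.mk
    .nil
    (.cons (nat_lit 3) (nat_lit 1) (nat_lit 2) .nil)
    (.cons (nat_lit 7) (nat_lit 3) (nat_lit 10) (.cons (nat_lit 13) (nat_lit 6) (nat_lit 22) (.cons (nat_lit 19) (nat_lit 9) (nat_lit 34) (.cons (nat_lit 67) (nat_lit 33) (nat_lit 130) (.cons (nat_lit 127) (nat_lit 63) (nat_lit 250) .nil)))))
    (.cons (nat_lit 5) (nat_lit 2) (nat_lit 6) (.cons (nat_lit 29) (nat_lit 14) (nat_lit 54) (.cons (nat_lit 193) (nat_lit 96) (nat_lit 382) (.cons (nat_lit 1361) (nat_lit 680) (nat_lit 2718) .nil))))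
    (.cons (nat_lit 11) (nat_lit 5) (nat_lit 18) (.cons (nat_lit 31) (nat_lit 15) (nat_lit 58) (.cons (nat_lit 41) (nat_lit 20) (nat_lit 78) (.cons (nat_lit 61) (nat_lit 30) (nat_lit 118) (.cons (nat_lit 281) (nat_lit 140) (nat_lit 558) (.cons (nat_lit 541) (nat_lit 270) (nat_lit 1078) (.cons (nat_lit 991) (nat_lit 495) (nat_lit 1978) (.cons (nat_lit 3061) (nat_lit 1530) (nat_lit 6118) .nil))))))))
    (.cons (nat_lit 37) (nat_lit 18) (nat_lit 70) (.cons (nat_lit 181) (nat_lit 90) (nat_lit 358) .nil))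
    (.cons (nat_lit 17) (nat_lit 8) (nat_lit 30) (.cons (nat_lit 73) (nat_lit 36) (nat_lit 142) (.cons (nat_lit 97) (nat_lit 48) (nat_lit 190) (.cons (nat_lit 113) (nat_lit 56) (nat_lit 222) (.cons (nat_lit 241) (nat_lit 120) (nat_lit 478) (.cons (nat_lit 457) (nat_lit 228) (nat_lit 910) (.cons (nat_lit 2897) (nat_lit 1448) (nat_lit 5790) .nil)))))))
    (.cons (nat_lit 43) (nat_lit 21) (nat_lit 82) (.cons (nat_lit 71) (nat_lit 35) (nat_lit 138) (.cons (nat_lit 211) (nat_lit 105) (nat_lit 418) (.cons (nat_lit 337) (nat_lit 168) (nat_lit 670) (.cons (nat_lit 421) (nat_lit 210) (nat_lit 838) (.cons (nat_lit 449) (nat_lit 224) (nat_lit 894) (.cons (nat_lit 631) (nat_lit 315) (nat_lit 1258) (.cons (nat_lit 673) (nat_lit 336) (nat_lit 1342) (.cons (nat_lit 1009) (nat_lit 504) (nat_lit 2014) (.cons (nat_lit 2381) (nat_lit 1190) (nat_lit 4758) (.cons (nat_lit 2521) (nat_lit 1260) (nat_lit 5038) (.cons (nat_lit 2689)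 (nat_lit 1344) (nat_lit 5374) .nil))))))))))))) <|
  .cons (nat_lit 63863) (.mk
    (.cons (nat_lit 37) (nat_lit 18) (nat_lit 70) (.cons (nat_lit 863) (nat_lit 431) (nat_lit 1722) .nil))
    (.cons (nat_lit 3) (nat_lit 1) (nat_lit 2) (.cons (nat_lit 887) (nat_lit 443) (nat_lit 1770) .nil))
    (.cons (nat_lit 7) (nat_lit 3) (nat_lit 10) .nil)
    (.cons (nat_lit 5) (nat_lit 2) (nat_lit 6) (.cons (nat_lit 13) (nat_lit 6) (nat_lit 22) (.cons (nat_lit 1373) (nat_lit 686) (nat_lit 2742) .nil)))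
    (.cons (nat_lit 11) (nat_lit 5) (nat_lit 18) (.cons (nat_lit 31) (nat_lit 15) (nat_lit 58) (.cons (nat_lit 61) (nat_lit 30) (nat_lit 118) (.cons (nat_lit 181) (nat_lit 90) (nat_lit 358) (.cons (nat_lit 2281) (nat_lit 1140) (nat_lit 4558) (.cons (nat_lit 4561) (nat_lit 2280) (nat_lit 9118) .nil))))))
    (.cons (nat_lit 19) (nat_lit 9) (nat_lit 34) (.cons (nat_lit 73) (nat_lit 36) (nat_lit 142) (.cons (nat_lit 271) (nat_lit 135) (nat_lit 538) .nil)))
    (.cons (nat_lit 17) (nat_lit 8) (nat_lit 30) (.cons (nat_lit 41) (nat_lit 20) (nat_lit 78) (.cons (nat_lit 113) (nat_lit 56) (nat_lit 222) (.cons (nat_lit 241) (nat_lit 120) (nat_lit 478) .nil))))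
    (.cons (nat_lit 29) (nat_lit 14) (nat_lit 54) (.cons (nat_lit 43) (nat_lit 21) (nat_lit 82) (.cons (nat_lit 71) (nat_lit 35) (nat_lit 138) (.cons (nat_lit 127) (nat_lit 63) (nat_lit 250) (.cons (nat_lit 211) (nat_lit 105) (nat_lit 418) (.cons (nat_lit 281) (nat_lit 140) (nat_lit 558) (.cons (nat_lit 337) (nat_lit 168) (nat_lit 670) (.cons (nat_lit 421) (nat_lit 210) (nat_lit 838) (.cons (nat_lit 617) (nat_lit 308) (nat_lit 1230) (.cons (nat_lit 631) (nat_lit 315) (nat_lit 1258) (.cons (nat_lit 673) (nat_lit 336) (nat_lit 1342) (.cons (nat_lit 1009) (nat_lit 504) (nat_lit 2014) (.cons (nat_lit 1051) (nat_lit 525) (nat_lit 2098) (.cons (nat_lit 1093) (nat_lit 546) (nat_lit 2182) (.cons (nat_lit 2129) (nat_lit 1064) (nat_lit 4254) (.cons (nat_lit 2521) (nat_lit 1260) (nat_lit 5038) (.cons (nat_lit 3361) (nat_lit 1680) (nat_lit 6718) (.cons (nat_lit 4481) (nat_lit 2240) (nat_lit 8958) .nil))))))))))))))))))) <|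
  .cons (nat_lit 64271) (.mk
    (.cons (nat_lit 5) (nat_lit 2) (nat_lit 6) .nil)
    (.cons (nat_lit 3) (nat_lit 1) (nat_lit 2) (.cons (nat_lit 13) (nat_lit 6) (nat_lit 22) (.cons (nat_lit 103) (nat_lit 51) (nat_lit 202) .nil)))
    (.cons (nat_lit 7) (nat_lit 3) (nat_lit 10) .nil)
    .nil
    (.cons (nat_lit 11) (nat_lit 5) (nat_lit 18) (.cons (nat_lit 31) (nat_lit 15) (nat_lit 58) (.cons (nat_lit 61) (nat_lit 30) (nat_lit 118) (.cons (nat_lit 421) (nat_lit 210) (nat_lit 838) (.cons (nat_lit 1201) (nat_lit 600) (nat_lit 2398) (.cons (nat_lit 1861) (nat_lit 930) (nat_lit 3718) .nil))))))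
    (.cons (nat_lit 19) (nat_lit 9) (nat_lit 34) (.cons (nat_lit 37) (nat_lit 18) (nat_lit 70) (.cons (nat_lit 181) (nat_lit 90) (nat_lit 358) (.cons (nat_lit 271) (nat_lit 135) (nat_lit 538) .nil))))
    (.cons (nat_lit 17) (nat_lit 8) (nat_lit 30) (.cons (nat_lit 41) (nat_lit 20) (nat_lit 78) (.cons (nat_lit 73) (nat_lit 36) (nat_lit 142) (.cons (nat_lit 241) (nat_lit 120) (nat_lit 478) (.cons (nat_lit 337) (nat_lit 168) (nat_lit 670) (.cons (nat_lit 673) (nat_lit 336) (nat_lit 1342) (.cons (nat_lit 1153) (nat_lit 576) (nat_lit 2302) .nil)))))))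
    (.cons (nat_lit 29) (nat_lit 14) (nat_lit 54) (.cons (nat_lit 43) (nat_lit 21) (nat_lit 82) (.cons (nat_lit 71) (nat_lit 35) (nat_lit 138) (.cons (nat_lit 113) (nat_lit 56) (nat_lit 222) (.cons (nat_lit 127) (nat_lit 63) (nat_lit 250) (.cons (nat_lit 211) (nat_lit 105) (nat_lit 418) (.cons (nat_lit 281) (nat_lit 140) (nat_lit 558) (.cons (nat_lit 379) (nat_lit 189) (nat_lit 754) (.cons (nat_lit 449) (nat_lit 224) (nat_lit 894) (.cons (nat_lit 617) (nat_lit 308) (nat_lit 1230) (.cons (nat_lit 631) (nat_lit 315) (nat_lit 1258) (.cons (nat_lit 757) (nat_lit 378) (nat_lit 1510) (.cons (nat_lit 911) (nat_lit 455) (nat_lit 1818) (.cons (nat_lit 1009) (nat_lit 504) (nat_lit 2014) (.cons (nat_lit 2129) (nat_lit 1064) (nat_lit 4254) (.cons (nat_lit 2521) (nat_lit 1260) (nat_lit 5038) (.cons (nat_lit 4943) (nat_lit 2471) (nat_lit 9882) .nil)))))))))))))))))) <|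
  .cons (nat_lit 66533) (.mk
    .nil
    (.cons (nat_lit 3) (nat_lit 1) (nat_lit 2) (.cons (nat_lit 13) (nat_lit 6) (nat_lit 22) (.cons (nat_lit 853) (nat_lit 426) (nat_lit 1702) .nil)))
    (.cons (nat_lit 7) (nat_lit 3) (nat_lit 10) .nil)
    (.cons (nat_lit 5) (nat_lit 2) (nat_lit 6) (.cons (nat_lit 3037) (nat_lit 1518) (nat_lit 6070) .nil))
    (.cons (nat_lit 11) (nat_lit 5) (nat_lit 18) (.cons (nat_lit 31) (nat_lit 15) (nat_lit 58) (.cons (nat_lit 41) (nat_lit 20) (nat_lit 78) (.cons (nat_lit 61) (nat_lit 30) (nat_lit 118) (.cons (nat_lit 331) (nat_lit 165) (nat_lit 658) (.cons (nat_lit 601) (nat_lit 300) (nat_lit 1198) (.cons (nat_lit 691) (nat_lit 345) (nat_lit 1378) (.cons (nat_lit 5011) (nat_lit 2505) (nat_lit 10018) .nil))))))))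
    (.cons (nat_lit 19) (nat_lit 9) (nat_lit 34) (.cons (nat_lit 37) (nat_lit 18) (nat_lit 70) (.cons (nat_lit 109) (nat_lit 54) (nat_lit 214) (.cons (nat_lit 181) (nat_lit 90) (nat_lit 358) (.cons (nat_lit 1531) (nat_lit 765) (nat_lit 3058) (.cons (nat_lit 3673) (nat_lit 1836) (nat_lit 7342) .nil))))))
    (.cons (nat_lit 17) (nat_lit 8) (nat_lit 30) (.cons (nat_lit 73) (nat_lit 36) (nat_lit 142) (.cons (nat_lit 97) (nat_lit 48) (nat_lit 190) (.cons (nat_lit 241) (nat_lit 120) (nat_lit 478) (.cons (nat_lit 313) (nat_lit 156) (nat_lit 622) (.cons (nat_lit 401) (nat_lit 200) (nat_lit 798) (.cons (nat_lit 1201) (nat_lit 600) (nat_lit 2398) (.cons (nat_lit 2161) (nat_lit 1080) (nat_lit 4318) (.cons (nat_lit 4561) (nat_lit 2280) (nat_lit 9118) .nil)))))))))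
    (.cons (nat_lit 29) (nat_lit 14) (nat_lit 54) (.cons (nat_lit 43) (nat_lit 21) (nat_lit 82) (.cons (nat_lit 71) (nat_lit 35) (nat_lit 138) (.cons (nat_lit 113) (nat_lit 56) (nat_lit 222) (.cons (nat_lit 127) (nat_lit 63) (nat_lit 250) (.cons (nat_lit 211) (nat_lit 105) (nat_lit 418) (.cons (nat_lit 281) (nat_lit 140) (nat_lit 558) (.cons (nat_lit 337) (nat_lit 168) (nat_lit 670) (.cons (nat_lit 421) (nat_lit 210) (nat_lit 838) (.cons (nat_lit 449) (nat_lit 224) (nat_lit 894) (.cons (nat_lit 617) (nat_lit 308) (nat_lit 1230) (.cons (nat_lit 631) (nat_lit 315) (nat_lit 1258) (.cons (nat_lit 1009) (nat_lit 504) (nat_lit 2014) (.cons (nat_lit 1471) (nat_lit 735) (nat_lit 2938) (.cons (nat_lit 1499) (nat_lit 749) (nat_lit 2994) (.cons (nat_lit 2017) (nat_lit 1008) (nat_lit 4030) (.cons (nat_lit 2521) (nat_lit 1260) (nat_lit 5038) (.cons (nat_lit 4691) (nat_lit 2345) (nat_lit 9378) .nil))))))))))))))))))) <|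
  .cons (nat_lit 66943) (.mk
    (.cons (nat_lit 3) (nat_lit 1) (nat_lit 2) (.cons (nat_lit 3719) (nat_lit 1859) (nat_lit 7434) .nil))
    (.cons (nat_lit 523) (nat_lit 261) (nat_lit 1042) .nil)
    (.cons (nat_lit 7) (nat_lit 3) (nat_lit 10) (.cons (nat_lit 37) (nat_lit 18) (nat_lit 70) (.cons (nat_lit 307) (nat_lit 153) (nat_lit 610) .nil)))
    (.cons (nat_lit 5) (nat_lit 2) (nat_lit 6) (.cons (nat_lit 13) (nat_lit 6) (nat_lit 22) (.cons (nat_lit 733) (nat_lit 366) (nat_lit 1462) .nil)))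
    (.cons (nat_lit 11) (nat_lit 5) (nat_lit 18) (.cons (nat_lit 31) (nat_lit 15) (nat_lit 58) (.cons (nat_lit 41) (nat_lit 20) (nat_lit 78) (.cons (nat_lit 61) (nat_lit 30) (nat_lit 118) (.cons (nat_lit 181) (nat_lit 90) (nat_lit 358) .nil)))))
    (.cons (nat_lit 19) (nat_lit 9) (nat_lit 34) (.cons (nat_lit 73) (nat_lit 36) (nat_lit 142) (.cons (nat_lit 109) (nat_lit 54) (nat_lit 214) (.cons (nat_lit 541) (nat_lit 270) (nat_lit 1078) (.cons (nat_lit 631) (nat_lit 315) (nat_lit 1258) (.cons (nat_lit 1171) (nat_lit 585) (nat_lit 2338) (.cons (nat_lit 2683) (nat_lit 1341) (nat_lit 5362) .nil)))))))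
    (.cons (nat_lit 17) (nat_lit 8) (nat_lit 30) (.cons (nat_lit 193) (nat_lit 96) (nat_lit 382) (.cons (nat_lit 241) (nat_lit 120) (nat_lit 478) (.cons (nat_lit 433) (nat_lit 216) (nat_lit 862) (.cons (nat_lit 769) (nat_lit 384) (nat_lit 1534) (.cons (nat_lit 1009) (nat_lit 504) (nat_lit 2014) (.cons (nat_lit 2161) (nat_lit 1080) (nat_lit 4318) (.cons (nat_lit 4409) (nat_lit 2204) (nat_lit 8814) .nil))))))))
    (.cons (nat_lit 29) (nat_lit 14) (nat_lit 54) (.cons (nat_lit 43) (nat_lit 21) (nat_lit 82) (.cons (nat_lit 71) (nat_lit 35) (nat_lit 138) (.cons (nat_lit 113) (nat_lit 56) (nat_lit 222) (.cons (nat_lit 127) (nat_lit 63) (nat_lit 250) (.cons (nat_lit 211) (nat_lit 105) (nat_lit 418) (.cons (nat_lit 281) (nat_lit 140) (nat_lit 558) (.cons (nat_lit 337) (nat_lit 168) (nat_lit 670) (.cons (nat_lit 421) (nat_lit 210) (nat_lit 838) (.cons (nat_lit 757) (nat_lit 378) (nat_lit 1510) (.cons (nat_lit 1471) (nat_lit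 735) (nat_lit 2938) (.cons (nat_lit 1933) (nat_lit 966) (nat_lit 3862) (.cons (nat_lit 2017) (nat_lit 1008) (nat_lit 4030) (.cons (nat_lit 2269) (nat_lit 1134) (nat_lit 4534) (.cons (nat_lit 2521) (nat_lit 1260) (nat_lit 5038) (.cons (nat_lit 2731) (nat_lit 1365) (nat_lit 5458) (.cons (nat_lit 2801) (nat_lit 1400) (nat_lit 5598) (.cons (nat_lit 4621) (nat_lit 2310) (nat_lit 9238) .nil))))))))))))))))))) <|
  .cons (nat_lit 66947) (.mk
    (.cons (nat_lit 11) (nat_lit 5) (nat_lit 18) (.cons (nat_lit 17) (nat_lit 8) (nat_lit 30) (.cons (nat_lit 179) (nat_lit 89) (nat_lit 354) .nil)))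
    (.cons (nat_lit 3) (nat_lit 1) (nat_lit 2) (.cons (nat_lit 7) (nat_lit 3) (nat_lit 10) (.cons (nat_lit 797) (nat_lit 398) (nat_lit 1590) .nil)))
    (.cons (nat_lit 13) (nat_lit 6) (nat_lit 22) .nil)
    (.cons (nat_lit 5) (nat_lit 2) (nat_lit 6) (.cons (nat_lit 37) (nat_lit 18) (nat_lit 70) (.cons (nat_lit 401) (nat_lit 200) (nat_lit 798) (.cons (nat_lit 2221) (nat_lit 1110) (nat_lit 4438) .nil))))
    (.cons (nat_lit 31) (nat_lit 15) (nat_lit 58) (.cons (nat_lit 61) (nat_lit 30) (nat_lit 118) (.cons (nat_lit 271) (nat_lit 135) (nat_lit 538) (.cons (nat_lit 4001) (nat_lit 2000) (nat_lit 7998) .nil))))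
    (.cons (nat_lit 19) (nat_lit 9) (nat_lit 34) (.cons (nat_lit 73) (nat_lit 36) (nat_lit 142) (.cons (nat_lit 181) (nat_lit 90) (nat_lit 358) (.cons (nat_lit 487) (nat_lit 243) (nat_lit 970) .nil))))
    (.cons (nat_lit 41) (nat_lit 20) (nat_lit 78) (.cons (nat_lit 241) (nat_lit 120) (nat_lit 478) (.cons (nat_lit 433) (nat_lit 216) (nat_lit 862) (.cons (nat_lit 1801) (nat_lit 900) (nat_lit 3598) (.cons (nat_lit 3121) (nat_lit 1560) (nat_lit 6238) .nil)))))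
    (.cons (nat_lit 29) (nat_lit 14) (nat_lit 54) (.cons (nat_lit 43) (nat_lit 21) (nat_lit 82) (.cons (nat_lit 71) (nat_lit 35) (nat_lit 138) (.cons (nat_lit 113) (nat_lit 56) (nat_lit 222) (.cons (nat_lit 127) (nat_lit 63) (nat_lit 250) (.cons (nat_lit 197) (nat_lit 98) (nat_lit 390) (.cons (nat_lit 211) (nat_lit 105) (nat_lit 418) (.cons (nat_lit 281) (nat_lit 140) (nat_lit 558) (.cons (nat_lit 337) (nat_lit 168) (nat_lit 670) (.cons (nat_lit 421) (nat_lit 210) (nat_lit 838) (.cons (nat_lit 631) (nat_lit 315) (nat_lit 1258) (.cons (nat_lit 1009) (nat_lit 504) (nat_lit 2014) (.cons (nat_lit 2143) (nat_lit 1071) (nat_lit 4282) (.cons (nat_lit 2521) (nat_lit 1260) (nat_lit 5038) (.cons (nat_lit 2801) (nat_lit 1400) (nat_lit 5598) (.cons (nat_lit 3697) (nat_lit 1848) (nat_lit 7390) (.cons (nat_lit 4789) (nat_lit 2394) (nat_lit 9574) (.cons (nat_lit 4957) (nat_lit 2478) (nat_lit 9910) .nil))))))))))))))))))) <|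
  .cons (nat_lit 67073) (.mk
    (.cons (nat_lit 131) (nat_lit 65) (nat_lit 258) .nil)
    (.cons (nat_lit 3) (nat_lit 1) (nat_lit 2) (.cons (nat_lit 7) (nat_lit 3) (nat_lit 10) (.cons (nat_lit 1597) (nat_lit 798) (nat_lit 3190) .nil)))
    (.cons (nat_lit 43) (nat_lit 21) (nat_lit 82) (.cons (nat_lit 1321) (nat_lit 660) (nat_lit 2638) .nil))
    (.cons (nat_lit 5) (nat_lit 2) (nat_lit 6) (.cons (nat_lit 13) (nat_lit 6) (nat_lit 22) (.cons (nat_lit 37) (nat_lit 18) (nat_lit 70) .nil)))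
    (.cons (nat_lit 11) (nat_lit 5) (nat_lit 18) (.cons (nat_lit 31) (nat_lit 15) (nat_lit 58) (.cons (nat_lit 61) (nat_lit 30) (nat_lit 118) (.cons (nat_lit 281) (nat_lit 140) (nat_lit 558) (.cons (nat_lit 1201) (nat_lit 600) (nat_lit 2398) .nil)))))
    (.cons (nat_lit 19) (nat_lit 9) (nat_lit 34) (.cons (nat_lit 109) (nat_lit 54) (nat_lit 214) (.cons (nat_lit 181) (nat_lit 90) (nat_lit 358) .nil)))
    (.cons (nat_lit 17) (nat_lit 8) (nat_lit 30) (.cons (nat_lit 41) (nat_lit 20) (nat_lit 78) (.cons (nat_lit 73) (nat_lit 36) (nat_lit 142) (.cons (nat_lit 241) (nat_lit 120) (nat_lit 478) (.cons (nat_lit 257) (nat_lit 128) (nat_lit 510) (.cons (nat_lit 433) (nat_lit 216) (nat_lit 862) (.cons (nat_lit 1153) (nat_lit 576) (nat_lit 2302) (.cons (nat_lit 3137) (nat_lit 1568) (nat_lit 6270) (.cons (nat_lit 4241) (nat_lit 2120) (nat_lit 8478) (.cons (nat_lit 4289) (nat_lit 2144) (nat_lit 8574) .nil))))))))))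
    (.cons (nat_lit 29) (nat_lit 14) (nat_lit 54) (.cons (nat_lit 71) (nat_lit 35) (nat_lit 138) (.cons (nat_lit 113) (nat_lit 56) (nat_lit 222) (.cons (nat_lit 127) (nat_lit 63) (nat_lit 250) (.cons (nat_lit 197) (nat_lit 98) (nat_lit 390) (.cons (nat_lit 211) (nat_lit 105) (nat_lit 418) (.cons (nat_lit 337) (nat_lit 168) (nat_lit 670) (.cons (nat_lit 421) (nat_lit 210) (nat_lit 838) (.cons (nat_lit 631) (nat_lit 315) (nat_lit 1258) (.cons (nat_lit 673) (nat_lit 336) (nat_lit 1342) (.cons (nat_lit 1009) (nat_lit 504) (nat_lit 2014) (.cons (nat_lit 2003) (nat_lit 1001) (nat_lit 4002) (.cons (nat_lit 2017) (nat_lit 1008) (nat_lit 4030) (.cons (nat_lit 2143) (nat_lit 1071) (nat_lit 4282) (.cons (nat_lit 2269) (nat_lit 1134) (nat_lit 4534) (.cons (nat_lit 2521) (nat_lit 1260) (nat_lit 5038) (.cons (nat_lit 2731) (nat_lit 1365) (nat_lit 5458) (.cons (nat_lit 3109) (nat_lit 1554) (nat_lit 6214) (.cons (nat_lit 3361)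 (nat_lit 1680) (nat_lit 6718) (.cons (nat_lit 3529) (nat_lit 1764) (nat_lit 7054) (.cons (nat_lit 4201) (nat_lit 2100) (nat_lit 8398) .nil)))))))))))))))))))))) <|
  .cons (nat_lit 69263) (.mk
    .nil
    (.cons (nat_lit 3) (nat_lit 1) (nat_lit 2) (.cons (nat_lit 13) (nat_lit 6) (nat_lit 22) (.cons (nat_lit 37) (nat_lit 18) (nat_lit 70) .nil)))
    (.cons (nat_lit 7) (nat_lit 3) (nat_lit 10) (.cons (nat_lit 19) (nat_lit 9) (nat_lit 34) (.cons (nat_lit 103) (nat_lit 51) (nat_lit 202) .nil)))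
    (.cons (nat_lit 5) (nat_lit 2) (nat_lit 6) .nil)
    (.cons (nat_lit 11) (nat_lit 5) (nat_lit 18) (.cons (nat_lit 31) (nat_lit 15) (nat_lit 58) (.cons (nat_lit 61) (nat_lit 30) (nat_lit 118) (.cons (nat_lit 151) (nat_lit 75) (nat_lit 298) (.cons (nat_lit 211) (nat_lit 105) (nat_lit 418) (.cons (nat_lit 241) (nat_lit 120) (nat_lit 478) (.cons (nat_lit 1201) (nat_lit 600) (nat_lit 2398) .nil)))))))
    (.cons (nat_lit 181) (nat_lit 90) (nat_lit 358) (.cons (nat_lit 541) (nat_lit 270) (nat_lit 1078) (.cons (nat_lit 631) (nat_lit 315) (nat_lit 1258) (.cons (nat_lit 811) (nat_lit 405) (nat_lit 1618) (.cons (nat_lit 2251) (nat_lit 1125) (nat_lit 4498) .nil)))))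
    (.cons (nat_lit 17) (nat_lit 8) (nat_lit 30) (.cons (nat_lit 41) (nat_lit 20) (nat_lit 78) (.cons (nat_lit 73) (nat_lit 36) (nat_lit 142) .nil)))
    (.cons (nat_lit 29) (nat_lit 14) (nat_lit 54) (.cons (nat_lit 43) (nat_lit 21) (nat_lit 82) (.cons (nat_lit 71) (nat_lit 35) (nat_lit 138) (.cons (nat_lit 113) (nat_lit 56) (nat_lit 222) (.cons (nat_lit 127) (nat_lit 63) (nat_lit 250) (.cons (nat_lit 281) (nat_lit 140) (nat_lit 558) (.cons (nat_lit 337) (nat_lit 168) (nat_lit 670) (.cons (nat_lit 379) (nat_lit 189) (nat_lit 754) (.cons (nat_lit 421) (nat_lit 210) (nat_lit 838) (.cons (nat_lit 673) (nat_lit 336) (nat_lit 1342) (.cons (nat_lit 757) (nat_lit 378) (nat_lit 1510) (.cons (nat_lit 953) (nat_lit 476) (nat_lit 1902) (.cons (nat_lit 1009) (nat_lit 504) (nat_lit 2014) (.cons (nat_lit 2129) (nat_lit 1064) (nat_lit 4254) (.cons (nat_lit 2269) (nat_lit 1134) (nat_lit 4534) (.cons (nat_lit 2437) (nat_lit 1218)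 (nat_lit 4870) (.cons (nat_lit 2521) (nat_lit 1260) (nat_lit 5038) (.cons (nat_lit 2801) (nat_lit 1400) (nat_lit 5598) (.cons (nat_lit 3529) (nat_lit 1764) (nat_lit 7054) (.cons (nat_lit 4481) (nat_lit 2240) (nat_lit 8958) .nil))))))))))))))))))))) <|
  .cons (nat_lit 70957) (.mk
    (.cons (nat_lit 3) (nat_lit 1) (nat_lit 2) (.cons (nat_lit 73) (nat_lit 36) (nat_lit 142) .nil))
    (.cons (nat_lit 17) (nat_lit 8) (nat_lit 30) (.cons (nat_lit 2087) (nat_lit 1043) (nat_lit 4170) .nil))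
    (.cons (nat_lit 7) (nat_lit 3) (nat_lit 10) (.cons (nat_lit 13) (nat_lit 6) (nat_lit 22) (.cons (nat_lit 19) (nat_lit 9) (nat_lit 34) (.cons (nat_lit 43) (nat_lit 21) (nat_lit 82) (.cons (nat_lit 61) (nat_lit 30) (nat_lit 118) .nil)))))
    (.cons (nat_lit 5) (nat_lit 2) (nat_lit 6) (.cons (nat_lit 401) (nat_lit 200) (nat_lit 798) (.cons (nat_lit 3889) (nat_lit 1944) (nat_lit 7774) .nil)))
    (.cons (nat_lit 11) (nat_lit 5) (nat_lit 18) (.cons (nat_lit 31) (nat_lit 15) (nat_lit 58) (.cons (nat_lit 181) (nat_lit 90) (nat_lit 358) (.cons (nat_lit 211) (nat_lit 105) (nat_lit 418) (.cons (nat_lit 821) (nat_lit 410) (nat_lit 1638) (.cons (nat_lit 3361) (nat_lit 1680) (nat_lit 6718) .nil))))))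
    (.cons (nat_lit 37) (nat_lit 18) (nat_lit 70) (.cons (nat_lit 109) (nat_lit 54) (nat_lit 214) (.cons (nat_lit 379) (nat_lit 189) (nat_lit 754) (.cons (nat_lit 1153) (nat_lit 576) (nat_lit 2302) (.cons (nat_lit 1621) (nat_lit 810) (nat_lit 3238) .nil)))))
    (.cons (nat_lit 41) (nat_lit 20) (nat_lit 78) (.cons (nat_lit 97) (nat_lit 48) (nat_lit 190) (.cons (nat_lit 241) (nat_lit 120) (nat_lit 478) (.cons (nat_lit 3169) (nat_lit 1584) (nat_lit 6334) .nil))))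
    (.cons (nat_lit 29) (nat_lit 14) (nat_lit 54) (.cons (nat_lit 71) (nat_lit 35) (nat_lit 138) (.cons (nat_lit 113) (nat_lit 56) (nat_lit 222) (.cons (nat_lit 127) (nat_lit 63) (nat_lit 250) (.cons (nat_lit 281) (nat_lit 140) (nat_lit 558) (.cons (nat_lit 337) (nat_lit 168) (nat_lit 670) (.cons (nat_lit 421) (nat_lit 210) (nat_lit 838) (.cons (nat_lit 463) (nat_lit 231) (nat_lit 922) (.cons (nat_lit 631) (nat_lit 315) (nat_lit 1258) (.cons (nat_lit 673) (nat_lit 336) (nat_lit 1342) (.cons (nat_lit 1009) (nat_lit 504) (nat_lit 2014) (.cons (nat_lit 1051) (nat_lit 525) (nat_lit 2098) (.cons (nat_lit 2521) (nat_lit 1260) (nat_lit 5038) (.cons (nat_lit 4201) (nat_lit 2100) (nat_lit 8398) .nil))))))))))))))) <|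
  .cons (nat_lit 71663) (.mk
    .nil
    (.cons (nat_lit 3) (nat_lit 1) (nat_lit 2) (.cons (nat_lit 1493) (nat_lit 746) (nat_lit 2982) .nil))
    (.cons (nat_lit 7) (nat_lit 3) (nat_lit 10) .nil)
    (.cons (nat_lit 5) (nat_lit 2) (nat_lit 6) (.cons (nat_lit 13) (nat_lit 6) (nat_lit 22) (.cons (nat_lit 37) (nat_lit 18) (nat_lit 70) (.cons (nat_lit 521) (nat_lit 260) (nat_lit 1038) .nil))))
    (.cons (nat_lit 11) (nat_lit 5) (nat_lit 18) (.cons (nat_lit 31) (nat_lit 15) (nat_lit 58) (.cons (nat_lit 41) (nat_lit 20) (nat_lit 78) (.cons (nat_lit 61) (nat_lit 30) (nat_lit 118) (.cons (nat_lit 211) (nat_lit 105) (nat_lit 418) .nil)))))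
    (.cons (nat_lit 19) (nat_lit 9) (nat_lit 34) (.cons (nat_lit 73) (nat_lit 36) (nat_lit 142) (.cons (nat_lit 181) (nat_lit 90) (nat_lit 358) (.cons (nat_lit 271) (nat_lit 135) (nat_lit 538) (.cons (nat_lit 397) (nat_lit 198) (nat_lit 790) (.cons (nat_lit 757) (nat_lit 378) (nat_lit 1510) (.cons (nat_lit 937) (nat_lit 468) (nat_lit 1870) (.cons (nat_lit 1531) (nat_lit 765) (nat_lit 3058) (.cons (nat_lit 1801) (nat_lit 900) (nat_lit 3598) .nil)))))))))
    (.cons (nat_lit 17) (nat_lit 8) (nat_lit 30) (.cons (nat_lit 241) (nat_lit 120) (nat_lit 478) .nil))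
    (.cons (nat_lit 29) (nat_lit 14) (nat_lit 54) (.cons (nat_lit 43) (nat_lit 21) (nat_lit 82) (.cons (nat_lit 71) (nat_lit 35) (nat_lit 138) (.cons (nat_lit 113) (nat_lit 56) (nat_lit 222) (.cons (nat_lit 127) (nat_lit 63) (nat_lit 250) (.cons (nat_lit 281) (nat_lit 140) (nat_lit 558) (.cons (nat_lit 337) (nat_lit 168) (nat_lit 670) (.cons (nat_lit 421) (nat_lit 210) (nat_lit 838) (.cons (nat_lit 631) (nat_lit 315) (nat_lit 1258) (.cons (nat_lit 673) (nat_lit 336) (nat_lit 1342) (.cons (nat_lit 1009) (nat_lit 504) (nat_lit 2014) (.cons (nat_lit 2521) (nat_lit 1260) (nat_lit 5038) (.cons (nat_lit 3361) (nat_lit 1680) (nat_lit 6718) (.cons (nat_lit 3529) (nat_lit 1764) (nat_lit 7054) .nil))))))))))))))) <|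
  .cons (nat_lit 74167) (.mk
    (.cons (nat_lit 3) (nat_lit 1) (nat_lit 2) (.cons (nat_lit 47) (nat_lit 23) (nat_lit 90) (.cons (nat_lit 263) (nat_lit 131) (nat_lit 522) .nil)))
    (.cons (nat_lit 73) (nat_lit 36) (nat_lit 142) (.cons (nat_lit 127) (nat_lit 63) (nat_lit 250) .nil))
    (.cons (nat_lit 7) (nat_lit 3) (nat_lit 10) (.cons (nat_lit 457) (nat_lit 228) (nat_lit 910) (.cons (nat_lit 1987) (nat_lit 993) (nat_lit 3970) .nil)))
    (.cons (nat_lit 5) (nat_lit 2) (nat_lit 6) (.cons (nat_lit 13) (nat_lit 6) (nat_lit 22) (.cons (nat_lit 17) (nat_lit 8) (nat_lit 30) (.cons (nat_lit 1061) (nat_lit 530) (nat_lit 2118) .nil))))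
    (.cons (nat_lit 11) (nat_lit 5) (nat_lit 18) (.cons (nat_lit 31) (nat_lit 15) (nat_lit 58) (.cons (nat_lit 41) (nat_lit 20) (nat_lit 78) (.cons (nat_lit 61) (nat_lit 30) (nat_lit 118) (.cons (nat_lit 271) (nat_lit 135) (nat_lit 538) (.cons (nat_lit 601) (nat_lit 300) (nat_lit 1198) (.cons (nat_lit 751) (nat_lit 375) (nat_lit 1498) .nil)))))))
    (.cons (nat_lit 19) (nat_lit 9) (nat_lit 34) (.cons (nat_lit 37) (nat_lit 18) (nat_lit 70) (.cons (nat_lit 181) (nat_lit 90) (nat_lit 358) (.cons (nat_lit 541) (nat_lit 270) (nat_lit 1078) (.cons (nat_lit 2539) (nat_lit 1269) (nat_lit 5074) .nil)))))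
    (.cons (nat_lit 193) (nat_lit 96) (nat_lit 382) (.cons (nat_lit 241) (nat_lit 120) (nat_lit 478) (.cons (nat_lit 1801) (nat_lit 900) (nat_lit 3598) (.cons (nat_lit 2833) (nat_lit 1416) (nat_lit 5662) .nil))))
    (.cons (nat_lit 29) (nat_lit 14) (nat_lit 54) (.cons (nat_lit 43) (nat_lit 21) (nat_lit 82) (.cons (nat_lit 71) (nat_lit 35) (nat_lit 138) (.cons (nat_lit 113) (nat_lit 56) (nat_lit 222) (.cons (nat_lit 211) (nat_lit 105) (nat_lit 418) (.cons (nat_lit 281) (nat_lit 140) (nat_lit 558) (.cons (nat_lit 337) (nat_lit 168) (nat_lit 670) (.cons (nat_lit 421) (nat_lit 210) (nat_lit 838) (.cons (nat_lit 449) (nat_lit 224) (nat_lit 894) (.cons (nat_lit 631) (nat_lit 315) (nat_lit 1258) (.cons (nat_lit 883) (nat_lit 441) (nat_lit 1762) (.cons (nat_lit 967) (nat_lit 483) (nat_lit 1930) (.cons (nat_lit 1009) (nat_lit 504) (nat_lit 2014) (.cons (nat_lit 1933) (nat_lit 966) (nat_lit 3862) (.cons (nat_lit 2017)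 (nat_lit 1008) (nat_lit 4030) (.cons (nat_lit 2521) (nat_lit 1260) (nat_lit 5038) (.cons (nat_lit 2689) (nat_lit 1344) (nat_lit 5374) (.cons (nat_lit 3361) (nat_lit 1680) (nat_lit 6718) .nil))))))))))))))))))) <|
  .nil

set_option maxRecDepth 100000 in
theorem pb2 : badck 5041 PB2 = true := by decide +kernel

/-- the primes -/
def LB2 : List ℕ := [44633, 44983, 46307, 46867, 47807, 49871, 50177, 52313, 53717, 54133, 55541, 58907, 58967, 59063, 60217, 60413, 61403, 61543, 61553, 63353, 63863, 64271, 66533, 66943, 66947, 67073, 69263, 70957, 71663, 74167]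

lemma lb2 : PB2.ps = LB2 := by decide +kernel

end OEX.K
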