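import Pool.Agent.OEX.KLst

/-!
Primes which need longer lists.
-/

namespace OEX.K

/-- the primes and their lists -/
def PB3 : PL :=
  .cons (nat_lit 74257) (.mk
    (.cons (nat_lit 3) (nat_lit 1) (nat_lit 2) (.cons (nat_lit 7) (nat_lit 3) (nat_lit 10) (.cons (nat_lit 13) (nat_lit 6) (nat_lit 22) (.cons (nat_lit 17) (nat_lit 8) (nat_lit 30) .nil))))
    (.cons (nat_lit 107) (nat_lit 53) (nat_lit 210) (.cons (nat_lit 347) (nat_lit 173) (nat_lit 690) .nil))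
    (.cons (nat_lit 211) (nat_lit 105) (nat_lit 418) (.cons (nat_lit 487) (nat_lit 243) (nat_lit 970) .nil))
    (.cons (nat_lit 5) (nat_lit 2) (nat_lit 6) (.cons (nat_lit 29) (nat_lit 14) (nat_lit 54) (.cons (nat_lit 257) (nat_lit 128) (nat_lit 510) (.cons (nat_lit 337) (nat_lit 168) (nat_lit 670) .nil))))
    (.cons (nat_lit 11) (nat_lit 5) (nat_lit 18) (.cons (nat_lit 31) (nat_lit 15) (nat_lit 58) (.cons (nat_lit 61) (nat_lit 30) (nat_lit 118) (.cons (nat_lit 271) (nat_lit 135) (nat_lit 538) (.cons (nat_lit 401) (nat_lit 200) (nat_lit 798) (.cons (nat_lit 421) (nat_lit 210) (nat_lit 838) (.cons (nat_lit 541) (nat_lit 270) (nat_lit 1078) (.cons (nat_lit 691) (nat_lit 345) (nat_lit 1378) (.cons (nat_lit 2311) (nat_lit 1155) (nat_lit 4618) (.cons (nat_lit 3691) (nat_lit 1845) (nat_lit 7378) .nil))))))))))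
    (.cons (nat_lit 19) (nat_lit 9) (nat_lit 34) (.cons (nat_lit 37) (nat_lit 18) (nat_lit 70) (.cons (nat_lit 73) (nat_lit 36) (nat_lit 142) (.cons (nat_lit 181) (nat_lit 90) (nat_lit 358) (.cons (nat_lit 4519) (nat_lit 2259) (nat_lit 9034) .nil)))))
    (.cons (nat_lit 41) (nat_lit 20) (nat_lit 78) (.cons (nat_lit 193) (nat_lit 96) (nat_lit 382) (.cons (nat_lit 241) (nat_lit 120) (nat_lit 478) (.cons (nat_lit 2161) (nat_lit 1080) (nat_lit 4318) (.cons (nat_lit 4657) (nat_lit 2328) (nat_lit 9310) .nil)))))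
    (.cons (nat_lit 43) (nat_lit 21) (nat_lit 82) (.cons (nat_lit 71) (nat_lit 35) (nat_lit 138) (.cons (nat_lit 113) (nat_lit 56) (nat_lit 222) (.cons (nat_lit 127) (nat_lit 63) (nat_lit 250) (.cons (nat_lit 281) (nat_lit 140) (nat_lit 558) (.cons (nat_lit 379) (nat_lit 189) (nat_lit 754) (.cons (nat_lit 463) (nat_lit 231) (nat_lit 922) (.cons (nat_lit 617) (nat_lit 308) (nat_lit 1230) (.cons (nat_lit 631) (nat_lit 315) (nat_lit 1258) (.cons (nat_lit 673) (nat_lit 336) (nat_lit 1342) (.cons (nat_lit 1009) (nat_lit 504) (nat_lit 2014) (.cons (nat_lit 1471) (nat_lit 735) (nat_lit 2938) (.cons (nat_lit 2017) (nat_lit 1008) (nat_lit 4030) (.cons (nat_lit 2521) (nat_lit 1260) (nat_lit 5038) (.cons (nat_lit 2801) (nat_lit 1400) (nat_lit 5598) (.cons (nat_lit 3361) (nat_lit 1680) (nat_lit 6718) (.cons (nat_lit 4789) (nat_lit 2394) (nat_lit 9574) (.cons (nat_lit 4957) (nat_lit 2478) (nat_lit 9910) .nil)))))))))))))))))))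 <|
  .cons (nat_lit 74923) (.mk
    (.cons (nat_lit 3) (nat_lit 1) (nat_lit 2) .nil)
    .nil
    (.cons (nat_lit 7) (nat_lit 3) (nat_lit 10) (.cons (nat_lit 13) (nat_lit 6) (nat_lit 22) (.cons (nat_lit 2017) (nat_lit 1008) (nat_lit 4030) .nil)))
    (.cons (nat_lit 5) (nat_lit 2) (nat_lit 6) (.cons (nat_lit 17) (nat_lit 8) (nat_lit 30) (.cons (nat_lit 1801) (nat_lit 900) (nat_lit 3598) .nil)))
    (.cons (nat_lit 11) (nat_lit 5) (nat_lit 18) (.cons (nat_lit 31) (nat_lit 15) (nat_lit 58) (.cons (nat_lit 41) (nat_lit 20) (nat_lit 78) (.cons (nat_lit 61) (nat_lit 30) (nat_lit 118) (.cons (nat_lit 811) (nat_lit 405) (nat_lit 1618) .nil)))))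
    (.cons (nat_lit 19) (nat_lit 9) (nat_lit 34) (.cons (nat_lit 37) (nat_lit 18) (nat_lit 70) (.cons (nat_lit 73) (nat_lit 36) (nat_lit 142) (.cons (nat_lit 181) (nat_lit 90) (nat_lit 358) (.cons (nat_lit 541) (nat_lit 270) (nat_lit 1078) .nil)))))
    (.cons (nat_lit 241) (nat_lit 120) (nat_lit 478) (.cons (nat_lit 4241) (nat_lit 2120) (nat_lit 8478) .nil))
    (.cons (nat_lit 29) (nat_lit 14) (nat_lit 54) (.cons (nat_lit 43) (nat_lit 21) (nat_lit 82) (.cons (nat_lit 71) (nat_lit 35) (nat_lit 138) (.cons (nat_lit 113) (nat_lit 56) (nat_lit 222) (.cons (nat_lit 127) (nat_lit 63) (nat_lit 250) (.cons (nat_lit 211) (nat_lit 105) (nat_lit 418) (.cons (nat_lit 281) (nat_lit 140) (nat_lit 558) (.cons (nat_lit 337) (nat_lit 168) (nat_lit 670) (.cons (nat_lit 379) (nat_lit 189) (nat_lit 754) (.cons (nat_lit 421) (nat_lit 210) (nat_lit 838) (.cons (nat_lit 631) (nat_lit 315) (nat_lit 1258) (.cons (nat_lit 673) (nat_lit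 336) (nat_lit 1342) (.cons (nat_lit 757) (nat_lit 378) (nat_lit 1510) (.cons (nat_lit 1009) (nat_lit 504) (nat_lit 2014) (.cons (nat_lit 2521) (nat_lit 1260) (nat_lit 5038) .nil)))))))))))))))) <|
  .cons (nat_lit 75553) (.mk
    (.cons (nat_lit 3) (nat_lit 1) (nat_lit 2) (.cons (nat_lit 787) (nat_lit 393) (nat_lit 1570) .nil))
    (.cons (nat_lit 37) (nat_lit 18) (nat_lit 70) (.cons (nat_lit 1021) (nat_lit 510) (nat_lit 2038) .nil))
    (.cons (nat_lit 7) (nat_lit 3) (nat_lit 10) (.cons (nat_lit 13) (nat_lit 6) (nat_lit 22) (.cons (nat_lit 31) (nat_lit 15) (nat_lit 58) (.cons (nat_lit 211) (nat_lit 105) (nat_lit 418) (.cons (nat_lit 811) (nat_lit 405) (nat_lit 1618) .nil)))))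
    (.cons (nat_lit 5) (nat_lit 2) (nat_lit 6) .nil)
    (.cons (nat_lit 11) (nat_lit 5) (nat_lit 18) (.cons (nat_lit 41) (nat_lit 20) (nat_lit 78) (.cons (nat_lit 61) (nat_lit 30) (nat_lit 118) (.cons (nat_lit 1321) (nat_lit 660) (nat_lit 2638) .nil))))
    (.cons (nat_lit 19) (nat_lit 9) (nat_lit 34) (.cons (nat_lit 73) (nat_lit 36) (nat_lit 142) (.cons (nat_lit 109) (nat_lit 54) (nat_lit 214) (.cons (nat_lit 181) (nat_lit 90) (nat_lit 358) (.cons (nat_lit 3061) (nat_lit 1530) (nat_lit 6118) .nil)))))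
    (.cons (nat_lit 17) (nat_lit 8) (nat_lit 30) (.cons (nat_lit 113) (nat_lit 56) (nat_lit 222) (.cons (nat_lit 241) (nat_lit 120) (nat_lit 478) (.cons (nat_lit 337) (nat_lit 168) (nat_lit 670) (.cons (nat_lit 1009) (nat_lit 504) (nat_lit 2014) (.cons (nat_lit 1201) (nat_lit 600) (nat_lit 2398) (.cons (nat_lit 2081) (nat_lit 1040) (nat_lit 4158) (.cons (nat_lit 3889) (nat_lit 1944) (nat_lit 7774) .nil))))))))
    (.cons (nat_lit 29) (nat_lit 14) (nat_lit 54) (.cons (nat_lit 43) (nat_lit 21) (nat_lit 82) (.cons (nat_lit 71) (nat_lit 35) (nat_lit 138) (.cons (nat_lit 127) (nat_lit 63) (nat_lit 250) (.cons (nat_lit 281) (nat_lit 140) (nat_lit 558) (.cons (nat_lit 421) (nat_lit 210) (nat_lit 838) (.cons (nat_lit 449) (nat_lit 224) (nat_lit 894) (.cons (nat_lit 631) (nat_lit 315) (nat_lit 1258) (.cons (nat_lit 1051) (nat_lit 525) (nat_lit 2098) (.cons (nat_lit 1471) (nat_lit 735) (nat_lit 2938) (.cons (nat_lit 2017)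 (nat_lit 1008) (nat_lit 4030) (.cons (nat_lit 2521) (nat_lit 1260) (nat_lit 5038) (.cons (nat_lit 2801) (nat_lit 1400) (nat_lit 5598) (.cons (nat_lit 3361) (nat_lit 1680) (nat_lit 6718) .nil))))))))))))))) <|
  .cons (nat_lit 75983) (.mk
    .nil
    (.cons (nat_lit 3) (nat_lit 1) (nat_lit 2) (.cons (nat_lit 1583) (nat_lit 791) (nat_lit 3162) .nil))
    (.cons (nat_lit 7) (nat_lit 3) (nat_lit 10) .nil)
    (.cons (nat_lit 5) (nat_lit 2) (nat_lit 6) (.cons (nat_lit 13) (nat_lit 6) (nat_lit 22) (.cons (nat_lit 2281) (nat_lit 1140) (nat_lit 4558) .nil)))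
    (.cons (nat_lit 11) (nat_lit 5) (nat_lit 18) (.cons (nat_lit 31) (nat_lit 15) (nat_lit 58) (.cons (nat_lit 41) (nat_lit 20) (nat_lit 78) (.cons (nat_lit 61) (nat_lit 30) (nat_lit 118) (.cons (nat_lit 211) (nat_lit 105) (nat_lit 418) (.cons (nat_lit 2971) (nat_lit 1485) (nat_lit 5938) (.cons (nat_lit 3331) (nat_lit 1665) (nat_lit 6658) .nil)))))))
    (.cons (nat_lit 19) (nat_lit 9) (nat_lit 34) (.cons (nat_lit 37) (nat_lit 18) (nat_lit 70) (.cons (nat_lit 127) (nat_lit 63) (nat_lit 250) (.cons (nat_lit 181) (nat_lit 90) (nat_lit 358) (.cons (nat_lit 991) (nat_lit 495) (nat_lit 1978) (.cons (nat_lit 1801) (nat_lit 900) (nat_lit 3598) (.cons (nat_lit 3061) (nat_lit 1530) (nat_lit 6118) (.cons (nat_lit 3943) (nat_lit 1971) (nat_lit 7882) .nil))))))))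
    (.cons (nat_lit 17) (nat_lit 8) (nat_lit 30) (.cons (nat_lit 73) (nat_lit 36) (nat_lit 142) (.cons (nat_lit 97) (nat_lit 48) (nat_lit 190) (.cons (nat_lit 193) (nat_lit 96) (nat_lit 382) (.cons (nat_lit 241) (nat_lit 120) (nat_lit 478) (.cons (nat_lit 1657) (nat_lit 828) (nat_lit 3310) (.cons (nat_lit 3313) (nat_lit 1656) (nat_lit 6622) (.cons (nat_lit 3617) (nat_lit 1808) (nat_lit 7230) .nil))))))))
    (.cons (nat_lit 29) (nat_lit 14) (nat_lit 54) (.cons (nat_lit 43) (nat_lit 21) (nat_lit 82) (.cons (nat_lit 71) (nat_lit 35) (nat_lit 138) (.cons (nat_lit 113) (nat_lit 56) (nat_lit 222) (.cons (nat_lit 281) (nat_lit 140) (nat_lit 558) (.cons (nat_lit 337) (nat_lit 168) (nat_lit 670) (.cons (nat_lit 379) (nat_lit 189) (nat_lit 754) (.cons (nat_lit 421) (nat_lit 210) (nat_lit 838) (.cons (nat_lit 463) (nat_lit 231) (nat_lit 922) (.cons (nat_lit 631) (nat_lit 315) (nat_lit 1258) (.cons (nat_lit 883) (nat_lit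 441) (nat_lit 1762) (.cons (nat_lit 1009) (nat_lit 504) (nat_lit 2014) (.cons (nat_lit 1471) (nat_lit 735) (nat_lit 2938) (.cons (nat_lit 2017) (nat_lit 1008) (nat_lit 4030) (.cons (nat_lit 2521) (nat_lit 1260) (nat_lit 5038) .nil)))))))))))))))) <|
  .cons (nat_lit 76147) (.mk
    (.cons (nat_lit 3) (nat_lit 1) (nat_lit 2) (.cons (nat_lit 7) (nat_lit 3) (nat_lit 10) (.cons (nat_lit 37) (nat_lit 18) (nat_lit 70) .nil)))
    .nil
    (.cons (nat_lit 43) (nat_lit 21) (nat_lit 82) (.cons (nat_lit 73) (nat_lit 36) (nat_lit 142) (.cons (nat_lit 2341) (nat_lit 1170) (nat_lit 4678) .nil)))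
    (.cons (nat_lit 5) (nat_lit 2) (nat_lit 6) (.cons (nat_lit 13) (nat_lit 6) (nat_lit 22) (.cons (nat_lit 17) (nat_lit 8) (nat_lit 30) (.cons (nat_lit 113) (nat_lit 56) (nat_lit 222) .nil))))
    (.cons (nat_lit 11) (nat_lit 5) (nat_lit 18) (.cons (nat_lit 31) (nat_lit 15) (nat_lit 58) (.cons (nat_lit 41) (nat_lit 20) (nat_lit 78) (.cons (nat_lit 61) (nat_lit 30) (nat_lit 118) (.cons (nat_lit 241) (nat_lit 120) (nat_lit 478) (.cons (nat_lit 991) (nat_lit 495) (nat_lit 1978) .nil))))))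
    (.cons (nat_lit 19) (nat_lit 9) (nat_lit 34) (.cons (nat_lit 181) (nat_lit 90) (nat_lit 358) .nil))
    (.cons (nat_lit 89) (nat_lit 44) (nat_lit 174) (.cons (nat_lit 97) (nat_lit 48) (nat_lit 190) (.cons (nat_lit 2161) (nat_lit 1080) (nat_lit 4318) (.cons (nat_lit 3121) (nat_lit 1560) (nat_lit 6238) .nil))))
    (.cons (nat_lit 29) (nat_lit 14) (nat_lit 54) (.cons (nat_lit 71) (nat_lit 35) (nat_lit 138) (.cons (nat_lit 127) (nat_lit 63) (nat_lit 250) (.cons (nat_lit 211) (nat_lit 105) (nat_lit 418) (.cons (nat_lit 281) (nat_lit 140) (nat_lit 558) (.cons (nat_lit 337) (nat_lit 168) (nat_lit 670) (.cons (nat_lit 421) (nat_lit 210) (nat_lit 838) (.cons (nat_lit 631) (nat_lit 315) (nat_lit 1258) (.cons (nat_lit 673) (nat_lit 336) (nat_lit 1342) (.cons (nat_lit 1009) (nat_lit 504) (nat_lit 2014) (.cons (nat_lit 2017) (nat_lit 1008) (nat_lit 4030) (.cons (nat_lit 2521) (nat_lit 1260) (nat_lit 5038) (.cons (nat_lit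 2591) (nat_lit 1295) (nat_lit 5178) (.cons (nat_lit 3361) (nat_lit 1680) (nat_lit 6718) .nil))))))))))))))) <|
  .cons (nat_lit 77323) (.mk
    (.cons (nat_lit 3) (nat_lit 1) (nat_lit 2) (.cons (nat_lit 7) (nat_lit 3) (nat_lit 10) (.cons (nat_lit 263) (nat_lit 131) (nat_lit 522) .nil)))
    (.cons (nat_lit 13) (nat_lit 6) (nat_lit 22) (.cons (nat_lit 1487) (nat_lit 743) (nat_lit 2970) .nil))
    (.cons (nat_lit 19) (nat_lit 9) (nat_lit 34) (.cons (nat_lit 127) (nat_lit 63) (nat_lit 250) (.cons (nat_lit 3313) (nat_lit 1656) (nat_lit 6622) (.cons (nat_lit 4999) (nat_lit 2499) (nat_lit 9994) .nil))))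
    (.cons (nat_lit 5) (nat_lit 2) (nat_lit 6) .nil)
    (.cons (nat_lit 11) (nat_lit 5) (nat_lit 18) (.cons (nat_lit 31) (nat_lit 15) (nat_lit 58) (.cons (nat_lit 61) (nat_lit 30) (nat_lit 118) (.cons (nat_lit 181) (nat_lit 90) (nat_lit 358) (.cons (nat_lit 1291) (nat_lit 645) (nat_lit 2578) .nil)))))
    (.cons (nat_lit 37) (nat_lit 18) (nat_lit 70) (.cons (nat_lit 73) (nat_lit 36) (nat_lit 142) (.cons (nat_lit 1621) (nat_lit 810) (nat_lit 3238) .nil)))
    (.cons (nat_lit 17) (nat_lit 8) (nat_lit 30) (.cons (nat_lit 41) (nat_lit 20) (nat_lit 78) (.cons (nat_lit 241) (nat_lit 120) (nat_lit 478) (.cons (nat_lit 521) (nat_lit 260) (nat_lit 1038) (.cons (nat_lit 1153) (nat_lit 576) (nat_lit 2302) (.cons (nat_lit 1601) (nat_lit 800) (nat_lit 3198) (.cons (nat_lit 1777) (nat_lit 888) (nat_lit 3550) (.cons (nat_lit 2521) (nat_lit 1260) (nat_lit 5038) .nil))))))))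
    (.cons (nat_lit 29) (nat_lit 14) (nat_lit 54) (.cons (nat_lit 43) (nat_lit 21) (nat_lit 82) (.cons (nat_lit 71) (nat_lit 35) (nat_lit 138) (.cons (nat_lit 113) (nat_lit 56) (nat_lit 222) (.cons (nat_lit 211) (nat_lit 105) (nat_lit 418) (.cons (nat_lit 281) (nat_lit 140) (nat_lit 558) (.cons (nat_lit 337) (nat_lit 168) (nat_lit 670) (.cons (nat_lit 421) (nat_lit 210) (nat_lit 838) (.cons (nat_lit 491) (nat_lit 245) (nat_lit 978) (.cons (nat_lit 547) (nat_lit 273) (nat_lit 1090) (.cons (nat_lit 631) (nat_lit 315) (nat_lit 1258) (.cons (nat_lit 673) (nat_lit 336) (nat_lit 1342) (.cons (nat_lit 757) (nat_lit 378) (nat_lit 1510) (.cons (nat_lit 1009) (nat_lit 504) (nat_lit 2014) (.cons (nat_lit 1597) (nat_lit 798) (nat_lit 3190) (.cons (nat_lit 2017) (nat_lit 1008) (nat_lit 4030) (.cons (nat_lit 2297) (nat_lit 1148) (nat_lit 4590) (.cons (nat_lit 3361) (nat_lit 1680) (nat_lit 6718) (.cons (nat_lit 3529) (nat_lit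 1764) (nat_lit 7054) (.cons (nat_lit 4201) (nat_lit 2100) (nat_lit 8398) .nil))))))))))))))))))))) <|
  .cons (nat_lit 77513) (.mk
    .nil
    (.cons (nat_lit 3) (nat_lit 1) (nat_lit 2) .nil)
    (.cons (nat_lit 7) (nat_lit 3) (nat_lit 10) (.cons (nat_lit 19) (nat_lit 9) (nat_lit 34) (.cons (nat_lit 103) (nat_lit 51) (nat_lit 202) (.cons (nat_lit 1129) (nat_lit 564) (nat_lit 2254) .nil))))
    (.cons (nat_lit 5) (nat_lit 2) (nat_lit 6) (.cons (nat_lit 13) (nat_lit 6) (nat_lit 22) .nil))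
    (.cons (nat_lit 11) (nat_lit 5) (nat_lit 18) (.cons (nat_lit 31) (nat_lit 15) (nat_lit 58) (.cons (nat_lit 41) (nat_lit 20) (nat_lit 78) (.cons (nat_lit 61) (nat_lit 30) (nat_lit 118) .nil))))
    (.cons (nat_lit 37) (nat_lit 18) (nat_lit 70) (.cons (nat_lit 181) (nat_lit 90) (nat_lit 358) (.cons (nat_lit 811) (nat_lit 405) (nat_lit 1618) (.cons (nat_lit 1171) (nat_lit 585) (nat_lit 2338) (.cons (nat_lit 4951) (nat_lit 2475) (nat_lit 9898) .nil)))))
    (.cons (nat_lit 17) (nat_lit 8) (nat_lit 30) (.cons (nat_lit 73) (nat_lit 36) (nat_lit 142) (.cons (nat_lit 241) (nat_lit 120) (nat_lit 478) (.cons (nat_lit 577) (nat_lit 288) (nat_lit 1150) (.cons (nat_lit 2161) (nat_lit 1080) (nat_lit 4318) (.cons (nat_lit 2593) (nat_lit 1296) (nat_lit 5182) .nil))))))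
    (.cons (nat_lit 29) (nat_lit 14) (nat_lit 54) (.cons (nat_lit 43) (nat_lit 21) (nat_lit 82) (.cons (nat_lit 71) (nat_lit 35) (nat_lit 138) (.cons (nat_lit 113) (nat_lit 56) (nat_lit 222) (.cons (nat_lit 127) (nat_lit 63) (nat_lit 250) (.cons (nat_lit 211) (nat_lit 105) (nat_lit 418) (.cons (nat_lit 281) (nat_lit 140) (nat_lit 558) (.cons (nat_lit 337) (nat_lit 168) (nat_lit 670) (.cons (nat_lit 421) (nat_lit 210) (nat_lit 838) (.cons (nat_lit 631) (nat_lit 315) (nat_lit 1258) (.cons (nat_lit 659) (nat_lit 329) (nat_lit 1314) (.cons (nat_lit 1009) (nat_lit 504) (nat_lit 2014) (.cons (nat_lit 2017) (nat_lit 1008) (nat_lit 4030) (.cons (nat_lit 2129) (nat_lit 1064) (nat_lit 4254) (.cons (nat_lit 2521) (nat_lit 1260) (nat_lit 5038) (.cons (nat_lit 2857) (nat_lit 1428) (nat_lit 5710) (.cons (nat_lit 3361) (nat_lit 1680) (nat_lit 6718) (.cons (nat_lit 4957) (nat_lit 2478) (nat_lit 9910) .nil)))))))))))))))))))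 <|
  .cons (nat_lit 77723) (.mk
    .nil
    (.cons (nat_lit 3) (nat_lit 1) (nat_lit 2) (.cons (nat_lit 17) (nat_lit 8) (nat_lit 30) (.cons (nat_lit 127) (nat_lit 63) (nat_lit 250) .nil)))
    (.cons (nat_lit 7) (nat_lit 3) (nat_lit 10) (.cons (nat_lit 13) (nat_lit 6) (nat_lit 22) (.cons (nat_lit 31) (nat_lit 15) (nat_lit 58) (.cons (nat_lit 313) (nat_lit 156) (nat_lit 622) .nil))))
    (.cons (nat_lit 5) (nat_lit 2) (nat_lit 6) (.cons (nat_lit 37) (nat_lit 18) (nat_lit 70) (.cons (nat_lit 1901) (nat_lit 950) (nat_lit 3798) (.cons (nat_lit 3253) (nat_lit 1626) (nat_lit 6502) .nil))))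
    (.cons (nat_lit 11) (nat_lit 5) (nat_lit 18) (.cons (nat_lit 61) (nat_lit 30) (nat_lit 118) (.cons (nat_lit 181) (nat_lit 90) (nat_lit 358) (.cons (nat_lit 331) (nat_lit 165) (nat_lit 658) (.cons (nat_lit 421) (nat_lit 210) (nat_lit 838) (.cons (nat_lit 691) (nat_lit 345) (nat_lit 1378) .nil))))))
    (.cons (nat_lit 19) (nat_lit 9) (nat_lit 34) (.cons (nat_lit 1621) (nat_lit 810) (nat_lit 3238) .nil))
    (.cons (nat_lit 41) (nat_lit 20) (nat_lit 78) (.cons (nat_lit 73) (nat_lit 36) (nat_lit 142) (.cons (nat_lit 241) (nat_lit 120) (nat_lit 478) (.cons (nat_lit 433) (nat_lit 216) (nat_lit 862) (.cons (nat_lit 2593) (nat_lit 1296) (nat_lit 5182) .nil)))))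
    (.cons (nat_lit 29) (nat_lit 14) (nat_lit 54) (.cons (nat_lit 43) (nat_lit 21) (nat_lit 82) (.cons (nat_lit 71) (nat_lit 35) (nat_lit 138) (.cons (nat_lit 113) (nat_lit 56) (nat_lit 222) (.cons (nat_lit 211) (nat_lit 105) (nat_lit 418) (.cons (nat_lit 281) (nat_lit 140) (nat_lit 558) (.cons (nat_lit 337) (nat_lit 168) (nat_lit 670) (.cons (nat_lit 631) (nat_lit 315) (nat_lit 1258) (.cons (nat_lit 1009) (nat_lit 504) (nat_lit 2014) (.cons (nat_lit 1289) (nat_lit 644) (nat_lit 2574) (.cons (nat_lit 2017) (nat_lit 1008) (nat_lit 4030) (.cons (nat_lit 2521) (nat_lit 1260) (nat_lit 5038) (.cons (nat_lit 2969) (nat_lit 1484) (nat_lit 5934) (.cons (nat_lit 3361) (nat_lit 1680) (nat_lit 6718) (.cons (nat_lit 4271) (nat_lit 2135) (nat_lit 8538) (.cons (nat_lit 4831) (nat_lit 2415) (nat_lit 9658) .nil))))))))))))))))) <|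
  .cons (nat_lit 78163) (.mk
    (.cons (nat_lit 3) (nat_lit 1) (nat_lit 2) (.cons (nat_lit 7) (nat_lit 3) (nat_lit 10) (.cons (nat_lit 1861) (nat_lit 930) (nat_lit 3718) .nil)))
    .nil
    .nil
    (.cons (nat_lit 5) (nat_lit 2) (nat_lit 6) (.cons (nat_lit 13) (nat_lit 6) (nat_lit 22) .nil))
    (.cons (nat_lit 11) (nat_lit 5) (nat_lit 18) (.cons (nat_lit 31) (nat_lit 15) (nat_lit 58) (.cons (nat_lit 61) (nat_lit 30) (nat_lit 118) (.cons (nat_lit 181) (nat_lit 90) (nat_lit 358) (.cons (nat_lit 251) (nat_lit 125) (nat_lit 498) (.cons (nat_lit 2351) (nat_lit 1175) (nat_lit 4698) (.cons (nat_lit 3121) (nat_lit 1560) (nat_lit 6238) (.cons (nat_lit 3271) (nat_lit 1635) (nat_lit 6538) .nil))))))))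
    (.cons (nat_lit 19) (nat_lit 9) (nat_lit 34) (.cons (nat_lit 37) (nat_lit 18) (nat_lit 70) (.cons (nat_lit 4789) (nat_lit 2394) (nat_lit 9574) .nil)))
    (.cons (nat_lit 17) (nat_lit 8) (nat_lit 30) (.cons (nat_lit 41) (nat_lit 20) (nat_lit 78) (.cons (nat_lit 73) (nat_lit 36) (nat_lit 142) (.cons (nat_lit 241) (nat_lit 120) (nat_lit 478) (.cons (nat_lit 401) (nat_lit 200) (nat_lit 798) (.cons (nat_lit 2161) (nat_lit 1080) (nat_lit 4318) .nil))))))
    (.cons (nat_lit 29) (nat_lit 14) (nat_lit 54) (.cons (nat_lit 43) (nat_lit 21) (nat_lit 82) (.cons (nat_lit 71) (nat_lit 35) (nat_lit 138) (.cons (nat_lit 113) (nat_lit 56) (nat_lit 222) (.cons (nat_lit 127) (nat_lit 63) (nat_lit 250) (.cons (nat_lit 211) (nat_lit 105) (nat_lit 418) (.cons (nat_lit 239) (nat_lit 119) (nat_lit 474) (.cons (nat_lit 281) (nat_lit 140) (nat_lit 558) (.cons (nat_lit 337) (nat_lit 168) (nat_lit 670) (.cons (nat_lit 421) (nat_lit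 210) (nat_lit 838) (.cons (nat_lit 631) (nat_lit 315) (nat_lit 1258) (.cons (nat_lit 673) (nat_lit 336) (nat_lit 1342) (.cons (nat_lit 757) (nat_lit 378) (nat_lit 1510) (.cons (nat_lit 1009) (nat_lit 504) (nat_lit 2014) (.cons (nat_lit 2129) (nat_lit 1064) (nat_lit 4254) (.cons (nat_lit 2143) (nat_lit 1071) (nat_lit 4282) (.cons (nat_lit 2521) (nat_lit 1260) (nat_lit 5038) (.cons (nat_lit 3697) (nat_lit 1848) (nat_lit 7390) (.cons (nat_lit 4621) (nat_lit 2310) (nat_lit 9238) .nil)))))))))))))))))))) <|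
  .cons (nat_lit 79987) (.mk
    (.cons (nat_lit 3) (nat_lit 1) (nat_lit 2) .nil)
    .nil
    (.cons (nat_lit 7) (nat_lit 3) (nat_lit 10) (.cons (nat_lit 43) (nat_lit 21) (nat_lit 82) (.cons (nat_lit 193) (nat_lit 96) (nat_lit 382) (.cons (nat_lit 1627) (nat_lit 813) (nat_lit 3250) .nil))))
    (.cons (nat_lit 5) (nat_lit 2) (nat_lit 6) (.cons (nat_lit 13) (nat_lit 6) (nat_lit 22) (.cons (nat_lit 4273) (nat_lit 2136) (nat_lit 8542) .nil)))
    (.cons (nat_lit 11) (nat_lit 5) (nat_lit 18) (.cons (nat_lit 31) (nat_lit 15) (nat_lit 58) (.cons (nat_lit 41) (nat_lit 20) (nat_lit 78) (.cons (nat_lit 61) (nat_lit 30) (nat_lit 118) (.cons (nat_lit 241) (nat_lit 120) (nat_lit 478) (.cons (nat_lit 1321) (nat_lit 660) (nat_lit 2638) (.cons (nat_lit 1621) (nat_lit 810) (nat_lit 3238) .nil)))))))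
    (.cons (nat_lit 19) (nat_lit 9) (nat_lit 34) (.cons (nat_lit 37) (nat_lit 18) (nat_lit 70) (.cons (nat_lit 109) (nat_lit 54) (nat_lit 214) (.cons (nat_lit 181) (nat_lit 90) (nat_lit 358) .nil))))
    (.cons (nat_lit 17) (nat_lit 8) (nat_lit 30) (.cons (nat_lit 73) (nat_lit 36) (nat_lit 142) (.cons (nat_lit 401) (nat_lit 200) (nat_lit 798) (.cons (nat_lit 577) (nat_lit 288) (nat_lit 1150) (.cons (nat_lit 1009) (nat_lit 504) (nat_lit 2014) (.cons (nat_lit 1201) (nat_lit 600) (nat_lit 2398) .nil))))))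
    (.cons (nat_lit 29) (nat_lit 14) (nat_lit 54) (.cons (nat_lit 71) (nat_lit 35) (nat_lit 138) (.cons (nat_lit 113) (nat_lit 56) (nat_lit 222) (.cons (nat_lit 127) (nat_lit 63) (nat_lit 250) (.cons (nat_lit 211) (nat_lit 105) (nat_lit 418) (.cons (nat_lit 281) (nat_lit 140) (nat_lit 558) (.cons (nat_lit 337) (nat_lit 168) (nat_lit 670) (.cons (nat_lit 421) (nat_lit 210) (nat_lit 838) (.cons (nat_lit 631) (nat_lit 315) (nat_lit 1258) (.cons (nat_lit 673) (nat_lit 336) (nat_lit 1342) (.cons (nat_lit 757) (nat_lit 378) (nat_lit 1510) (.cons (nat_lit 2017) (nat_lit 1008) (nat_lit 4030) (.cons (nat_lit 2311) (nat_lit 1155) (nat_lit 4618) (.cons (nat_lit 2521) (nat_lit 1260) (nat_lit 5038) (.cons (nat_lit 2731) (nat_lit 1365) (nat_lit 5458) (.cons (nat_lit 2857) (nat_lit 1428) (nat_lit 5710) (.cons (nat_lit 3137) (nat_lit 1568) (nat_lit 6270) (.cons (nat_lit 3361) (nat_lit 1680) (nat_lit 6718) (.cons (nat_lit 4159)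 (nat_lit 2079) (nat_lit 8314) (.cons (nat_lit 4201) (nat_lit 2100) (nat_lit 8398) (.cons (nat_lit 4621) (nat_lit 2310) (nat_lit 9238) .nil)))))))))))))))))))))) <|
  .cons (nat_lit 84463) (.mk
    (.cons (nat_lit 3) (nat_lit 1) (nat_lit 2) (.cons (nat_lit 7) (nat_lit 3) (nat_lit 10) (.cons (nat_lit 2011) (nat_lit 1005) (nat_lit 4018) .nil)))
    .nil
    (.cons (nat_lit 19) (nat_lit 9) (nat_lit 34) .nil)
    (.cons (nat_lit 5) (nat_lit 2) (nat_lit 6) (.cons (nat_lit 13) (nat_lit 6) (nat_lit 22) (.cons (nat_lit 37) (nat_lit 18) (nat_lit 70) .nil)))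
    (.cons (nat_lit 11) (nat_lit 5) (nat_lit 18) (.cons (nat_lit 31) (nat_lit 15) (nat_lit 58) (.cons (nat_lit 61) (nat_lit 30) (nat_lit 118) (.cons (nat_lit 181) (nat_lit 90) (nat_lit 358) (.cons (nat_lit 3361) (nat_lit 1680) (nat_lit 6718) (.cons (nat_lit 4561) (nat_lit 2280) (nat_lit 9118) .nil))))))
    (.cons (nat_lit 73) (nat_lit 36) (nat_lit 142) (.cons (nat_lit 2647) (nat_lit 1323) (nat_lit 5290) .nil))
    (.cons (nat_lit 17) (nat_lit 8) (nat_lit 30) (.cons (nat_lit 41) (nat_lit 20) (nat_lit 78) (.cons (nat_lit 97) (nat_lit 48) (nat_lit 190) (.cons (nat_lit 241) (nat_lit 120) (nat_lit 478) (.cons (nat_lit 401) (nat_lit 200) (nat_lit 798) (.cons (nat_lit 1153) (nat_lit 576) (nat_lit 2302) (.cons (nat_lit 1201) (nat_lit 600) (nat_lit 2398) (.cons (nat_lit 1249) (nat_lit 624) (nat_lit 2494) (.cons (nat_lit 3121) (nat_lit 1560) (nat_lit 6238) .nil)))))))))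
    (.cons (nat_lit 29) (nat_lit 14) (nat_lit 54) (.cons (nat_lit 43) (nat_lit 21) (nat_lit 82) (.cons (nat_lit 71) (nat_lit 35) (nat_lit 138) (.cons (nat_lit 113) (nat_lit 56) (nat_lit 222) (.cons (nat_lit 127) (nat_lit 63) (nat_lit 250) (.cons (nat_lit 211) (nat_lit 105) (nat_lit 418) (.cons (nat_lit 281) (nat_lit 140) (nat_lit 558) (.cons (nat_lit 337) (nat_lit 168) (nat_lit 670) (.cons (nat_lit 421) (nat_lit 210) (nat_lit 838) (.cons (nat_lit 449) (nat_lit 224) (nat_lit 894) (.cons (nat_lit 631) (nat_lit 315) (nat_lit 1258) (.cons (nat_lit 673) (nat_lit 336) (nat_lit 1342) (.cons (nat_lit 1009) (nat_lit 504) (nat_lit 2014) (.cons (nat_lit 2017) (nat_lit 1008) (nat_lit 4030) (.cons (nat_lit 2381) (nat_lit 1190) (nat_lit 4758) (.cons (nat_lit 2521) (nat_lit 1260) (nat_lit 5038) (.cons (nat_lit 2591) (nat_lit 1295) (nat_lit 5178) (.cons (nat_lit 2801) (nat_lit 1400) (nat_lit 5598) (.cons (nat_lit 4817) (nat_lit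 2408) (nat_lit 9630) .nil)))))))))))))))))))) <|
  .cons (nat_lit 84503) (.mk
    (.cons (nat_lit 11) (nat_lit 5) (nat_lit 18) (.cons (nat_lit 23) (nat_lit 11) (nat_lit 42) (.cons (nat_lit 167) (nat_lit 83) (nat_lit 330) .nil)))
    (.cons (nat_lit 3) (nat_lit 1) (nat_lit 2) (.cons (nat_lit 7) (nat_lit 3) (nat_lit 10) (.cons (nat_lit 503) (nat_lit 251) (nat_lit 1002) .nil)))
    (.cons (nat_lit 13) (nat_lit 6) (nat_lit 22) (.cons (nat_lit 2803) (nat_lit 1401) (nat_lit 5602) (.cons (nat_lit 3319) (nat_lit 1659) (nat_lit 6634) .nil)))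
    (.cons (nat_lit 5) (nat_lit 2) (nat_lit 6) (.cons (nat_lit 17) (nat_lit 8) (nat_lit 30) (.cons (nat_lit 97) (nat_lit 48) (nat_lit 190) .nil)))
    (.cons (nat_lit 31) (nat_lit 15) (nat_lit 58) (.cons (nat_lit 41) (nat_lit 20) (nat_lit 78) (.cons (nat_lit 61) (nat_lit 30) (nat_lit 118) (.cons (nat_lit 1861) (nat_lit 930) (nat_lit 3718) .nil))))
    (.cons (nat_lit 19) (nat_lit 9) (nat_lit 34) (.cons (nat_lit 37) (nat_lit 18) (nat_lit 70) (.cons (nat_lit 181) (nat_lit 90) (nat_lit 358) (.cons (nat_lit 1117) (nat_lit 558) (nat_lit 2230) (.cons (nat_lit 1171) (nat_lit 585) (nat_lit 2338) (.cons (nat_lit 1549) (nat_lit 774) (nat_lit 3094) (.cons (nat_lit 1801) (nat_lit 900) (nat_lit 3598) (.cons (nat_lit 3259) (nat_lit 1629) (nat_lit 6514) .nil))))))))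
    (.cons (nat_lit 73) (nat_lit 36) (nat_lit 142) (.cons (nat_lit 241) (nat_lit 120) (nat_lit 478) (.cons (nat_lit 401) (nat_lit 200) (nat_lit 798) .nil)))
    (.cons (nat_lit 29) (nat_lit 14) (nat_lit 54) (.cons (nat_lit 43) (nat_lit 21) (nat_lit 82) (.cons (nat_lit 71) (nat_lit 35) (nat_lit 138) (.cons (nat_lit 113) (nat_lit 56) (nat_lit 222) (.cons (nat_lit 127) (nat_lit 63) (nat_lit 250) (.cons (nat_lit 211) (nat_lit 105) (nat_lit 418) (.cons (nat_lit 281) (nat_lit 140) (nat_lit 558) (.cons (nat_lit 337) (nat_lit 168) (nat_lit 670) (.cons (nat_lit 379) (nat_lit 189) (nat_lit 754) (.cons (nat_lit 421) (nat_lit 210) (nat_lit 838) (.cons (nat_lit 631) (nat_lit 315) (nat_lit 1258) (.cons (nat_lit 673) (nat_lit 336) (nat_lit 1342) (.cons (nat_lit 1009) (nat_lit 504) (nat_lit 2014) (.cons (nat_lit 2521) (nat_lit 1260) (nat_lit 5038) (.cons (nat_lit 3361) (nat_lit 1680) (nat_lit 6718) (.cons (nat_lit 3529) (nat_lit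 1764) (nat_lit 7054) (.cons (nat_lit 4201) (nat_lit 2100) (nat_lit 8398) .nil)))))))))))))))))) <|
  .cons (nat_lit 85037) (.mk
    (.cons (nat_lit 7) (nat_lit 3) (nat_lit 10) (.cons (nat_lit 3037) (nat_lit 1518) (nat_lit 6070) .nil))
    (.cons (nat_lit 3) (nat_lit 1) (nat_lit 2) .nil)
    (.cons (nat_lit 13) (nat_lit 6) (nat_lit 22) (.cons (nat_lit 19) (nat_lit 9) (nat_lit 34) (.cons (nat_lit 37) (nat_lit 18) (nat_lit 70) (.cons (nat_lit 73) (nat_lit 36) (nat_lit 142) (.cons (nat_lit 313) (nat_lit 156) (nat_lit 622) (.cons (nat_lit 3613) (nat_lit 1806) (nat_lit 7222) .nil))))))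
    (.cons (nat_lit 5) (nat_lit 2) (nat_lit 6) .nil)
    (.cons (nat_lit 11) (nat_lit 5) (nat_lit 18) (.cons (nat_lit 31) (nat_lit 15) (nat_lit 58) (.cons (nat_lit 61) (nat_lit 30) (nat_lit 118) (.cons (nat_lit 241) (nat_lit 120) (nat_lit 478) (.cons (nat_lit 271) (nat_lit 135) (nat_lit 538) (.cons (nat_lit 1471) (nat_lit 735) (nat_lit 2938) .nil))))))
    (.cons (nat_lit 109) (nat_lit 54) (nat_lit 214) (.cons (nat_lit 181) (nat_lit 90) (nat_lit 358) (.cons (nat_lit 397) (nat_lit 198) (nat_lit 790) (.cons (nat_lit 2161) (nat_lit 1080) (nat_lit 4318) .nil))))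
    (.cons (nat_lit 17) (nat_lit 8) (nat_lit 30) (.cons (nat_lit 41) (nat_lit 20) (nat_lit 78) (.cons (nat_lit 97) (nat_lit 48) (nat_lit 190) (.cons (nat_lit 353) (nat_lit 176) (nat_lit 702) (.cons (nat_lit 2017) (nat_lit 1008) (nat_lit 4030) .nil)))))
    (.cons (nat_lit 29) (nat_lit 14) (nat_lit 54) (.cons (nat_lit 43) (nat_lit 21) (nat_lit 82) (.cons (nat_lit 71) (nat_lit 35) (nat_lit 138) (.cons (nat_lit 113) (nat_lit 56) (nat_lit 222) (.cons (nat_lit 127) (nat_lit 63) (nat_lit 250) (.cons (nat_lit 211) (nat_lit 105) (nat_lit 418) (.cons (nat_lit 281) (nat_lit 140) (nat_lit 558) (.cons (nat_lit 337) (nat_lit 168) (nat_lit 670) (.cons (nat_lit 421) (nat_lit 210) (nat_lit 838) (.cons (nat_lit 449) (nat_lit 224) (nat_lit 894) (.cons (nat_lit 463) (nat_lit 231) (nat_lit 922) (.cons (nat_lit 631) (nat_lit 315) (nat_lit 1258) (.cons (nat_lit 701) (nat_lit 350) (nat_lit 1398) (.cons (nat_lit 883) (nat_lit 441) (nat_lit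 1762) (.cons (nat_lit 1009) (nat_lit 504) (nat_lit 2014) (.cons (nat_lit 2521) (nat_lit 1260) (nat_lit 5038) (.cons (nat_lit 2689) (nat_lit 1344) (nat_lit 5374) (.cons (nat_lit 2801) (nat_lit 1400) (nat_lit 5598) .nil))))))))))))))))))) <|
  .cons (nat_lit 89923) (.mk
    (.cons (nat_lit 3) (nat_lit 1) (nat_lit 2) (.cons (nat_lit 7) (nat_lit 3) (nat_lit 10) (.cons (nat_lit 2141) (nat_lit 1070) (nat_lit 4278) .nil)))
    .nil
    (.cons (nat_lit 3907) (nat_lit 1953) (nat_lit 7810) .nil)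
    (.cons (nat_lit 5) (nat_lit 2) (nat_lit 6) (.cons (nat_lit 13) (nat_lit 6) (nat_lit 22) .nil))
    (.cons (nat_lit 11) (nat_lit 5) (nat_lit 18) (.cons (nat_lit 31) (nat_lit 15) (nat_lit 58) (.cons (nat_lit 41) (nat_lit 20) (nat_lit 78) (.cons (nat_lit 61) (nat_lit 30) (nat_lit 118) (.cons (nat_lit 631) (nat_lit 315) (nat_lit 1258) (.cons (nat_lit 3301) (nat_lit 1650) (nat_lit 6598) .nil))))))
    (.cons (nat_lit 19) (nat_lit 9) (nat_lit 34) (.cons (nat_lit 37) (nat_lit 18) (nat_lit 70) (.cons (nat_lit 109) (nat_lit 54) (nat_lit 214) (.cons (nat_lit 163) (nat_lit 81) (nat_lit 322) (.cons (nat_lit 181) (nat_lit 90) (nat_lit 358) (.cons (nat_lit 397) (nat_lit 198) (nat_lit 790) .nil))))))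
    (.cons (nat_lit 17) (nat_lit 8) (nat_lit 30) (.cons (nat_lit 73) (nat_lit 36) (nat_lit 142) (.cons (nat_lit 97) (nat_lit 48) (nat_lit 190) (.cons (nat_lit 241) (nat_lit 120) (nat_lit 478) (.cons (nat_lit 433) (nat_lit 216) (nat_lit 862) (.cons (nat_lit 1009) (nat_lit 504) (nat_lit 2014) (.cons (nat_lit 1489) (nat_lit 744) (nat_lit 2974) (.cons (nat_lit 2833) (nat_lit 1416) (nat_lit 5662) (.cons (nat_lit 3329) (nat_lit 1664) (nat_lit 6654) .nil)))))))))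
    (.cons (nat_lit 29) (nat_lit 14) (nat_lit 54) (.cons (nat_lit 43) (nat_lit 21) (nat_lit 82) (.cons (nat_lit 71) (nat_lit 35) (nat_lit 138) (.cons (nat_lit 113) (nat_lit 56) (nat_lit 222) (.cons (nat_lit 127) (nat_lit 63) (nat_lit 250) (.cons (nat_lit 211) (nat_lit 105) (nat_lit 418) (.cons (nat_lit 281) (nat_lit 140) (nat_lit 558) (.cons (nat_lit 337) (nat_lit 168) (nat_lit 670) (.cons (nat_lit 421) (nat_lit 210) (nat_lit 838) (.cons (nat_lit 673) (nat_lit 336) (nat_lit 1342) (.cons (nat_lit 757) (nat_lit 378) (nat_lit 1510) (.cons (nat_lit 2521) (nat_lit 1260) (nat_lit 5038) (.cons (nat_lit 2731) (nat_lit 1365) (nat_lit 5458) (.cons (nat_lit 4271) (nat_lit 2135) (nat_lit 8538) (.cons (nat_lit 4831) (nat_lit 2415) (nat_lit 9658) .nil)))))))))))))))) <|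
  .cons (nat_lit 90191) (.mk
    (.cons (nat_lit 5) (nat_lit 2) (nat_lit 6) (.cons (nat_lit 29) (nat_lit 14) (nat_lit 54) (.cons (nat_lit 311) (nat_lit 155) (nat_lit 618) .nil)))
    (.cons (nat_lit 3) (nat_lit 1) (nat_lit 2) (.cons (nat_lit 1879) (nat_lit 939) (nat_lit 3754) .nil))
    (.cons (nat_lit 7) (nat_lit 3) (nat_lit 10) (.cons (nat_lit 13) (nat_lit 6) (nat_lit 22) .nil))
    (.cons (nat_lit 41) (nat_lit 20) (nat_lit 78) (.cons (nat_lit 89) (nat_lit 44) (nat_lit 174) (.cons (nat_lit 257) (nat_lit 128) (nat_lit 510) (.cons (nat_lit 4337) (nat_lit 2168) (nat_lit 8670) .nil))))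
    (.cons (nat_lit 11) (nat_lit 5) (nat_lit 18) (.cons (nat_lit 31) (nat_lit 15) (nat_lit 58) (.cons (nat_lit 61) (nat_lit 30) (nat_lit 118) (.cons (nat_lit 191) (nat_lit 95) (nat_lit 378) (.cons (nat_lit 3121) (nat_lit 1560) (nat_lit 6238) (.cons (nat_lit 4201) (nat_lit 2100) (nat_lit 8398) .nil))))))
    (.cons (nat_lit 19) (nat_lit 9) (nat_lit 34) (.cons (nat_lit 37) (nat_lit 18) (nat_lit 70) (.cons (nat_lit 73) (nat_lit 36) (nat_lit 142) (.cons (nat_lit 181) (nat_lit 90) (nat_lit 358) (.cons (nat_lit 3691) (nat_lit 1845) (nat_lit 7378) .nil)))))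
    (.cons (nat_lit 17) (nat_lit 8) (nat_lit 30) (.cons (nat_lit 241) (nat_lit 120) (nat_lit 478) (.cons (nat_lit 433) (nat_lit 216) (nat_lit 862) (.cons (nat_lit 2161) (nat_lit 1080) (nat_lit 4318) (.cons (nat_lit 2801) (nat_lit 1400) (nat_lit 5598) .nil)))))
    (.cons (nat_lit 43) (nat_lit 21) (nat_lit 82) (.cons (nat_lit 71) (nat_lit 35) (nat_lit 138) (.cons (nat_lit 113) (nat_lit 56) (nat_lit 222) (.cons (nat_lit 127) (nat_lit 63) (nat_lit 250) (.cons (nat_lit 211) (nat_lit 105) (nat_lit 418) (.cons (nat_lit 281) (nat_lit 140) (nat_lit 558) (.cons (nat_lit 337) (nat_lit 168) (nat_lit 670) (.cons (nat_lit 421) (nat_lit 210) (nat_lit 838) (.cons (nat_lit 491) (nat_lit 245) (nat_lit 978) (.cons (nat_lit 631) (nat_lit 315) (nat_lit 1258) (.cons (nat_lit 673) (nat_lit 336) (nat_lit 1342) (.cons (nat_lit 883) (nat_lit 441) (nat_lit 1762) (.cons (nat_lit 1009) (nat_lit 504) (nat_lit 2014) (.cons (nat_lit 1471)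 (nat_lit 735) (nat_lit 2938) (.cons (nat_lit 2017) (nat_lit 1008) (nat_lit 4030) (.cons (nat_lit 2521) (nat_lit 1260) (nat_lit 5038) (.cons (nat_lit 2689) (nat_lit 1344) (nat_lit 5374) (.cons (nat_lit 3361) (nat_lit 1680) (nat_lit 6718) (.cons (nat_lit 3529) (nat_lit 1764) (nat_lit 7054) .nil)))))))))))))))))))) <|
  .cons (nat_lit 92507) (.mk
    (.cons (nat_lit 23) (nat_lit 11) (nat_lit 42) (.cons (nat_lit 2011) (nat_lit 1005) (nat_lit 4018) .nil))
    (.cons (nat_lit 3) (nat_lit 1) (nat_lit 2) (.cons (nat_lit 13) (nat_lit 6) (nat_lit 22) (.cons (nat_lit 593) (nat_lit 296) (nat_lit 1182) .nil)))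
    (.cons (nat_lit 7) (nat_lit 3) (nat_lit 10) (.cons (nat_lit 1531) (nat_lit 765) (nat_lit 3058) .nil))
    (.cons (nat_lit 5) (nat_lit 2) (nat_lit 6) (.cons (nat_lit 1933) (nat_lit 966) (nat_lit 3862) .nil))
    (.cons (nat_lit 11) (nat_lit 5) (nat_lit 18) (.cons (nat_lit 31) (nat_lit 15) (nat_lit 58) (.cons (nat_lit 61) (nat_lit 30) (nat_lit 118) (.cons (nat_lit 1301) (nat_lit 650) (nat_lit 2598) .nil))))
    (.cons (nat_lit 19) (nat_lit 9) (nat_lit 34) (.cons (nat_lit 37) (nat_lit 18) (nat_lit 70) (.cons (nat_lit 73) (nat_lit 36) (nat_lit 142) (.cons (nat_lit 109) (nat_lit 54) (nat_lit 214) (.cons (nat_lit 181) (nat_lit 90) (nat_lit 358) .nil)))))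
    (.cons (nat_lit 17) (nat_lit 8) (nat_lit 30) (.cons (nat_lit 41) (nat_lit 20) (nat_lit 78) (.cons (nat_lit 97) (nat_lit 48) (nat_lit 190) (.cons (nat_lit 113) (nat_lit 56) (nat_lit 222) (.cons (nat_lit 241) (nat_lit 120) (nat_lit 478) (.cons (nat_lit 577) (nat_lit 288) (nat_lit 1150) (.cons (nat_lit 1489) (nat_lit 744) (nat_lit 2974) (.cons (nat_lit 2017) (nat_lit 1008) (nat_lit 4030) (.cons (nat_lit 2161) (nat_lit 1080) (nat_lit 4318) (.cons (nat_lit 4561) (nat_lit 2280) (nat_lit 9118) .nil))))))))))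
    (.cons (nat_lit 29) (nat_lit 14) (nat_lit 54) (.cons (nat_lit 43) (nat_lit 21) (nat_lit 82) (.cons (nat_lit 71) (nat_lit 35) (nat_lit 138) (.cons (nat_lit 127) (nat_lit 63) (nat_lit 250) (.cons (nat_lit 197) (nat_lit 98) (nat_lit 390) (.cons (nat_lit 211) (nat_lit 105) (nat_lit 418) (.cons (nat_lit 281) (nat_lit 140) (nat_lit 558) (.cons (nat_lit 337) (nat_lit 168) (nat_lit 670) (.cons (nat_lit 421) (nat_lit 210) (nat_lit 838) (.cons (nat_lit 631) (nat_lit 315) (nat_lit 1258) (.cons (nat_lit 883) (nat_lit 441) (nat_lit 1762) (.cons (nat_lit 1009) (nat_lit 504) (nat_lit 2014) (.cons (nat_lit 1051) (nat_lit 525) (nat_lit 2098) (.cons (nat_lit 1093) (nat_lit 546) (nat_lit 2182) (.cons (nat_lit 1429) (nat_lit 714) (nat_lit 2854) (.cons (nat_lit 2521) (nat_lit 1260) (nat_lit 5038) (.cons (nat_lit 2801) (nat_lit 1400) (nat_lit 5598) (.cons (nat_lit 3851) (nat_lit 1925) (nat_lit 7698) .nil))))))))))))))))))) <|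
  .cons (nat_lit 92647) (.mk
    (.cons (nat_lit 3) (nat_lit 1) (nat_lit 2) .nil)
    (.cons (nat_lit 37) (nat_lit 18) (nat_lit 70) (.cons (nat_lit 313) (nat_lit 156) (nat_lit 622) .nil))
    (.cons (nat_lit 7) (nat_lit 3) (nat_lit 10) (.cons (nat_lit 13) (nat_lit 6) (nat_lit 22) .nil))
    (.cons (nat_lit 5) (nat_lit 2) (nat_lit 6) .nil)
    (.cons (nat_lit 11) (nat_lit 5) (nat_lit 18) (.cons (nat_lit 31) (nat_lit 15) (nat_lit 58) (.cons (nat_lit 61) (nat_lit 30) (nat_lit 118) (.cons (nat_lit 181) (nat_lit 90) (nat_lit 358) (.cons (nat_lit 1801) (nat_lit 900) (nat_lit 3598) .nil)))))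
    (.cons (nat_lit 19) (nat_lit 9) (nat_lit 34) (.cons (nat_lit 271) (nat_lit 135) (nat_lit 538) (.cons (nat_lit 541) (nat_lit 270) (nat_lit 1078) .nil)))
    (.cons (nat_lit 17) (nat_lit 8) (nat_lit 30) (.cons (nat_lit 41) (nat_lit 20) (nat_lit 78) (.cons (nat_lit 73) (nat_lit 36) (nat_lit 142) (.cons (nat_lit 97) (nat_lit 48) (nat_lit 190) (.cons (nat_lit 193) (nat_lit 96) (nat_lit 382) (.cons (nat_lit 241) (nat_lit 120) (nat_lit 478) (.cons (nat_lit 1297) (nat_lit 648) (nat_lit 2590) (.cons (nat_lit 2161) (nat_lit 1080) (nat_lit 4318) (.cons (nat_lit 2801) (nat_lit 1400) (nat_lit 5598) .nil)))))))))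
    (.cons (nat_lit 29) (nat_lit 14) (nat_lit 54) (.cons (nat_lit 43) (nat_lit 21) (nat_lit 82) (.cons (nat_lit 71) (nat_lit 35) (nat_lit 138) (.cons (nat_lit 113) (nat_lit 56) (nat_lit 222) (.cons (nat_lit 127) (nat_lit 63) (nat_lit 250) (.cons (nat_lit 211) (nat_lit 105) (nat_lit 418) (.cons (nat_lit 281) (nat_lit 140) (nat_lit 558) (.cons (nat_lit 337) (nat_lit 168) (nat_lit 670) (.cons (nat_lit 421) (nat_lit 210) (nat_lit 838) (.cons (nat_lit 631) (nat_lit 315) (nat_lit 1258) (.cons (nat_lit 673) (nat_lit 336) (nat_lit 1342) (.cons (nat_lit 1009) (nat_lit 504) (nat_lit 2014) (.cons (nat_lit 1051) (nat_lit 525) (nat_lit 2098) (.cons (nat_lit 2521) (nat_lit 1260) (nat_lit 5038) (.cons (nat_lit 2689) (nat_lit 1344) (nat_lit 5374) (.cons (nat_lit 3361) (nat_lit 1680) (nat_lit 6718) (.cons (nat_lit 4201) (nat_lit 2100) (nat_lit 8398) .nil)))))))))))))))))) <|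
  .cons (nat_lit 92693) (.mk
    .nil
    (.cons (nat_lit 3) (nat_lit 1) (nat_lit 2) (.cons (nat_lit 7) (nat_lit 3) (nat_lit 10) (.cons (nat_lit 2207) (nat_lit 1103) (nat_lit 4410) .nil)))
    (.cons (nat_lit 13) (nat_lit 6) (nat_lit 22) (.cons (nat_lit 19) (nat_lit 9) (nat_lit 34) .nil))
    (.cons (nat_lit 5) (nat_lit 2) (nat_lit 6) (.cons (nat_lit 37) (nat_lit 18) (nat_lit 70) .nil))
    (.cons (nat_lit 11) (nat_lit 5) (nat_lit 18) (.cons (nat_lit 31) (nat_lit 15) (nat_lit 58) (.cons (nat_lit 41) (nat_lit 20) (nat_lit 78) (.cons (nat_lit 61) (nat_lit 30) (nat_lit 118) (.cons (nat_lit 421) (nat_lit 210) (nat_lit 838) (.cons (nat_lit 631) (nat_lit 315) (nat_lit 1258) (.cons (nat_lit 1171) (nat_lit 585) (nat_lit 2338) (.cons (nat_lit 1201) (nat_lit 600) (nat_lit 2398) (.cons (nat_lit 1951) (nat_lit 975) (nat_lit 3898) .nil)))))))))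
    (.cons (nat_lit 109) (nat_lit 54) (nat_lit 214) (.cons (nat_lit 181) (nat_lit 90) (nat_lit 358) .nil))
    (.cons (nat_lit 17) (nat_lit 8) (nat_lit 30) (.cons (nat_lit 73) (nat_lit 36) (nat_lit 142) (.cons (nat_lit 241) (nat_lit 120) (nat_lit 478) (.cons (nat_lit 1361) (nat_lit 680) (nat_lit 2718) (.cons (nat_lit 1873) (nat_lit 936) (nat_lit 3742) .nil)))))
    (.cons (nat_lit 29) (nat_lit 14) (nat_lit 54) (.cons (nat_lit 43) (nat_lit 21) (nat_lit 82) (.cons (nat_lit 71) (nat_lit 35) (nat_lit 138) (.cons (nat_lit 113) (nat_lit 56) (nat_lit 222) (.cons (nat_lit 127) (nat_lit 63) (nat_lit 250) (.cons (nat_lit 211) (nat_lit 105) (nat_lit 418) (.cons (nat_lit 281) (nat_lit 140) (nat_lit 558) (.cons (nat_lit 337) (nat_lit 168) (nat_lit 670) (.cons (nat_lit 379) (nat_lit 189) (nat_lit 754) (.cons (nat_lit 1009) (nat_lit 504) (nat_lit 2014) (.cons (nat_lit 2521) (nat_lit 1260) (nat_lit 5038) (.cons (nat_lit 3361)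 (nat_lit 1680) (nat_lit 6718) (.cons (nat_lit 4481) (nat_lit 2240) (nat_lit 8958) (.cons (nat_lit 4831) (nat_lit 2415) (nat_lit 9658) .nil))))))))))))))) <|
  .cons (nat_lit 93077) (.mk
    .nil
    (.cons (nat_lit 3) (nat_lit 1) (nat_lit 2) .nil)
    (.cons (nat_lit 7) (nat_lit 3) (nat_lit 10) (.cons (nat_lit 13) (nat_lit 6) (nat_lit 22) (.cons (nat_lit 2017) (nat_lit 1008) (nat_lit 4030) .nil)))
    (.cons (nat_lit 5) (nat_lit 2) (nat_lit 6) (.cons (nat_lit 373) (nat_lit 186) (nat_lit 742) (.cons (nat_lit 773) (nat_lit 386) (nat_lit 1542) .nil)))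
    (.cons (nat_lit 11) (nat_lit 5) (nat_lit 18) (.cons (nat_lit 31) (nat_lit 15) (nat_lit 58) (.cons (nat_lit 61) (nat_lit 30) (nat_lit 118) .nil)))
    (.cons (nat_lit 19) (nat_lit 9) (nat_lit 34) (.cons (nat_lit 37) (nat_lit 18) (nat_lit 70) (.cons (nat_lit 73) (nat_lit 36) (nat_lit 142) (.cons (nat_lit 181) (nat_lit 90) (nat_lit 358) .nil))))
    (.cons (nat_lit 17) (nat_lit 8) (nat_lit 30) (.cons (nat_lit 41) (nat_lit 20) (nat_lit 78) (.cons (nat_lit 97) (nat_lit 48) (nat_lit 190) (.cons (nat_lit 113) (nat_lit 56) (nat_lit 222) (.cons (nat_lit 241) (nat_lit 120) (nat_lit 478) (.cons (nat_lit 337) (nat_lit 168) (nat_lit 670) (.cons (nat_lit 401) (nat_lit 200) (nat_lit 798) (.cons (nat_lit 1601) (nat_lit 800) (nat_lit 3198) .nil))))))))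
    (.cons (nat_lit 29) (nat_lit 14) (nat_lit 54) (.cons (nat_lit 43) (nat_lit 21) (nat_lit 82) (.cons (nat_lit 71) (nat_lit 35) (nat_lit 138) (.cons (nat_lit 127) (nat_lit 63) (nat_lit 250) (.cons (nat_lit 197) (nat_lit 98) (nat_lit 390) (.cons (nat_lit 211) (nat_lit 105) (nat_lit 418) (.cons (nat_lit 281) (nat_lit 140) (nat_lit 558) (.cons (nat_lit 379) (nat_lit 189) (nat_lit 754) (.cons (nat_lit 421) (nat_lit 210) (nat_lit 838) (.cons (nat_lit 463) (nat_lit 231) (nat_lit 922) (.cons (nat_lit 491) (nat_lit 245) (nat_lit 978) (.cons (nat_lit 631) (nat_lit 315) (nat_lit 1258) (.cons (nat_lit 673) (nat_lit 336) (nat_lit 1342) (.cons (nat_lit 757) (nat_lit 378) (nat_lit 1510) (.cons (nat_lit 1009) (nat_lit 504) (nat_lit 2014) (.cons (nat_lit 1471) (nat_lit 735) (nat_lit 2938) (.cons (nat_lit 2311) (nat_lit 1155) (nat_lit 4618) (.cons (nat_lit 2521) (nat_lit 1260) (nat_lit 5038) (.cons (nat_lit 3697) (nat_lit 1848)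 (nat_lit 7390) (.cons (nat_lit 4201) (nat_lit 2100) (nat_lit 8398) (.cons (nat_lit 4481) (nat_lit 2240) (nat_lit 8958) .nil)))))))))))))))))))))) <|
  .cons (nat_lit 93287) (.mk
    .nil
    (.cons (nat_lit 3) (nat_lit 1) (nat_lit 2) (.cons (nat_lit 13) (nat_lit 6) (nat_lit 22) (.cons (nat_lit 23) (nat_lit 11) (nat_lit 42) .nil)))
    (.cons (nat_lit 7) (nat_lit 3) (nat_lit 10) (.cons (nat_lit 37) (nat_lit 18) (nat_lit 70) .nil))
    (.cons (nat_lit 5) (nat_lit 2) (nat_lit 6) (.cons (nat_lit 1289) (nat_lit 644) (nat_lit 2574) .nil))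
    (.cons (nat_lit 11) (nat_lit 5) (nat_lit 18) (.cons (nat_lit 31) (nat_lit 15) (nat_lit 58) (.cons (nat_lit 61) (nat_lit 30) (nat_lit 118) .nil)))
    (.cons (nat_lit 19) (nat_lit 9) (nat_lit 34) (.cons (nat_lit 109) (nat_lit 54) (nat_lit 214) (.cons (nat_lit 181) (nat_lit 90) (nat_lit 358) (.cons (nat_lit 3691) (nat_lit 1845) (nat_lit 7378) .nil))))
    (.cons (nat_lit 17) (nat_lit 8) (nat_lit 30) (.cons (nat_lit 41) (nat_lit 20) (nat_lit 78) (.cons (nat_lit 73) (nat_lit 36) (nat_lit 142) (.cons (nat_lit 97) (nat_lit 48) (nat_lit 190) (.cons (nat_lit 137) (nat_lit 68) (nat_lit 270) (.cons (nat_lit 241) (nat_lit 120) (nat_lit 478) (.cons (nat_lit 257) (nat_lit 128) (nat_lit 510) (.cons (nat_lit 577) (nat_lit 288) (nat_lit 1150) (.cons (nat_lit 601) (nat_lit 300) (nat_lit 1198) (.cons (nat_lit 1009) (nat_lit 504) (nat_lit 2014) (.cons (nat_lit 1249) (nat_lit 624) (nat_lit 2494) (.cons (nat_lit 2297) (nat_lit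 1148) (nat_lit 4590) (.cons (nat_lit 4801) (nat_lit 2400) (nat_lit 9598) .nil)))))))))))))
    (.cons (nat_lit 29) (nat_lit 14) (nat_lit 54) (.cons (nat_lit 43) (nat_lit 21) (nat_lit 82) (.cons (nat_lit 71) (nat_lit 35) (nat_lit 138) (.cons (nat_lit 113) (nat_lit 56) (nat_lit 222) (.cons (nat_lit 127) (nat_lit 63) (nat_lit 250) (.cons (nat_lit 211) (nat_lit 105) (nat_lit 418) (.cons (nat_lit 281) (nat_lit 140) (nat_lit 558) (.cons (nat_lit 337) (nat_lit 168) (nat_lit 670) (.cons (nat_lit 421) (nat_lit 210) (nat_lit 838) (.cons (nat_lit 617) (nat_lit 308) (nat_lit 1230) (.cons (nat_lit 631) (nat_lit 315) (nat_lit 1258) (.cons (nat_lit 757) (nat_lit 378) (nat_lit 1510) (.cons (nat_lit 1051) (nat_lit 525) (nat_lit 2098) (.cons (nat_lit 2017) (nat_lit 1008) (nat_lit 4030) (.cons (nat_lit 2521) (nat_lit 1260) (nat_lit 5038) (.cons (nat_lit 4481) (nat_lit 2240) (nat_lit 8958) .nil))))))))))))))))) <|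
  .cons (nat_lit 93383) (.mk
    .nil
    (.cons (nat_lit 3) (nat_lit 1) (nat_lit 2) (.cons (nat_lit 1297) (nat_lit 648) (nat_lit 2590) .nil))
    (.cons (nat_lit 7) (nat_lit 3) (nat_lit 10) (.cons (nat_lit 13) (nat_lit 6) (nat_lit 22) .nil))
    (.cons (nat_lit 5) (nat_lit 2) (nat_lit 6) (.cons (nat_lit 1873) (nat_lit 936) (nat_lit 3742) (.cons (nat_lit 4517) (nat_lit 2258) (nat_lit 9030) .nil)))
    (.cons (nat_lit 11) (nat_lit 5) (nat_lit 18) (.cons (nat_lit 31) (nat_lit 15) (nat_lit 58) (.cons (nat_lit 61) (nat_lit 30) (nat_lit 118) .nil)))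
    (.cons (nat_lit 19) (nat_lit 9) (nat_lit 34) (.cons (nat_lit 37) (nat_lit 18) (nat_lit 70) (.cons (nat_lit 73) (nat_lit 36) (nat_lit 142) (.cons (nat_lit 181) (nat_lit 90) (nat_lit 358) (.cons (nat_lit 397) (nat_lit 198) (nat_lit 790) .nil)))))
    (.cons (nat_lit 17) (nat_lit 8) (nat_lit 30) (.cons (nat_lit 41) (nat_lit 20) (nat_lit 78) (.cons (nat_lit 241) (nat_lit 120) (nat_lit 478) (.cons (nat_lit 577) (nat_lit 288) (nat_lit 1150) (.cons (nat_lit 1801) (nat_lit 900) (nat_lit 3598) (.cons (nat_lit 2161) (nat_lit 1080) (nat_lit 4318) (.cons (nat_lit 2689) (nat_lit 1344) (nat_lit 5374) (.cons (nat_lit 3457) (nat_lit 1728) (nat_lit 6910) .nil))))))))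
    (.cons (nat_lit 29) (nat_lit 14) (nat_lit 54) (.cons (nat_lit 43) (nat_lit 21) (nat_lit 82) (.cons (nat_lit 71) (nat_lit 35) (nat_lit 138) (.cons (nat_lit 113) (nat_lit 56) (nat_lit 222) (.cons (nat_lit 127) (nat_lit 63) (nat_lit 250) (.cons (nat_lit 211) (nat_lit 105) (nat_lit 418) (.cons (nat_lit 281) (nat_lit 140) (nat_lit 558) (.cons (nat_lit 337) (nat_lit 168) (nat_lit 670) (.cons (nat_lit 421) (nat_lit 210) (nat_lit 838) (.cons (nat_lit 617) (nat_lit 308) (nat_lit 1230) (.cons (nat_lit 631) (nat_lit 315) (nat_lit 1258) (.cons (nat_lit 757) (nat_lit 378) (nat_lit 1510) (.cons (nat_lit 1009) (nat_lit 504) (nat_lit 2014) (.cons (nat_lit 1289) (nat_lit 644) (nat_lit 2574) (.cons (nat_lit 2297) (nat_lit 1148) (nat_lit 4590) (.cons (nat_lit 2521) (nat_lit 1260) (nat_lit 5038) .nil))))))))))))))))) <|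
  .cons (nat_lit 93493) (.mk
    (.cons (nat_lit 3) (nat_lit 1) (nat_lit 2) (.cons (nat_lit 7) (nat_lit 3) (nat_lit 10) (.cons (nat_lit 53) (nat_lit 26) (nat_lit 102) .nil)))
    .nil
    (.cons (nat_lit 13) (nat_lit 6) (nat_lit 22) (.cons (nat_lit 241) (nat_lit 120) (nat_lit 478) (.cons (nat_lit 1321) (nat_lit 660) (nat_lit 2638) .nil)))
    (.cons (nat_lit 5) (nat_lit 2) (nat_lit 6) (.cons (nat_lit 37) (nat_lit 18) (nat_lit 70) (.cons (nat_lit 193) (nat_lit 96) (nat_lit 382) .nil)))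
    (.cons (nat_lit 11) (nat_lit 5) (nat_lit 18) (.cons (nat_lit 31) (nat_lit 15) (nat_lit 58) (.cons (nat_lit 61) (nat_lit 30) (nat_lit 118) (.cons (nat_lit 71) (nat_lit 35) (nat_lit 138) (.cons (nat_lit 1531) (nat_lit 765) (nat_lit 3058) .nil)))))
    (.cons (nat_lit 19) (nat_lit 9) (nat_lit 34) (.cons (nat_lit 181) (nat_lit 90) (nat_lit 358) (.cons (nat_lit 199) (nat_lit 99) (nat_lit 394) .nil)))
    (.cons (nat_lit 17) (nat_lit 8) (nat_lit 30) (.cons (nat_lit 41) (nat_lit 20) (nat_lit 78) (.cons (nat_lit 73) (nat_lit 36) (nat_lit 142) (.cons (nat_lit 113) (nat_lit 56) (nat_lit 222) (.cons (nat_lit 433) (nat_lit 216) (nat_lit 862) (.cons (nat_lit 577) (nat_lit 288) (nat_lit 1150) (.cons (nat_lit 593) (nat_lit 296) (nat_lit 1182) (.cons (nat_lit 1361) (nat_lit 680) (nat_lit 2718) (.cons (nat_lit 2161) (nat_lit 1080) (nat_lit 4318) .nil)))))))))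
    (.cons (nat_lit 29) (nat_lit 14) (nat_lit 54) (.cons (nat_lit 43) (nat_lit 21) (nat_lit 82) (.cons (nat_lit 127) (nat_lit 63) (nat_lit 250) (.cons (nat_lit 211) (nat_lit 105) (nat_lit 418) (.cons (nat_lit 239) (nat_lit 119) (nat_lit 474) (.cons (nat_lit 281) (nat_lit 140) (nat_lit 558) (.cons (nat_lit 337) (nat_lit 168) (nat_lit 670) (.cons (nat_lit 421) (nat_lit 210) (nat_lit 838) (.cons (nat_lit 463) (nat_lit 231) (nat_lit 922) (.cons (nat_lit 631) (nat_lit 315) (nat_lit 1258) (.cons (nat_lit 673) (nat_lit 336) (nat_lit 1342) (.cons (nat_lit 757) (nat_lit 378) (nat_lit 1510) (.cons (nat_lit 1009) (nat_lit 504) (nat_lit 2014) (.cons (nat_lit 1723) (nat_lit 861) (nat_lit 3442) (.cons (nat_lit 2017) (nat_lit 1008) (nat_lit 4030) (.cons (nat_lit 2269) (nat_lit 1134) (nat_lit 4534) (.cons (nat_lit 2521) (nat_lit 1260) (nat_lit 5038) (.cons (nat_lit 3361) (nat_lit 1680) (nat_lit 6718) (.cons (nat_lit 3697) (nat_lit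 1848) (nat_lit 7390) (.cons (nat_lit 4201) (nat_lit 2100) (nat_lit 8398) (.cons (nat_lit 4789) (nat_lit 2394) (nat_lit 9574) .nil)))))))))))))))))))))) <|
  .cons (nat_lit 93893) (.mk
    .nil
    (.cons (nat_lit 3) (nat_lit 1) (nat_lit 2) .nil)
    (.cons (nat_lit 7) (nat_lit 3) (nat_lit 10) (.cons (nat_lit 31) (nat_lit 15) (nat_lit 58) (.cons (nat_lit 61) (nat_lit 30) (nat_lit 118) (.cons (nat_lit 1471) (nat_lit 735) (nat_lit 2938) .nil))))
    (.cons (nat_lit 5) (nat_lit 2) (nat_lit 6) (.cons (nat_lit 13) (nat_lit 6) (nat_lit 22) (.cons (nat_lit 53) (nat_lit 26) (nat_lit 102) .nil)))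
    (.cons (nat_lit 11) (nat_lit 5) (nat_lit 18) (.cons (nat_lit 181) (nat_lit 90) (nat_lit 358) (.cons (nat_lit 241) (nat_lit 120) (nat_lit 478) (.cons (nat_lit 541) (nat_lit 270) (nat_lit 1078) (.cons (nat_lit 2381) (nat_lit 1190) (nat_lit 4758) .nil)))))
    (.cons (nat_lit 19) (nat_lit 9) (nat_lit 34) (.cons (nat_lit 37) (nat_lit 18) (nat_lit 70) (.cons (nat_lit 397) (nat_lit 198) (nat_lit 790) (.cons (nat_lit 2161) (nat_lit 1080) (nat_lit 4318) .nil))))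
    (.cons (nat_lit 17) (nat_lit 8) (nat_lit 30) (.cons (nat_lit 41) (nat_lit 20) (nat_lit 78) (.cons (nat_lit 73) (nat_lit 36) (nat_lit 142) (.cons (nat_lit 97) (nat_lit 48) (nat_lit 190) (.cons (nat_lit 2521) (nat_lit 1260) (nat_lit 5038) .nil)))))
    (.cons (nat_lit 29) (nat_lit 14) (nat_lit 54) (.cons (nat_lit 43) (nat_lit 21) (nat_lit 82) (.cons (nat_lit 71) (nat_lit 35) (nat_lit 138) (.cons (nat_lit 113) (nat_lit 56) (nat_lit 222) (.cons (nat_lit 127) (nat_lit 63) (nat_lit 250) (.cons (nat_lit 211) (nat_lit 105) (nat_lit 418) (.cons (nat_lit 281) (nat_lit 140) (nat_lit 558) (.cons (nat_lit 337) (nat_lit 168) (nat_lit 670) (.cons (nat_lit 421) (nat_lit 210) (nat_lit 838) (.cons (nat_lit 631) (nat_lit 315) (nat_lit 1258) (.cons (nat_lit 1009) (nat_lit 504) (nat_lit 2014) (.cons (nat_lit 1289) (nat_lit 644) (nat_lit 2574) (.cons (nat_lit 1303) (nat_lit 651) (nat_lit 2602) (.cons (nat_lit 2129) (nat_lit 1064)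 (nat_lit 4254) (.cons (nat_lit 2857) (nat_lit 1428) (nat_lit 5710) .nil)))))))))))))))) <|
  .cons (nat_lit 96587) (.mk
    (.cons (nat_lit 7) (nat_lit 3) (nat_lit 10) .nil)
    (.cons (nat_lit 3) (nat_lit 1) (nat_lit 2) (.cons (nat_lit 2683) (nat_lit 1341) (nat_lit 5362) .nil))
    (.cons (nat_lit 13) (nat_lit 6) (nat_lit 22) (.cons (nat_lit 73) (nat_lit 36) (nat_lit 142) (.cons (nat_lit 631) (nat_lit 315) (nat_lit 1258) (.cons (nat_lit 1777) (nat_lit 888) (nat_lit 3550) .nil))))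
    (.cons (nat_lit 5) (nat_lit 2) (nat_lit 6) (.cons (nat_lit 29) (nat_lit 14) (nat_lit 54) (.cons (nat_lit 41) (nat_lit 20) (nat_lit 78) (.cons (nat_lit 389) (nat_lit 194) (nat_lit 774) (.cons (nat_lit 2017) (nat_lit 1008) (nat_lit 4030) .nil)))))
    (.cons (nat_lit 11) (nat_lit 5) (nat_lit 18) (.cons (nat_lit 31) (nat_lit 15) (nat_lit 58) (.cons (nat_lit 61) (nat_lit 30) (nat_lit 118) (.cons (nat_lit 181) (nat_lit 90) (nat_lit 358) (.cons (nat_lit 241) (nat_lit 120) (nat_lit 478) (.cons (nat_lit 541) (nat_lit 270) (nat_lit 1078) (.cons (nat_lit 1831) (nat_lit 915) (nat_lit 3658) (.cons (nat_lit 2381) (nat_lit 1190) (nat_lit 4758) (.cons (nat_lit 2861) (nat_lit 1430) (nat_lit 5718) .nil)))))))))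
    (.cons (nat_lit 19) (nat_lit 9) (nat_lit 34) (.cons (nat_lit 37) (nat_lit 18) (nat_lit 70) (.cons (nat_lit 2161) (nat_lit 1080) (nat_lit 4318) (.cons (nat_lit 2593) (nat_lit 1296) (nat_lit 5182) (.cons (nat_lit 4051) (nat_lit 2025) (nat_lit 8098) .nil)))))
    (.cons (nat_lit 17) (nat_lit 8) (nat_lit 30) (.cons (nat_lit 97) (nat_lit 48) (nat_lit 190) (.cons (nat_lit 577) (nat_lit 288) (nat_lit 1150) (.cons (nat_lit 1297) (nat_lit 648) (nat_lit 2590) (.cons (nat_lit 4153) (nat_lit 2076) (nat_lit 8302) .nil)))))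
    (.cons (nat_lit 43) (nat_lit 21) (nat_lit 82) (.cons (nat_lit 71) (nat_lit 35) (nat_lit 138) (.cons (nat_lit 113) (nat_lit 56) (nat_lit 222) (.cons (nat_lit 127) (nat_lit 63) (nat_lit 250) (.cons (nat_lit 211) (nat_lit 105) (nat_lit 418) (.cons (nat_lit 281) (nat_lit 140) (nat_lit 558) (.cons (nat_lit 337) (nat_lit 168) (nat_lit 670) (.cons (nat_lit 421) (nat_lit 210) (nat_lit 838) (.cons (nat_lit 673) (nat_lit 336) (nat_lit 1342) (.cons (nat_lit 701) (nat_lit 350) (nat_lit 1398) (.cons (nat_lit 1009) (nat_lit 504) (nat_lit 2014) (.cons (nat_lit 2521) (nat_lit 1260) (nat_lit 5038) (.cons (nat_lit 2591) (nat_lit 1295) (nat_lit 5178) (.cons (nat_lit 3361) (nat_lit 1680) (nat_lit 6718) (.cons (nat_lit 3529) (nat_lit 1764) (nat_lit 7054) .nil)))))))))))))))) <|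
  .cons (nat_lit 96797) (.mk
    (.cons (nat_lit 7) (nat_lit 3) (nat_lit 10) (.cons (nat_lit 3457) (nat_lit 1728) (nat_lit 6910) .nil))
    (.cons (nat_lit 3) (nat_lit 1) (nat_lit 2) (.cons (nat_lit 13) (nat_lit 6) (nat_lit 22) (.cons (nat_lit 17) (nat_lit 8) (nat_lit 30) (.cons (nat_lit 73) (nat_lit 36) (nat_lit 142) .nil))))
    (.cons (nat_lit 19) (nat_lit 9) (nat_lit 34) .nil)
    (.cons (nat_lit 5) (nat_lit 2) (nat_lit 6) .nil)
    (.cons (nat_lit 11) (nat_lit 5) (nat_lit 18) (.cons (nat_lit 31) (nat_lit 15) (nat_lit 58) (.cons (nat_lit 41) (nat_lit 20) (nat_lit 78) (.cons (nat_lit 61) (nat_lit 30) (nat_lit 118) (.cons (nat_lit 101) (nat_lit 50) (nat_lit 198) .nil)))))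
    (.cons (nat_lit 37) (nat_lit 18) (nat_lit 70) (.cons (nat_lit 181) (nat_lit 90) (nat_lit 358) (.cons (nat_lit 541) (nat_lit 270) (nat_lit 1078) (.cons (nat_lit 1297) (nat_lit 648) (nat_lit 2590) .nil))))
    (.cons (nat_lit 97) (nat_lit 48) (nat_lit 190) (.cons (nat_lit 113) (nat_lit 56) (nat_lit 222) (.cons (nat_lit 241) (nat_lit 120) (nat_lit 478) (.cons (nat_lit 433) (nat_lit 216) (nat_lit 862) (.cons (nat_lit 761) (nat_lit 380) (nat_lit 1518) (.cons (nat_lit 1889) (nat_lit 944) (nat_lit 3774) .nil))))))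
    (.cons (nat_lit 29) (nat_lit 14) (nat_lit 54) (.cons (nat_lit 43) (nat_lit 21) (nat_lit 82) (.cons (nat_lit 71) (nat_lit 35) (nat_lit 138) (.cons (nat_lit 127) (nat_lit 63) (nat_lit 250) (.cons (nat_lit 211) (nat_lit 105) (nat_lit 418) (.cons (nat_lit 281) (nat_lit 140) (nat_lit 558) (.cons (nat_lit 337) (nat_lit 168) (nat_lit 670) (.cons (nat_lit 421) (nat_lit 210) (nat_lit 838) (.cons (nat_lit 631) (nat_lit 315) (nat_lit 1258) (.cons (nat_lit 967) (nat_lit 483) (nat_lit 1930) (.cons (nat_lit 1009) (nat_lit 504) (nat_lit 2014) (.cons (nat_lit 1471) (nat_lit 735) (nat_lit 2938) (.cons (nat_lit 2521) (nat_lit 1260) (nat_lit 5038) (.cons (nat_lit 3361) (nat_lit 1680) (nat_lit 6718) .nil))))))))))))))) <|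
  .cons (nat_lit 97523) (.mk
    .nil
    (.cons (nat_lit 3) (nat_lit 1) (nat_lit 2) (.cons (nat_lit 7) (nat_lit 3) (nat_lit 10) (.cons (nat_lit 43) (nat_lit 21) (nat_lit 82) .nil)))
    (.cons (nat_lit 13) (nat_lit 6) (nat_lit 22) (.cons (nat_lit 67) (nat_lit 33) (nat_lit 130) .nil))
    (.cons (nat_lit 5) (nat_lit 2) (nat_lit 6) .nil)
    (.cons (nat_lit 11) (nat_lit 5) (nat_lit 18) (.cons (nat_lit 31) (nat_lit 15) (nat_lit 58) (.cons (nat_lit 41) (nat_lit 20) (nat_lit 78) (.cons (nat_lit 61) (nat_lit 30) (nat_lit 118) (.cons (nat_lit 151) (nat_lit 75) (nat_lit 298) (.cons (nat_lit 181) (nat_lit 90) (nat_lit 358) (.cons (nat_lit 241) (nat_lit 120) (nat_lit 478) (.cons (nat_lit 461) (nat_lit 230) (nat_lit 918) (.cons (nat_lit 881) (nat_lit 440) (nat_lit 1758) (.cons (nat_lit 3511) (nat_lit 1755) (nat_lit 7018) .nil))))))))))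
    (.cons (nat_lit 19) (nat_lit 9) (nat_lit 34) (.cons (nat_lit 37) (nat_lit 18) (nat_lit 70) (.cons (nat_lit 109) (nat_lit 54) (nat_lit 214) (.cons (nat_lit 4591) (nat_lit 2295) (nat_lit 9178) (.cons (nat_lit 4861) (nat_lit 2430) (nat_lit 9718) .nil)))))
    (.cons (nat_lit 17) (nat_lit 8) (nat_lit 30) (.cons (nat_lit 73) (nat_lit 36) (nat_lit 142) (.cons (nat_lit 1249) (nat_lit 624) (nat_lit 2494) (.cons (nat_lit 1489) (nat_lit 744) (nat_lit 2974) (.cons (nat_lit 1801) (nat_lit 900) (nat_lit 3598) (.cons (nat_lit 2161) (nat_lit 1080) (nat_lit 4318) .nil))))))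
    (.cons (nat_lit 29) (nat_lit 14) (nat_lit 54) (.cons (nat_lit 71) (nat_lit 35) (nat_lit 138) (.cons (nat_lit 113) (nat_lit 56) (nat_lit 222) (.cons (nat_lit 127) (nat_lit 63) (nat_lit 250) (.cons (nat_lit 211) (nat_lit 105) (nat_lit 418) (.cons (nat_lit 281) (nat_lit 140) (nat_lit 558) (.cons (nat_lit 337) (nat_lit 168) (nat_lit 670) (.cons (nat_lit 421) (nat_lit 210) (nat_lit 838) (.cons (nat_lit 449) (nat_lit 224) (nat_lit 894) (.cons (nat_lit 491) (nat_lit 245) (nat_lit 978) (.cons (nat_lit 631) (nat_lit 315) (nat_lit 1258) (.cons (nat_lit 883) (nat_lit 441) (nat_lit 1762) (.cons (nat_lit 1009) (nat_lit 504) (nat_lit 2014) (.cons (nat_lit 2521) (nat_lit 1260) (nat_lit 5038) (.cons (nat_lit 3361) (nat_lit 1680) (nat_lit 6718) .nil)))))))))))))))) <|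
  .cons (nat_lit 97987) (.mk
    (.cons (nat_lit 3) (nat_lit 1) (nat_lit 2) (.cons (nat_lit 7) (nat_lit 3) (nat_lit 10) (.cons (nat_lit 2333) (nat_lit 1166) (nat_lit 4662) .nil)))
    (.cons (nat_lit 11) (nat_lit 5) (nat_lit 18) (.cons (nat_lit 17) (nat_lit 8) (nat_lit 30) (.cons (nat_lit 131) (nat_lit 65) (nat_lit 258) .nil)))
    (.cons (nat_lit 37) (nat_lit 18) (nat_lit 70) (.cons (nat_lit 601) (nat_lit 300) (nat_lit 1198) .nil))
    (.cons (nat_lit 5) (nat_lit 2) (nat_lit 6) (.cons (nat_lit 13) (nat_lit 6) (nat_lit 22) (.cons (nat_lit 61) (nat_lit 30) (nat_lit 118) .nil)))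
    (.cons (nat_lit 31) (nat_lit 15) (nat_lit 58) (.cons (nat_lit 101) (nat_lit 50) (nat_lit 198) (.cons (nat_lit 211) (nat_lit 105) (nat_lit 418) (.cons (nat_lit 241) (nat_lit 120) (nat_lit 478) .nil))))
    (.cons (nat_lit 19) (nat_lit 9) (nat_lit 34) (.cons (nat_lit 109) (nat_lit 54) (nat_lit 214) (.cons (nat_lit 181) (nat_lit 90) (nat_lit 358) (.cons (nat_lit 2557) (nat_lit 1278) (nat_lit 5110) (.cons (nat_lit 4177) (nat_lit 2088) (nat_lit 8350) .nil)))))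
    (.cons (nat_lit 41) (nat_lit 20) (nat_lit 78) (.cons (nat_lit 73) (nat_lit 36) (nat_lit 142) (.cons (nat_lit 1153) (nat_lit 576) (nat_lit 2302) (.cons (nat_lit 1321) (nat_lit 660) (nat_lit 2638) .nil))))
    (.cons (nat_lit 29) (nat_lit 14) (nat_lit 54) (.cons (nat_lit 43) (nat_lit 21) (nat_lit 82) (.cons (nat_lit 71) (nat_lit 35) (nat_lit 138) (.cons (nat_lit 113) (nat_lit 56) (nat_lit 222) (.cons (nat_lit 127) (nat_lit 63) (nat_lit 250) (.cons (nat_lit 281) (nat_lit 140) (nat_lit 558) (.cons (nat_lit 337) (nat_lit 168) (nat_lit 670) (.cons (nat_lit 379) (nat_lit 189) (nat_lit 754) (.cons (nat_lit 421) (nat_lit 210) (nat_lit 838) (.cons (nat_lit 463) (nat_lit 231) (nat_lit 922) (.cons (nat_lit 491) (nat_lit 245) (nat_lit 978) (.cons (nat_lit 631) (nat_lit 315) (nat_lit 1258) (.cons (nat_lit 757) (nat_lit 378) (nat_lit 1510) (.cons (nat_lit 1009) (nat_lit 504) (nat_lit 2014) (.cons (nat_lit 2521) (nat_lit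 1260) (nat_lit 5038) (.cons (nat_lit 2689) (nat_lit 1344) (nat_lit 5374) (.cons (nat_lit 3613) (nat_lit 1806) (nat_lit 7222) (.cons (nat_lit 3697) (nat_lit 1848) (nat_lit 7390) .nil))))))))))))))))))) <|
  .cons (nat_lit 98227) (.mk
    (.cons (nat_lit 3) (nat_lit 1) (nat_lit 2) (.cons (nat_lit 17) (nat_lit 8) (nat_lit 30) (.cons (nat_lit 107) (nat_lit 53) (nat_lit 210) .nil)))
    (.cons (nat_lit 13) (nat_lit 6) (nat_lit 22) (.cons (nat_lit 1889) (nat_lit 944) (nat_lit 3774) .nil))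
    (.cons (nat_lit 7) (nat_lit 3) (nat_lit 10) .nil)
    (.cons (nat_lit 5) (nat_lit 2) (nat_lit 6) (.cons (nat_lit 37) (nat_lit 18) (nat_lit 70) (.cons (nat_lit 41) (nat_lit 20) (nat_lit 78) (.cons (nat_lit 433) (nat_lit 216) (nat_lit 862) (.cons (nat_lit 641) (nat_lit 320) (nat_lit 1278) .nil)))))
    (.cons (nat_lit 11) (nat_lit 5) (nat_lit 18) (.cons (nat_lit 31) (nat_lit 15) (nat_lit 58) (.cons (nat_lit 61) (nat_lit 30) (nat_lit 118) (.cons (nat_lit 181) (nat_lit 90) (nat_lit 358) (.cons (nat_lit 1571) (nat_lit 785) (nat_lit 3138) (.cons (nat_lit 1811) (nat_lit 905) (nat_lit 3618) (.cons (nat_lit 2741) (nat_lit 1370) (nat_lit 5478) .nil)))))))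
    (.cons (nat_lit 19) (nat_lit 9) (nat_lit 34) (.cons (nat_lit 271) (nat_lit 135) (nat_lit 538) .nil))
    (.cons (nat_lit 73) (nat_lit 36) (nat_lit 142) (.cons (nat_lit 241) (nat_lit 120) (nat_lit 478) (.cons (nat_lit 1009) (nat_lit 504) (nat_lit 2014) (.cons (nat_lit 1993) (nat_lit 996) (nat_lit 3982) (.cons (nat_lit 2161) (nat_lit 1080) (nat_lit 4318) .nil)))))
    (.cons (nat_lit 29) (nat_lit 14) (nat_lit 54) (.cons (nat_lit 43) (nat_lit 21) (nat_lit 82) (.cons (nat_lit 71) (nat_lit 35) (nat_lit 138) (.cons (nat_lit 113) (nat_lit 56) (nat_lit 222) (.cons (nat_lit 127) (nat_lit 63) (nat_lit 250) (.cons (nat_lit 211) (nat_lit 105) (nat_lit 418) (.cons (nat_lit 281) (nat_lit 140) (nat_lit 558) (.cons (nat_lit 337) (nat_lit 168) (nat_lit 670) (.cons (nat_lit 421) (nat_lit 210) (nat_lit 838) (.cons (nat_lit 631) (nat_lit 315) (nat_lit 1258) (.cons (nat_lit 701) (nat_lit 350) (nat_lit 1398) (.cons (nat_lit 743)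 (nat_lit 371) (nat_lit 1482) (.cons (nat_lit 757) (nat_lit 378) (nat_lit 1510) (.cons (nat_lit 967) (nat_lit 483) (nat_lit 1930) (.cons (nat_lit 1429) (nat_lit 714) (nat_lit 2854) (.cons (nat_lit 2521) (nat_lit 1260) (nat_lit 5038) (.cons (nat_lit 3361) (nat_lit 1680) (nat_lit 6718) .nil)))))))))))))))))) <|
  .cons (nat_lit 98297) (.mk
    (.cons (nat_lit 11) (nat_lit 5) (nat_lit 18) (.cons (nat_lit 1117) (nat_lit 558) (nat_lit 2230) .nil))
    (.cons (nat_lit 3) (nat_lit 1) (nat_lit 2) (.cons (nat_lit 43) (nat_lit 21) (nat_lit 82) (.cons (nat_lit 127) (nat_lit 63) (nat_lit 250) .nil)))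
    (.cons (nat_lit 7) (nat_lit 3) (nat_lit 10) (.cons (nat_lit 13) (nat_lit 6) (nat_lit 22) (.cons (nat_lit 97) (nat_lit 48) (nat_lit 190) .nil)))
    (.cons (nat_lit 5) (nat_lit 2) (nat_lit 6) (.cons (nat_lit 281) (nat_lit 140) (nat_lit 558) (.cons (nat_lit 617) (nat_lit 308) (nat_lit 1230) .nil)))
    (.cons (nat_lit 31) (nat_lit 15) (nat_lit 58) (.cons (nat_lit 41) (nat_lit 20) (nat_lit 78) (.cons (nat_lit 61) (nat_lit 30) (nat_lit 118) (.cons (nat_lit 151) (nat_lit 75) (nat_lit 298) (.cons (nat_lit 1171) (nat_lit 585) (nat_lit 2338) (.cons (nat_lit 1531) (nat_lit 765) (nat_lit 3058) .nil))))))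
    (.cons (nat_lit 19) (nat_lit 9) (nat_lit 34) (.cons (nat_lit 37) (nat_lit 18) (nat_lit 70) (.cons (nat_lit 181) (nat_lit 90) (nat_lit 358) .nil)))
    (.cons (nat_lit 17) (nat_lit 8) (nat_lit 30) (.cons (nat_lit 73) (nat_lit 36) (nat_lit 142) (.cons (nat_lit 241) (nat_lit 120) (nat_lit 478) (.cons (nat_lit 881) (nat_lit 440) (nat_lit 1758) (.cons (nat_lit 1321) (nat_lit 660) (nat_lit 2638) (.cons (nat_lit 2113) (nat_lit 1056) (nat_lit 4222) (.cons (nat_lit 2689) (nat_lit 1344) (nat_lit 5374) .nil)))))))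
    (.cons (nat_lit 29) (nat_lit 14) (nat_lit 54) (.cons (nat_lit 71) (nat_lit 35) (nat_lit 138) (.cons (nat_lit 113) (nat_lit 56) (nat_lit 222) (.cons (nat_lit 197) (nat_lit 98) (nat_lit 390) (.cons (nat_lit 211) (nat_lit 105) (nat_lit 418) (.cons (nat_lit 337) (nat_lit 168) (nat_lit 670) (.cons (nat_lit 421) (nat_lit 210) (nat_lit 838) (.cons (nat_lit 631) (nat_lit 315) (nat_lit 1258) (.cons (nat_lit 673) (nat_lit 336) (nat_lit 1342) (.cons (nat_lit 701) (nat_lit 350) (nat_lit 1398) (.cons (nat_lit 1009) (nat_lit 504) (nat_lit 2014) (.cons (nat_lit 2521) (nat_lit 1260) (nat_lit 5038) (.cons (nat_lit 3361) (nat_lit 1680) (nat_lit 6718) (.cons (nat_lit 4201) (nat_lit 2100) (nat_lit 8398) (.cons (nat_lit 4789) (nat_lit 2394) (nat_lit 9574) .nil)))))))))))))))) <|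
  .nil

set_option maxRecDepth 100000 in
theorem pb3 : badck 5041 PB3 = true := by decide +kernel

/-- the primes -/
def LB3 : List ℕ := [74257, 74923, 75553, 75983, 76147, 77323, 77513, 77723, 78163, 79987, 84463, 84503, 85037, 89923, 90191, 92507, 92647, 92693, 93077, 93287, 93383, 93493, 93893, 96587, 96797, 97523, 97987, 98227, 98297]

lemma lb3 : PB3.ps = LB3 := by decide +kernel

end OEX.K
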