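import Pool.Agent.OEX.KRng
import Pool.Agent.OEX.KB0
import Pool.Agent.OEX.KB1
import Pool.Agent.OEX.KB2
import Pool.Agent.OEX.KB3

/-!
The primes with longer lists.
-/

namespace OEX.K

/-- all of them -/
def LB : List ℕ := LB0 ++ LB1 ++ LB2 ++ LB3

theorem bad_ok : ∀ p ∈ LB, Cv2 p := by
  intro p hp A m
  have h0 : ∀ p ∈ LB, 0 < p := by decide +kernel
  simp only [LB, List.mem_append] at hp
  have hp0 : 0 < p := h0 p (by simp only [LB, List.mem_append]; exact hp)
  rcases hp with ((h | h) | h) | h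
  · exact badck_sound le_rfl PB0 pb0 p (by rw [lb0]; exact h) hp0 A m
  · exact badck_sound le_rfl PB1 pb1 p (by rw [lb1]; exact h) hp0 A m
  · exact badck_sound le_rfl PB2 pb2 p (by rw [lb2]; exact h) hp0 A m
  · exact badck_sound le_rfl PB3 pb3 p (by rw [lb3]; exact h) hp0 A m

lemma bad_sub {L : List ℕ} (h : ∀ p ∈ L, p ∈ LB) : ∀ p ∈ L, Cv2 p := fun p hp => bad_ok p (h p hp)

end OEX.K
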