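import Mathlib

/-!
Kernel functions for the coverings.
-/

namespace OEX.K

/-- strict evaluation -/
def sv (n : ℕ) (k : ℕ → Bool) : Bool :=
  @Nat.rec (fun _ => Bool) (k (nat_lit 0)) (fun m _ => k m) (Nat.succ n)

/-- usable primes: `r`, `h = (r - 1) / 2`, `g = 2 r - 4` -/
inductive RL where
  | nil
  | cons (r h g : ℕ) (t : RL)

/-- levels: `k` children with steps `P = p ^ T`, then the primes `r` with `p ^ (k T) = 1` -/
inductive LV where
  | nil
  | cons (k P : ℕ) (rs : RL) (t : LV)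

/-- the static table: `r`, `h`, `g`, the levels of the residues -/
inductive SL where
  | nil
  | cons (r h g B : ℕ) (t : SL)

/-- eight lists -/
inductive S8 where
  | mk (a1 a2 a3 a4 a5 a6 a7 a8 : RL)

/-! ### one exponent -/

/-- `D` is zero or a square modulo one of the primes, or else -/
noncomputable def scan (D : ℕ) (nx : Bool) (rs : RL) : Bool :=
  @RL.rec (fun _ => Bool) nx (fun r h _ _ ih => @Bool.rec (fun _ => Bool) ih true
    (Nat.ble (Nat.mod (Nat.pow (Nat.mod D r) h) r) (nat_lit 1))) rs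

/-- all of `u, u P, …, u P ^ (k - 1)` -/
noncomputable def kids (P : ℕ) (f : ℕ → Bool) (k : ℕ) : ℕ → Bool :=
  @Nat.rec (fun _ => ℕ → Bool) (fun _ => true)
    (fun _ ih u => @Bool.rec (fun _ => Bool) false (sv (Nat.mul u P) ih) (f u)) k

/-- a node -/
noncomputable def nd (dd : ℕ → ℕ) (rs : RL) (ih : ℕ → Bool) (v : ℕ) : Bool :=
  sv (dd v) fun D => scan D (ih v) rs

/-- the search -/
noncomputable def dfs (dd : ℕ → ℕ) (ls : LV) : ℕ → Bool :=
  @LV.rec (fun _ => ℕ → Bool) (fun _ => false)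
    (fun k P rs _ ih u => kids P (nd dd rs ih) k u) ls

/-- the discriminant, plus sign -/
def dp (q b p4 u : ℕ) : ℕ :=
  Nat.add (Nat.pow (Nat.sub (Nat.mul q u) b) (nat_lit 2)) (Nat.mul p4 u)
/-- the discriminant, minus sign -/
def dm (q b p4 u : ℕ) : ℕ :=
  Nat.sub (Nat.pow (Nat.add (Nat.mul q u) b) (nat_lit 2)) (Nat.mul p4 u)

/-- both signs -/
noncomputable def two (p4 u : ℕ) (ls : LV) (q b : ℕ) : Bool :=
  @Bool.rec (fun _ => Bool) false (dfs (dm q b p4) ls u) (dfs (dp q b p4) ls u)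
/-- the factorisation `n = d e`, `d ≤ e` -/
noncomputable def pr (p4 u : ℕ) (ls : LV) (n j : ℕ) : Bool :=
  sv (Nat.succ j) fun d => sv (Nat.div n d) fun e =>
    @Bool.rec (fun _ => Bool) true (two p4 u ls e d) (Nat.ble d e)
/-- all factorisations `n = d e`, `d ≤ k` -/
noncomputable def dv (p4 u : ℕ) (ls : LV) (n k : ℕ) : Bool :=
  @Nat.rec (fun _ => Bool) true (fun j ih => @Nat.rec (fun _ => Bool)
    (@Bool.rec (fun _ => Bool) false ih (pr p4 u ls n j)) (fun _ _ => ih) (Nat.mod n (Nat.succ j))) k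

/-- the first family -/
noncomputable def c1 (p u k : ℕ) (ls : LV) : Bool :=
  sv (Nat.mul (nat_lit 4) p) fun p4 => @Bool.rec (fun _ => Bool) false
    (sv (Nat.succ p) fun n => dv p4 u ls n k) (sv (Nat.pred p) fun n => dv p4 u ls n k)

/-! ### two exponents -/

/-- `S + g P` is zero or a square modulo one of the primes, or else -/
noncomputable def scan2 (S P : ℕ) (nx : Bool) (rs : RL) : Bool :=
  @RL.rec (fun _ => Bool) nx (fun r h g _ ih => @Bool.rec (fun _ => Bool) ih true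
    (Nat.ble (Nat.mod (Nat.pow (Nat.mod (Nat.add S (Nat.mul g P)) r) h) r) (nat_lit 1))) rs

/-- a node -/
noncomputable def nd2 (ss : ℕ → ℕ → ℕ) (rs : RL) (ih : ℕ → ℕ → Bool) (v u : ℕ) : Bool :=
  sv (ss v u) fun S => sv (Nat.mul v u) fun P => scan2 S P (ih v u) rs

/-- the search, all classes -/
noncomputable def full (ss : ℕ → ℕ → ℕ) (ls : LV) : ℕ → ℕ → Bool :=
  @LV.rec (fun _ => ℕ → ℕ → Bool) (fun _ _ => false)
    (fun k P rs _ ih v u => kids P (fun v' => kids P (nd2 ss rs ih v') k u) k v) ls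

/-- diagonal classes, one level: the pairs `(v', u')` with `u'` not after `v'` -/
noncomputable def dgk (P : ℕ) (f : ℕ → Bool) (g : ℕ → ℕ → Bool) (k : ℕ) : ℕ → Bool :=
  @Nat.rec (fun _ => ℕ → Bool) (fun _ => true)
    (fun i ih v => @Bool.rec (fun _ => Bool) false
      (sv (Nat.mul v P) fun v' => @Bool.rec (fun _ => Bool) false (ih v') (kids P (g v) i v'))
      (f v)) k

/-- the search, diagonal classes -/
noncomputable def diag (ss : ℕ → ℕ → ℕ) (ls : LV) : ℕ → Bool :=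
  @LV.rec (fun _ => ℕ → Bool) (fun _ => false)
    (fun k P rs t ih v => dgk P (fun v' => nd2 ss rs (fun x _ => ih x) v' v')
      (nd2 ss rs (full ss t)) k v) ls

/-- `(v + u - 1)²` -/
def sp (v u : ℕ) : ℕ := Nat.pow (Nat.pred (Nat.add v u)) (nat_lit 2)
/-- `(v + u + 1)²` -/
def sm (v u : ℕ) : ℕ := Nat.pow (Nat.succ (Nat.add v u)) (nat_lit 2)

/-- the second family -/
noncomputable def c2 (ls : LV) : Bool :=
  @Bool.rec (fun _ => Bool) false (diag sm ls (nat_lit 1)) (diag sp ls (nat_lit 1))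

/-! ### the lists -/

/-- add to the first list -/
noncomputable def u1 (ih : S8 → Bool) (r h g : ℕ) (s : S8) : Bool :=
  @S8.rec (fun _ => Bool) (fun a1 a2 a3 a4 a5 a6 a7 a8 =>
    ih (S8.mk (RL.cons r h g a1) a2 a3 a4 a5 a6 a7 a8)) s
/-- add to the second list -/
noncomputable def u2 (ih : S8 → Bool) (r h g : ℕ) (s : S8) : Bool :=
  @S8.rec (fun _ => Bool) (fun a1 a2 a3 a4 a5 a6 a7 a8 =>
    ih (S8.mk a1 (RL.cons r h g a2) a3 a4 a5 a6 a7 a8)) s
/-- add to the third list -/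
noncomputable def u3 (ih : S8 → Bool) (r h g : ℕ) (s : S8) : Bool :=
  @S8.rec (fun _ => Bool) (fun a1 a2 a3 a4 a5 a6 a7 a8 =>
    ih (S8.mk a1 a2 (RL.cons r h g a3) a4 a5 a6 a7 a8)) s
/-- add to the fourth list -/
noncomputable def u4 (ih : S8 → Bool) (r h g : ℕ) (s : S8) : Bool :=
  @S8.rec (fun _ => Bool) (fun a1 a2 a3 a4 a5 a6 a7 a8 =>
    ih (S8.mk a1 a2 a3 (RL.cons r h g a4) a5 a6 a7 a8)) s
/-- add to the fifth list -/
noncomputable def u5 (ih : S8 → Bool) (r h g : ℕ) (s : S8) : Bool :=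
  @S8.rec (fun _ => Bool) (fun a1 a2 a3 a4 a5 a6 a7 a8 =>
    ih (S8.mk a1 a2 a3 a4 (RL.cons r h g a5) a6 a7 a8)) s
/-- add to the sixth list -/
noncomputable def u6 (ih : S8 → Bool) (r h g : ℕ) (s : S8) : Bool :=
  @S8.rec (fun _ => Bool) (fun a1 a2 a3 a4 a5 a6 a7 a8 =>
    ih (S8.mk a1 a2 a3 a4 a5 (RL.cons r h g a6) a7 a8)) s
/-- add to the seventh list -/
noncomputable def u7 (ih : S8 → Bool) (r h g : ℕ) (s : S8) : Bool :=
  @S8.rec (fun _ => Bool) (fun a1 a2 a3 a4 a5 a6 a7 a8 =>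
    ih (S8.mk a1 a2 a3 a4 a5 a6 (RL.cons r h g a7) a8)) s
/-- add to the eighth list -/
noncomputable def u8 (ih : S8 → Bool) (r h g : ℕ) (s : S8) : Bool :=
  @S8.rec (fun _ => Bool) (fun a1 a2 a3 a4 a5 a6 a7 a8 =>
    ih (S8.mk a1 a2 a3 a4 a5 a6 a7 (RL.cons r h g a8))) s

/-- add to the list `c + 1` -/
noncomputable def upd (ih : S8 → Bool) (r h g : ℕ) (s : S8) (c : ℕ) : Bool :=
  @Nat.rec (fun _ => Bool) (u1 ih r h g s) (fun c _ =>
  @Nat.rec (fun _ => Bool) (u2 ih r h g s) (fun c _ =>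
  @Nat.rec (fun _ => Bool) (u3 ih r h g s) (fun c _ =>
  @Nat.rec (fun _ => Bool) (u4 ih r h g s) (fun c _ =>
  @Nat.rec (fun _ => Bool) (u5 ih r h g s) (fun c _ =>
  @Nat.rec (fun _ => Bool) (u6 ih r h g s) (fun c _ =>
  @Nat.rec (fun _ => Bool) (u7 ih r h g s) (fun _ _ => u8 ih r h g s) c) c) c) c) c) c) c

/-- the lists of `p`, then `k` -/
noncomputable def bld (p : ℕ) (k : S8 → Bool) (sl : SL) : S8 → Bool :=
  @SL.rec (fun _ => S8 → Bool) k (fun r h g B _ ih s =>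
    @Nat.rec (fun _ => Bool) (ih s) (fun c _ => upd ih r h g s c)
      (Nat.mod (Nat.shiftRight B (Nat.mul (nat_lit 4) (Nat.mod p r))) (nat_lit 16))) sl

/-- the levels 1, 2, 6, 12, 60, 180, 720, 5040 -/
noncomputable def lvs (p : ℕ) (s : S8) (k : LV → Bool) : Bool :=
  @S8.rec (fun _ => Bool) (fun a1 a2 a3 a4 a5 a6 a7 a8 =>
    k (LV.cons (nat_lit 1) p a1 (LV.cons (nat_lit 2) p a2
      (LV.cons (nat_lit 3) (Nat.pow p (nat_lit 2)) a3
      (LV.cons (nat_lit 2) (Nat.pow p (nat_lit 6)) a4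
      (LV.cons (nat_lit 5) (Nat.pow p (nat_lit 12)) a5
      (LV.cons (nat_lit 3) (Nat.pow p (nat_lit 60)) a6
      (LV.cons (nat_lit 4) (Nat.pow p (nat_lit 180)) a7
      (LV.cons (nat_lit 7) (Nat.pow p (nat_lit 720)) a8 LV.nil))))))))) s

/-- membership -/
noncomputable def mem (n : ℕ) (L : List ℕ) : Bool :=
  @List.rec ℕ (fun _ => Bool) false (fun x _ ih => @Bool.rec (fun _ => Bool) ih true (Nat.beq n x)) L

/-- the check of the levels -/
noncomputable def ckl (bad : List ℕ) (p u k : ℕ) (ls : LV) : Bool :=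
  @Bool.rec (fun _ => Bool) false (@Bool.rec (fun _ => Bool) (c2 ls) true (mem p bad)) (c1 p u k ls)

/-- the check of `p` -/
noncomputable def ckp (sl : SL) (bad : List ℕ) (k p : ℕ) : Bool :=
  bld p (fun s => lvs p s (ckl bad p p k)) sl
    (S8.mk RL.nil RL.nil RL.nil RL.nil RL.nil RL.nil RL.nil RL.nil)

/-- the numbers `n, n + 2, …` (`m` of them) which are prime to `PR` -/
noncomputable def rng (PR : ℕ) (f : ℕ → Bool) (m : ℕ) : ℕ → Bool :=
  @Nat.rec (fun _ => ℕ → Bool) (fun _ => true) (fun _ ih n =>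
    @Bool.rec (fun _ => Bool) false (sv (Nat.add n (nat_lit 2)) ih)
      (@Bool.rec (fun _ => Bool) true (f n) (Nat.beq (Nat.gcd n PR) (nat_lit 1)))) m

end OEX.K
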