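import Pool.Agent.OEX.KSound

/-!
Soundness of the lists, the range, the checks of tables.
-/

namespace OEX.K

/-! ### the lists of a prime -/

/-- the eight lists are good -/
def Ok8 (R p : ℕ) : S8 → Prop
  | .mk a1 a2 a3 a4 a5 a6 a7 a8 => RL.All (Good R p 1) a1 ∧ RL.All (Good R p 2) a2 ∧
      RL.All (Good R p 6) a3 ∧ RL.All (Good R p 12) a4 ∧ RL.All (Good R p 60) a5 ∧
      RL.All (Good R p 180) a6 ∧ RL.All (Good R p 720) a7 ∧ RL.All (Good R p 5040) a8

/-- the moduli of the levels -/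
def Tn (c : ℕ) : ℕ := Nat.mod (Nat.shiftRight (nat_lit 8905045086687626839624593948940063410093548489876603807668897255003854602241) (Nat.mul (nat_lit 16) c))
  (nat_lit 65536)

/-- the code of a residue -/
def code (B a : ℕ) : ℕ := Nat.mod (Nat.shiftRight B (Nat.mul (nat_lit 4) a)) (nat_lit 16)

/-- a good static table -/
def TabOk (R : ℕ) : SL → Prop
  | .nil => True
  | .cons r h g B t => r.Prime ∧ 2 < r ∧ r < R ∧ h = r / 2 ∧ g = 2 * r - 4 ∧
      (∀ a < r, ∀ c, code B a = c + 1 → a ^ Tn c % r = 1) ∧ TabOk R t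

lemma upd_sound {R p : ℕ} {f : S8 → Bool} {r h g : ℕ} {s : S8} {c : ℕ} (hs : Ok8 R p s)
    (hc : c < 15) (hg : Good R p (Tn c) r h g) (hu : upd f r h g s c = true) :
    ∃ s', Ok8 R p s' ∧ f s' = true := by
  obtain ⟨a1, a2, a3, a4, a5, a6, a7, a8⟩ := s
  obtain ⟨h1, h2, h3, h4, h5, h6, h7, h8⟩ := hs
  rcases c with _ | _ | _ | _ | _ | _ | _ | c
  · exact ⟨S8.mk (RL.cons r h g a1) a2 a3 a4 a5 a6 a7 a8, ⟨⟨hg, h1⟩, h2, h3, h4, h5, h6, h7, h8⟩, hu⟩
  · exact ⟨S8.mk a1 (RL.cons r h g a2) a3 a4 a5 a6 a7 a8, ⟨h1, ⟨hg, h2⟩, h3, h4, h5, h6, h7, h8⟩, hu⟩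
  · exact ⟨S8.mk a1 a2 (RL.cons r h g a3) a4 a5 a6 a7 a8, ⟨h1, h2, ⟨hg, h3⟩, h4, h5, h6, h7, h8⟩, hu⟩
  · exact ⟨S8.mk a1 a2 a3 (RL.cons r h g a4) a5 a6 a7 a8, ⟨h1, h2, h3, ⟨hg, h4⟩, h5, h6, h7, h8⟩, hu⟩
  · exact ⟨S8.mk a1 a2 a3 a4 (RL.cons r h g a5) a6 a7 a8, ⟨h1, h2, h3, h4, ⟨hg, h5⟩, h6, h7, h8⟩, hu⟩
  · exact ⟨S8.mk a1 a2 a3 a4 a5 (RL.cons r h g a6) a7 a8, ⟨h1, h2, h3, h4, h5, ⟨hg, h6⟩, h7, h8⟩, hu⟩
  · exact ⟨S8.mk a1 a2 a3 a4 a5 a6 (RL.cons r h g a7) a8, ⟨h1, h2, h3, h4, h5, h6, ⟨hg, h7⟩, h8⟩, hu⟩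
  · have e : Tn (c + 7) = 5040 := by
      have : c < 8 := by omega
      interval_cases c <;> rfl
    have hg' : Good R p 5040 r h g := e ▸ hg
    exact ⟨S8.mk a1 a2 a3 a4 a5 a6 a7 (RL.cons r h g a8), ⟨h1, h2, h3, h4, h5, h6, h7, ⟨hg', h8⟩⟩,
      hu⟩

theorem bld_sound {R p : ℕ} {k : S8 → Bool} : ∀ (sl : SL) (s : S8), TabOk R sl → Ok8 R p s →
    bld p k sl s = true → ∃ s', Ok8 R p s' ∧ k s' = true := by
  intro sl
  induction sl with
  | nil => intro s _ hs h; exact ⟨s, hs, h⟩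
  | cons r h g B t ih =>
    intro s ht hs hb
    obtain ⟨hr, h2, hR, hh, hg, hB, ht'⟩ := ht
    have h' : (@Nat.rec (fun _ => Bool) (bld p k t s) (fun c _ => upd (bld p k t) r h g s c)
      (code B (p % r))) = true := hb
    cases hc : code B (p % r) with
    | zero =>
      rw [hc] at h'
      exact ih s ht' hs h'
    | succ c =>
      rw [hc] at h'
      have hc15 : c < 15 := by
        have : code B (p % r) < 16 := Nat.mod_lt _ (by norm_num)
        omega
      have hr0 : 0 < r := by omega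
      have hpow := hB (p % r) (Nat.mod_lt _ hr0) c hc
      have hgood : Good R p (Tn c) r h g := by
        refine ⟨⟨hr, h2, hR, ?_⟩, hh, hg⟩
        have e1 : (((p % r) ^ Tn c % r : ℕ) : ZMod r) = (p : ZMod r) ^ Tn c := by
          rw [ZMod.natCast_mod, Nat.cast_pow, ZMod.natCast_mod]
        rw [← e1, hpow, Nat.cast_one]
      obtain ⟨s', hs', hf⟩ := upd_sound hs hc15 hgood h'
      exact ih s' ht' hs' hf

lemma lvs_sound {R p : ℕ} {s : S8} {k : LV → Bool} (hs : Ok8 R p s) (h : lvs p s k = true) :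
    ∃ ls, LvOk R p 5040 1 ls ∧ k ls = true := by
  obtain ⟨a1, a2, a3, a4, a5, a6, a7, a8⟩ := s
  obtain ⟨h1, h2, h3, h4, h5, h6, h7, h8⟩ := hs
  refine ⟨_, ?_, h⟩
  refine ⟨by norm_num, (pow_one p).symm, by norm_num, h1, ?_⟩
  refine ⟨by norm_num, (pow_one p).symm, by norm_num, h2, ?_⟩
  refine ⟨by norm_num, rfl, by norm_num, h3, ?_⟩
  refine ⟨by norm_num, rfl, by norm_num, h4, ?_⟩
  refine ⟨by norm_num, rfl, by norm_num, h5, ?_⟩
  refine ⟨by norm_num, rfl, by norm_num, h6, ?_⟩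
  refine ⟨by norm_num, rfl, by norm_num, h7, ?_⟩
  exact ⟨by norm_num, rfl, by norm_num, h8, trivial⟩

lemma mem_sound {n : ℕ} : ∀ L : List ℕ, mem n L = true → n ∈ L := by
  intro L
  induction L with
  | nil => intro h; exact absurd h (by simp [mem])
  | cons x t ih =>
    intro h
    rcases brec_or.1 (show @Bool.rec (fun _ => Bool) (mem n t) true (Nat.beq n x) = true from h)
      with h1 | h1
    · rw [Nat.eq_of_beq_eq_true h1]; exact List.mem_cons_self
    · exact List.mem_cons_of_mem _ (ih h1)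

/-- the result of the check of a prime -/
theorem ckl_sound {R p m1 k : ℕ} {s : S8} {bad : List ℕ} (hs : Ok8 R p s) (hp : 1 < p)
    (hm : 3 ≤ p ∨ 3 ≤ m1) (hm1 : 1 ≤ m1) (hk : p + 1 ≤ k ^ 2)
    (h : lvs p s (ckl bad p (p ^ m1) k) = true) :
    (∀ q b n : ℕ, n = p - 1 ∨ n = p + 1 → q * b = n → Both R p 5040 q b) ∧
      (p ∈ bad ∨ ∀ A m, Hit2 R p 5040 1 A m ∧ Hit2 R p 5040 (-1) A m) := by
  obtain ⟨ls, hls, hc⟩ := lvs_sound hs h
  obtain ⟨h1, h2⟩ := brec_and.1 (show @Bool.rec (fun _ => Bool) false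
    (@Bool.rec (fun _ => Bool) (c2 ls) true (mem p bad)) (c1 p (p ^ m1) k ls) = true from hc)
  refine ⟨fun q b n hn hqb => c1_sound hls (by norm_num) hp hm hm1 hk h1 hn hqb, ?_⟩
  rcases brec_or.1 h2 with h3 | h3
  · exact Or.inl (mem_sound _ h3)
  · exact Or.inr fun A m => c2_sound (by omega) hls h3 A m

/-- the check of one prime with the static table -/
theorem ckp_sound {R p k : ℕ} {sl : SL} {bad : List ℕ} (ht : TabOk R sl) (hp : 3 ≤ p)
    (hk : p + 1 ≤ k ^ 2) (h : ckp sl bad k p = true) :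
    (∀ q b n : ℕ, n = p - 1 ∨ n = p + 1 → q * b = n → Both R p 5040 q b) ∧
      (p ∈ bad ∨ ∀ A m, Hit2 R p 5040 1 A m ∧ Hit2 R p 5040 (-1) A m) := by
  obtain ⟨s, hs, h1⟩ := bld_sound sl _ ht
    (show Ok8 R p (S8.mk RL.nil RL.nil RL.nil RL.nil RL.nil RL.nil RL.nil RL.nil) from
      ⟨trivial, trivial, trivial, trivial, trivial, trivial, trivial, trivial⟩) h
  have e : p = p ^ 1 := (pow_one p).symm
  refine ckl_sound (m1 := 1) hs (by omega) (Or.inl hp) le_rfl hk ?_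
  rw [pow_one]
  exact h1

lemma rng_sound {PR : ℕ} {f : ℕ → Bool} : ∀ (m n : ℕ), rng PR f m n = true →
    ∀ i < m, Nat.gcd (n + 2 * i) PR = 1 → f (n + 2 * i) = true := by
  intro m
  induction m with
  | zero => intro n _ i hi; omega
  | succ m ih =>
    intro n h i hi hg
    obtain ⟨h1, h2⟩ := brec_and.1 (show @Bool.rec (fun _ => Bool) false (rng PR f m (n + 2))
      (@Bool.rec (fun _ => Bool) true (f n) (Nat.beq (Nat.gcd n PR) 1)) = true from h)
    rcases i with _ | i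
    · have h3 : (@Bool.rec (fun _ => Bool) true (f n) (Nat.beq (Nat.gcd n PR) 1)) = true := h1
      have h4 : Nat.gcd n PR = 1 := hg
      rw [h4] at h3
      exact h3
    · have := ih (n + 2) h2 i (by omega) (by rw [← hg]; congr 1; ring)
      rw [← this]; congr 1; ring

/-! ### checks of tables -/

/-- prime numbers below 71 -/
def P71 : List ℕ := [2, 3, 5, 7, 11, 13, 17, 19, 23, 29, 31, 37, 41, 43, 47, 53, 59, 61, 67]

/-- `r` is not divisible by a smaller prime below 71 -/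
noncomputable def prk (r : ℕ) : Bool :=
  @List.rec ℕ (fun _ => Bool) true (fun q _ ih => @Bool.rec (fun _ => Bool)
    false ih (@Bool.rec (fun _ => Bool) (Nat.ble (nat_lit 1) (Nat.mod r q)) true (Nat.beq r q))) P71

lemma prk_sound {r : ℕ} (h1 : 1 < r) (h2 : r < 5041) (h : prk r = true) : r.Prime := by
  have key : ∀ L : List ℕ, @List.rec ℕ (fun _ => Bool) true (fun q _ ih =>
      @Bool.rec (fun _ => Bool) false ih (@Bool.rec (fun _ => Bool)
        (Nat.ble 1 (Nat.mod r q)) true (Nat.beq r q))) L = true →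
      ∀ q ∈ L, q ∣ r → r = q := by
    intro L
    induction L with
    | nil => intro _ q hq; simp at hq
    | cons x t ih =>
      intro h q hq hd
      obtain ⟨h3, h4⟩ := brec_and.1 h
      rcases List.mem_cons.1 hq with rfl | hq
      · rcases brec_or.1 h3 with h5 | h5
        · exact Nat.eq_of_beq_eq_true h5
        · have h6 : 1 ≤ r % q := Nat.le_of_ble_eq_true h5
          rw [Nat.mod_eq_zero_of_dvd hd] at h6
          omega
      · exact ih h4 q hq hd
  by_contra hnp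
  have h5 : (Nat.minFac r) ^ 2 ≤ r := Nat.minFac_sq_le_self (by omega) hnp
  have h6 : Nat.minFac r < 71 := by
    by_contra h7
    have : 71 ≤ Nat.minFac r := by omega
    nlinarith
  have h7 : (Nat.minFac r).Prime := Nat.minFac_prime (by omega)
  have h8 : ∀ q < 71, q.Prime → q ∈ P71 := by decide +kernel
  have h9 := key P71 h _ (h8 _ h6 h7) (Nat.minFac_dvd r)
  exact hnp (h9 ▸ h7)

/-- one residue -/
noncomputable def ta1 (r B a : ℕ) : Bool :=
  @Nat.rec (fun _ => Bool) true (fun c _ => Nat.beq (Nat.mod (Nat.pow a (Tn c)) r) (nat_lit 1))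
    (code B a)
/-- all residues -/
noncomputable def ta (r B : ℕ) (n : ℕ) : Bool :=
  @Nat.rec (fun _ => Bool) true (fun a ih => @Bool.rec (fun _ => Bool) false ih (ta1 r B a)) n

lemma ta_sound {r B : ℕ} : ∀ n, ta r B n = true → ∀ a < n, ∀ c, code B a = c + 1 →
    a ^ Tn c % r = 1 := by
  intro n
  induction n with
  | zero => intro _ a ha; omega
  | succ n ih =>
    intro h a ha c hc
    obtain ⟨h1, h2⟩ := brec_and.1 (show @Bool.rec (fun _ => Bool) false (ta r B n) (ta1 r B n)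
      = true from h)
    rcases Nat.lt_or_ge a n with h3 | h3
    · exact ih h2 a h3 c hc
    · have e : a = n := by omega
      subst e
      have h4 : (@Nat.rec (fun _ => Bool) true (fun c _ => Nat.beq (Nat.mod (Nat.pow a (Tn c)) r) 1)
        (code B a)) = true := h1
      rw [hc] at h4
      exact Nat.eq_of_beq_eq_true h4

/-- the data of an entry -/
noncomputable def ck3 (R r h g : ℕ) : Bool :=
  @Bool.rec (fun _ => Bool) false
    (@Bool.rec (fun _ => Bool) false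
      (@Bool.rec (fun _ => Bool) false (@Bool.rec (fun _ => Bool) false
        (prk r) (Nat.beq (Nat.add g (nat_lit 4)) (Nat.mul (nat_lit 2) r)))
        (Nat.beq h (Nat.div r (nat_lit 2)))) (Nat.ble (Nat.succ r) R))
    (Nat.ble (nat_lit 3) r)

lemma ck3_sound {R r h g : ℕ} (hR : R ≤ 5041) (hc : ck3 R r h g = true) :
    r.Prime ∧ 2 < r ∧ r < R ∧ h = r / 2 ∧ g = 2 * r - 4 := by
  obtain ⟨h1, hc⟩ := brec_and.1 hc
  obtain ⟨h2, hc⟩ := brec_and.1 hc
  obtain ⟨h3, hc⟩ := brec_and.1 hc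
  obtain ⟨h4, h5⟩ := brec_and.1 hc
  have h1' : 3 ≤ r := Nat.le_of_ble_eq_true h1
  have h2' : r + 1 ≤ R := Nat.le_of_ble_eq_true h2
  have h3' : h = r / 2 := Nat.eq_of_beq_eq_true h3
  have h4' : g + 4 = 2 * r := Nat.eq_of_beq_eq_true h4
  exact ⟨prk_sound (by omega) (by omega) h5, by omega, by omega, h3', by omega⟩

/-- the check of the static table -/
noncomputable def tabck (R : ℕ) (sl : SL) : Bool :=
  @SL.rec (fun _ => Bool) true (fun r h g B _ ih => @Bool.rec (fun _ => Bool) false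
    (@Bool.rec (fun _ => Bool) false ih (ta r B r)) (ck3 R r h g)) sl

theorem tabck_sound {R : ℕ} (hR : R ≤ 5041) : ∀ sl, tabck R sl = true → TabOk R sl := by
  intro sl
  induction sl with
  | nil => intro _; trivial
  | cons r h g B t ih =>
    intro hc
    obtain ⟨h1, hc⟩ := brec_and.1 (show @Bool.rec (fun _ => Bool) false
      (@Bool.rec (fun _ => Bool) false (tabck R t) (ta r B r)) (ck3 R r h g) = true from hc)
    obtain ⟨h2, h3⟩ := brec_and.1 hc
    obtain ⟨a, b, c, d, e⟩ := ck3_sound hR h1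
    exact ⟨a, b, c, d, e, ta_sound r h2, ih h3⟩

/-- the check of a list of primes -/
noncomputable def ckr (R p T : ℕ) (rs : RL) : Bool :=
  @RL.rec (fun _ => Bool) true (fun r h g _ ih => @Bool.rec (fun _ => Bool) false
    (@Bool.rec (fun _ => Bool) false ih (Nat.beq (Nat.mod (Nat.pow (Nat.mod p r) T) r) (nat_lit 1)))
    (ck3 R r h g)) rs

lemma ckr_sound {R p T : ℕ} (hR : R ≤ 5041) : ∀ rs, ckr R p T rs = true →
    RL.All (Good R p T) rs := by
  intro rs
  induction rs with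
  | nil => intro _; trivial
  | cons r h g t ih =>
    intro hc
    obtain ⟨h1, hc⟩ := brec_and.1 (show @Bool.rec (fun _ => Bool) false
      (@Bool.rec (fun _ => Bool) false (ckr R p T t)
        (Nat.beq (Nat.mod (Nat.pow (Nat.mod p r) T) r) 1)) (ck3 R r h g) = true from hc)
    obtain ⟨h2, h3⟩ := brec_and.1 hc
    obtain ⟨a, b, c, d, e⟩ := ck3_sound hR h1
    refine ⟨⟨⟨a, b, c, ?_⟩, d, e⟩, ih h3⟩
    have h4 : (p % r) ^ T % r = 1 := Nat.eq_of_beq_eq_true h2
    have e1 : (((p % r) ^ T % r : ℕ) : ZMod r) = (p : ZMod r) ^ T := by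
      rw [ZMod.natCast_mod, Nat.cast_pow, ZMod.natCast_mod]
    rw [← e1, h4, Nat.cast_one]

/-- the check of eight lists -/
noncomputable def ck8 (R p : ℕ) (s : S8) : Bool :=
  @S8.rec (fun _ => Bool) (fun a1 a2 a3 a4 a5 a6 a7 a8 =>
    @Bool.rec (fun _ => Bool) false (@Bool.rec (fun _ => Bool) false
    (@Bool.rec (fun _ => Bool) false (@Bool.rec (fun _ => Bool) false
    (@Bool.rec (fun _ => Bool) false (@Bool.rec (fun _ => Bool) false
    (@Bool.rec (fun _ => Bool) false (ckr R p (nat_lit 5040) a8)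
    (ckr R p (nat_lit 720) a7)) (ckr R p (nat_lit 180) a6)) (ckr R p (nat_lit 60) a5))
    (ckr R p (nat_lit 12) a4)) (ckr R p (nat_lit 6) a3)) (ckr R p (nat_lit 2) a2))
    (ckr R p (nat_lit 1) a1)) s

lemma ck8_sound {R p : ℕ} (hR : R ≤ 5041) (s : S8) (h : ck8 R p s = true) : Ok8 R p s := by
  obtain ⟨a1, a2, a3, a4, a5, a6, a7, a8⟩ := s
  obtain ⟨h1, h⟩ := brec_and.1 h
  obtain ⟨h2, h⟩ := brec_and.1 h
  obtain ⟨h3, h⟩ := brec_and.1 h
  obtain ⟨h4, h⟩ := brec_and.1 h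
  obtain ⟨h5, h⟩ := brec_and.1 h
  obtain ⟨h6, h⟩ := brec_and.1 h
  obtain ⟨h7, h8⟩ := brec_and.1 h
  exact ⟨ckr_sound hR _ h1, ckr_sound hR _ h2, ckr_sound hR _ h3, ckr_sound hR _ h4,
    ckr_sound hR _ h5, ckr_sound hR _ h6, ckr_sound hR _ h7, ckr_sound hR _ h8⟩

/-- primes with their lists -/
inductive PL where
  | nil
  | cons (p : ℕ) (s : S8) (t : PL)

/-- the check of the exceptional primes -/
noncomputable def badck (R : ℕ) (pl : PL) : Bool :=
  @PL.rec (fun _ => Bool) true (fun p s _ ih => @Bool.rec (fun _ => Bool) false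
    (@Bool.rec (fun _ => Bool) false ih (lvs p s c2)) (ck8 R p s)) pl

/-- the primes of a list -/
def PL.ps : PL → List ℕ
  | .nil => []
  | .cons p _ t => p :: t.ps

theorem badck_sound {R : ℕ} (hR : R ≤ 5041) : ∀ pl : PL, badck R pl = true → ∀ p ∈ pl.ps, 0 < p →
    ∀ A m, Hit2 R p 5040 1 A m ∧ Hit2 R p 5040 (-1) A m := by
  intro pl
  induction pl with
  | nil => intro _ p hp; simp [PL.ps] at hp
  | cons p s t ih =>
    intro h q hq hq0 A m
    obtain ⟨h1, h⟩ := brec_and.1 (show @Bool.rec (fun _ => Bool) false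
      (@Bool.rec (fun _ => Bool) false (badck R t) (lvs p s c2)) (ck8 R p s) = true from h)
    obtain ⟨h2, h3⟩ := brec_and.1 h
    rcases List.mem_cons.1 hq with rfl | hq
    · obtain ⟨ls, hls, hc⟩ := lvs_sound (ck8_sound hR s h1) h2
      exact c2_sound hq0 hls hc A m
    · exact ih h3 q hq hq0 A m

end OEX.K
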