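import Pool.Agent.OEX.KBad

/-!
The primes below 317.
-/

namespace OEX.K

theorem rs2 : ck2 = true := by decide +kernel

theorem rsl : lck [nat_lit 223] (nat_lit 18) L317.tail = true := by decide +kernel

/-- `n` is in the list, or it has a small divisor -/
theorem mem_L317_or : ∀ n < 317, 2 ≤ n → n ∈ L317 ∨
    ∃ q ∈ [2, 3, 5, 7, 11, 13, 17], n % q = 0 ∧ q < n := by decide +kernel

theorem mem_L317 {p : ℕ} (hp : p.Prime) (h : p < 317) : p ∈ L317 := by
  rcases mem_L317_or p h hp.two_le with h1 | ⟨q, hq, h1, h2⟩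
  · exact h1
  · have h3 : ∀ q ∈ [2, 3, 5, 7, 11, 13, 17], 2 ≤ q := by decide
    have h4 := h3 q hq
    rcases (Nat.dvd_prime hp).1 (Nat.dvd_of_mod_eq_zero h1) with h5 | h5 <;> omega

theorem covs (p : ℕ) (hp : p.Prime) (h : p < 317) : Cv p := by
  rcases List.mem_cons.1 (mem_L317 hp h) with h2 | h2
  · rw [h2]; exact of_ck2 rs2
  · have h3 : ∀ p ∈ L317.tail, 3 ≤ p ∧ p + 1 ≤ 18 ^ 2 := by decide +kernel
    exact of_lck (bad_sub (by decide +kernel)) _ rsl p h2 (h3 p h2).1 (h3 p h2).2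

end OEX.K
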