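import Pool.Agent.OEX.KDef

/-!
Soundness of the kernel functions for the coverings.
-/

namespace OEX.K

/-! ### elementary -/

lemma sv_eq (n : ℕ) (k : ℕ → Bool) : sv n k = k n := rfl

lemma brec_and {a b : Bool} : (@Bool.rec (fun _ => Bool) false a b) = true ↔ b = true ∧ a = true := by
  cases b <;> simp

lemma brec_or {a b : Bool} : (@Bool.rec (fun _ => Bool) a true b) = true ↔ b = true ∨ a = true := by
  cases b <;> simp

/-- the prime `r` may be used: `p ^ N = 1` modulo `r` -/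
structure Ok (R p N : ℕ) (r : ℕ) : Prop where
  prime : r.Prime
  two : 2 < r
  lt : r < R
  pow : (p : ZMod r) ^ N = 1

/-- an entry of a list of primes, `T` is the modulus of the level -/
structure Good (R p T : ℕ) (r h g : ℕ) : Prop where
  ok : Ok R p T r
  hh : h = r / 2
  hg : g = 2 * r - 4

/-- all entries -/
def RL.All (Q : ℕ → ℕ → ℕ → Prop) : RL → Prop
  | .nil => True
  | .cons r h g t => Q r h g ∧ RL.All Q t

/-- the levels are in order, with final modulus dividing `N` -/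
def LvOk (R p N : ℕ) : ℕ → LV → Prop
  | _, .nil => True
  | T, .cons k P rs t => 0 < k ∧ P = p ^ T ∧ T * k ∣ N ∧ RL.All (Good R p (T * k)) rs ∧
      LvOk R p N (T * k) t

lemma test_sound {r h : ℕ} (hr : r.Prime) (h2 : 2 < r) (hh : h = r / 2) (D : ℕ)
    (ht : Nat.ble (Nat.mod (Nat.pow (Nat.mod D r) h) r) 1 = true) : IsSquare (D : ZMod r) := by
  have : Fact r.Prime := ⟨hr⟩
  have h1 : (D % r) ^ h % r ≤ 1 := Nat.le_of_ble_eq_true ht
  by_cases h0 : (D : ZMod r) = 0
  · rw [h0]; exact ⟨0, by ring⟩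
  · rw [ZMod.euler_criterion r h0, ← hh]
    have e1 : (((D % r) ^ h % r : ℕ) : ZMod r) = (D : ZMod r) ^ h := by
      rw [ZMod.natCast_mod, Nat.cast_pow, ZMod.natCast_mod]
    rcases Nat.le_one_iff_eq_zero_or_eq_one.1 h1 with h3 | h3
    · rw [h3] at e1
      exact absurd (by rw [← e1]; simp) (pow_ne_zero h h0)
    · rw [h3] at e1
      rw [← e1]; simp

lemma pow_congr {M : Type*} [Monoid M] {x : M} {K m m' : ℕ} (hK : x ^ K = 1)
    (h : m ≡ m' [MOD K]) : x ^ m = x ^ m' := by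
  have h1 : ∀ n, x ^ n = x ^ (n % K) := by
    intro n
    conv_lhs => rw [← Nat.div_add_mod n K, pow_add, pow_mul, hK, one_pow, one_mul]
  rw [h1 m, h1 m', h]

lemma exists_child {T k m m0 : ℕ} (hT : 0 < T) (hk : 0 < k) (h : m ≡ m0 [MOD T]) :
    ∃ j < k, m ≡ m0 + T * j [MOD T * k] := by
  have h1 : m0 ≤ m + T * k * m0 := by
    have : m0 ≤ T * k * m0 := Nat.le_mul_of_pos_left _ (Nat.mul_pos hT hk)
    omega
  have h2 : T ∣ m + T * k * m0 - m0 := by
    have h3 : m + T * k * m0 ≡ m0 [MOD T] := by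
      have h4 : m + T * k * m0 ≡ m + 0 [MOD T] := by
        apply Nat.ModEq.add_left
        rw [mul_assoc]
        exact (Nat.modEq_zero_iff_dvd.2 (dvd_mul_right _ _))
      exact h4.trans h
    exact (Nat.modEq_iff_dvd' h1).1 h3.symm
  obtain ⟨x, hx⟩ := h2
  refine ⟨x % k, Nat.mod_lt _ hk, ?_⟩
  have h5 : m + T * k * m0 = m0 + T * x := by omega
  have h6 : m ≡ m + T * k * m0 [MOD T * k] := by
    have : m + 0 ≡ m + T * k * m0 [MOD T * k] := by
      apply Nat.ModEq.add_left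
      exact (Nat.modEq_zero_iff_dvd.2 (dvd_mul_right _ _)).symm
    exact this
  refine h6.trans ?_
  rw [h5]
  apply Nat.ModEq.add_left
  exact (Nat.mod_modEq x k).symm.mul_left' T

lemma kids_sound {P : ℕ} {f : ℕ → Bool} : ∀ (k u : ℕ), kids P f k u = true →
    ∀ j < k, f (u * P ^ j) = true := by
  intro k
  induction k with
  | zero => intro u _ j hj; omega
  | succ k ih =>
    intro u h j hj
    have h' := brec_and.1 (show @Bool.rec (fun _ => Bool) false (kids P f k (u * P)) (f u) = true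
      from h)
    rcases j with _ | j
    · simpa using h'.1
    · have := ih (u * P) h'.2 j (by omega)
      rw [pow_succ', ← mul_assoc]
      exact this

/-! ### one exponent -/

lemma scan_sound {Q : ℕ → ℕ → ℕ → Prop} {D : ℕ} {nx : Bool} : ∀ rs : RL, RL.All Q rs →
    scan D nx rs = true → nx = true ∨ ∃ r h g, Q r h g ∧
      Nat.ble (Nat.mod (Nat.pow (Nat.mod D r) h) r) 1 = true := by
  intro rs
  induction rs with
  | nil => intro _ h; exact Or.inl h
  | cons r h g t ih =>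
    intro hA hs
    have h' := brec_or.1 (show @Bool.rec (fun _ => Bool) (scan D nx t) true
      (Nat.ble (Nat.mod (Nat.pow (Nat.mod D r) h) r) 1) = true from hs)
    rcases h' with h1 | h1
    · exact Or.inr ⟨r, h, g, hA.1, h1⟩
    · exact ih hA.2 h1

/-- the quadratic polynomial with coefficients `a`, `b`, `c` is zero or a square at `p ^ m` modulo
one of the primes -/
def Hit (R p N : ℕ) (a b c : ℤ) (m : ℕ) : Prop :=
  ∃ r, Ok R p N r ∧ IsSquare ((a : ZMod r) * ((p : ZMod r) ^ m) ^ 2 + b * (p : ZMod r) ^ m + c)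

lemma Ok.mono {R p T N r : ℕ} (h : Ok R p T r) (hd : T ∣ N) : Ok R p N r := by
  refine ⟨h.prime, h.two, h.lt, ?_⟩
  obtain ⟨k, rfl⟩ := hd
  rw [pow_mul, h.pow, one_pow]

theorem dfs_sound {R p N : ℕ} {a b c : ℤ} {dd : ℕ → ℕ} {m1 : ℕ}
    (hdd : ∀ m, m1 ≤ m → ((dd (p ^ m) : ℕ) : ℤ) = a * ((p : ℤ) ^ m) ^ 2 + b * (p : ℤ) ^ m + c) :
    ∀ (ls : LV) (T m0 : ℕ), 0 < T → LvOk R p N T ls → m1 ≤ m0 → dfs dd ls (p ^ m0) = true →
      ∀ m, m ≡ m0 [MOD T] → Hit R p N a b c m := by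
  intro ls
  induction ls with
  | nil => intro T m0 _ _ _ h; exact absurd h (by simp [dfs])
  | cons k P rs t ih =>
    intro T m0 hT hok hm0 h m hm
    obtain ⟨hk, hP, hN, hA, ht⟩ := hok
    have h1 : kids P (nd dd rs (dfs dd t)) k (p ^ m0) = true := h
    obtain ⟨j, hj, hmj⟩ := exists_child hT hk hm
    have h2 := kids_sound k _ h1 j hj
    have e1 : p ^ m0 * P ^ j = p ^ (m0 + T * j) := by rw [hP, ← pow_mul, ← pow_add]
    rw [e1] at h2
    have h3 : scan (dd (p ^ (m0 + T * j))) (dfs dd t (p ^ (m0 + T * j))) rs = true := h2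
    rcases scan_sound rs hA h3 with h4 | ⟨r, hh, g, hg, h4⟩
    · exact ih (T * k) (m0 + T * j) (Nat.mul_pos hT hk) ht (by omega) h4 m hmj
    · refine ⟨r, hg.ok.mono hN, ?_⟩
      have h5 := test_sound hg.ok.prime hg.ok.two hg.hh _ h4
      have e2 : ((dd (p ^ (m0 + T * j)) : ℕ) : ZMod r) =
          (a : ZMod r) * ((p : ZMod r) ^ (m0 + T * j)) ^ 2 + b * (p : ZMod r) ^ (m0 + T * j) + c := by
        have := congrArg (Int.cast : ℤ → ZMod r) (hdd (m0 + T * j) (by omega))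
        push_cast at this
        exact this
      rw [e2] at h5
      rw [pow_congr hg.ok.pow hmj]
      exact h5

/-- exchange of the outer coefficients -/
lemma Hit.swap {R p N : ℕ} {a b c : ℤ} (hN : 0 < N) (h : ∀ m, Hit R p N a b c m) (m : ℕ) :
    Hit R p N c b a m := by
  obtain ⟨r, hr, hs⟩ := h ((N - 1) * m)
  refine ⟨r, hr, ?_⟩
  set x : ZMod r := (p : ZMod r) ^ m with hx
  set y : ZMod r := (p : ZMod r) ^ ((N - 1) * m) with hy
  have e1 : y * x = 1 := by
    rw [hx, hy, ← pow_add, ← Nat.succ_mul, Nat.succ_eq_add_one, Nat.sub_add_cancel hN, pow_mul,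
      hr.pow, one_pow]
  have e2 : (c : ZMod r) * x ^ 2 + b * x + a = x ^ 2 * ((a : ZMod r) * y ^ 2 + b * y + c) := by
    have e3 : x ^ 2 * ((a : ZMod r) * y ^ 2 + b * y + c) =
        a * (y * x) ^ 2 + b * (y * x) * x + c * x ^ 2 := by ring
    rw [e3, e1]; ring
  rw [e2]
  exact (IsSquare.sq x).mul hs

/-! ### two exponents -/

lemma scan2_sound {Q : ℕ → ℕ → ℕ → Prop} {S P : ℕ} {nx : Bool} : ∀ rs : RL, RL.All Q rs →
    scan2 S P nx rs = true → nx = true ∨ ∃ r h g, Q r h g ∧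
      Nat.ble (Nat.mod (Nat.pow (Nat.mod (Nat.add S (Nat.mul g P)) r) h) r) 1 = true := by
  intro rs
  induction rs with
  | nil => intro _ h; exact Or.inl h
  | cons r h g t ih =>
    intro hA hs
    have h' := brec_or.1 (show @Bool.rec (fun _ => Bool) (scan2 S P nx t) true
      (Nat.ble (Nat.mod (Nat.pow (Nat.mod (Nat.add S (Nat.mul g P)) r) h) r) 1) = true from hs)
    rcases h' with h1 | h1
    · exact Or.inr ⟨r, h, g, hA.1, h1⟩
    · exact ih hA.2 h1

/-- the same with two exponents -/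
def Hit2 (R p N : ℕ) (c : ℤ) (A m : ℕ) : Prop :=
  ∃ r, Ok R p N r ∧ IsSquare (((p : ZMod r) ^ A + (p : ZMod r) ^ m - c) ^ 2 -
    4 * (p : ZMod r) ^ A * (p : ZMod r) ^ m)

lemma Hit2.symm {R p N : ℕ} {c : ℤ} {A m : ℕ} (h : Hit2 R p N c A m) : Hit2 R p N c m A := by
  obtain ⟨r, hr, hs⟩ := h
  refine ⟨r, hr, ?_⟩
  have e : ((p : ZMod r) ^ m + (p : ZMod r) ^ A - c) ^ 2 - 4 * (p : ZMod r) ^ m * (p : ZMod r) ^ A =
      ((p : ZMod r) ^ A + (p : ZMod r) ^ m - c) ^ 2 - 4 * (p : ZMod r) ^ A * (p : ZMod r) ^ m := by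
    ring
  rw [e]; exact hs

lemma nd2_sound {R p N T A0 u0 : ℕ} {cc : ℤ} {ss : ℕ → ℕ → ℕ} {rs : RL} {ih : ℕ → ℕ → Bool}
    (hp : 0 < p) (hss : ∀ v u : ℕ, 0 < v → 0 < u → ((ss v u : ℕ) : ℤ) = ((v : ℤ) + u - cc) ^ 2)
    (hN : T ∣ N) (hA : RL.All (Good R p T) rs)
    (h : nd2 ss rs ih (p ^ A0) (p ^ u0) = true) {A m : ℕ} (h1 : A ≡ A0 [MOD T])
    (h2 : m ≡ u0 [MOD T]) : ih (p ^ A0) (p ^ u0) = true ∨ Hit2 R p N cc A m := by
  have h3 : scan2 (ss (p ^ A0) (p ^ u0)) (p ^ A0 * p ^ u0) (ih (p ^ A0) (p ^ u0)) rs = true := h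
  rcases scan2_sound rs hA h3 with h4 | ⟨r, hh, g, hg, h4⟩
  · exact Or.inl h4
  · refine Or.inr ⟨r, hg.ok.mono hN, ?_⟩
    have h5 := test_sound hg.ok.prime hg.ok.two hg.hh _ h4
    have e0 := hss (p ^ A0) (p ^ u0) (Nat.pow_pos hp) (Nat.pow_pos hp)
    have e1 : ((ss (p ^ A0) (p ^ u0) : ℕ) : ZMod r) =
        ((p : ZMod r) ^ A0 + (p : ZMod r) ^ u0 - cc) ^ 2 := by
      have := congrArg (Int.cast : ℤ → ZMod r) e0
      push_cast at this
      exact this
    have e2 : ((g : ℕ) : ZMod r) = -4 := by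
      have h6 : g + 4 = 2 * r := by
        rw [hg.hg]
        have := hg.ok.two
        omega
      have h7 := congrArg (Nat.cast : ℕ → ZMod r) h6
      push_cast at h7
      rw [ZMod.natCast_self, mul_zero] at h7
      linear_combination h7
    have e3 : ((Nat.add (ss (p ^ A0) (p ^ u0)) (Nat.mul g (p ^ A0 * p ^ u0)) : ℕ) : ZMod r) =
        ((p : ZMod r) ^ A + (p : ZMod r) ^ m - cc) ^ 2 -
          4 * (p : ZMod r) ^ A * (p : ZMod r) ^ m := by
      rw [pow_congr hg.ok.pow h1, pow_congr hg.ok.pow h2]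
      have e4 : (Nat.add (ss (p ^ A0) (p ^ u0)) (Nat.mul g (p ^ A0 * p ^ u0)) : ℕ) =
        ss (p ^ A0) (p ^ u0) + g * (p ^ A0 * p ^ u0) := rfl
      rw [e4]
      push_cast
      rw [e1, e2]
      ring
    rw [← e3]
    exact h5

theorem full_sound {R p N : ℕ} {cc : ℤ} {ss : ℕ → ℕ → ℕ} (hp : 0 < p)
    (hss : ∀ v u : ℕ, 0 < v → 0 < u → ((ss v u : ℕ) : ℤ) = ((v : ℤ) + u - cc) ^ 2) :
    ∀ (ls : LV) (T A0 m0 : ℕ), 0 < T → LvOk R p N T ls → full ss ls (p ^ A0) (p ^ m0) = true →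
      ∀ A m, A ≡ A0 [MOD T] → m ≡ m0 [MOD T] → Hit2 R p N cc A m := by
  intro ls
  induction ls with
  | nil => intro T A0 m0 _ _ h; exact absurd h (by simp [full])
  | cons k P rs t ih =>
    intro T A0 m0 hT hok h A m hA' hm
    obtain ⟨hk, hP, hN, hA, ht⟩ := hok
    have h1 : kids P (fun v' => kids P (nd2 ss rs (full ss t) v') k (p ^ m0)) k (p ^ A0) = true := h
    obtain ⟨i, hi, hAi⟩ := exists_child hT hk hA'
    obtain ⟨j, hj, hmj⟩ := exists_child hT hk hm
    have h2 := kids_sound k _ (kids_sound k _ h1 i hi) j hj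
    have e1 : p ^ m0 * P ^ j = p ^ (m0 + T * j) := by rw [hP, ← pow_mul, ← pow_add]
    have e2 : p ^ A0 * P ^ i = p ^ (A0 + T * i) := by rw [hP, ← pow_mul, ← pow_add]
    rw [e1, e2] at h2
    rcases nd2_sound hp hss hN hA h2 hAi hmj with h4 | h4
    · exact ih (T * k) _ _ (Nat.mul_pos hT hk) ht h4 A m hAi hmj
    · exact h4

lemma dgk_sound {P : ℕ} {f : ℕ → Bool} {g : ℕ → ℕ → Bool} : ∀ (k v : ℕ),
    dgk P f g k v = true → (∀ j < k, f (v * P ^ j) = true) ∧
      ∀ i j, i < j → j < k → g (v * P ^ i) (v * P ^ j) = true := by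
  intro k
  induction k with
  | zero => intro v _; exact ⟨fun j hj => by omega, fun i j _ hj => by omega⟩
  | succ k ih =>
    intro v h
    have h' := brec_and.1 (show @Bool.rec (fun _ => Bool) false
      (@Bool.rec (fun _ => Bool) false (dgk P f g k (v * P)) (kids P (g v) k (v * P))) (f v) = true
      from h)
    have h'' := brec_and.1 h'.2
    have h1 := ih _ h''.2
    have h2 := kids_sound k _ h''.1
    refine ⟨fun j hj => ?_, fun i j hij hj => ?_⟩
    · rcases j with _ | j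
      · simpa using h'.1
      · have := h1.1 j (by omega)
        rw [pow_succ', ← mul_assoc]; exact this
    · rcases i with _ | i
      · have := h2 (j - 1) (by omega)
        rw [mul_assoc, ← pow_succ', Nat.sub_add_cancel (by omega)] at this
        simpa using this
      · have := h1.2 i (j - 1) (by omega) (by omega)
        rw [mul_assoc, ← pow_succ', mul_assoc, ← pow_succ', Nat.sub_add_cancel (by omega)] at this
        exact this

theorem diag_sound {R p N : ℕ} {cc : ℤ} {ss : ℕ → ℕ → ℕ} (hp : 0 < p)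
    (hss : ∀ v u : ℕ, 0 < v → 0 < u → ((ss v u : ℕ) : ℤ) = ((v : ℤ) + u - cc) ^ 2) :
    ∀ (ls : LV) (T A0 : ℕ), 0 < T → LvOk R p N T ls → diag ss ls (p ^ A0) = true →
      ∀ A m, A ≡ A0 [MOD T] → m ≡ A0 [MOD T] → Hit2 R p N cc A m := by
  intro ls
  induction ls with
  | nil => intro T A0 _ _ h; exact absurd h (by simp [diag])
  | cons k P rs t ih =>
    intro T A0 hT hok h A m hA' hm
    obtain ⟨hk, hP, hN, hA, ht⟩ := hok
    have h1 : dgk P (fun v' => nd2 ss rs (fun x _ => diag ss t x) v' v')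
      (nd2 ss rs (full ss t)) k (p ^ A0) = true := h
    obtain ⟨i, hi, hAi⟩ := exists_child hT hk hA'
    obtain ⟨j, hj, hmj⟩ := exists_child hT hk hm
    have h2 := dgk_sound k _ h1
    have e1 : p ^ A0 * P ^ j = p ^ (A0 + T * j) := by rw [hP, ← pow_mul, ← pow_add]
    have e2 : p ^ A0 * P ^ i = p ^ (A0 + T * i) := by rw [hP, ← pow_mul, ← pow_add]
    rcases lt_trichotomy i j with hij | hij | hij
    · have h3 := h2.2 i j hij hj
      rw [e1, e2] at h3
      rcases nd2_sound hp hss hN hA h3 hAi hmj with h4 | h4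
      · exact full_sound hp hss t (T * k) _ _ (Nat.mul_pos hT hk) ht h4 A m hAi hmj
      · exact h4
    · subst hij
      have h3 := h2.1 i hi
      simp only [e2] at h3
      rcases nd2_sound hp hss hN hA h3 hAi hmj with h4 | h4
      · exact ih (T * k) _ (Nat.mul_pos hT hk) ht h4 A m hAi hmj
      · exact h4
    · have h3 := h2.2 j i hij hi
      rw [e1, e2] at h3
      rcases nd2_sound hp hss hN hA h3 hmj hAi with h4 | h4
      · exact (full_sound hp hss t (T * k) _ _ (Nat.mul_pos hT hk) ht h4 m A hmj hAi).symm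
      · exact h4.symm

lemma sp_spec (v u : ℕ) (hv : 0 < v) (_hu : 0 < u) :
    ((sp v u : ℕ) : ℤ) = ((v : ℤ) + u - (1 : ℤ)) ^ 2 := by
  have h1 : sp v u = (v + u - 1) ^ 2 := rfl
  rw [h1]
  push_cast [Nat.cast_sub (show 1 ≤ v + u by omega)]
  ring

lemma sm_spec (v u : ℕ) (_hv : 0 < v) (_hu : 0 < u) :
    ((sm v u : ℕ) : ℤ) = ((v : ℤ) + u - (-1 : ℤ)) ^ 2 := by
  have h1 : sm v u = (v + u + 1) ^ 2 := rfl
  rw [h1]
  push_cast
  ring

/-- the second family: all classes are covered -/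
theorem c2_sound {R p N : ℕ} {ls : LV} (hp : 0 < p) (hok : LvOk R p N 1 ls) (h : c2 ls = true)
    (A m : ℕ) : Hit2 R p N 1 A m ∧ Hit2 R p N (-1) A m := by
  obtain ⟨h1, h2⟩ := brec_and.1 (show @Bool.rec (fun _ => Bool) false (diag sm ls 1) (diag sp ls 1)
    = true from h)
  have e : (1 : ℕ) = p ^ 0 := (pow_zero p).symm
  constructor
  · rw [e] at h1
    exact diag_sound hp (cc := 1) sp_spec ls 1 0 one_pos hok h1 A m (Nat.modEq_one) (Nat.modEq_one)
  · rw [e] at h2
    exact diag_sound hp (cc := -1) sm_spec ls 1 0 one_pos hok h2 A m (Nat.modEq_one)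
      (Nat.modEq_one)

/-! ### the first family -/

/-- both signs are covered -/
def Both (R p N q b : ℕ) : Prop := ∀ (m : ℕ) (l : ℤ), (l = 1 ∨ l = -1) →
  Hit R p N ((q : ℤ) ^ 2) (l * (4 * p - 2 * (q * b))) ((b : ℤ) ^ 2) m

lemma Both.symm {R p N q b : ℕ} (hN : 0 < N) (h : Both R p N q b) : Both R p N b q := by
  intro m l hl
  have := Hit.swap hN (fun m => h m l hl) m
  have e : l * (4 * (p : ℤ) - 2 * (b * q)) = l * (4 * p - 2 * (q * b)) := by ring
  rw [e]
  exact this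

lemma two_sound {R p N m1 q b : ℕ} {ls : LV} (hok : LvOk R p N 1 ls)
    (h1 : b ≤ q) (hp : 0 < p) (h2 : 4 * p ≤ q ^ 2 * p ^ m1)
    (h : two (4 * p) (p ^ m1) ls q b = true) : Both R p N q b := by
  obtain ⟨h3, h4⟩ := brec_and.1 (show @Bool.rec (fun _ => Bool) false
    (dfs (dm q b (4 * p)) ls (p ^ m1)) (dfs (dp q b (4 * p)) ls (p ^ m1)) = true from h)
  have hx : ∀ m, 1 ≤ p ^ m := fun m => Nat.pow_pos hp
  intro m l hl
  rcases hl with rfl | rfl
  · refine dfs_sound (m1 := m1) ?_ ls 1 m1 one_pos hok le_rfl h3 m Nat.modEq_one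
    intro m hm
    have e1 : dp q b (4 * p) (p ^ m) = (q * p ^ m - b) ^ 2 + 4 * p * p ^ m := rfl
    have h5 : b ≤ q * p ^ m := h1.trans (Nat.le_mul_of_pos_right _ (hx m))
    rw [e1]
    push_cast [Nat.cast_sub h5]
    ring
  · refine dfs_sound (m1 := m1) ?_ ls 1 m1 one_pos hok le_rfl h4 m Nat.modEq_one
    intro m hm
    have e1 : dm q b (4 * p) (p ^ m) = (q * p ^ m + b) ^ 2 - 4 * p * p ^ m := rfl
    have h5 : 4 * p * p ^ m ≤ (q * p ^ m + b) ^ 2 := by
      have h6 : p ^ m1 ≤ p ^ m := Nat.pow_le_pow_right hp hm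
      calc 4 * p * p ^ m ≤ (q ^ 2 * p ^ m1) * p ^ m := Nat.mul_le_mul_right _ h2
        _ ≤ (q ^ 2 * p ^ m) * p ^ m := Nat.mul_le_mul_right _ (Nat.mul_le_mul_left _ h6)
        _ = (q * p ^ m) ^ 2 := by ring
        _ ≤ (q * p ^ m + b) ^ 2 := Nat.pow_le_pow_left (Nat.le_add_right _ _) 2
    rw [e1]
    push_cast [Nat.cast_sub h5]
    ring

lemma dv_sound {p4 u n : ℕ} {ls : LV} : ∀ k, dv p4 u ls n k = true → ∀ d, 1 ≤ d → d ≤ k →
    d ∣ n → d ≤ n / d → two p4 u ls (n / d) d = true := by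
  intro k
  induction k with
  | zero => intro _ d h1 h2; omega
  | succ k ih =>
    intro h d h1 h2 hd hle
    have h' : (@Nat.rec (fun _ => Bool)
      (@Bool.rec (fun _ => Bool) false (dv p4 u ls n k) (pr p4 u ls n k))
      (fun _ _ => dv p4 u ls n k) (n % (k + 1))) = true := h
    have h3 : dv p4 u ls n k = true ∧ (n % (k + 1) = 0 → pr p4 u ls n k = true) := by
      cases hm : n % (k + 1) with
      | zero =>
        rw [hm] at h'
        obtain ⟨h4, h5⟩ := brec_and.1 h'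
        exact ⟨h5, fun _ => h4⟩
      | succ x =>
        rw [hm] at h'
        exact ⟨h', fun hh => absurd hh (Nat.succ_ne_zero _)⟩
    rcases Nat.lt_or_ge d (k + 1) with hlt | hge
    · exact ih h3.1 d h1 (by omega) hd hle
    · have e : d = k + 1 := by omega
      subst e
      have h4 := h3.2 (Nat.mod_eq_zero_of_dvd hd)
      have h5 : (@Bool.rec (fun _ => Bool) true (two p4 u ls (n / (k + 1)) (k + 1))
        (Nat.ble (k + 1) (n / (k + 1)))) = true := h4
      rw [Nat.ble_eq_true_of_le hle] at h5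
      exact h5

/-- the first family: all factorisations of `p - 1` and `p + 1` are covered -/
theorem c1_sound {R p N m1 k : ℕ} {ls : LV} (hok : LvOk R p N 1 ls) (hN : 0 < N) (hp : 1 < p)
    (hm : 3 ≤ p ∨ 3 ≤ m1) (hm1 : 1 ≤ m1) (hk : p + 1 ≤ k ^ 2) (h : c1 p (p ^ m1) k ls = true)
    {q b n : ℕ} (hn : n = p - 1 ∨ n = p + 1) (hqb : q * b = n) : Both R p N q b := by
  obtain ⟨h1, h2⟩ := brec_and.1 (show @Bool.rec (fun _ => Bool) false
    (dv (4 * p) (p ^ m1) ls (p + 1) k) (dv (4 * p) (p ^ m1) ls (p - 1) k) = true from h)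
  have h3 : dv (4 * p) (p ^ m1) ls n k = true := by
    rcases hn with rfl | rfl
    · exact h1
    · exact h2
  have hn0 : 0 < n := by omega
  have key : ∀ q b : ℕ, q * b = n → b ≤ q → Both R p N q b := by
    intro q b hqb hbq
    have hb : 0 < b := Nat.pos_of_ne_zero (by rintro rfl; simp at hqb; omega)
    have hq : n / b = q := by rw [← hqb]; exact Nat.mul_div_cancel _ hb
    have hbk : b ≤ k := by
      by_contra hlt
      have : k < b := by omega
      have h4 : k ^ 2 < b * b := by nlinarith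
      have h5 : b * b ≤ q * b := Nat.mul_le_mul_right _ hbq
      omega
    have h4 := dv_sound k h3 b hb hbk ⟨q, by rw [← hqb]; ring⟩ (by rw [hq]; exact hbq)
    rw [hq] at h4
    refine two_sound hok hbq (by omega) ?_ h4
    rcases hm with h5 | h5
    · have hq2 : 2 ≤ q := by
        by_contra hlt
        have : q ≤ 1 := by omega
        have : q * b ≤ 1 := Nat.mul_le_mul (by omega) (by omega : b ≤ 1)
        omega
      calc 4 * p ≤ q ^ 2 * p := Nat.mul_le_mul_right _ (by nlinarith)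
        _ ≤ q ^ 2 * p ^ m1 := Nat.mul_le_mul_left _ (Nat.le_self_pow (by omega) p)
    · have hq1 : 1 ≤ q := hb.trans_le hbq
      calc 4 * p ≤ p ^ 2 * p := Nat.mul_le_mul_right _ (by nlinarith)
        _ = p ^ 3 := by ring
        _ ≤ p ^ m1 := Nat.pow_le_pow_right (by omega) h5
        _ ≤ q ^ 2 * p ^ m1 := Nat.le_mul_of_pos_left _ (by positivity)
  rcases Nat.le_total b q with h4 | h4
  · exact key q b hqb h4
  · exact (key b q (by rw [← hqb]; ring) h4).symm hN

end OEX.K
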