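import Pool.Agent.OEX.KLst
import Pool.Agent.OEX.KTab

/-!
The static table is correct.
-/

namespace OEX.K

theorem tab_ok : TabOk 1000 SL0 := tabck_sound (by norm_num) _ (by decide +kernel)

end OEX.K
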