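import Pool.Agent.OEX.St
import Pool.Agent.OEX.KSound

/-!
From squares modulo a prime to the hypothesis on `D`; small discriminants.
-/

namespace OEX.K

theorem sol_of_sq {D N : ℤ} {r : ℕ} (hr : r.Prime) (h2 : 2 < r) (h4 : (4 : ℤ) ∣ D - N ^ 2)
    (hs : IsSquare ((D : ℤ) : ZMod r)) : Sol D r := by
  have : NeZero r := ⟨hr.ne_zero⟩
  obtain ⟨y, hy⟩ := hs
  have h5 : (r : ℤ) ∣ (y.val : ℤ) ^ 2 - D := by
    rw [← ZMod.intCast_zmod_eq_zero_iff_dvd]
    push_cast
    rw [ZMod.natCast_zmod_val, hy]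
    ring
  have hodd : (r : ℤ) % 2 = 1 := by
    have := hr.eq_two_or_odd
    omega
  obtain ⟨x, hx1, hx2⟩ : ∃ x : ℤ, (r : ℤ) ∣ x ^ 2 - D ∧ (2 : ℤ) ∣ x - N := by
    rcases Int.emod_two_eq_zero_or_one ((y.val : ℤ) - N) with h | h
    · exact ⟨y.val, h5, Int.dvd_of_emod_eq_zero h⟩
    · refine ⟨y.val + r, ?_, ?_⟩
      · have e : ((y.val : ℤ) + r) ^ 2 - D = ((y.val : ℤ) ^ 2 - D) + r * (2 * y.val + r) := by ring
        rw [e]
        exact dvd_add h5 (dvd_mul_right _ _)
      · omega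
  have h6 : (4 : ℤ) ∣ x ^ 2 - D := by
    obtain ⟨a, ha⟩ := hx2
    obtain ⟨b, hb⟩ := h4
    have e : x = N + 2 * a := by linarith
    refine ⟨N * a + a ^ 2 - b, ?_⟩
    have : D = N ^ 2 + 4 * b := by linarith
    rw [e, this]; ring
  refine ⟨x, ?_⟩
  have hc : IsCoprime (4 : ℤ) (r : ℤ) := by
    have h7 : Nat.Coprime 4 r := by
      have h8 : Nat.Coprime 2 r := by
        rw [Nat.coprime_primes Nat.prime_two hr]; omega
      exact Nat.Coprime.pow_left 2 h8
    exact_mod_cast Nat.isCoprime_iff_coprime.2 h7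
  exact hc.mul_dvd h6 hx1

/-- the main consequence: a prime which is not inert is large -/
theorem big_of_sq {D N : ℤ} {p r : ℕ} (hH : Hyp D p) (hr : r.Prime) (h2 : 2 < r) (hrp : r ≠ p)
    (h4 : (4 : ℤ) ∣ D - N ^ 2) (hs : IsSquare ((D : ℤ) : ZMod r)) : D ≤ 4 * (r : ℤ) ^ 2 := by
  by_contra h
  exact hH r hr (by linarith) hrp (sol_of_sq hr h2 h4 hs)

lemma Ok.ne {R p N r : ℕ} (h : Ok R p N r) (hN : 0 < N) : r ≠ p := by
  rintro rfl
  have : Fact r.Prime := ⟨h.prime⟩
  have h1 := h.pow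
  rw [ZMod.natCast_self, zero_pow hN.ne'] at h1
  exact zero_ne_one h1

/-! ### small discriminants -/

/-- the primes from 3 to 61 -/
def S61 : List ℕ := [3, 5, 7, 11, 13, 17, 19, 23, 29, 31, 37, 41, 43, 47, 53, 59, 61]

/-- one prime -/
noncomputable def sk1 (p D r : ℕ) : Bool :=
  @Bool.rec (fun _ => Bool) (@Bool.rec (fun _ => Bool) false
    (Nat.ble (Nat.mod (Nat.pow (Nat.mod D r) (Nat.div r (nat_lit 2))) r) (nat_lit 1))
    (Nat.ble (Nat.succ (Nat.mul (nat_lit 4) (Nat.mul r r))) D)) false (Nat.beq r p)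

/-- one of the primes is not inert -/
noncomputable def skl (p D : ℕ) (L : List ℕ) : Bool :=
  @List.rec ℕ (fun _ => Bool) false (fun r _ ih => @Bool.rec (fun _ => Bool) ih true (sk1 p D r)) L

/-- the prime two is not inert -/
noncomputable def sk2 (p D : ℕ) : Bool :=
  @Bool.rec (fun _ => Bool) (@Bool.rec (fun _ => Bool) (Nat.ble (nat_lit 17) D) false
    (Nat.beq (Nat.mod D (nat_lit 8)) (nat_lit 5))) false (Nat.beq p (nat_lit 2))

/-- membership -/
noncomputable def lm (n : ℕ) (L : List ℕ) : Bool :=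
  @List.rec ℕ (fun _ => Bool) false (fun x _ ih => @Bool.rec (fun _ => Bool) ih true (Nat.beq n x)) L

/-- a small discriminant is harmless -/
noncomputable def smk (p D : ℕ) : Bool :=
  @Bool.rec (fun _ => Bool) (@Bool.rec (fun _ => Bool) (@Bool.rec (fun _ => Bool)
    (@Bool.rec (fun _ => Bool) (lm D LD) true (skl p D S61)) true (sk2 p D))
    true (Nat.ble D (Nat.mul (nat_lit 4) (Nat.mul p p)))) true (Nat.ble D (nat_lit 100))

lemma lm_sound {n : ℕ} : ∀ L : List ℕ, lm n L = true → n ∈ L := by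
  intro L
  induction L with
  | nil => intro h; exact absurd h (by simp [lm])
  | cons x t ih =>
    intro h
    rcases brec_or.1 (show @Bool.rec (fun _ => Bool) (lm n t) true (Nat.beq n x) = true from h)
      with h1 | h1
    · rw [Nat.eq_of_beq_eq_true h1]; exact List.mem_cons_self
    · exact List.mem_cons_of_mem _ (ih h1)

lemma brec_not {a b : Bool} : (@Bool.rec (fun _ => Bool) a false b) = true ↔
    b = false ∧ a = true := by
  cases b <;> simp

lemma skl_sound {p D : ℕ} : ∀ L : List ℕ, (∀ r ∈ L, r.Prime ∧ 2 < r) → skl p D L = true →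
    ∃ r : ℕ, r.Prime ∧ 2 < r ∧ r ≠ p ∧ 4 * r ^ 2 < D ∧ IsSquare (D : ZMod r) := by
  intro L
  induction L with
  | nil => intro _ h; exact absurd h (by simp [skl])
  | cons x t ih =>
    intro hL h
    rcases brec_or.1 (show @Bool.rec (fun _ => Bool) (skl p D t) true (sk1 p D x) = true from h)
      with h1 | h1
    · obtain ⟨h2, h3⟩ := brec_not.1 h1
      obtain ⟨h4, h5⟩ := brec_and.1 h3
      obtain ⟨h6, h7⟩ := hL x List.mem_cons_self
      refine ⟨x, h6, h7, ?_, ?_, test_sound h6 h7 rfl D h5⟩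
      · rintro rfl
        simp at h2
      · have : 4 * (x * x) + 1 ≤ D := Nat.le_of_ble_eq_true h4
        nlinarith
    · exact ih (fun r hr => hL r (List.mem_cons_of_mem _ hr)) h1

theorem smk_sound {p D : ℕ} (h : smk p D = true) (h100 : (100 : ℤ) < D)
    (h4p : 4 * (p : ℤ) ^ 2 < D) (hH : Hyp D p) {N : ℤ} (h4 : (4 : ℤ) ∣ (D : ℤ) - N ^ 2) :
    ∃ n ∈ LD, (D : ℤ) = (n : ℤ) := by
  rcases brec_or.1 h with h1 | h1
  · have : D ≤ 100 := Nat.le_of_ble_eq_true h1
    omega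
  rcases brec_or.1 h1 with h1 | h1
  · have : D ≤ 4 * (p * p) := Nat.le_of_ble_eq_true h1
    have : (D : ℤ) ≤ 4 * (p * p) := by exact_mod_cast this
    nlinarith
  rcases brec_or.1 h1 with h1 | h1
  · exfalso
    obtain ⟨h2, h3⟩ := brec_not.1 h1
    obtain ⟨h5, h6⟩ := brec_not.1 h3
    have hp2 : 2 ≠ p := by
      rintro rfl
      simp at h2
    have h8 : D % 8 ≠ 5 := by
      intro h9
      have : Nat.beq (Nat.mod D 8) 5 = true := by
        change Nat.beq (D % 8) 5 = true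
        rw [h9]
        rfl
      rw [this] at h5
      exact absurd h5 (by simp)
    refine hH 2 Nat.prime_two (by norm_num; omega) hp2 ?_
    have hN : N % 2 = 0 ∨ N % 2 = 1 := Int.emod_two_eq_zero_or_one N
    have hD4 : (D : ℤ) % 4 = 0 ∨ (D : ℤ) % 4 = 1 := by
      rcases hN with h | h
      · left
        obtain ⟨a, ha⟩ : ∃ a, N = 2 * a := ⟨N / 2, by omega⟩
        obtain ⟨b, hb⟩ := h4
        have : (D : ℤ) = 4 * (b + a ^ 2) := by rw [ha] at hb; linarith
        omega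
      · right
        obtain ⟨a, ha⟩ : ∃ a, N = 2 * a + 1 := ⟨N / 2, by omega⟩
        obtain ⟨b, hb⟩ := h4
        have : (D : ℤ) = 4 * (b + a ^ 2 + a) + 1 := by rw [ha] at hb; linarith
        omega
    have h9 : D % 8 = 0 ∨ D % 8 = 1 ∨ D % 8 = 4 := by omega
    rcases h9 with h9 | h9 | h9
    · exact ⟨0, by push_cast; omega⟩
    · exact ⟨1, by push_cast; omega⟩
    · exact ⟨2, by push_cast; omega⟩
  rcases brec_or.1 h1 with h1 | h1
  · exfalso
    obtain ⟨r, hr, h2, hrp, hr4, hs⟩ := skl_sound S61 (by decide +kernel) h1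
    have hs' : IsSquare ((D : ℤ) : ZMod r) := by
      rw [Int.cast_natCast]; exact hs
    have h7 := big_of_sq hH hr h2 hrp h4 hs'
    have : (4 * r ^ 2 : ℤ) < D := by exact_mod_cast hr4
    linarith
  · exact ⟨D, lm_sound _ h1, rfl⟩

end OEX.K
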