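import Mathlib
import Pool.Agent.OEX.St
import Pool.Agent.OEX.INERT

/-! The primes that are not inert are norms, if the factorisation is unique. -/

namespace OEX

open scoped NumberField
open Pool.Agent.LibH4

lemma isUnit_of_norm {d : ℕ} (z : QI d) (h : z.norm = 1 ∨ z.norm = -1) : IsUnit z := by
  have e := intCast_norm_QI z
  rcases h with h | h
  · rw [h] at e
    exact IsUnit.of_mul_eq_one (star z) (by rw [← e]; simp)
  · rw [h] at e
    exact IsUnit.of_mul_eq_one (-star z) (by rw [mul_neg, ← e]; simp)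

theorem t_NRM : S_NRM := by
  intro d h1 hd hU p hp hS
  change UniqueFactorizationMonoid (𝓞 (KQ d)) at hU
  have hnp : ¬ Prime ((p : ℕ) : 𝓞 (KQ d)) := fun h => (t_INERT d h1 hd p hp).1 h hS
  have hp0 : ((p : ℕ) : 𝓞 (KQ d)) ≠ 0 := by
    rw [Nat.cast_ne_zero]; exact hp.ne_zero
  have hnu : ¬ IsUnit ((p : ℕ) : 𝓞 (KQ d)) := by
    intro hu
    obtain ⟨v, hv⟩ := hu.exists_right_inv
    obtain ⟨v', rfl⟩ := (eqvO hd h1).surjective v
    rw [← map_natCast (eqvO hd h1), ← map_mul] at hv
    have h1' := (eqvO hd h1).injective (hv.trans (map_one _).symm)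
    have h2 := congrArg QuadraticAlgebra.re h1'
    simp at h2
    exact hp.one_lt.ne' (by
      exact_mod_cast Int.eq_one_of_dvd_one (by positivity) (Dvd.intro _ h2))
  have hni : ¬ Irreducible ((p : ℕ) : 𝓞 (KQ d)) := fun h =>
    hnp (UniqueFactorizationMonoid.irreducible_iff_prime.1 h)
  rw [irreducible_iff] at hni
  push Not at hni
  obtain ⟨a, b, hab, ha, hb⟩ := hni hnu
  obtain ⟨z, rfl⟩ := (eqvO hd h1).surjective a
  obtain ⟨w, rfl⟩ := (eqvO hd h1).surjective b
  rw [← map_natCast (eqvO hd h1), ← map_mul] at hab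
  have hab' := (eqvO hd h1).injective hab
  have hN : z.norm * w.norm = (p : ℤ) ^ 2 := by
    rw [← map_mul, ← hab', QuadraticAlgebra.norm_def]
    simp [sq]
  have hz1 : z.norm.natAbs ≠ 1 := by
    intro h
    apply ha
    apply (isUnit_of_norm z (Int.natAbs_eq_iff.1 h)).map
  have hw1 : w.norm.natAbs ≠ 1 := by
    intro h
    apply hb
    apply (isUnit_of_norm w (Int.natAbs_eq_iff.1 h)).map
  have hNn : z.norm.natAbs * w.norm.natAbs = p ^ 2 := by
    rw [← Int.natAbs_mul, hN, Int.natAbs_pow, Int.natAbs_natCast]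
  have hzp : z.norm.natAbs = p := by
    have hd2 : z.norm.natAbs ∣ p ^ 2 := Dvd.intro _ hNn
    obtain ⟨k, hk, hk2⟩ := (Nat.dvd_prime_pow hp).1 hd2
    have hk' : k = 0 ∨ k = 1 ∨ k = 2 := by omega
    rcases hk' with rfl | rfl | rfl
    · exact absurd (by simpa using hk2) hz1
    · simpa using hk2
    · exfalso
      rw [hk2] at hNn
      apply hw1
      have hpp : 0 < p ^ 2 := by have := hp.pos; positivity
      exact Nat.eq_of_mul_eq_mul_left hpp (by rw [hNn, mul_one])
  refine ⟨2 * z.re + Bq d * z.im, z.im, ?_⟩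
  rw [disc_eq_Dq, ← four_norm]
  rcases Int.natAbs_eq z.norm with h | h
  · left; rw [h, hzp]
  · right; rw [h, hzp]; ring

end OEX
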