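import Mathlib
import Pool.Agent.OEX.St
import Pool.Agent.RQM.C38

/-! The Richaud–Degert part. -/

namespace OEX

open scoped NumberField
open Pool.Agent.LibH4

theorem t_RDL : S_RDL := by
  intro hU d h1 hd ⟨⟨N, t, hN, htN, hD⟩, hH⟩
  have hufd := hU d h1 hd hH
  have hmem : d ∈ {d : ℕ | 1 < d ∧ Squarefree d ∧
      (∃ m r : ℤ, 0 < m ∧ r ∣ 4 * m ∧ (d : ℤ) = m ^ 2 + r) ∧
      UniqueFactorizationMonoid (𝓞 (KQ d))} := by
    refine ⟨h1, hd, ?_, hufd⟩
    unfold disc at hD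
    split_ifs at hD with hm
    · exact ⟨N, 4 * t, by linarith, mul_dvd_mul_left 4 htN, hD⟩
    · push_cast at hD
      have h2 : (2 : ℤ) ∣ N := by
        have : (2 : ℤ) ∣ N ^ 2 := ⟨2 * d - 2 * t, by linarith⟩
        exact Int.prime_two.dvd_of_dvd_pow this
      obtain ⟨m, rfl⟩ := h2
      refine ⟨m, t, by linarith, htN.trans ⟨2, by ring⟩, ?_⟩
      linarith [show (2 * m) ^ 2 = 4 * m ^ 2 by ring]
  rw [Pool.Agent.RDF.rd_all] at hmem
  exact hmem

end OEX
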